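import Pool.Agent.BTP.B3
import Pool.Agent.BTP.B6
import Pool.Agent.BTP.C1

set_option autoImplicit false

/-! # Sharp second-order term for two-neighbour bootstrap percolation: definitions -/

open scoped Classical
open Finset

namespace BTS
open BTP

variable {d : ℕ}

/-- one more level in direction `j` -/
def up (T : Box d) (j : Dir d) : Box d := Function.update T j (T j + 1)

/-- the event: every family of pairwise distant boxes covering `T` and `U` has a member containing `Q` -/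
def Cl (T Q : Box d) (U : Finset (Site d)) : Prop :=
  ∀ F : Finset (Box d), (∀ B ∈ F, ∀ B' ∈ F, B ≠ B' → ¬ near B B') → (∃ B ∈ F, T ≤ B) →
    (∀ v ∈ U, ∃ B ∈ F, cc v ≤ B) → ∃ B ∈ F, Q ≤ B

/-- the site is in the layer at height `k` over the face of `T` in direction `j` -/
def inL (T : Box d) (j : Dir d) (k : ℤ) (v : Site d) : Prop :=
  cc v j = T j + k ∧ ∀ l : Dir d, l.1 ≠ j.1 → cc v l ≤ T l

/-- the site is over the edge of `T` of the directions `i`, `j` -/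
def inC (T : Box d) (i j : Dir d) (v : Site d) : Prop :=
  cc v i = T i + 1 ∧ cc v j = T j + 1 ∧ ∀ l : Dir d, l.1 ≠ i.1 → l.1 ≠ j.1 → cc v l ≤ T l

/-- number of unexplored sites in a layer -/
noncomputable def nL (T : Box d) (D : Finset (Site d)) (j : Dir d) (k : ℤ) : ℕ :=
  (D.filter (fun v => inL T j k v)).card

/-- number of unexplored sites over an edge -/
noncomputable def nC (T : Box d) (D : Finset (Site d)) (i j : Dir d) : ℕ :=
  if i.1 = j.1 then 0 else (D.filter (fun v => inC T i j v)).card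

/-- the value of a direction with `n₁`, `n₂` unexplored sites in the first and the second layer;
one level is worth `x`, a blocked direction is worth `θ` -/
noncomputable def bv (q x th n1 n2 : ℝ) : ℝ :=
  (1 - Real.exp (-(q * n1))) * x + Real.exp (-(q * n1)) *
    ((1 - Real.exp (-(q * n2))) * x ^ 2 + Real.exp (-(q * n2)) * th)

/-- the value of a state: product of the values of the directions, or one edge is used -/
noncomputable def Phi (O : Finset (Dir d)) (b : Dir d → ℝ) (e : Dir d → Dir d → ℝ) : ℝ :=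
  ∏ j ∈ O, b j + ∑ i ∈ O, ∑ j ∈ O.erase i, e i j * ∏ l ∈ (O.erase i).erase j, b l

/-- the parameters of the proof -/
structure Pa (d : ℕ) where
  (q A p ka K H H1 c1 c0 Z B P gam C3 R0 cb e0 E : ℝ)
  (h : ℕ)
  hd : 2 ≤ d
  hA : 10 ≤ A
  hq : 0 < q
  hqA : q * A ^ (d - 1) = 1
  hp : p = 1 - Real.exp (-q)
  hp2 : p ≤ 1 / 2
  hh : 1 ≤ h
  hka : 1000 * d ≤ ka
  hK : 8 ≤ K
  hH1 : 100 ≤ H1
  hKH : K ^ 2 ≤ H1
  hH : H = 2 * H1
  hZ : 1 ≤ Z
  hc1 : 0 < c1
  hc1Z : ∀ z, 0 ≤ z → z ≤ Z → 128 * c1 * Real.exp (2 * z) ≤ (1 + z) ^ 3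
  hc0 : c0 = gg Z - c1 / (1 + Z) ^ 2
  hc0n : 0 ≤ c0
  hc01 : c1 + c0 ≤ gg 1 / 2
  hzH : q * (2 * H) ^ (d - 1) ≤ 1 / 8
  hHB : H1 ≤ B
  hB : 4 ^ d * Z * A ≤ B
  hB2 : d * A * lam d ≤ B * ((gg 1) / 2)
  hgam0 : 0 ≤ gam
  hgam : gg (q * H ^ (d - 1)) ≤ gam
  hcnt : 16 * B ^ (4 * d) * Real.exp (2 * gam) ≤ Real.exp (P / 2)
  hP : 0 < P
  hbase : ∀ Y m : ℕ, h ≤ Y → Y ≤ 2 * h + 2 → Y + 2 ≤ 2 * m →
    (((Y : ℝ) + 1) ^ d * p) ^ m ≤ Real.exp (-(2 * P) - ((Y : ℝ) + d) * gam)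
  hrho : 4096 * ka ^ 2 * (1 + Z) ≤ H1
  hHs : 4 * (d : ℝ) ^ 2 * h * (2 * h + 7) ^ (6 * d) * (1 + Z) ≤ H1
  hC3 : 2 * ka + 3000 * (d : ℝ) ^ 2 ≤ C3
  hR0 : 20000 ≤ R0
  hcb : cb = Real.exp (-(2 * 4 ^ d)) / 2400
  hIa : 20 * C3 * (1 + R0) * Real.sqrt R0 * Real.exp (R0 / 2) ≤ K
  hIb : 2 * C3 ≤ cb * Real.sqrt H1
  he0 : 0 < e0
  hIIa : ∀ z, 0 ≤ z → C3 * (1 + R0 * z) * (1 + 4 ^ d * R0 * z) ^ 2 * Real.exp (-z) ≤
    c1 * Real.sqrt (e0 * A)
  hIIb : C3 * (1 + Z) * Real.exp Z ≤ cb * Real.sqrt (e0 * A)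
  hIIc : Z * ((1 + K / Real.sqrt (e0 * A) + 2 * H / (e0 * A)) ^ d - 1) ≤ 1 / 2
  hE : 1 ≤ E
  he0E : 8 * e0 * (4 * E) ^ (d - 2) ≤ 1
  hEA : 8 * d * lam d ≤ E * gg 1
  hEA2 : H1 ≤ E * A
  hLm : d * Real.log B + (2 * h + d + 4) * gam < d * A * lam d
  hKA : d * (K / Real.sqrt A + H / A) ≤ 1
  hsm : 100 * C3 * (1 + Z) ≤ Real.sqrt H1

namespace Pa
variable (a : Pa d)

/-- the reduced step cost -/
noncomputable def f0 (z : ℝ) : ℝ := gg z - a.c1 / (1 + z) ^ 2 - a.c0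
/-- the step cost -/
noncomputable def G (y : ℝ) : ℝ := max (a.f0 (min (a.q * y) a.Z)) 0
/-- the gauge -/
noncomputable def f : ℕ → ℝ := ph a.K a.H
/-- the potential -/
noncomputable def Ps (T : Box d) : ℝ := Psi a.G a.f (sd T)
/-- `max (sd T i) H₁` -/
noncomputable def X (T : Box d) (i : Fin d) : ℝ := xt a.H1 (sd T) i
/-- the faces -/
noncomputable def z (T : Box d) (i : Fin d) : ℝ := face a.q (a.X T) i
/-- the least side -/
noncomputable def Xm (T : Box d) : ℝ := sInf (Set.range (a.X T))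
/-- the least face -/
noncomputable def zm (T : Box d) : ℝ := sInf (Set.range (a.z T))
/-- the faces in the gauge -/
noncomputable def zf (T : Box d) (i : Fin d) : ℝ := a.q * ∏ l ∈ Finset.univ.erase i, a.f (sd T l)
/-- the domain -/
def InD (T : Box d) : Prop := (∀ i, a.zf T i ≤ a.Z) ∧ ∀ i, (sd T i : ℝ) ≤ a.B
/-- the value of a blocked direction -/
noncomputable def th (T : Box d) (i : Fin d) : ℝ :=
  min (1 / 64) (a.ka * Real.sqrt ((1 + a.z T i) / a.Xm T) * Real.exp (a.z T i))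
/-- the logarithm of the value of one level -/
noncomputable def gm (T : Box d) (i : Fin d) : ℝ :=
  gg (a.z T i) - 2 * a.th T i * Real.exp (-(2 * a.z T i))
/-- the required slack -/
noncomputable def rq (T : Box d) (i : Fin d) : ℝ :=
  a.C3 * (1 + a.z T i) * Real.exp (-(a.zm T)) / Real.sqrt (a.Xm T)
/-- the values of the directions for given counts -/
noncomputable def bT (T : Box d) (n1 n2 : Dir d → ℝ) (j : Dir d) : ℝ :=
  bv a.q (Real.exp (a.gm T j.1)) (a.th T j.1) (n1 j) (n2 j)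
/-- the values of the edges for given counts -/
noncomputable def eT (T : Box d) (n3 : Dir d → Dir d → ℝ) (i j : Dir d) : ℝ :=
  a.q * n3 i j * Real.exp (a.gm T i.1 + a.gm T j.1)
/-- the value of the state `(T, D)` -/
noncomputable def Ph (T Q : Box d) (D : Finset (Site d)) : ℝ :=
  Phi (Finset.univ.filter (fun j : Dir d => T j < Q j))
    (a.bT T (fun j => nL T D j 1) (fun j => nL T D j 2)) (a.eT T (fun i j => nC T D i j))
/-- the bound for the state `(T, D)` -/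
noncomputable def Fp (T Q : Box d) (D : Finset (Site d)) : ℝ :=
  Real.exp (a.Ps T - a.Ps Q) * a.Ph T Q D
/-- the probability that `Q` is generated by `T` and the sites of `D` -/
noncomputable def V (T Q : Box d) (D : Finset (Site d)) : ℝ := Pr D a.p (Cl T Q)

end Pa

end BTS
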