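import Pool.Agent.BTS.D1

set_option autoImplicit false

open scoped Classical
open Finset

namespace BTS
open BTP

variable {d : ℕ}

/-- [BTS-E3] basic facts on `up` -/
theorem le_up (T : Box d) (j : Dir d) : T ≤ up T j := by
  intro l
  unfold up
  by_cases h : l = j
  · subst h; rw [Function.update_self]; exact (lt_add_one (T l)).le
  · rw [Function.update_of_ne h]

theorem up_self (T : Box d) (j : Dir d) : up T j j = T j + 1 := by
  unfold up
  rw [Function.update_self]

theorem up_ne (T : Box d) {j l : Dir d} (h : l ≠ j) : up T j l = T l := by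
  unfold up
  rw [Function.update_of_ne h]

theorem ne_up {T : Box d} (hT : Ne T) (j : Dir d) : Ne (up T j) := by
  intro i
  have h1 : T (i, true) ≤ up T j (i, true) := le_up T j (i, true)
  have h2 : T (i, false) ≤ up T j (i, false) := le_up T j (i, false)
  have h3 := hT i
  linarith

theorem e3_opp (v : Site d) {l j : Dir d} (h1 : l.1 = j.1) (h2 : l ≠ j) : cc v l = - cc v j := by
  obtain ⟨l1, lb⟩ := l
  obtain ⟨j1, jb⟩ := j
  simp only at h1
  subst h1
  cases lb <;> cases jb <;> simp [cc] at h2 ⊢

theorem e3_ne {T : Box d} (hT : Ne T) {l j : Dir d} (h1 : l.1 = j.1) (h2 : l ≠ j) :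
    0 ≤ T l + T j := by
  obtain ⟨l1, lb⟩ := l
  obtain ⟨j1, jb⟩ := j
  simp only at h1
  subst h1
  have := hT l1
  cases lb <;> cases jb
  · exact absurd rfl h2
  · linarith
  · linarith
  · exact absurd rfl h2

/-- [BTS-E3] `sd (up T j)` -/
theorem sd_up {T : Box d} (hT : Ne T) (j : Dir d) :
    sd (up T j) = Function.update (sd T) j.1 (sd T j.1 + 1) := by
  funext i
  by_cases h : i = j.1
  · subst h
    rw [Function.update_self]
    have h0 := hT j.1
    unfold sd
    obtain ⟨j1, jb⟩ := j
    cases jb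
    · have e1 : up T (j1, false) (j1, true) = T (j1, true) := up_ne T (by simp)
      have e2 : up T (j1, false) (j1, false) = T (j1, false) + 1 := up_self T _
      simp only [e1, e2]
      simp only at h0
      omega
    · have e1 : up T (j1, true) (j1, false) = T (j1, false) := up_ne T (by simp)
      have e2 : up T (j1, true) (j1, true) = T (j1, true) + 1 := up_self T _
      simp only [e1, e2]
      simp only at h0
      omega
  · rw [Function.update_of_ne h]
    unfold sd
    have e1 : up T j (i, true) = T (i, true) := up_ne T (fun hh => h (by rw [← hh]))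
    have e2 : up T j (i, false) = T (i, false) := up_ne T (fun hh => h (by rw [← hh]))
    rw [e1, e2]

/-- [BTS-E3] a site in a layer: the box grows by `1` or `2` levels.
PROOF. In the axes `≠ j.1` `cc v ≤ T` in both directions; for the direction `opp j`: `cc v (opp j) = - cc v j = - T j - k ≤ T (opp j)` by `Ne T`. -/
theorem sup_inL1 {T : Box d} (hT : Ne T) {j : Dir d} {v : Site d} (h : inL T j 1 v) :
    T ⊔ cc v = up T j := by
  obtain ⟨h1, h2⟩ := h
  funext l
  rw [Pi.sup_apply]
  by_cases hl : l = j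
  · subst hl
    rw [up_self, h1]
    exact max_eq_right (by omega)
  · rw [up_ne T hl]
    apply max_eq_left
    by_cases hl1 : l.1 = j.1
    · have e1 := e3_opp v hl1 hl
      have e2 := e3_ne hT hl1 hl
      omega
    · exact h2 l hl1

theorem sup_inL2 {T : Box d} (hT : Ne T) {j : Dir d} {v : Site d} (h : inL T j 2 v) :
    T ⊔ cc v = up (up T j) j := by
  obtain ⟨h1, h2⟩ := h
  funext l
  rw [Pi.sup_apply]
  by_cases hl : l = j
  · subst hl
    rw [up_self, up_self, h1]
    rw [max_eq_right (by omega)]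
    ring
  · rw [up_ne _ hl, up_ne T hl]
    apply max_eq_left
    by_cases hl1 : l.1 = j.1
    · have e1 := e3_opp v hl1 hl
      have e2 := e3_ne hT hl1 hl
      omega
    · exact h2 l hl1

theorem sup_inC {T : Box d} (hT : Ne T) {i j : Dir d} (hij : i.1 ≠ j.1) {v : Site d}
    (h : inC T i j v) : T ⊔ cc v = up (up T i) j := by
  obtain ⟨h1, h1', h2⟩ := h
  have hij' : i ≠ j := fun hh => hij (by rw [hh])
  funext l
  rw [Pi.sup_apply]
  by_cases hl : l = j
  · subst hl
    rw [up_self, up_ne T hij'.symm, h1']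
    exact max_eq_right (by omega)
  · rw [up_ne _ hl]
    by_cases hli : l = i
    · subst hli
      rw [up_self, h1]
      exact max_eq_right (by omega)
    · rw [up_ne _ hli]
      apply max_eq_left
      by_cases hl1 : l.1 = j.1
      · have e1 := e3_opp v hl1 hl
        have e2 := e3_ne hT hl1 hl
        omega
      · by_cases hl2 : l.1 = i.1
        · have e1 := e3_opp v hl2 hli
          have e2 := e3_ne hT hl2 hli
          omega
        · exact h2 l hl2 hl1

theorem e3_gap_nonneg (T S : Box d) (i : Fin d) : 0 ≤ gap T S i := le_max_left _ _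

theorem e3_gap_ge (T : Box d) (v : Site d) (l : Dir d) : cc v l - T l ≤ gap T (cc v) l.1 := by
  obtain ⟨l1, lb⟩ := l
  unfold gap
  cases lb
  · refine le_trans ?_ (le_max_right _ _)
    refine le_trans ?_ (le_max_right _ _)
    simp only [cc]
    simp
    omega
  · refine le_trans ?_ (le_max_right _ _)
    refine le_trans ?_ (le_max_left _ _)
    simp only [cc]
    simp

theorem e3_gap_zero {T : Box d} {v : Site d} {i : Fin d} (h : gap T (cc v) i = 0) {l : Dir d}
    (hl : l.1 = i) : cc v l ≤ T l := by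
  have := e3_gap_ge T v l
  rw [hl, h] at this
  omega

theorem e3_gap_eq {T : Box d} (hT : Ne T) {v : Site d} {l : Dir d} (h : T l < cc v l) :
    gap T (cc v) l.1 = cc v l - T l := by
  obtain ⟨l1, lb⟩ := l
  have h0 := hT l1
  unfold gap
  cases lb
  · simp only [cc] at h ⊢
    simp at h ⊢
    omega
  · simp only [cc] at h ⊢
    simp at h ⊢
    omega

theorem e3_gap_pos {T : Box d} {v : Site d} {i : Fin d} (h : gap T (cc v) i ≠ 0) :
    ∃ b, T (i, b) < cc v (i, b) := by
  by_contra hc
  push Not at hc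
  apply h
  have h1 := hc true
  have h2 := hc false
  unfold gap
  simp only [cc] at h1 h2 ⊢
  simp at h1 h2 ⊢
  omega

/-- [BTS-E3] the sites near `T`.
PROOF. For each axis `l` at most one of the directions `(l, b)` has `cc v (l,b) > T (l,b)` (as `cc v (opp j) = - cc v j`, `Ne T`), and then `gap T (cc v) l = cc v (l,b) - T (l,b)`; the sum of the positive gaps is `≤ 2` and not `0`. -/
theorem near_cases {T : Box d} (hT : Ne T) {v : Site d} (hn : near T (cc v)) (hv : ¬ cc v ≤ T) :
    (∃ j, inL T j 1 v) ∨ (∃ j, inL T j 2 v) ∨ ∃ i j : Dir d, i.1 ≠ j.1 ∧ inC T i j v := by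
  unfold near at hn
  rw [Pi.le_def] at hv
  push Not at hv
  obtain ⟨j, hj⟩ := hv
  have hgj := e3_gap_eq hT hj
  rw [← Finset.add_sum_erase _ _ (Finset.mem_univ j.1)] at hn
  have hnn : 0 ≤ ∑ i ∈ Finset.univ.erase j.1, gap T (cc v) i :=
    Finset.sum_nonneg (fun i _ => e3_gap_nonneg _ _ _)
  by_cases hall : ∀ i, i ≠ j.1 → gap T (cc v) i = 0
  · have h2 : ∀ l : Dir d, l.1 ≠ j.1 → cc v l ≤ T l := fun l hl => e3_gap_zero (hall l.1 hl) rfl
    have h3 : cc v j = T j + 1 ∨ cc v j = T j + 2 := by omega
    rcases h3 with h3 | h3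
    · exact Or.inl ⟨j, h3, h2⟩
    · exact Or.inr (Or.inl ⟨j, h3, h2⟩)
  · push Not at hall
    obtain ⟨i, hi, hgi⟩ := hall
    obtain ⟨b, hb⟩ := e3_gap_pos hgi
    have hgi' := e3_gap_eq hT (l := (i, b)) hb
    simp only at hgi'
    rw [← Finset.add_sum_erase _ _ (Finset.mem_erase.2 ⟨hi, Finset.mem_univ i⟩)] at hn
    have hnn' : 0 ≤ ∑ l ∈ (Finset.univ.erase j.1).erase i, gap T (cc v) l :=
      Finset.sum_nonneg (fun i _ => e3_gap_nonneg _ _ _)
    right; right
    refine ⟨(i, b), j, hi, by omega, by omega, ?_⟩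
    intro l hl1 hl2
    apply e3_gap_zero (i := l.1) _ rfl
    have hle : gap T (cc v) l.1 ≤ ∑ l ∈ (Finset.univ.erase j.1).erase i, gap T (cc v) l := by
      apply Finset.single_le_sum (f := fun l => gap T (cc v) l)
        (fun i _ => e3_gap_nonneg _ _ _)
      exact Finset.mem_erase.2 ⟨hl1, Finset.mem_erase.2 ⟨hl2, Finset.mem_univ _⟩⟩
    have := e3_gap_nonneg T (cc v) l.1
    omega

end BTS
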