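import Pool.Agent.BTS.E1
import Pool.Agent.BTP.P4

set_option autoImplicit false

open scoped Classical
open Finset

namespace BTS
open BTP

section
variable {α : Type*} {p : ℝ}

/-- [BTS-Q1] PROOF. `Pr_insert` with `insert v (D.erase v) = D`. -/
theorem Pr_erase {D : Finset α} {v : α} (hv : v ∈ D) (E : Finset α → Prop) :
    Pr D p E = (1 - p) * Pr (D.erase v) p E + p * Pr (D.erase v) p (fun U => E (insert v U)) := by
  have h := Pr_insert (V := D.erase v) (p := p) (E := E) (v := v) (Finset.notMem_erase v D)
  rw [Finset.insert_erase hv] at h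
  exact h

/-- [BTS-Q1] an event which depends only on `U ∩ B`.
PROOF. Induction on `V` (`Pr_insert`), for all `E`: `v ∈ B`: apply the hypothesis to `E` and `E ∘ insert v`; `v ∉ B`: `E (insert v U) ↔ E U`. -/
theorem Pr_inter (V B : Finset α) (E : Finset α → Prop) (hE : ∀ U ⊆ V, (E U ↔ E (U ∩ B))) :
    Pr V p E = Pr (V ∩ B) p E := by
  induction V using Finset.induction_on generalizing E with
  | empty => rw [Finset.empty_inter]
  | insert v V hv ih =>
    have h1 : Pr V p E = Pr (V ∩ B) p E :=
      ih E (fun U hU => hE U (hU.trans (Finset.subset_insert v V)))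
    rw [Pr_insert hv]
    by_cases hvB : v ∈ B
    · have h2 : Pr V p (fun U => E (insert v U)) = Pr (V ∩ B) p (fun U => E (insert v U)) := by
        refine ih (fun U => E (insert v U)) (fun U hU => ?_)
        have h3 := hE (insert v U) (Finset.insert_subset_insert v hU)
        rw [Finset.insert_inter_of_mem hvB] at h3
        exact h3
      rw [Finset.insert_inter_of_mem hvB, Pr_insert (fun h => hv (Finset.mem_inter.mp h).1), h1, h2]
    · have h2 : Pr V p (fun U => E (insert v U)) = Pr V p E := by
        refine Pr_congr (fun U hU => ?_)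
        have h3 := hE (insert v U) (Finset.insert_subset_insert v hU)
        rw [Finset.insert_inter_of_notMem hvB] at h3
        exact h3.trans (hE U (hU.trans (Finset.subset_insert v V))).symm
      rw [Finset.insert_inter_of_notMem hvB, h2, ← h1]
      ring

/-- the same for any decidability instance -/
theorem q1_Pr_inter' [inst : DecidableEq α] (V B : Finset α) (E : Finset α → Prop)
    (hE : ∀ U ⊆ V, (E U ↔ E (U ∩ B))) : Pr V p E = Pr (V ∩ B) p E := by
  have h : inst = fun a b => Classical.propDecidable (a = b) := Subsingleton.elim _ _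
  subst h
  exact Pr_inter V B E hE

/-- the same for any decidability instance -/
theorem q1_Pr_erase' [inst : DecidableEq α] {D : Finset α} {v : α} (hv : v ∈ D)
    (E : Finset α → Prop) :
    Pr D p E = (1 - p) * Pr (D.erase v) p E + p * Pr (D.erase v) p (fun U => E (insert v U)) := by
  have h : inst = fun a b => Classical.propDecidable (a = b) := Subsingleton.elim _ _
  subst h
  exact Pr_erase hv E

/-- [BTS-Q1] more points: increasing events are more likely. PROOF. Induction on `V' \ V` with `Pr_insert`: `E U → E (insert v U)`. -/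
theorem Pr_mono_V (hp0 : 0 ≤ p) (hp1 : p ≤ 1) {V V' : Finset α} (h : V ⊆ V') {E : Finset α → Prop}
    (hE : Inc E) : Pr V p E ≤ Pr V' p E := by
  have key : ∀ D : Finset α, Disjoint V D → Pr V p E ≤ Pr (V ∪ D) p E := by
    intro D
    induction D using Finset.induction_on with
    | empty =>
      intro _
      rw [Finset.union_empty]
    | insert v D hv ih =>
      intro hd
      rw [Finset.disjoint_insert_right] at hd
      have h1 := ih hd.2
      have h2 : v ∉ V ∪ D := by
        rw [Finset.mem_union]
        rintro (h | h)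
        · exact hd.1 h
        · exact hv h
      rw [Finset.union_insert, Pr_insert h2]
      have h3 : Pr (V ∪ D) p E ≤ Pr (V ∪ D) p (fun U => E (insert v U)) :=
        Pr_mono hp0 hp1 fun U _ h => hE _ _ (Finset.subset_insert v U) h
      nlinarith [mul_le_mul_of_nonneg_left h3 hp0]
  have h1 := key (V' \ V) Finset.disjoint_sdiff
  rwa [Finset.union_sdiff_of_subset h] at h1

end

variable {d : ℕ}

/-- [BTS-Q1] PROOF. `IG Q U ↔ IG Q (U ∩ sites Q)` (`Gen.le`, `mem_sites`), `Pr_inter`, `Pr_mono_V`. -/
theorem Pr_IG_sites {p : ℝ} (hp0 : 0 ≤ p) (hp1 : p ≤ 1) (V : Finset (Site d)) (Q : Box d) :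
    Pr V p (IG Q) ≤ Pr (sites Q) p (IG Q) := by
  refine (q1_Pr_inter' V (sites Q) (IG Q) (fun U _ => ⟨?_, ?_⟩)).trans_le
    (Pr_mono_V hp0 hp1 Finset.inter_subset_right (Inc_IG Q))
  · rintro ⟨W, hW, hg⟩
    exact ⟨W, Finset.subset_inter hW (fun w hw => mem_sites.mpr (hg.le w hw)), hg⟩
  · exact Inc_IG Q _ _ Finset.inter_subset_left

end BTS
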