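import Pool.Agent.BTS.J1a
import Pool.Agent.BTS.I3

set_option autoImplicit false

open scoped Classical
open Finset

namespace BTS
open BTP

variable {d : ℕ} (a : Pa d)

theorem j1b_Phi_edge_add {O : Finset (Dir d)} {i j : Dir d} (hi : i ∈ O) (hj : j ∈ O) (hij : i ≠ j)
    (b : Dir d → ℝ) (e e' : Dir d → Dir d → ℝ) (hb : ∀ l ∈ O, 0 ≤ b l)
    (hee : ∀ l m, e' l m ≤ e l m) {c : ℝ} (h1 : e' i j + c ≤ e i j) (h2 : e' j i + c ≤ e j i) :
    Phi O b e' + 2 * c * ∏ l ∈ (O.erase i).erase j, b l ≤ Phi O b e := by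
  unfold Phi
  have hP : ∀ l m : Dir d, 0 ≤ ∏ k ∈ (O.erase l).erase m, b k := fun l m =>
    Finset.prod_nonneg (fun k hk => hb k (Finset.mem_of_mem_erase (Finset.mem_of_mem_erase hk)))
  set R : Dir d → ℝ := fun l => ∑ m ∈ O.erase l, (e l m - e' l m) * ∏ k ∈ (O.erase l).erase m, b k
    with hR
  have hR0 : ∀ l, 0 ≤ R l := fun l => Finset.sum_nonneg (fun m _ =>
    mul_nonneg (sub_nonneg.mpr (hee l m)) (hP l m))
  have hRi : c * ∏ l ∈ (O.erase i).erase j, b l ≤ R i := by
    have : (e i j - e' i j) * ∏ k ∈ (O.erase i).erase j, b k ≤ R i := by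
      refine Finset.single_le_sum (f := fun m => (e i m - e' i m) * ∏ k ∈ (O.erase i).erase m, b k)
        (fun m _ => mul_nonneg (sub_nonneg.mpr (hee i m)) (hP i m)) ?_
      exact Finset.mem_erase.mpr ⟨hij.symm, hj⟩
    refine le_trans (mul_le_mul_of_nonneg_right (by linarith) (hP i j)) this
  have hRj : c * ∏ l ∈ (O.erase i).erase j, b l ≤ R j := by
    have : (e j i - e' j i) * ∏ k ∈ (O.erase j).erase i, b k ≤ R j := by
      refine Finset.single_le_sum (f := fun m => (e j m - e' j m) * ∏ k ∈ (O.erase j).erase m, b k)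
        (fun m _ => mul_nonneg (sub_nonneg.mpr (hee j m)) (hP j m)) ?_
      exact Finset.mem_erase.mpr ⟨hij, hi⟩
    rw [Finset.erase_right_comm] at this
    refine le_trans (mul_le_mul_of_nonneg_right (by linarith) (hP i j)) this
  have hsum : R i + R j ≤ ∑ l ∈ O, R l := by
    rw [← Finset.sum_pair hij]
    refine Finset.sum_le_sum_of_subset_of_nonneg ?_ (fun l _ _ => hR0 l)
    intro l hl
    rcases Finset.mem_insert.mp hl with h | h
    · rw [h]; exact hi
    · rw [Finset.mem_singleton.mp h]; exact hj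
  have hdiff : ∑ l ∈ O, R l = ∑ l ∈ O, ∑ m ∈ O.erase l, e l m * ∏ k ∈ (O.erase l).erase m, b k -
      ∑ l ∈ O, ∑ m ∈ O.erase l, e' l m * ∏ k ∈ (O.erase l).erase m, b k := by
    rw [← Finset.sum_sub_distrib]
    refine Finset.sum_congr rfl (fun l _ => ?_)
    rw [hR, ← Finset.sum_sub_distrib]
    refine Finset.sum_congr rfl (fun m _ => ?_)
    ring
  linarith

/-- [BTS-J1b] revealing a site over an edge.
PROOF. `bD` is unchanged (`nL_erase_inC`), `eD T D i j = eD T (D.erase v) i j + q e^{gm_i+gm_j}` and the same for `(j, i)` (`nC_erase`, `nC_symm`), the other edges are unchanged (`nC_erase_ne`). So `Phi O b e = Phi O b e° + 2 q e^{gm_i+gm_j} ∏_{(O.erase i).erase j} b` (two terms of the double sum; `i, j ∈ O`), and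
`Phi O b e - (1-p) Phi O b e° ≥ 2 p e^{gm_i+gm_j} ∏` (`p ≤ q`). `step_edge`, `sup_inC`. -/
theorem reveal_C {T Q : Box d} (hok : Ok a T Q) {D : Finset (Site d)} {i j : Dir d}
    (hij : i.1 ≠ j.1) {v : Site d} (hv : v ∈ D) (hin : inC T i j v) (hvQ : cc v ≤ Q) :
    a.p * a.Fp (T ⊔ cc v) Q (D.erase v) + (1 - a.p) * a.Fp T Q (D.erase v) ≤ a.Fp T Q D := by
  obtain ⟨hT, hTQ, hQ, hP⟩ := hok
  have hne : i ≠ j := fun h => hij (by rw [h])
  have hsup := sup_inC hT hij hin
  have hupQ : up (up T i) j ≤ Q := by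
    rw [← hsup]; exact sup_le hTQ hvQ
  have hiO : i ∈ OO T Q := mem_OO (le_trans (le_up (up T i) j) hupQ)
  have hjO : j ∈ OO T Q := by
    unfold OO
    rw [Finset.mem_filter]
    refine ⟨Finset.mem_univ _, ?_⟩
    have h1 : cc v j ≤ Q j := hvQ j
    rw [hin.2.1] at h1
    omega
  have hq0 : 0 ≤ a.q := a.hq.le
  have hpq : a.p ≤ a.q := p_le_q a
  have hp1 : a.p ≤ 1 := p_le_one a
  have hp0 : 0 ≤ a.p := by
    rw [a.hp]
    have : Real.exp (-a.q) ≤ 1 := Real.exp_le_one_iff.mpr (by linarith)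
    linarith
  -- the step inequality
  have hstep := step_edge a hij (D := D) (D' := D.erase v) hT hQ hupQ hP (Finset.erase_subset _ _)
  -- the values of the directions
  have hbD : bD a T (D.erase v) = bD a T D := by
    unfold bD
    have h1 : (fun l => (nL T (D.erase v) l 1 : ℝ)) = fun l => (nL T D l 1 : ℝ) := by
      funext l
      rw [nL_erase_inC hT hij (le_refl _) hin]
    have h2 : (fun l => (nL T (D.erase v) l 2 : ℝ)) = fun l => (nL T D l 2 : ℝ) := by
      funext l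
      rw [nL_erase_inC hT hij (by norm_num) hin]
    rw [h1, h2]
  have hb0 : ∀ l ∈ OO T Q, 0 ≤ bD a T D l := fun l _ =>
    le_trans (th_pos a T l.1).le (th_le_bD a T D l)
  -- the edges
  have hee : ∀ l m, eD a T (D.erase v) l m ≤ eD a T D l m := by
    intro l m
    unfold eD Pa.eT
    have h1 : (nC T (D.erase v) l m : ℝ) ≤ nC T D l m := by
      exact_mod_cast nC_mono (Finset.erase_subset v D) l m
    exact mul_le_mul_of_nonneg_right (mul_le_mul_of_nonneg_left h1 hq0) (Real.exp_pos _).le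
  have heij : eD a T (D.erase v) i j + a.q * Real.exp (a.gm T i.1 + a.gm T j.1) ≤ eD a T D i j := by
    unfold eD Pa.eT
    have h1 : (nC T D i j : ℝ) = nC T (D.erase v) i j + 1 := by
      exact_mod_cast nC_erase hij hv hin
    simp only [h1]
    apply le_of_eq
    ring
  have heji : eD a T (D.erase v) j i + a.q * Real.exp (a.gm T i.1 + a.gm T j.1) ≤ eD a T D j i := by
    rw [eD_symm a T (D.erase v) j i, eD_symm a T D j i]
    exact heij
  have hadd := j1b_Phi_edge_add hiO hjO hne (bD a T D) (eD a T D) (eD a T (D.erase v)) hb0 hee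
    heij heji
  have hprod0 : 0 ≤ ∏ l ∈ ((OO T Q).erase i).erase j, bD a T D l :=
    Finset.prod_nonneg (fun k hk => hb0 k (Finset.mem_of_mem_erase (Finset.mem_of_mem_erase hk)))
  have hPhi0 : 0 ≤ Phi (OO T Q) (bD a T D) (eD a T (D.erase v)) :=
    Phi_nonneg hb0 (fun l m => eD_nonneg a T _ l m)
  -- combine
  have hmain : a.p * (Real.exp (a.Ps (up (up T i) j) - a.Ps T) * a.Ph (up (up T i) j) Q (D.erase v)) +
      (1 - a.p) * a.Ph T Q (D.erase v) ≤ a.Ph T Q D := by
    rw [Ph_eq a T Q (D.erase v), Ph_eq a T Q D, hbD]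
    have hexp : 0 ≤ Real.exp (a.gm T i.1 + a.gm T j.1) := (Real.exp_pos _).le
    have h1 := mul_le_mul_of_nonneg_left hstep hp0
    have h2 : a.p * (2 * Real.exp (a.gm T i.1 + a.gm T j.1) *
        ∏ l ∈ ((OO T Q).erase i).erase j, bD a T D l) ≤
        2 * (a.q * Real.exp (a.gm T i.1 + a.gm T j.1)) *
          ∏ l ∈ ((OO T Q).erase i).erase j, bD a T D l := by
      have := mul_le_mul_of_nonneg_right hpq (mul_nonneg (mul_nonneg (by norm_num : (0:ℝ) ≤ 2) hexp) hprod0)
      linarith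
    have h3 : (1 - a.p) * Phi (OO T Q) (bD a T D) (eD a T (D.erase v)) ≤
        Phi (OO T Q) (bD a T D) (eD a T (D.erase v)) := by
      nlinarith
    linarith
  unfold Pa.Fp
  rw [hsup]
  have e1 : Real.exp (a.Ps (up (up T i) j) - a.Ps Q) =
      Real.exp (a.Ps T - a.Ps Q) * Real.exp (a.Ps (up (up T i) j) - a.Ps T) := by
    rw [← Real.exp_add]; congr 1; ring
  rw [e1]
  have := mul_le_mul_of_nonneg_left hmain (Real.exp_pos (a.Ps T - a.Ps Q)).le
  linarith

end BTS
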