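import Pool.Agent.BTS.V11
import Pool.Agent.BTP.C1

set_option autoImplicit false

open scoped Classical
open Finset

namespace BTS
open BTP

variable {d : ℕ} (a : Pa d)

theorem s11_aux {T S : Box d} (hS : Ne S) (hn : near T S) {y : ℕ} (hy : Ys S = y) (l : Fin d)
    (b : Bool) : 0 ≤ S (l, b) + S (l, !b) ∧ S (l, b) + S (l, !b) ≤ y ∧
      -T (l, !b) - 2 ≤ S (l, b) ∧ S (l, b) ≤ T (l, b) + 2 + y := by
  have h1 := hS l
  have h2 : S (l, true) + S (l, false) ≤ y := by
    rw [← hy, b1_Ys]
    exact Finset.single_le_sum (f := fun i : Fin d => S (i, true) + S (i, false))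
      (fun i _ => hS i) (Finset.mem_univ l)
  have h3 : gap T S l ≤ 2 := by
    refine le_trans (Finset.single_le_sum (f := fun i : Fin d => gap T S i) (fun i _ => ?_)
      (Finset.mem_univ l)) hn
    unfold gap
    exact le_max_left _ _
  unfold gap at h3
  have h4 : -(T (l, true) + S (l, false)) ≤ 2 :=
    (le_max_left _ _).trans ((le_max_right _ _).trans h3)
  have h5 : -(S (l, true) + T (l, false)) ≤ 2 :=
    (le_max_right _ _).trans ((le_max_right _ _).trans h3)
  cases b
  · simp only [Bool.not_false]
    refine ⟨by omega, by omega, by omega, by omega⟩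
  · simp only [Bool.not_true]
    refine ⟨by omega, by omega, by omega, by omega⟩

/-- [BTS-S11] counting: boxes near `T` of extent `y`, growing in the directions `j`, `j'` of different axes.
PROOF. The map `S ↦ (l ↦ (S (l,true), S (l,true) + S (l,false)))` is injective. The second coordinate is in `[0, y]`. In the axis `l = j.1` (say `j = (l, b)`): `T j < S j ≤ T j + y + 2` (`gap ≤ 2`: `- S (opp j) ≤ T j + 2`, `S j + S (opp j) ≤ y`): `y + 2` values of `S j`, which determines `S (l,true)` together with the second coordinate.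
The same for `j'`. In the other axes `S (l, true)` lies in `[- T(l,false) - 2, T(l,true) + 2 + y]`: at most `sd T l + y + 4 ≤ (2y+7) X_l` values (`X ≥ 100`). Total `≤ (y+1)^d (y+2)² (2y+7)^{d-2} ∏ X ≤ (2y+7)^{2d} ∏ X`. -/
theorem card_near {T Q : Box d} (hT : Ne T) {j j' : Dir d} (hj : j.1 ≠ j'.1) (y : ℕ) :
    (((sub Q).filter (fun S => near T S ∧ Ys S = y ∧ T j < S j ∧ T j' < S j')).card : ℝ) ≤
      (2 * (y : ℝ) + 7) ^ (2 * d) * ∏ l ∈ (Finset.univ.erase j.1).erase j'.1, a.X T l := by
  obtain ⟨i, b⟩ := j
  obtain ⟨i', b'⟩ := j'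
  simp only at hj ⊢
  set σ : Fin d → Bool := fun l => if l = i then b else if l = i' then b' else true with hσ
  have hσi : σ i = b := by simp [hσ]
  have hσi' : σ i' = b' := by
    have : i' ≠ i := fun h => hj h.symm
    simp [hσ, this]
  set lo : Fin d → ℤ := fun l => if l = i ∨ l = i' then T (l, σ l) + 1 else -T (l, !σ l) - 2
    with hlo
  set P : Fin d → Finset (ℤ × ℤ) := fun l =>
    Finset.Icc (lo l) (T (l, σ l) + 2 + y) ×ˢ Finset.Icc 0 (y : ℤ) with hP
  set F : Box d → (Fin d → ℤ × ℤ) := fun S l => (S (l, σ l), S (l, σ l) + S (l, !σ l)) with hF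
  have hFi : Function.Injective F := by
    intro S S' h
    funext ⟨l, c⟩
    have h1 := congrFun h l
    simp only [hF, Prod.mk.injEq] at h1
    by_cases hc : c = σ l
    · rw [hc]
      exact h1.1
    · have hc' : c = !σ l := by
        cases c <;> cases hs : σ l <;> simp_all
      rw [hc']
      linarith [h1.1, h1.2]
  have h1 : ((sub Q).filter (fun S => near T S ∧ Ys S = y ∧ T (i, b) < S (i, b) ∧
      T (i', b') < S (i', b'))).card ≤ (Fintype.piFinset P).card := by
    apply Finset.card_le_card_of_injOn F ?_ hFi.injOn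
    intro S hS
    rw [Finset.mem_coe, Finset.mem_filter, BTP.mem_sub] at hS
    obtain ⟨⟨hS1, hS2⟩, hn, hy, hj1, hj2⟩ := hS
    rw [Finset.mem_coe, Fintype.mem_piFinset]
    intro l
    obtain ⟨c1, c2, c3, c4⟩ := s11_aux hS1 hn hy l (σ l)
    rw [hP, Finset.mem_product, Finset.mem_Icc, Finset.mem_Icc]
    refine ⟨⟨?_, c4⟩, c1, c2⟩
    show lo l ≤ S (l, σ l)
    rw [hlo]
    simp only
    split_ifs with h
    · rcases h with h | h
      · rw [h, hσi]
        omega
      · rw [h, hσi']
        omega
    · exact c3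
  have hX : ∀ l, 1 ≤ a.X T l := fun l => by linarith [X_ge a T l, a.hH1]
  have h3 : ∀ l, ((P l).card : ℝ) ≤
      (2 * (y : ℝ) + 7) ^ 2 * (if l = i ∨ l = i' then 1 else a.X T l) := by
    intro l
    have hy0 : (0 : ℝ) ≤ y := Nat.cast_nonneg y
    have e1 : ((Finset.Icc (0 : ℤ) (y : ℤ)).card : ℝ) = (y : ℝ) + 1 := by
      rw [Int.card_Icc]
      have : ((y : ℤ) + 1 - 0).toNat = y + 1 := by omega
      rw [this]
      push_cast
      ring
    rw [hP]
    simp only
    rw [Finset.card_product, Nat.cast_mul, e1, Int.card_Icc]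
    by_cases h : l = i ∨ l = i'
    · rw [if_pos h]
      have e2 : (T (l, σ l) + 2 + y + 1 - lo l).toNat = y + 2 := by
        rw [hlo]
        simp only [if_pos h]
        omega
      rw [e2]
      push_cast
      nlinarith
    · rw [if_neg h]
      have e3 := sd_cast hT l
      have e2 : (((T (l, σ l) + 2 + y + 1 - lo l).toNat : ℕ) : ℝ) = (sd T l : ℝ) + y + 4 := by
        have e4 : (((T (l, σ l) + 2 + y + 1 - lo l).toNat : ℕ) : ℤ) = (sd T l : ℤ) + y + 4 := by
          rw [hlo]
          simp only [if_neg h]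
          have e5 : T (l, σ l) + T (l, !σ l) = T (l, true) + T (l, false) := by
            cases σ l
            · simp only [Bool.not_false]
              ring
            · simp only [Bool.not_true]
          have e6 : T (l, σ l) + 2 + y + 1 - (-T (l, !σ l) - 2) = (sd T l : ℤ) + y + 4 := by
            rw [e3]
            linarith
          rw [e6, Int.toNat_of_nonneg (by positivity)]
        exact_mod_cast e4
      rw [e2]
      have e7 := X_ge_sd a T l
      have e8 := hX l
      have e9 : (sd T l : ℝ) + y + 4 ≤ (2 * (y : ℝ) + 7) * a.X T l := by nlinarith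
      calc ((sd T l : ℝ) + y + 4) * ((y : ℝ) + 1)
          ≤ ((2 * (y : ℝ) + 7) * a.X T l) * (2 * (y : ℝ) + 7) :=
            mul_le_mul e9 (by linarith) (by positivity) (by positivity)
        _ = _ := by ring
  calc (((sub Q).filter (fun S => near T S ∧ Ys S = y ∧ T (i, b) < S (i, b) ∧
      T (i', b') < S (i', b'))).card : ℝ) ≤ ((Fintype.piFinset P).card : ℝ) := by exact_mod_cast h1
    _ = ∏ l, ((P l).card : ℝ) := by
        rw [Fintype.card_piFinset]
        push_cast
        rfl
    _ ≤ ∏ l : Fin d, ((2 * (y : ℝ) + 7) ^ 2 * (if l = i ∨ l = i' then 1 else a.X T l)) :=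
        Finset.prod_le_prod (fun l _ => Nat.cast_nonneg _) fun l _ => h3 l
    _ = _ := by
        rw [Finset.prod_mul_distrib, Finset.prod_const, Finset.card_univ, Fintype.card_fin, ← pow_mul]
        congr 1
        rw [← Finset.prod_subset (Finset.subset_univ ((Finset.univ.erase i).erase i'))]
        · refine Finset.prod_congr rfl fun l hl => ?_
          rw [Finset.mem_erase, Finset.mem_erase] at hl
          rw [if_neg]
          rintro (h | h)
          · exact hl.2.1 h
          · exact hl.1 h
        · intro l _ hl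
          rw [Finset.mem_erase, Finset.mem_erase] at hl
          rw [if_pos]
          by_contra hcon
          push Not at hcon
          exact hl ⟨hcon.2, hcon.1, Finset.mem_univ l⟩

end BTS
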