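import Pool.Agent.BTS.F3
import Pool.Agent.BTP.T2

set_option autoImplicit false

open scoped Classical
open Filter

namespace BTS
open BTP

/-- [BTS-F4] the sharp lower bound for the critical probability of two-neighbour bootstrap percolation -/
theorem main_result (d : ℕ) (hd : 2 ≤ d) : ∃ C : ℝ, 0 < C ∧ ∃ N : ℕ, ∀ n : ℕ, N ≤ n →
    0 < (∫ z in Set.Ioi (0 : ℝ), - Real.log (((1 - Real.exp (-(z ^ (d - 1)))) +
      Real.sqrt ((1 - Real.exp (-(z ^ (d - 1)))) * (4 - 3 * (1 - Real.exp (-(z ^ (d - 1))))))) / 2)) /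
        Real.log n - C / Real.log n ^ ((3 : ℝ) / 2) ∧
    ((∫ z in Set.Ioi (0 : ℝ), - Real.log (((1 - Real.exp (-(z ^ (d - 1)))) +
      Real.sqrt ((1 - Real.exp (-(z ^ (d - 1)))) * (4 - 3 * (1 - Real.exp (-(z ^ (d - 1))))))) / 2)) /
        Real.log n - C / Real.log n ^ ((3 : ℝ) / 2)) ^ (d - 1) ≤
      sInf {p : ℝ | 0 ≤ p ∧ p ≤ 1 ∧ (1:ℝ)/2 ≤ ∑ A : Finset (Fin d → Fin n),
            (if (∀ S : Finset (Fin d → Fin n), A ⊆ S →
                (∀ v : Fin d → Fin n,
                  2 ≤ (Finset.univ.filter (fun u : Fin d → Fin n =>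
                    u ∈ S ∧ ∑ i, |((u i : ℕ) : ℤ) - ((v i : ℕ) : ℤ)| = 1)).card → v ∈ S) →
                S = Finset.univ)
            then p ^ A.card * (1 - p) ^ (Fintype.card (Fin d → Fin n) - A.card) else 0)} := by
  obtain ⟨C, hC, h⟩ := world_small hd
  rw [eventually_atTop] at h
  obtain ⟨N, hN⟩ := h
  refine ⟨C, hC, max N 1, fun n hn => ?_⟩
  obtain ⟨h0, h1, h2⟩ := hN n (le_of_max_le_left hn)
  have h3 := le_pc (le_of_max_le_right hn) (pow_nonneg h0.le _) (h1.trans (by norm_num)) h2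
  have hl : lam d = ∫ z in Set.Ioi (0 : ℝ), - Real.log (((1 - Real.exp (-(z ^ (d - 1)))) +
      Real.sqrt ((1 - Real.exp (-(z ^ (d - 1)))) * (4 - 3 * (1 - Real.exp (-(z ^ (d - 1))))))) / 2) := rfl
  rw [hl] at h0 h3
  refine ⟨h0, h3.trans (le_of_eq ?_)⟩
  congr 1
  ext p
  have hs : percP d n p = ∑ A : Finset (Fin d → Fin n),
            (if (∀ S : Finset (Fin d → Fin n), A ⊆ S →
                (∀ v : Fin d → Fin n,
                  2 ≤ (Finset.univ.filter (fun u : Fin d → Fin n =>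
                    u ∈ S ∧ ∑ i, |((u i : ℕ) : ℤ) - ((v i : ℕ) : ℤ)| = 1)).card → v ∈ S) →
                S = Finset.univ)
            then p ^ A.card * (1 - p) ^ (Fintype.card (Fin d → Fin n) - A.card) else 0) := by
    unfold percP PercF
    refine Finset.sum_congr rfl fun A _ => ?_
    congr
  simp only [Set.mem_setOf_eq, hs]

end BTS
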