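import Pool.Agent.BTP.V1

set_option autoImplicit false

open scoped Classical
open Finset

namespace BTP

variable {d : ℕ} {G : ℝ → ℝ} {φ : ℕ → ℝ}

/-- [BTS-V13] the exchange inequality with a gain.
PROOF. As `GP.step` (file BTP/V1.lean, all auxiliary statements `v1_*` are available): in the sum over `(k', m)` the terms with `k' = k`, `m0 ≤ m < x k` satisfy `v1_c G φ x i m k + δ ≤ G (φ (x i) S) - G (φ (x i + 1) S)`, since for such `m` `v1_c = G (v1_s .. k) - G (v1_s .. (k+1)) = G (φ m S) - G (φ (m+1) S)` (`v1_split`), `S = v1_S φ x i k m`, and the `min`s are `x i` and `x i + 1` (`x i + 1 ≤ m0 ≤ m`). The other terms as before (`v1_gain`). -/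
theorem GP.step_gain (hg : GP G φ) (x : Fin d → ℕ) {i k : Fin d} (hk : k ≠ i) {m0 : ℕ}
    (h0 : x i + 1 ≤ m0) (hmk : m0 ≤ x k) {δ : ℝ} (hδ0 : 0 ≤ δ)
    (hδ : ∀ m, m0 ≤ m → m < x k →
      G (φ m * v1_S φ x i k m) - G (φ (m + 1) * v1_S φ x i k m) + δ ≤
        G (φ (x i) * v1_S φ x i k m) - G (φ (x i + 1) * v1_S φ x i k m)) :
    Psi G φ (Function.update x i (x i + 1)) + ((x k : ℝ) - m0) * δ ≤
      Psi G φ x + G (∏ j ∈ Finset.univ.erase i, φ (x j)) := by
  obtain ⟨M, hM, hMi⟩ : ∃ M, (∀ j, x j ≤ M) ∧ x i + 1 ≤ M := by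
    refine ⟨(Finset.univ.sup x) + 1, fun j => ?_, ?_⟩
    · exact (Finset.le_sup (Finset.mem_univ j)).trans (Nat.le_succ _)
    · exact Nat.succ_le_succ (Finset.le_sup (Finset.mem_univ i))
  -- the terms of the two sums
  have hterm : ∀ k' : Fin d, ∑ m ∈ Finset.range (Function.update x i (x i + 1) k'),
      G (∏ j ∈ Finset.univ.erase k',
        φ (min (Function.update x i (x i + 1) j) (m + if j < k' then 1 else 0))) ≤
      ∑ m ∈ Finset.range (x k'),
        G (∏ j ∈ Finset.univ.erase k', φ (min (x j) (m + if j < k' then 1 else 0))) +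
      (if k' = i then G (v1_s φ x i (x i) i.val) else 0) -
      ∑ m ∈ Finset.range M, v1_c G φ x i m k'.val -
      (if k' = k then ((x k : ℝ) - m0) * δ else 0) := by
    intro k'
    by_cases hk' : k' = i
    · have hne : ¬ (k' = k) := fun h => hk (h.symm.trans hk')
      rw [if_neg hne, sub_zero]
      rw [hk', if_pos rfl, Function.update_self, Finset.sum_range_succ]
      have h0 : ∑ m ∈ Finset.range M, v1_c G φ x i m i.val = 0 :=
        Finset.sum_eq_zero fun m _ => v1_c_i x i m
      rw [h0, sub_zero]
      have h1 : ∀ m, (∏ j ∈ Finset.univ.erase i,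
          φ (min (Function.update x i (x i + 1) j) (m + if j < i then 1 else 0))) =
          ∏ j ∈ Finset.univ.erase i, φ (min (x j) (m + if j < i then 1 else 0)) := by
        intro m
        refine Finset.prod_congr rfl fun j hj => ?_
        rw [Function.update_of_ne (Finset.ne_of_mem_erase hj)]
      simp only [h1]
      exact le_refl _
    · rw [if_neg hk', add_zero, Function.update_of_ne hk']
      have h1 : ∑ m ∈ Finset.range M, v1_c G φ x i m k'.val =
          ∑ m ∈ Finset.range (x k'), v1_c G φ x i m k'.val := by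
        symm
        refine Finset.sum_subset (Finset.range_subset_range.2 (hM k')) ?_
        intro m _ hm
        rw [Finset.mem_range, not_lt] at hm
        exact v1_c_zero x hk' m hm
      have h1' : (if k' = k then ((x k : ℝ) - m0) * δ else 0) =
          ∑ m ∈ Finset.range (x k'), (if k' = k ∧ m0 ≤ m then δ else 0) := by
        by_cases hkk : k' = k
        · rw [if_pos hkk, hkk]
          simp only [true_and]
          rw [← Finset.sum_filter, Finset.sum_const, nsmul_eq_mul]
          congr 1
          have h2 : (Finset.range (x k)).filter (fun m => m0 ≤ m) = Finset.Ico m0 (x k) := by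
            ext m
            simp only [Finset.mem_filter, Finset.mem_range, Finset.mem_Ico]
            omega
          rw [h2, Nat.card_Ico, Nat.cast_sub hmk]
        · rw [if_neg hkk]
          simp [hkk]
      rw [h1, h1', ← Finset.sum_sub_distrib, ← Finset.sum_sub_distrib]
      refine Finset.sum_le_sum fun m hm => ?_
      rw [Finset.mem_range] at hm
      have h3 := v1_term (φ := φ) x hk' m (x i + 1)
      have h4 := v1_term (φ := φ) x hk' m (x i)
      rw [Function.update_eq_self] at h4
      rw [h3, h4]
      by_cases hc : k' = k ∧ m0 ≤ m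
      · rw [if_pos hc]
        obtain ⟨hkk, hm0⟩ := hc
        subst hkk
        have h5 := hδ m hm0 hm
        have h6 : v1_c G φ x i m k'.val =
            G (φ m * v1_S φ x i k' m) - G (φ (m + 1) * v1_S φ x i k' m) := by
          unfold v1_c
          rw [if_pos (by omega), (v1_split x hk' m).1, (v1_split x hk' m).2,
            min_eq_right hm.le, min_eq_right (Nat.succ_le_of_lt hm)]
        have h7 : min (x i) (m + if i < k' then 1 else 0) = x i := by
          apply min_eq_left
          omega
        have h8 : min (x i + 1) (m + if i < k' then 1 else 0) = x i + 1 := by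
          apply min_eq_left
          omega
        rw [h6, h7, h8]
        linarith
      · rw [if_neg hc]
        have h2 := v1_gain hg x hk' m hm
        linarith
  have hsum : Psi G φ (Function.update x i (x i + 1)) ≤ Psi G φ x +
      G (v1_s φ x i (x i) i.val) - ∑ k : Fin d, ∑ m ∈ Finset.range M, v1_c G φ x i m k.val -
      ((x k : ℝ) - m0) * δ := by
    unfold Psi
    refine (Finset.sum_le_sum fun k' _ => hterm k').trans (le_of_eq ?_)
    rw [Finset.sum_sub_distrib, Finset.sum_sub_distrib, Finset.sum_add_distrib,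
      Finset.sum_ite_eq' Finset.univ i, Finset.sum_ite_eq' Finset.univ k]
    simp
  have h5 : ∑ k : Fin d, ∑ m ∈ Finset.range M, v1_c G φ x i m k.val =
      G (v1_s φ x i (x i) i.val) - G (∏ j ∈ Finset.univ.erase i, φ (x j)) := by
    rw [Finset.sum_comm, ← v1_s_top x i M hM, ← v1_total x i M hMi]
    refine Finset.sum_congr rfl fun m _ => ?_
    exact Fin.sum_univ_eq_sum_range (fun k => v1_c G φ x i m k) d
  rw [h5] at hsum
  linarith

/-- [BTS-V13] a lower bound for the potential.
PROOF. Keep only the term `k` and `m < m0 ≤ x k` of `Psi`: for these `min (x j) (m + ..) ≤ min (x j) m0`, so (`anti`, `mono`) each summand is at least `G (∏_{j≠k} φ (min (x j) m0))`. -/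
theorem GP.Psi_ge_min (hg : GP G φ) (x : Fin d → ℕ) (k : Fin d) {m0 : ℕ} (hm : m0 ≤ x k) :
    (m0 : ℝ) * G (∏ j ∈ Finset.univ.erase k, φ (min (x j) m0)) ≤ Psi G φ x := by
  have hpos : ∀ y : Fin d → ℕ, 0 < ∏ j ∈ Finset.univ.erase k, φ (y j) := fun y =>
    Finset.prod_pos fun _ _ => hg.pos _
  calc (m0 : ℝ) * G (∏ j ∈ Finset.univ.erase k, φ (min (x j) m0))
      = ∑ m ∈ Finset.range m0, G (∏ j ∈ Finset.univ.erase k, φ (min (x j) m0)) := by
        rw [Finset.sum_const, Finset.card_range, nsmul_eq_mul]
    _ ≤ ∑ m ∈ Finset.range m0, G (∏ j ∈ Finset.univ.erase k,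
          φ (min (x j) (m + if j < k then 1 else 0))) := by
        refine Finset.sum_le_sum fun m hm => ?_
        rw [Finset.mem_range] at hm
        refine hg.anti (hpos _) (hpos _) ?_
        refine Finset.prod_le_prod (fun j _ => (hg.pos _).le) fun j _ => hg.mono ?_
        refine min_le_min le_rfl ?_
        split_ifs <;> omega
    _ ≤ ∑ m ∈ Finset.range (x k), G (∏ j ∈ Finset.univ.erase k,
          φ (min (x j) (m + if j < k then 1 else 0))) :=
        Finset.sum_le_sum_of_subset_of_nonneg (Finset.range_subset_range.2 hm)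
          fun _ _ _ => hg.nonneg _
    _ ≤ Psi G φ x := by
        unfold Psi
        exact Finset.single_le_sum (f := fun k : Fin d => ∑ m ∈ Finset.range (x k),
          G (∏ j ∈ Finset.univ.erase k, φ (min (x j) (m + if j < k then 1 else 0))))
          (fun k _ => Finset.sum_nonneg fun _ _ => hg.nonneg _) (Finset.mem_univ k)

end BTP
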