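import Pool.Agent.BTS.V12
import Pool.Agent.BTS.G7
import Pool.Agent.BTP.S3

set_option autoImplicit false

open scoped Classical
open Finset

namespace BTS
open BTP

variable {d : ℕ} (a : Pa d)

/-- the number of sites needed for a box of extent `y` -/
def ms (y : ℕ) : ℕ := (y + 3) / 2

/-- [BTS-S10a] the probability of a small box. (`Pr_IG_le` with `m = ms y`) -/
theorem Pr_small {S : Box d} (hS : Ne S) {y : ℕ} (hy : Ys S = y) (V : Finset (Site d)) :
    Pr V a.p (IG S) ≤ (((y : ℝ) + 1) ^ d * a.p) ^ ms y := by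
  have h1 := Pr_IG_le (p_nonneg a) (p_le_one a) V S hS (ms y) (by
    rw [hy]
    unfold ms
    omega)
  rw [hy] at h1
  simpa using h1

/-- the growth in an axis is nonnegative -/
theorem s10a_g_nonneg {T S : Box d} (hT : Ne T) (l : Fin d) :
    0 ≤ (sd (T ⊔ S) l : ℝ) - sd T l := by
  have h := sd_mono hT (le_sup_left : T ≤ T ⊔ S) l
  have : (sd T l : ℝ) ≤ sd (T ⊔ S) l := by exact_mod_cast h
  linarith

/-- the growth in an axis is at least one -/
theorem s10a_g_one {T S : Box d} (hT : Ne T) {j : Dir d} (h : T j < S j) :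
    1 ≤ (sd (T ⊔ S) j.1 : ℝ) - sd T j.1 := by
  have h1 := sd_cast hT j.1
  have h2 := sd_cast (Ne.sup_left (S := S) hT) j.1
  have h3 : T (j.1, true) ≤ (T ⊔ S) (j.1, true) := (le_sup_left : T ≤ T ⊔ S) _
  have h4 : T (j.1, false) ≤ (T ⊔ S) (j.1, false) := (le_sup_left : T ≤ T ⊔ S) _
  have h5 : S j ≤ (T ⊔ S) j := (le_sup_right : S ≤ T ⊔ S) _
  obtain ⟨l, b⟩ := j
  have h6 : sd T l + 1 ≤ sd (T ⊔ S) l := by
    cases b
    · simp only at h1 h2 h3 h4 h5 h
      omega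
    · simp only at h1 h2 h3 h4 h5 h
      omega
  have h7 : ((sd T l : ℝ)) + 1 ≤ sd (T ⊔ S) l := by exact_mod_cast h6
  simp only
  linarith

/-- the total growth -/
theorem s10a_total {T S : Box d} (hT : Ne T) (hS : Ne S) (hn : near T S) {y : ℕ} (hy : Ys S = y) :
    ∑ l, ((sd (T ⊔ S) l : ℝ) - sd T l) ≤ y + 2 := by
  have h1 := Ys_eq hT
  have h2 := Ys_eq (Ne.sup_left (S := S) hT)
  have h3 := Ys_sup_le hT hS hn
  have h4 : ∑ l, ((sd (T ⊔ S) l : ℤ) - sd T l) = Ys (T ⊔ S) - Ys T := by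
    rw [h1, h2, ← Finset.sum_sub_distrib]
    refine Finset.sum_congr rfl fun l _ => ?_
    ring
  have h5 : ∑ l, ((sd (T ⊔ S) l : ℤ) - sd T l) ≤ y + 2 := by
    rw [h4]
    omega
  exact_mod_cast h5

/-- [BTS-S10a] the cost of the growth by `S` in at least two axes.
PROOF. `Ps_grow` with `T' = T ⊔ S`; `g(z_l) ≤ g(zm)`; the total growth `∑ (sd T' l - sd T l) = Ys (T ⊔ S) - Ys T ≤ y + 2` (`Ys_sup_le`, `Ys_eq`), and the growth in the axes `j.1`, `j'.1` is at least `1`. -/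
theorem grow_two {T S : Box d} (hT : Ne T) (hS : Ne S) (hn : near T S) {y : ℕ} (hy : Ys S = y)
    {j j' : Dir d} (hj : j.1 ≠ j'.1) (h : T j < S j) (h' : T j' < S j') :
    a.Ps (T ⊔ S) ≤ a.Ps T + gg (a.z T j.1) + gg (a.z T j'.1) + y * gg (a.zm T) := by
  have hm : ∀ l, gg (a.z T l) ≤ gg (a.zm T) := fun l =>
    gg_anti (zm_pos a T) ((zm_spec a T).2 l)
  have hg0 : 0 ≤ gg (a.zm T) := gg_nonneg (zm_pos a T)
  have h1 := Ps_grow a hT (le_sup_left : T ≤ T ⊔ S)
  have htot := s10a_total hT hS hn hy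
  have h2 : ∑ l, ((sd (T ⊔ S) l : ℝ) - sd T l) * gg (a.z T l) ≤
      ∑ l, ((if l = j.1 then gg (a.z T l) else 0) + (if l = j'.1 then gg (a.z T l) else 0) +
        (((sd (T ⊔ S) l : ℝ) - sd T l) - (if l = j.1 then 1 else 0) -
          (if l = j'.1 then 1 else 0)) * gg (a.zm T)) := by
    refine Finset.sum_le_sum fun l _ => ?_
    have hl := hm l
    have h0 := s10a_g_nonneg (S := S) hT l
    by_cases e1 : l = j.1
    · have e2 : ¬ (l = j'.1) := fun e => hj (e1.symm.trans e)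
      rw [if_pos e1, if_neg e2, if_pos e1, if_neg e2]
      have h3 : 1 ≤ (sd (T ⊔ S) l : ℝ) - sd T l := by
        rw [e1]
        exact s10a_g_one hT h
      nlinarith
    · rw [if_neg e1, if_neg e1]
      by_cases e2 : l = j'.1
      · rw [if_pos e2, if_pos e2]
        have h3 : 1 ≤ (sd (T ⊔ S) l : ℝ) - sd T l := by
          rw [e2]
          exact s10a_g_one hT h'
        nlinarith
      · rw [if_neg e2, if_neg e2]
        nlinarith
  have h3 : ∑ l, ((if l = j.1 then gg (a.z T l) else 0) + (if l = j'.1 then gg (a.z T l) else 0) +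
        (((sd (T ⊔ S) l : ℝ) - sd T l) - (if l = j.1 then 1 else 0) -
          (if l = j'.1 then 1 else 0)) * gg (a.zm T)) =
      gg (a.z T j.1) + gg (a.z T j'.1) +
        (∑ l, ((sd (T ⊔ S) l : ℝ) - sd T l) - 1 - 1) * gg (a.zm T) := by
    rw [Finset.sum_add_distrib, Finset.sum_add_distrib, ← Finset.sum_mul,
      Finset.sum_sub_distrib, Finset.sum_sub_distrib]
    simp
  have h4 : (∑ l, ((sd (T ⊔ S) l : ℝ) - sd T l) - 1 - 1) * gg (a.zm T) ≤ y * gg (a.zm T) :=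
    mul_le_mul_of_nonneg_right (by linarith) hg0
  linarith

/-- [BTS-S10a] PROOF. `Ps_grow`, total growth at most `y + 2`. -/
theorem grow_any {T S : Box d} (hT : Ne T) (hS : Ne S) (hn : near T S) {y : ℕ} (hy : Ys S = y) :
    a.Ps (T ⊔ S) ≤ a.Ps T + (y + 2) * gg (a.zm T) := by
  have hm : ∀ l, gg (a.z T l) ≤ gg (a.zm T) := fun l =>
    gg_anti (zm_pos a T) ((zm_spec a T).2 l)
  have hg0 : 0 ≤ gg (a.zm T) := gg_nonneg (zm_pos a T)
  have h1 := Ps_grow a hT (le_sup_left : T ≤ T ⊔ S)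
  have htot := s10a_total hT hS hn hy
  have h2 : ∑ l, ((sd (T ⊔ S) l : ℝ) - sd T l) * gg (a.z T l) ≤
      (∑ l, ((sd (T ⊔ S) l : ℝ) - sd T l)) * gg (a.zm T) := by
    rw [Finset.sum_mul]
    exact Finset.sum_le_sum fun l _ => mul_le_mul_of_nonneg_left (hm l) (s10a_g_nonneg hT l)
  have h3 : (∑ l, ((sd (T ⊔ S) l : ℝ) - sd T l)) * gg (a.zm T) ≤ (y + 2) * gg (a.zm T) :=
    mul_le_mul_of_nonneg_right htot hg0
  linarith

end BTS
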