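import Pool.Agent.BTS.D1
import Pool.Agent.BTP.G2

set_option autoImplicit false

open scoped Classical
open Finset

namespace BTS
open BTP

/-! ## The value of one direction -/

theorem a1a_exp_le_one {q n : ℝ} (hq : 0 ≤ q) (h1 : 0 ≤ n) : Real.exp (-(q * n)) ≤ 1 := by
  rw [Real.exp_le_one_iff]
  have := mul_nonneg hq h1
  linarith

/-- [BTS-A1a] all terms are nonnegative, the weights sum to `1`, `θ ≤ x`, `θ ≤ x²`. -/
theorem bv_ge {q x th n1 n2 : ℝ} (hq : 0 ≤ q) (hx : 1 ≤ x) (ht : th ≤ 1) (h1 : 0 ≤ n1)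
    (h2 : 0 ≤ n2) : th ≤ bv q x th n1 n2 := by
  unfold bv
  have ha := a1a_exp_le_one hq h1
  have hb := a1a_exp_le_one hq h2
  have ha0 := Real.exp_pos (-(q * n1))
  have hb0 := Real.exp_pos (-(q * n2))
  set α := Real.exp (-(q * n1))
  set β := Real.exp (-(q * n2))
  have hx2 : th ≤ x ^ 2 := by nlinarith
  have e1 : 0 ≤ (1 - α) * (x - th) := mul_nonneg (by linarith) (by linarith)
  have e2 : 0 ≤ α * ((1 - β) * (x ^ 2 - th)) :=
    mul_nonneg ha0.le (mul_nonneg (by linarith) (by linarith))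
  nlinarith

theorem bv_nonneg {q x th n1 n2 : ℝ} (hq : 0 ≤ q) (hx : 1 ≤ x) (ht : 0 ≤ th) (h1 : 0 ≤ n1)
    (h2 : 0 ≤ n2) : 0 ≤ bv q x th n1 n2 := by
  unfold bv
  have ha := a1a_exp_le_one hq h1
  have hb := a1a_exp_le_one hq h2
  have ha0 := Real.exp_pos (-(q * n1))
  have hb0 := Real.exp_pos (-(q * n2))
  have e1 : 0 ≤ (1 - Real.exp (-(q * n1))) * x := mul_nonneg (by linarith) (by linarith)
  have e2 : 0 ≤ (1 - Real.exp (-(q * n2))) * x ^ 2 := mul_nonneg (by linarith) (by positivity)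
  have e3 : 0 ≤ Real.exp (-(q * n2)) * th := mul_nonneg hb0.le ht
  have e4 := mul_nonneg ha0.le (add_nonneg e2 e3)
  linarith

/-- [BTS-A1a] the defining property of `g`: `u e^g + u (1-u) e^{2g} = 1`, `u = 1 - e^{-z}`.
PROOF. `exp_neg_gg`: `e^{-g} = β(u)`, `bet_sq`: `β² = u β + u(1-u)`; divide by `β²` (`bet_pos`). -/
theorem gg_eq {z : ℝ} (hz : 0 < z) : (1 - Real.exp (-z)) * Real.exp (gg z) +
    (1 - Real.exp (-z)) * Real.exp (-z) * Real.exp (gg z) ^ 2 = 1 := by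
  have hu := g2_u_pos hz
  have hu1 := g2_u_lt z
  have hb := bet_pos hu
  have h2 := bet_sq hu.le hu1.le
  have h3 : Real.exp (gg z) = (bet (1 - Real.exp (-z)))⁻¹ := by
    rw [← exp_neg_gg hz, Real.exp_neg, inv_inv]
  rw [h3]
  set b := bet (1 - Real.exp (-z))
  have h4 : 1 - (1 - Real.exp (-z)) = Real.exp (-z) := by ring
  rw [h4] at h2
  field_simp
  linarith

/-- the reduced value `R(n₂) ≤ R = u x² + (1 - u) θ` and `u x + (1 - u) R ≤ 1`, `R ≤ 1 ≤ x` -/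
theorem a1a_key {z th : ℝ} (hz : 0 < z) (ht0 : 0 ≤ th) (ht : th ≤ 1 / 2)
    (hx : 0 ≤ gg z - 2 * th * Real.exp (-(2 * z))) :
    1 ≤ Real.exp (gg z - 2 * th * Real.exp (-(2 * z))) ∧
    (1 - Real.exp (-z)) * Real.exp (gg z - 2 * th * Real.exp (-(2 * z))) +
      Real.exp (-z) * ((1 - Real.exp (-z)) * Real.exp (gg z - 2 * th * Real.exp (-(2 * z))) ^ 2 +
        Real.exp (-z) * th) ≤ 1 ∧
    (1 - Real.exp (-z)) * Real.exp (gg z - 2 * th * Real.exp (-(2 * z))) ^ 2 +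
        Real.exp (-z) * th ≤ 1 := by
  have hg := gg_eq hz
  have hu := g2_u_pos hz
  have he0 := Real.exp_pos (-z)
  have he2 : Real.exp (-(2 * z)) = Real.exp (-z) ^ 2 := by
    rw [← Real.exp_nat_mul]
    congr 1
    push_cast
    ring
  have hx1 : 1 ≤ Real.exp (gg z - 2 * th * Real.exp (-(2 * z))) := Real.one_le_exp hx
  rw [he2] at hx hx1 ⊢
  set e := Real.exp (-z) with he
  have he1 : e < 1 := by linarith
  set c := 2 * th * e ^ 2 with hc
  have hc0 : 0 ≤ c := by positivity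
  have hc1 : c ≤ 1 := by
    have : e ^ 2 ≤ 1 := by nlinarith
    rw [hc]
    nlinarith
  have hxX : Real.exp (gg z - c) = Real.exp (-c) * Real.exp (gg z) := by
    rw [← Real.exp_add]
    congr 1
    ring
  have hX0 := Real.exp_pos (gg z)
  set X := Real.exp (gg z)
  have hk0 := Real.exp_pos (-c)
  have hk1 : Real.exp (-c) ≤ 1 - c / 2 := by
    have h1 : 1 + c ≤ Real.exp c := by
      have := Real.add_one_le_exp c
      linarith
    have h2 : Real.exp (-c) * Real.exp c = 1 := by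
      rw [← Real.exp_add]
      simp
    by_contra hcon
    push Not at hcon
    have h3 : (1 - c / 2) * (1 + c) < Real.exp (-c) * Real.exp c := by
      have h4 : (1 - c / 2) * (1 + c) < Real.exp (-c) * (1 + c) :=
        mul_lt_mul_of_pos_right hcon (by linarith)
      have h5 : Real.exp (-c) * (1 + c) ≤ Real.exp (-c) * Real.exp c :=
        mul_le_mul_of_nonneg_left h1 hk0.le
      linarith
    nlinarith
  set κ := Real.exp (-c)
  set x := Real.exp (gg z - c)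
  have hκ1 : κ ≤ 1 := by linarith
  have h2 : (1 - e) * x + e * ((1 - e) * x ^ 2 + e * th) ≤ 1 := by
    have h3 : (1 - e) * e * (κ ^ 2 * X ^ 2) ≤ (1 - e) * e * (κ * X ^ 2) := by
      refine mul_le_mul_of_nonneg_left ?_ (mul_nonneg hu.le he0.le)
      refine mul_le_mul_of_nonneg_right ?_ (by positivity)
      nlinarith
    have h4 : κ * ((1 - e) * X + (1 - e) * e * X ^ 2) = κ := by rw [hg, mul_one]
    have h5 : (1 - e) * x + e * ((1 - e) * x ^ 2 + e * th) =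
        κ * ((1 - e) * X) + (1 - e) * e * (κ ^ 2 * X ^ 2) + c / 2 := by
      rw [hxX, hc]
      ring
    rw [h5]
    nlinarith
  refine ⟨hx1, h2, ?_⟩
  have h6 : (1 - e) * 1 ≤ (1 - e) * x := mul_le_mul_of_nonneg_left hx1 hu.le
  by_contra hcon
  push Not at hcon
  have h7 : e * 1 < e * ((1 - e) * x ^ 2 + e * th) := mul_lt_mul_of_pos_left hcon he0
  linarith

/-- in the second count -/
theorem a1a_R {z x th q n : ℝ} (hx : 1 ≤ x) (ht : th ≤ 1 / 2) (hn : q * n ≤ z) :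
    (1 - Real.exp (-(q * n))) * x ^ 2 + Real.exp (-(q * n)) * th ≤
      (1 - Real.exp (-z)) * x ^ 2 + Real.exp (-z) * th := by
  have h1 : Real.exp (-z) ≤ Real.exp (-(q * n)) := Real.exp_le_exp.2 (by linarith)
  have hx2 : th ≤ x ^ 2 := by nlinarith
  nlinarith [mul_nonneg (sub_nonneg.2 h1) (sub_nonneg.2 hx2)]

/-- [BTS-A1a] the value of a direction is at most `1`.
PROOF. Let `u = 1 - e^{-z}`, `x = e^{g-c}`, `c = 2 θ e^{-2z} ∈ [0, 1]`, `x ≥ 1` by `hx`. `R(n₂) = (1 - e^{-qn₂}) x² + e^{-qn₂} θ ≤ R := u x² + (1-u) θ` (`e^{-qn₂} ≥ e^{-z}`, `θ ≤ 1 ≤ x²`).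
`u x + (1-u) R = u x + u(1-u) x² + (1-u)² θ ≤ e^{-c} (u e^g + u(1-u) e^{2g}) + e^{-2z} θ = e^{-c} + c/2 ≤ 1` (`gg_eq`; `x = e^{-c} e^g`, `x² ≤ e^{-c} e^{2g}`; `e^{-c} ≤ 1 - c + c²/2`). So `R ≤ (1 - u x)/(1-u) ≤ 1 ≤ x` and, with `α = e^{-q n₁} ≥ 1 - u`:
`bv = x - α (x - R(n₂)) ≤ x - α (x - R) ≤ x - (1-u)(x - R) = u x + (1-u) R ≤ 1`. -/
theorem bv_le_one {q z th n1 n2 : ℝ} (hq : 0 ≤ q) (hz : 0 < z) (ht0 : 0 ≤ th) (ht : th ≤ 1 / 2)
    (hx : 0 ≤ gg z - 2 * th * Real.exp (-(2 * z))) (h1 : 0 ≤ n1) (h1' : q * n1 ≤ z) (h2 : 0 ≤ n2)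
    (h2' : q * n2 ≤ z) : bv q (Real.exp (gg z - 2 * th * Real.exp (-(2 * z)))) th n1 n2 ≤ 1 := by
  obtain ⟨k1, k2, k3⟩ := a1a_key hz ht0 ht hx
  unfold bv
  set x := Real.exp (gg z - 2 * th * Real.exp (-(2 * z)))
  have hR := a1a_R (z := z) (q := q) (n := n2) k1 ht h2'
  set R2 := (1 - Real.exp (-(q * n2))) * x ^ 2 + Real.exp (-(q * n2)) * th
  set R := (1 - Real.exp (-z)) * x ^ 2 + Real.exp (-z) * th
  have ha : Real.exp (-z) ≤ Real.exp (-(q * n1)) := Real.exp_le_exp.2 (by linarith)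
  have ha0 := Real.exp_pos (-(q * n1))
  set α := Real.exp (-(q * n1))
  set e := Real.exp (-z)
  have h3 : α * R2 ≤ α * R := mul_le_mul_of_nonneg_left hR ha0.le
  have h4 : 0 ≤ (α - e) * (x - R) := mul_nonneg (by linarith) (by linarith)
  nlinarith

/-- [BTS-A1a] monotone in the counts (as long as `q n₂ ≤ z`).
PROOF. In `n₂`: `x² ≥ θ`. In `n₁`: `bv = x - e^{-qn₁}(x - R(n₂))` and `R(n₂) ≤ x` as shown in `bv_le_one` (`R(n₂) ≤ R ≤ 1 ≤ x`). -/
theorem bv_mono {q z th n1 n2 m1 m2 : ℝ} (hq : 0 ≤ q) (hz : 0 < z) (ht0 : 0 ≤ th) (ht : th ≤ 1 / 2)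
    (hx : 0 ≤ gg z - 2 * th * Real.exp (-(2 * z))) (h0 : 0 ≤ n1) (h1 : n1 ≤ m1) (h0' : 0 ≤ n2)
    (h2 : n2 ≤ m2) (hm : q * m2 ≤ z) :
    bv q (Real.exp (gg z - 2 * th * Real.exp (-(2 * z)))) th n1 n2 ≤
      bv q (Real.exp (gg z - 2 * th * Real.exp (-(2 * z)))) th m1 m2 := by
  obtain ⟨k1, k2, k3⟩ := a1a_key hz ht0 ht hx
  unfold bv
  set x := Real.exp (gg z - 2 * th * Real.exp (-(2 * z)))
  have hR2 := a1a_R (z := q * m2) (q := q) (n := n2) k1 ht (mul_le_mul_of_nonneg_left h2 hq)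
  have hR := a1a_R (z := z) (q := q) (n := m2) k1 ht hm
  set R2 := (1 - Real.exp (-(q * n2))) * x ^ 2 + Real.exp (-(q * n2)) * th
  set R2' := (1 - Real.exp (-(q * m2))) * x ^ 2 + Real.exp (-(q * m2)) * th
  have ha : Real.exp (-(q * m1)) ≤ Real.exp (-(q * n1)) :=
    Real.exp_le_exp.2 (by linarith [mul_le_mul_of_nonneg_left h1 hq])
  have ha0 := Real.exp_pos (-(q * n1))
  set α := Real.exp (-(q * n1))
  set α' := Real.exp (-(q * m1))
  have h3 : α * R2 ≤ α * R2' := mul_le_mul_of_nonneg_left hR2 ha0.le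
  have h4 : 0 ≤ (α - α') * (x - R2') := mul_nonneg (by linarith) (by linarith)
  nlinarith

end BTS
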