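import Pool.Agent.BTS.A1a
import Pool.Agent.BTS.D1
import Pool.Agent.BTP.G2

set_option autoImplicit false

open scoped Classical
open Finset

namespace BTS
open BTP

/-! ## The value of one direction -/

/-- [BTS-A1b] new sites.
PROOF. Let `α = e^{-qn₁}`, `β = e^{-qn₂}`, `τ = e^{-qΔ}`. `bv(n₁+Δ, n₂+Δ) - bv(n₁, n₂) = α(1-τ)x + α x² [τ(1-βτ) - (1-β)] + αβθ(τ²-1) ≤ (1-τ) x + 2 (1-τ) x² ≤ 3 (1-τ) x²`, as `τ - βτ² - 1 + β = -(1-τ) + β(1-τ²) ≤ 2(1-τ)`; and `1 - τ ≤ qΔ`. Finally `θ ≤ bv(n₁,n₂)` (`bv_ge`). -/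
theorem bv_shift {q x th n1 n2 D : ℝ} (hq : 0 ≤ q) (hx : 1 ≤ x) (ht0 : 0 < th) (ht : th ≤ 1)
    (h1 : 0 ≤ n1) (h2 : 0 ≤ n2) (hD : 0 ≤ D) :
    bv q x th (n1 + D) (n2 + D) ≤ bv q x th n1 n2 * (1 + 3 * (q * D) * x ^ 2 / th) := by
  have hbv := bv_ge (th := th) hq hx ht h1 h2
  set α : ℝ := Real.exp (-(q * n1)) with hα
  set β : ℝ := Real.exp (-(q * n2)) with hβ
  set τ : ℝ := Real.exp (-(q * D)) with hτ
  have hα0 : 0 < α := Real.exp_pos _
  have hβ0 : 0 < β := Real.exp_pos _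
  have hτ0 : 0 < τ := Real.exp_pos _
  have hα1 : α ≤ 1 := Real.exp_le_one_iff.2 (by nlinarith [mul_nonneg hq h1])
  have hβ1 : β ≤ 1 := Real.exp_le_one_iff.2 (by nlinarith [mul_nonneg hq h2])
  have hτ1 : τ ≤ 1 := Real.exp_le_one_iff.2 (by nlinarith [mul_nonneg hq hD])
  have hτ2 : 1 - τ ≤ q * D := by
    have := Real.add_one_le_exp (-(q * D))
    rw [hτ]
    linarith
  have e1 : Real.exp (-(q * (n1 + D))) = α * τ := by
    rw [hα, hτ, ← Real.exp_add]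
    congr 1
    ring
  have e2 : Real.exp (-(q * (n2 + D))) = β * τ := by
    rw [hβ, hτ, ← Real.exp_add]
    congr 1
    ring
  have hx2 : x ≤ x ^ 2 := by nlinarith
  have hx20 : 0 ≤ x ^ 2 := sq_nonneg x
  have hmain : bv q x th (n1 + D) (n2 + D) - bv q x th n1 n2 ≤ 3 * (q * D) * x ^ 2 := by
    unfold bv
    rw [e1, e2, ← hα, ← hβ]
    have e3 : (1 - α * τ) * x + α * τ * ((1 - β * τ) * x ^ 2 + β * τ * th) -
        ((1 - α) * x + α * ((1 - β) * x ^ 2 + β * th)) =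
        α * ((1 - τ) * x + x ^ 2 * (-(1 - τ) + β * (1 - τ ^ 2))) - α * β * th * (1 - τ ^ 2) := by ring
    rw [e3]
    have h3 : 0 ≤ 1 - τ := by linarith
    have h4 : 0 ≤ 1 - τ ^ 2 := by nlinarith
    have h5 : 1 - τ ^ 2 ≤ 2 * (1 - τ) := by nlinarith
    have h6 : 0 ≤ α * β * th * (1 - τ ^ 2) := by positivity
    have h7 : β * (1 - τ ^ 2) ≤ 1 - τ ^ 2 := by nlinarith
    have h8 : (1 - τ) * x + x ^ 2 * (-(1 - τ) + β * (1 - τ ^ 2)) ≤ 2 * (1 - τ) * x ^ 2 := by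
      have h9 : x ^ 2 * (-(1 - τ) + β * (1 - τ ^ 2)) ≤ x ^ 2 * (1 - τ) :=
        mul_le_mul_of_nonneg_left (by linarith) hx20
      have h10 : (1 - τ) * x ≤ (1 - τ) * x ^ 2 := mul_le_mul_of_nonneg_left hx2 h3
      linarith
    have h11 : α * ((1 - τ) * x + x ^ 2 * (-(1 - τ) + β * (1 - τ ^ 2))) ≤ 2 * (1 - τ) * x ^ 2 := by
      have h12 : α * ((1 - τ) * x + x ^ 2 * (-(1 - τ) + β * (1 - τ ^ 2))) ≤
          α * (2 * (1 - τ) * x ^ 2) := mul_le_mul_of_nonneg_left h8 hα0.le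
      have h13 : α * (2 * (1 - τ) * x ^ 2) ≤ 1 * (2 * (1 - τ) * x ^ 2) :=
        mul_le_mul_of_nonneg_right hα1 (by positivity)
      linarith
    have h14 : (1 - τ) * x ^ 2 ≤ (q * D) * x ^ 2 := mul_le_mul_of_nonneg_right hτ2 hx20
    have h15 : 0 ≤ (q * D) * x ^ 2 := by positivity
    linarith
  have h3 : 3 * (q * D) * x ^ 2 ≤ bv q x th n1 n2 * (3 * (q * D) * x ^ 2 / th) := by
    rw [mul_div_assoc', le_div_iff₀ ht0]
    have h4 : 0 ≤ 3 * (q * D) * x ^ 2 := by positivity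
    nlinarith
  rw [mul_add, mul_one]
  linarith

/-- [BTS-A1b] change of the parameters. PROOF. Each of the three terms is multiplied by at most `e^{2η}` or `e^{η'}`. -/
theorem bv_param {q x x' th th' n1 n2 e e' : ℝ} (hq : 0 ≤ q) (hx : 1 ≤ x) (hth : 0 ≤ th)
    (he : 0 ≤ e) (he' : 0 ≤ e') (hx' : x' ≤ x * Real.exp e) (hx0 : 0 ≤ x')
    (ht' : th' ≤ th * Real.exp e') (h1 : 0 ≤ n1) (h2 : 0 ≤ n2) :
    bv q x' th' n1 n2 ≤ Real.exp (2 * e + e') * bv q x th n1 n2 := by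
  have hα0 : 0 < Real.exp (-(q * n1)) := Real.exp_pos _
  have hβ0 : 0 < Real.exp (-(q * n2)) := Real.exp_pos _
  have hα1 : Real.exp (-(q * n1)) ≤ 1 := Real.exp_le_one_iff.2 (by nlinarith [mul_nonneg hq h1])
  have hβ1 : Real.exp (-(q * n2)) ≤ 1 := Real.exp_le_one_iff.2 (by nlinarith [mul_nonneg hq h2])
  unfold bv
  set α : ℝ := Real.exp (-(q * n1)) with hα
  set β : ℝ := Real.exp (-(q * n2)) with hβ
  have hx00 : 0 ≤ x := by linarith
  have h3 : x' ≤ Real.exp (2 * e + e') * x := by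
    have h4 : Real.exp e ≤ Real.exp (2 * e + e') := Real.exp_le_exp.2 (by linarith)
    nlinarith
  have h5 : x' ^ 2 ≤ Real.exp (2 * e + e') * x ^ 2 := by
    have h6 : x' ^ 2 ≤ (x * Real.exp e) ^ 2 := pow_le_pow_left₀ hx0 hx' 2
    have h7 : (x * Real.exp e) ^ 2 = Real.exp (2 * e) * x ^ 2 := by
      rw [mul_pow, ← Real.exp_nat_mul]
      push_cast
      ring
    have h8 : Real.exp (2 * e) ≤ Real.exp (2 * e + e') := Real.exp_le_exp.2 (by linarith)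
    have h9 : Real.exp (2 * e) * x ^ 2 ≤ Real.exp (2 * e + e') * x ^ 2 :=
      mul_le_mul_of_nonneg_right h8 (sq_nonneg x)
    linarith
  have h10 : th' ≤ Real.exp (2 * e + e') * th := by
    have h11 : Real.exp e' ≤ Real.exp (2 * e + e') := Real.exp_le_exp.2 (by linarith)
    nlinarith
  have t1 : (1 - α) * x' ≤ (1 - α) * (Real.exp (2 * e + e') * x) :=
    mul_le_mul_of_nonneg_left h3 (by linarith)
  have t2 : (1 - β) * x' ^ 2 ≤ (1 - β) * (Real.exp (2 * e + e') * x ^ 2) :=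
    mul_le_mul_of_nonneg_left h5 (by linarith)
  have t3 : β * th' ≤ β * (Real.exp (2 * e + e') * th) := mul_le_mul_of_nonneg_left h10 hβ0.le
  have t4 : α * ((1 - β) * x' ^ 2 + β * th') ≤
      α * ((1 - β) * (Real.exp (2 * e + e') * x ^ 2) + β * (Real.exp (2 * e + e') * th)) :=
    mul_le_mul_of_nonneg_left (add_le_add t2 t3) hα0.le
  calc (1 - α) * x' + α * ((1 - β) * x' ^ 2 + β * th') ≤
      (1 - α) * (Real.exp (2 * e + e') * x) +
      α * ((1 - β) * (Real.exp (2 * e + e') * x ^ 2) + β * (Real.exp (2 * e + e') * th)) :=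
        add_le_add t1 t4
    _ = Real.exp (2 * e + e') * ((1 - α) * x + α * ((1 - β) * x ^ 2 + β * th)) := by ring

/-- [BTS-A1b] revealing a site of the first layer (`1 - p = e^{-q}`) -/
theorem bv_reveal1 {q x th n1 n2 : ℝ} :
    bv q x th n1 n2 - Real.exp (-q) * bv q x th (n1 - 1) n2 = (1 - Real.exp (-q)) * x := by
  unfold bv
  have e1 : Real.exp (-(q * n1)) = Real.exp (-q) * Real.exp (-(q * (n1 - 1))) := by
    rw [← Real.exp_add]
    congr 1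
    ring
  rw [e1]
  ring

/-- [BTS-A1b] revealing a site of the second layer, when the first layer is explored -/
theorem bv_reveal2 {q x th n2 : ℝ} :
    bv q x th 0 n2 - Real.exp (-q) * bv q x th 0 (n2 - 1) = (1 - Real.exp (-q)) * x ^ 2 := by
  unfold bv
  have e1 : Real.exp (-(q * n2)) = Real.exp (-q) * Real.exp (-(q * (n2 - 1))) := by
    rw [← Real.exp_add]
    congr 1
    ring
  rw [e1, mul_zero, neg_zero, Real.exp_zero]
  ring

end BTS
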