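import Pool.Agent.BTS.D1

set_option autoImplicit false

open scoped Classical
open Finset

namespace BTS
open BTP

variable {d : ℕ}

/-! ## The value of a state -/

theorem Phi_nonneg {O : Finset (Dir d)} {b : Dir d → ℝ} {e : Dir d → Dir d → ℝ}
    (hb : ∀ l ∈ O, 0 ≤ b l) (he : ∀ i j, 0 ≤ e i j) : 0 ≤ Phi O b e := by
  unfold Phi
  refine add_nonneg (Finset.prod_nonneg hb) (Finset.sum_nonneg fun i _ => Finset.sum_nonneg fun j _ =>
    mul_nonneg (he i j) (Finset.prod_nonneg fun l hl => hb l ?_))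
  exact Finset.mem_of_mem_erase (Finset.mem_of_mem_erase hl)

theorem prod_le_Phi {O : Finset (Dir d)} {b : Dir d → ℝ} {e : Dir d → Dir d → ℝ}
    (hb : ∀ l ∈ O, 0 ≤ b l) (he : ∀ i j, 0 ≤ e i j) : ∏ l ∈ O, b l ≤ Phi O b e := by
  unfold Phi
  refine le_add_of_nonneg_right (Finset.sum_nonneg fun i _ => Finset.sum_nonneg fun j _ =>
    mul_nonneg (he i j) (Finset.prod_nonneg fun l hl => hb l ?_))
  exact Finset.mem_of_mem_erase (Finset.mem_of_mem_erase hl)

/-- [BTS-A2a] -/
theorem Phi_mono {O : Finset (Dir d)} {b b' : Dir d → ℝ} {e e' : Dir d → Dir d → ℝ}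
    (hb : ∀ l ∈ O, 0 ≤ b l) (hbb : ∀ l ∈ O, b l ≤ b' l) (he : ∀ i j, 0 ≤ e i j)
    (hee : ∀ i j, e i j ≤ e' i j) : Phi O b e ≤ Phi O b' e' := by
  unfold Phi
  refine add_le_add (Finset.prod_le_prod hb hbb) (Finset.sum_le_sum fun i _ => Finset.sum_le_sum fun j _ => ?_)
  have hm : ∀ l ∈ (O.erase i).erase j, l ∈ O := fun l hl =>
    Finset.mem_of_mem_erase (Finset.mem_of_mem_erase hl)
  refine mul_le_mul (hee i j) (Finset.prod_le_prod (fun l hl => hb l (hm l hl)) fun l hl => hbb l (hm l hl))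
    (Finset.prod_nonneg fun l hl => hb l (hm l hl)) ((he i j).trans (hee i j))

/-- [BTS-A2a] only the values on `O` matter -/
theorem Phi_congr {O : Finset (Dir d)} {b b' : Dir d → ℝ} {e e' : Dir d → Dir d → ℝ}
    (hb : ∀ l ∈ O, b l = b' l) (he : ∀ i ∈ O, ∀ j ∈ O, i ≠ j → e i j = e' i j) :
    Phi O b e = Phi O b' e' := by
  unfold Phi
  rw [Finset.prod_congr rfl hb]
  congr 1
  refine Finset.sum_congr rfl fun i hi => Finset.sum_congr rfl fun j hj => ?_
  rw [he i hi j (Finset.mem_of_mem_erase hj) (Ne.symm (Finset.ne_of_mem_erase hj))]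
  congr 1
  refine Finset.prod_congr rfl fun l hl => hb l ?_
  exact Finset.mem_of_mem_erase (Finset.mem_of_mem_erase hl)

/-- [BTS-A2a] splitting off one direction.
PROOF. `∏_O b = b j ∏_{O.erase j} b`. The pairs `(i, l)` with `i, l ≠ j` give `b j * e i l ∏_{((O.erase j).erase i).erase l} b`; the pairs `(j, l)` and `(l, j)` give the last sum (`he`: `e` is symmetric). -/
theorem Phi_split {O : Finset (Dir d)} {j : Dir d} (hj : j ∈ O) (b : Dir d → ℝ)
    (e : Dir d → Dir d → ℝ) (he : ∀ i j, e i j = e j i) :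
    Phi O b e = b j * Phi (O.erase j) b e +
      2 * ∑ l ∈ O.erase j, e j l * ∏ m ∈ (O.erase j).erase l, b m := by
  unfold Phi
  rw [← Finset.mul_prod_erase O b hj, ← Finset.add_sum_erase O (fun i => ∑ l ∈ O.erase i, e i l * ∏ m ∈ (O.erase i).erase l, b m) hj]
  have h1 : ∀ i ∈ O.erase j, ∑ l ∈ O.erase i, e i l * ∏ m ∈ (O.erase i).erase l, b m =
      e j i * ∏ m ∈ (O.erase j).erase i, b m +
        b j * ∑ l ∈ (O.erase j).erase i, e i l * ∏ m ∈ ((O.erase j).erase i).erase l, b m := by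
    intro i hi
    have hij : j ∈ O.erase i := Finset.mem_erase.mpr ⟨Ne.symm (Finset.ne_of_mem_erase hi), hj⟩
    rw [← Finset.add_sum_erase (O.erase i) (fun l => e i l * ∏ m ∈ (O.erase i).erase l, b m) hij]
    show e i j * ∏ m ∈ (O.erase i).erase j, b m + ∑ l ∈ (O.erase i).erase j, e i l * ∏ m ∈ (O.erase i).erase l, b m = _
    rw [he i j, Finset.erase_right_comm (a := i) (b := j), Finset.mul_sum]
    congr 1
    refine Finset.sum_congr rfl fun l hl => ?_
    have hl' : l ∈ O.erase j := Finset.mem_of_mem_erase hl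
    have hjl : j ∈ (O.erase i).erase l := Finset.mem_erase.mpr ⟨Ne.symm (Finset.ne_of_mem_erase hl'), hij⟩
    rw [← Finset.mul_prod_erase ((O.erase i).erase l) b hjl]
    have h2 : ((O.erase i).erase l).erase j = ((O.erase j).erase i).erase l := by
      rw [Finset.erase_right_comm (a := l) (b := j), Finset.erase_right_comm (a := i) (b := j)]
    rw [h2]
    ring
  rw [Finset.sum_congr rfl h1, Finset.sum_add_distrib, ← Finset.mul_sum]
  ring

/-- [BTS-A2a] PROOF. `Phi_split`, `b j ≤ 1`, `∏_{(O.erase j).erase l} b ≤ ∏_{O.erase j} b / th l ≤ Phi (O.erase j) / th l` (`th l ≤ b l`, `prod_le_Phi`). -/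
theorem Phi_le_erase {O : Finset (Dir d)} {j : Dir d} (b th : Dir d → ℝ)
    (e : Dir d → Dir d → ℝ) (he : ∀ i j, e i j = e j i) (he0 : ∀ i j, 0 ≤ e i j)
    (hth : ∀ l, 0 < th l) (hb : ∀ l ∈ O, th l ≤ b l) (hbj : b j ≤ 1) :
    Phi O b e ≤ (1 + 2 * ∑ l ∈ O.erase j, e j l / th l) * Phi (O.erase j) b e := by
  have hpos : ∀ l ∈ O, 0 < b l := fun l hl => (hth l).trans_le (hb l hl)
  have hpos' : ∀ l ∈ O.erase j, 0 < b l := fun l hl => hpos l (Finset.mem_of_mem_erase hl)
  have hPhi : 0 ≤ Phi (O.erase j) b e := Phi_nonneg (fun l hl => (hpos' l hl).le) he0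
  have hS : 0 ≤ ∑ l ∈ O.erase j, e j l / th l :=
    Finset.sum_nonneg fun l _ => div_nonneg (he0 j l) (hth l).le
  by_cases hj : j ∈ O
  · rw [Phi_split hj b e he]
    have h1 : ∑ l ∈ O.erase j, e j l * ∏ m ∈ (O.erase j).erase l, b m ≤
        (∑ l ∈ O.erase j, e j l / th l) * Phi (O.erase j) b e := by
      rw [Finset.sum_mul]
      refine Finset.sum_le_sum fun l hl => ?_
      have h2 : b l * ∏ m ∈ (O.erase j).erase l, b m = ∏ m ∈ O.erase j, b m :=
        Finset.mul_prod_erase (O.erase j) b hl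
      have h3 : ∏ m ∈ O.erase j, b m ≤ Phi (O.erase j) b e := prod_le_Phi (fun l hl => (hpos' l hl).le) he0
      have h4 : 0 ≤ ∏ m ∈ (O.erase j).erase l, b m :=
        Finset.prod_nonneg fun m hm => (hpos' m (Finset.mem_of_mem_erase hm)).le
      have h5 : th l * ∏ m ∈ (O.erase j).erase l, b m ≤ Phi (O.erase j) b e := by
        refine le_trans ?_ h3
        rw [← h2]
        exact mul_le_mul_of_nonneg_right (hb l (Finset.mem_of_mem_erase hl)) h4
      calc e j l * ∏ m ∈ (O.erase j).erase l, b m = e j l / th l * (th l * ∏ m ∈ (O.erase j).erase l, b m) := by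
            rw [div_mul_eq_mul_div, eq_div_iff (hth l).ne']
            ring
        _ ≤ e j l / th l * Phi (O.erase j) b e :=
            mul_le_mul_of_nonneg_left h5 (div_nonneg (he0 j l) (hth l).le)
    have h6 : b j * Phi (O.erase j) b e ≤ 1 * Phi (O.erase j) b e := mul_le_mul_of_nonneg_right hbj hPhi
    linarith
  · rw [Finset.erase_eq_of_notMem hj] at hPhi hS ⊢
    nlinarith [mul_nonneg hS hPhi]

end BTS
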