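import Pool.Agent.BTS.A2a
import Pool.Agent.BTS.D1

set_option autoImplicit false

open scoped Classical
open Finset

namespace BTS
open BTP

variable {d : ℕ}

/-! ## The value of a state -/

theorem a2b_card (O : Finset (Dir d)) : (O.card : ℝ) ≤ 2 * d := by
  have h1 : O.card ≤ Fintype.card (Dir d) := Finset.card_le_univ O
  have h2 : Fintype.card (Dir d) = d * 2 := by
    simp [Dir, Fintype.card_prod, Fintype.card_bool, Fintype.card_fin]
  rw [h2] at h1
  have h3 : (O.card : ℝ) ≤ ((d * 2 : ℕ) : ℝ) := by exact_mod_cast h1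
  push_cast at h3
  linarith

theorem a2b_double {O : Finset (Dir d)} {f : Dir d → Dir d → ℝ} {c : ℝ} (hc : 0 ≤ c)
    (h : ∀ i ∈ O, ∀ j ∈ O.erase i, f i j ≤ c) :
    ∑ i ∈ O, ∑ j ∈ O.erase i, f i j ≤ (2 * d) ^ 2 * c := by
  have hd : (0 : ℝ) ≤ 2 * d := by positivity
  have h1 : ∀ i ∈ O, ∑ j ∈ O.erase i, f i j ≤ 2 * d * c := by
    intro i hi
    refine (Finset.sum_le_sum (h i hi)).trans ?_
    rw [Finset.sum_const, nsmul_eq_mul]
    exact mul_le_mul_of_nonneg_right (a2b_card _) hc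
  refine (Finset.sum_le_sum h1).trans ?_
  rw [Finset.sum_const, nsmul_eq_mul]
  calc (O.card : ℝ) * (2 * d * c) ≤ (2 * d) * (2 * d * c) :=
        mul_le_mul_of_nonneg_right (a2b_card _) (by positivity)
    _ = (2 * d) ^ 2 * c := by ring

theorem a2b_prod_pair {O : Finset (Dir d)} {b : Dir d → ℝ} {i j : Dir d} (hi : i ∈ O)
    (hj : j ∈ O.erase i) : ∏ l ∈ O, b l = b i * b j * ∏ l ∈ (O.erase i).erase j, b l := by
  rw [← Finset.mul_prod_erase O b hi, ← Finset.mul_prod_erase (O.erase i) b hj]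
  ring

/-- [BTS-A2b] comparison of two states.
PROOF. `∏_{O'} b' ≤ (∏_{l ∈ O} exp (β l)) ∏_{O'} b` for every `O' ⊆ O` (all `β ≥ 0`). `Phi O b' e' ≤ E [∏_O b + ∑∑ (exp s · e i j + ρ th i th j) ∏_{..} b] ≤ E [exp s · Phi O b e + (card O)² ρ ∏_O b]`, `E = exp (∑ β)`, with `th i th j ∏_{(O.erase i).erase j} b ≤ ∏_O b`; `(card O) ≤ 2 d` and `prod_le_Phi`. Finally `exp s + (2d)² ρ ≤ exp (s + (2d)² ρ)`. -/
theorem Phi_cmp {O : Finset (Dir d)} (b b' th β : Dir d → ℝ) (e e' : Dir d → Dir d → ℝ)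
    {s ρ : ℝ} (hs : 0 ≤ s) (hρ : 0 ≤ ρ) (hth : ∀ l, 0 < th l) (hb : ∀ l ∈ O, th l ≤ b l)
    (hb0 : ∀ l ∈ O, 0 ≤ b' l) (hβ : ∀ l, 0 ≤ β l) (hbb : ∀ l ∈ O, b' l ≤ Real.exp (β l) * b l)
    (he0 : ∀ i j, 0 ≤ e i j) (he0' : ∀ i j, 0 ≤ e' i j)
    (hee : ∀ i ∈ O, ∀ j ∈ O.erase i, e' i j ≤ Real.exp s * e i j + ρ * (th i * th j)) :
    Phi O b' e' ≤ Real.exp (∑ l ∈ O, β l + s + (2 * d) ^ 2 * ρ) * Phi O b e := by
  have hbp : ∀ l ∈ O, 0 < b l := fun l hl => lt_of_lt_of_le (hth l) (hb l hl)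
  set E : ℝ := Real.exp (∑ l ∈ O, β l) with hE
  have hE0 : 0 < E := Real.exp_pos _
  have hprod : ∀ O' ⊆ O, ∏ l ∈ O', b' l ≤ E * ∏ l ∈ O', b l := by
    intro O' hO'
    have h1 : ∏ l ∈ O', b' l ≤ ∏ l ∈ O', (Real.exp (β l) * b l) :=
      Finset.prod_le_prod (fun l hl => hb0 l (hO' hl)) fun l hl => hbb l (hO' hl)
    rw [Finset.prod_mul_distrib, ← Real.exp_sum] at h1
    refine h1.trans (mul_le_mul_of_nonneg_right ?_ ?_)
    · exact Real.exp_le_exp.2 (Finset.sum_le_sum_of_subset_of_nonneg hO' fun l _ _ => hβ l)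
    · exact Finset.prod_nonneg fun l hl => (hbp l (hO' hl)).le
  have hP0 : 0 ≤ ∏ l ∈ O, b l := Finset.prod_nonneg fun l hl => (hbp l hl).le
  have hPhi : ∏ l ∈ O, b l ≤ Phi O b e := prod_le_Phi (fun l hl => (hbp l hl).le) he0
  have hPhi0 : 0 ≤ Phi O b e := hP0.trans hPhi
  have hs1 : 1 ≤ Real.exp s := Real.one_le_exp hs
  -- the terms
  have hterm : ∀ i ∈ O, ∀ j ∈ O.erase i, e' i j * ∏ l ∈ (O.erase i).erase j, b' l ≤
      E * (Real.exp s * (e i j * ∏ l ∈ (O.erase i).erase j, b l)) +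
        E * (ρ * ∏ l ∈ O, b l) := by
    intro i hi j hj
    have hsub : (O.erase i).erase j ⊆ O :=
      (Finset.erase_subset _ _).trans (Finset.erase_subset _ _)
    have hj' : j ∈ O := Finset.mem_of_mem_erase hj
    have h1 := hprod _ hsub
    have hP1 : 0 ≤ ∏ l ∈ (O.erase i).erase j, b l :=
      Finset.prod_nonneg fun l hl => (hbp l (hsub hl)).le
    have h2 : th i * th j * ∏ l ∈ (O.erase i).erase j, b l ≤ ∏ l ∈ O, b l := by
      rw [a2b_prod_pair hi hj]
      exact mul_le_mul_of_nonneg_right (mul_le_mul (hb i hi) (hb j hj') (hth j).le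
        (hbp i hi).le) hP1
    calc e' i j * ∏ l ∈ (O.erase i).erase j, b' l
        ≤ e' i j * (E * ∏ l ∈ (O.erase i).erase j, b l) :=
          mul_le_mul_of_nonneg_left h1 (he0' i j)
      _ ≤ (Real.exp s * e i j + ρ * (th i * th j)) *
          (E * ∏ l ∈ (O.erase i).erase j, b l) :=
          mul_le_mul_of_nonneg_right (hee i hi j hj) (mul_nonneg hE0.le hP1)
      _ = E * (Real.exp s * (e i j * ∏ l ∈ (O.erase i).erase j, b l)) +
          E * (ρ * (th i * th j * ∏ l ∈ (O.erase i).erase j, b l)) := by ring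
      _ ≤ _ := by
          have h3 := mul_le_mul_of_nonneg_left (mul_le_mul_of_nonneg_left h2 hρ) hE0.le
          linarith
  have hsum : ∑ i ∈ O, ∑ j ∈ O.erase i, e' i j * ∏ l ∈ (O.erase i).erase j, b' l ≤
      E * (Real.exp s * ∑ i ∈ O, ∑ j ∈ O.erase i, e i j * ∏ l ∈ (O.erase i).erase j, b l) +
        (2 * d) ^ 2 * (E * (ρ * ∏ l ∈ O, b l)) := by
    have h1 : ∑ i ∈ O, ∑ j ∈ O.erase i, (e' i j * ∏ l ∈ (O.erase i).erase j, b' l -
        E * (Real.exp s * (e i j * ∏ l ∈ (O.erase i).erase j, b l))) ≤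
        (2 * d) ^ 2 * (E * (ρ * ∏ l ∈ O, b l)) := by
      refine a2b_double (by positivity) fun i hi j hj => ?_
      have := hterm i hi j hj
      linarith
    simp only [Finset.sum_sub_distrib] at h1
    have h2 : ∑ i ∈ O, ∑ j ∈ O.erase i,
        E * (Real.exp s * (e i j * ∏ l ∈ (O.erase i).erase j, b l)) =
        E * (Real.exp s * ∑ i ∈ O, ∑ j ∈ O.erase i, e i j * ∏ l ∈ (O.erase i).erase j, b l) := by
      simp only [Finset.mul_sum]
    rw [h2] at h1
    linarith
  have h0 : ∏ l ∈ O, b' l ≤ E * (Real.exp s * ∏ l ∈ O, b l) := by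
    refine (hprod O (Finset.Subset.refl _)).trans ?_
    refine mul_le_mul_of_nonneg_left ?_ hE0.le
    nlinarith
  have hexp : Real.exp s + (2 * d) ^ 2 * ρ ≤ Real.exp (s + (2 * d) ^ 2 * ρ) := by
    rw [Real.exp_add]
    have h1 := Real.add_one_le_exp ((2 * (d : ℝ)) ^ 2 * ρ)
    have h2 : (0 : ℝ) ≤ (2 * d) ^ 2 * ρ := by positivity
    nlinarith [Real.exp_pos s]
  have hfin : Phi O b' e' ≤ E * ((Real.exp s + (2 * d) ^ 2 * ρ) * Phi O b e) := by
    have h1 : Phi O b' e' ≤ E * (Real.exp s * ∏ l ∈ O, b l) +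
        (E * (Real.exp s * ∑ i ∈ O, ∑ j ∈ O.erase i, e i j * ∏ l ∈ (O.erase i).erase j, b l) +
          (2 * d) ^ 2 * (E * (ρ * ∏ l ∈ O, b l))) := by
      unfold Phi
      exact add_le_add h0 hsum
    have h2 : (2 * (d : ℝ)) ^ 2 * (E * (ρ * ∏ l ∈ O, b l)) ≤
        E * ((2 * d) ^ 2 * ρ * Phi O b e) := by
      have h3 : (0 : ℝ) ≤ (2 * (d : ℝ)) ^ 2 * ρ := by positivity
      have h4 := mul_le_mul_of_nonneg_left (mul_le_mul_of_nonneg_left hPhi h3) hE0.le
      calc (2 * (d : ℝ)) ^ 2 * (E * (ρ * ∏ l ∈ O, b l)) =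
          E * ((2 * (d : ℝ)) ^ 2 * ρ * ∏ l ∈ O, b l) := by ring
        _ ≤ _ := h4
    calc Phi O b' e' ≤ _ := h1
      _ ≤ E * (Real.exp s * ∏ l ∈ O, b l) +
        (E * (Real.exp s * ∑ i ∈ O, ∑ j ∈ O.erase i, e i j * ∏ l ∈ (O.erase i).erase j, b l) +
          E * ((2 * d) ^ 2 * ρ * Phi O b e)) := by linarith
      _ = E * ((Real.exp s + (2 * d) ^ 2 * ρ) * Phi O b e) := by
        simp only [Phi]
        ring
  refine hfin.trans ?_
  rw [add_assoc, Real.exp_add, ← hE, mul_assoc]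
  exact mul_le_mul_of_nonneg_left (mul_le_mul_of_nonneg_right hexp hPhi0) hE0.le

/-- erasing two elements with values at most one does not decrease the product -/
theorem a2b_erase {A : Finset (Dir d)} {b : Dir d → ℝ} (hA : ∀ l ∈ A, 0 ≤ b l) {i : Dir d}
    (hi : b i ≤ 1) : ∏ l ∈ A, b l ≤ ∏ l ∈ A.erase i, b l := by
  by_cases h : i ∈ A
  · rw [← Finset.mul_prod_erase A b h]
    have h1 : 0 ≤ ∏ l ∈ A.erase i, b l :=
      Finset.prod_nonneg fun l hl => hA l (Finset.mem_of_mem_erase hl)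
    nlinarith
  · rw [Finset.erase_eq_of_notMem h]

/-- [BTS-A2b] after the use of an edge `i j`.
PROOF. Pairs `(l, m)` of `O` (ordered): if neither is `i` or `j`: `e l m ∏_{(O.erase l).erase m} b ≤ ρ th l th m ∏ ≤ ρ ∏_{O \ {i,j}} b` (`b i, b j ≤ 1`, `th ≤ b`). If `l ∈ {i, j}`, `m ∉ {i, j}`: `e l m ≤ δ th m`, so the term is at most `δ ∏_{O \ {i,j}} b`. If `{l, m} = {i, j}`: `≤ δ ∏`.
There are at most `(2d)²` pairs of the first kind, `8 d` of the second, `2` of the third. -/
theorem Phi_edge {O : Finset (Dir d)} {i j : Dir d} (hij : i ≠ j) (b th : Dir d → ℝ)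
    (e : Dir d → Dir d → ℝ) {δ ρ : ℝ} (hδ : 0 ≤ δ) (hρ : 0 ≤ ρ) (hth : ∀ l, 0 < th l)
    (hb : ∀ l ∈ O, th l ≤ b l) (hi : b i ≤ 1) (hj : b j ≤ 1) (he0 : ∀ i j, 0 ≤ e i j)
    (hsym : ∀ i j, e i j = e j i)
    (h1 : ∀ l ∈ O, ∀ m ∈ O, l ≠ m → l ≠ i → l ≠ j → m ≠ i → m ≠ j → e l m ≤ ρ * (th l * th m))
    (h2 : ∀ m ∈ O, m ≠ i → m ≠ j → e i m ≤ δ * th m ∧ e j m ≤ δ * th m) (h3 : e i j ≤ δ) :
    Phi O b e ≤ (1 + (2 * d) ^ 2 * ρ + (8 * d + 2) * δ) * ∏ l ∈ (O.erase i).erase j, b l := by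
  have hbp : ∀ l ∈ O, 0 < b l := fun l hl => lt_of_lt_of_le (hth l) (hb l hl)
  set P : ℝ := ∏ l ∈ (O.erase i).erase j, b l with hP
  have hP0 : 0 ≤ P := Finset.prod_nonneg fun l hl =>
    (hbp l (Finset.mem_of_mem_erase (Finset.mem_of_mem_erase hl))).le
  have hprod : ∀ A ⊆ O, ∏ l ∈ A, b l ≤ ∏ l ∈ (A.erase i).erase j, b l := by
    intro A hA
    refine (a2b_erase (fun l hl => (hbp l (hA hl)).le) hi).trans ?_
    exact a2b_erase (fun l hl => (hbp l (hA (Finset.mem_of_mem_erase hl))).le) hj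
  have h0 : ∏ l ∈ O, b l ≤ P := hprod O (Finset.Subset.refl _)
  -- one more element of `O` outside `i`, `j`
  have hone : ∀ m ∈ O, m ≠ i → m ≠ j → ∀ A ⊆ O.erase m,
      th m * ∏ l ∈ (A.erase i).erase j, b l ≤
        ∏ l ∈ ((insert m A).erase i).erase j, b l := by
    intro m hm hmi hmj A hA
    have hmA : m ∉ (A.erase i).erase j := fun h4 =>
      (Finset.mem_erase.1 (hA (Finset.mem_of_mem_erase (Finset.mem_of_mem_erase h4)))).1 rfl
    have h5 : ((insert m A).erase i).erase j = insert m ((A.erase i).erase j) := by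
      rw [Finset.erase_insert_of_ne hmi, Finset.erase_insert_of_ne hmj]
    rw [h5, Finset.prod_insert hmA]
    refine mul_le_mul_of_nonneg_right (hb m hm) (Finset.prod_nonneg fun l hl => ?_)
    exact (hbp l (Finset.mem_of_mem_erase (hA (Finset.mem_of_mem_erase
      (Finset.mem_of_mem_erase hl))))).le
  have hindic : ∀ l : Dir d, (0 : ℝ) ≤ (if l = i ∨ l = j then δ else 0) := by
    intro l
    split_ifs
    · exact hδ
    · exact le_rfl
  have hterm : ∀ l ∈ O, ∀ m ∈ O.erase l, e l m * ∏ n ∈ (O.erase l).erase m, b n ≤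
      (ρ + (if l = i ∨ l = j then δ else 0) + (if m = i ∨ m = j then δ else 0)) * P := by
    intro l hl m hm
    obtain ⟨hml, hmO⟩ := Finset.mem_erase.1 hm
    set A : Finset (Dir d) := (O.erase l).erase m with hA
    have hAO : A ⊆ O := (Finset.erase_subset _ _).trans (Finset.erase_subset _ _)
    have hAm : A ⊆ O.erase m := by
      intro x hx
      obtain ⟨hx1, hx2⟩ := Finset.mem_erase.1 hx
      exact Finset.mem_erase.2 ⟨hx1, Finset.mem_of_mem_erase hx2⟩
    have hins : insert m A = O.erase l := Finset.insert_erase hm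
    have hins2 : insert l (O.erase l) = O := Finset.insert_erase hl
    have hAp := hprod A hAO
    have hA0 : 0 ≤ ∏ n ∈ A, b n := Finset.prod_nonneg fun n hn => (hbp n (hAO hn)).le
    -- product over `O.erase l` and `O.erase m` reduced
    have hAl : A ⊆ O.erase l := Finset.erase_subset _ _
    by_cases hl' : l = i ∨ l = j
    · rw [if_pos hl']
      by_cases hm' : m = i ∨ m = j
      · rw [if_pos hm']
        have h4 : e l m ≤ δ := by
          rcases hl' with hl' | hl' <;> rcases hm' with hm' | hm'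
          · exact absurd (hm'.trans hl'.symm) hml
          · rw [hl', hm']; exact h3
          · rw [hl', hm', hsym]; exact h3
          · exact absurd (hm'.trans hl'.symm) hml
        have h5 : ∏ n ∈ A, b n = P := by
          rw [hP, hA]
          rcases hl' with hl' | hl' <;> rcases hm' with hm' | hm'
          · exact absurd (hm'.trans hl'.symm) hml
          · rw [hl', hm']
          · rw [hl', hm', Finset.erase_right_comm]
          · exact absurd (hm'.trans hl'.symm) hml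
        rw [h5]
        refine mul_le_mul_of_nonneg_right ?_ hP0
        linarith
      · rw [if_neg hm']
        push Not at hm'
        have h4 : e l m ≤ δ * th m := by
          obtain ⟨h5, h6⟩ := h2 m hmO hm'.1 hm'.2
          rcases hl' with hl' | hl'
          · rw [hl']; exact h5
          · rw [hl']; exact h6
        have h5 := hone m hmO hm'.1 hm'.2 A hAm
        rw [hins] at h5
        have h6 : ((O.erase l).erase i).erase j = (O.erase i).erase j := by
          rcases hl' with hl' | hl'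
          · rw [hl', Finset.erase_idem]
          · rw [hl', Finset.erase_right_comm, Finset.erase_idem, Finset.erase_right_comm]
        rw [h6, ← hP] at h5
        calc e l m * ∏ n ∈ A, b n ≤ δ * th m * ∏ n ∈ (A.erase i).erase j, b n := by
              refine mul_le_mul h4 hAp hA0 (mul_nonneg hδ (hth m).le)
          _ = δ * (th m * ∏ n ∈ (A.erase i).erase j, b n) := by ring
          _ ≤ δ * P := mul_le_mul_of_nonneg_left h5 hδ
          _ ≤ (ρ + δ + 0) * P := by
              refine mul_le_mul_of_nonneg_right ?_ hP0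
              linarith
    · rw [if_neg hl']
      push Not at hl'
      have h7 := hone l hl hl'.1 hl'.2 (O.erase l) (Finset.Subset.refl _)
      rw [hins2, ← hP] at h7
      by_cases hm' : m = i ∨ m = j
      · rw [if_pos hm']
        have h4 : e l m ≤ δ * th l := by
          rw [hsym]
          obtain ⟨h5, h6⟩ := h2 l hl hl'.1 hl'.2
          rcases hm' with hm' | hm'
          · rw [hm']; exact h5
          · rw [hm']; exact h6
        have h6 : (A.erase i).erase j = ((O.erase l).erase i).erase j := by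
          rw [hA]
          rcases hm' with hm' | hm'
          · rw [hm', Finset.erase_idem]
          · rw [hm', Finset.erase_right_comm, Finset.erase_idem, Finset.erase_right_comm]
        rw [← h6] at h7
        calc e l m * ∏ n ∈ A, b n ≤ δ * th l * ∏ n ∈ (A.erase i).erase j, b n := by
              refine mul_le_mul h4 hAp hA0 (mul_nonneg hδ (hth l).le)
          _ = δ * (th l * ∏ n ∈ (A.erase i).erase j, b n) := by ring
          _ ≤ δ * P := mul_le_mul_of_nonneg_left h7 hδ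
          _ ≤ (ρ + 0 + δ) * P := by
              refine mul_le_mul_of_nonneg_right ?_ hP0
              linarith
      · rw [if_neg hm']
        push Not at hm'
        have h4 := h1 l hl m hmO (Ne.symm hml) hl'.1 hl'.2 hm'.1 hm'.2
        have h5 := hone m hmO hm'.1 hm'.2 A hAm
        rw [hins] at h5
        calc e l m * ∏ n ∈ A, b n ≤ ρ * (th l * th m) * ∏ n ∈ (A.erase i).erase j, b n := by
              refine mul_le_mul h4 hAp hA0 (mul_nonneg hρ (mul_nonneg (hth l).le (hth m).le))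
          _ = ρ * (th l * (th m * ∏ n ∈ (A.erase i).erase j, b n)) := by ring
          _ ≤ ρ * (th l * ∏ n ∈ ((O.erase l).erase i).erase j, b n) :=
              mul_le_mul_of_nonneg_left (mul_le_mul_of_nonneg_left h5 (hth l).le) hρ
          _ ≤ ρ * P := mul_le_mul_of_nonneg_left h7 hρ
          _ = (ρ + 0 + 0) * P := by ring
  -- the sum of the indicators
  have hcnt : ∀ A : Finset (Dir d), ∑ l ∈ A, (if l = i ∨ l = j then δ else 0) ≤ 2 * δ := by
    intro A
    have h4 : ∑ l ∈ A, (if l = i ∨ l = j then δ else 0) ≤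
        ∑ l : Dir d, (if l = i ∨ l = j then δ else 0) :=
      Finset.sum_le_sum_of_subset_of_nonneg (Finset.subset_univ _) fun l _ _ => hindic l
    refine h4.trans ?_
    rw [← Finset.sum_filter]
    have h5 : (Finset.univ.filter fun l : Dir d => l = i ∨ l = j) = {i, j} := by
      ext l
      simp
    rw [h5, Finset.sum_pair hij]
    linarith
  have hd0 : (0 : ℝ) ≤ 2 * d := by positivity
  have hsum : ∑ l ∈ O, ∑ m ∈ O.erase l, e l m * ∏ n ∈ (O.erase l).erase m, b n ≤
      ((2 * d) ^ 2 * ρ + 8 * d * δ) * P := by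
    have h4 : ∀ l ∈ O, ∑ m ∈ O.erase l, e l m * ∏ n ∈ (O.erase l).erase m, b n ≤
        (2 * d * ρ + 2 * d * (if l = i ∨ l = j then δ else 0) + 2 * δ) * P := by
      intro l hl
      refine (Finset.sum_le_sum (hterm l hl)).trans ?_
      rw [← Finset.sum_mul]
      refine mul_le_mul_of_nonneg_right ?_ hP0
      rw [Finset.sum_add_distrib, Finset.sum_add_distrib, Finset.sum_const, Finset.sum_const,
        nsmul_eq_mul, nsmul_eq_mul]
      have h5 := mul_le_mul_of_nonneg_right (a2b_card (O.erase l)) hρ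
      have h6 := mul_le_mul_of_nonneg_right (a2b_card (O.erase l)) (hindic l)
      have h7 := hcnt (O.erase l)
      linarith
    refine (Finset.sum_le_sum h4).trans ?_
    rw [← Finset.sum_mul]
    refine mul_le_mul_of_nonneg_right ?_ hP0
    rw [Finset.sum_add_distrib, Finset.sum_add_distrib, Finset.sum_const, Finset.sum_const,
      nsmul_eq_mul, nsmul_eq_mul, ← Finset.mul_sum]
    have h5 := mul_le_mul_of_nonneg_right (a2b_card O) (mul_nonneg hd0 hρ)
    have h6 := mul_le_mul_of_nonneg_right (a2b_card O) (mul_nonneg (zero_le_two (α := ℝ)) hδ)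
    have h7 := mul_le_mul_of_nonneg_left (hcnt O) hd0
    nlinarith
  have hfin : Phi O b e ≤ P + ((2 * d) ^ 2 * ρ + 8 * d * δ) * P := by
    unfold Phi
    exact add_le_add h0 hsum
  refine hfin.trans ?_
  have h8 : 0 ≤ 2 * δ * P := by positivity
  nlinarith

/-- [BTS-A2b] upper bound -/
theorem Phi_le_two {O : Finset (Dir d)} (b : Dir d → ℝ) (e : Dir d → Dir d → ℝ)
    (hb0 : ∀ l ∈ O, 0 ≤ b l) (hb : ∀ l ∈ O, b l ≤ 1) (he0 : ∀ i j, 0 ≤ e i j)
    (he : ∀ i ∈ O, ∀ j ∈ O, e i j * (2 * d) ^ 2 ≤ 1) : Phi O b e ≤ 2 := by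
  have h1 : ∀ A ⊆ O, ∏ l ∈ A, b l ≤ 1 := fun A hA =>
    Finset.prod_le_one (fun l hl => hb0 l (hA hl)) fun l hl => hb l (hA hl)
  have h2 : ∑ i ∈ O, ∑ j ∈ O.erase i, e i j * ∏ l ∈ (O.erase i).erase j, b l ≤ 1 := by
    rcases Finset.eq_empty_or_nonempty O with hO | ⟨i0, hi0⟩
    · rw [hO]
      simp
    · have hd : 0 < d := Fin.pos_iff_nonempty.2 ⟨i0.1⟩
      have hN : (0 : ℝ) < (2 * d) ^ 2 := by
        have : (0 : ℝ) < d := by exact_mod_cast hd
        positivity
      have h3 : ∑ i ∈ O, ∑ j ∈ O.erase i, e i j * ∏ l ∈ (O.erase i).erase j, b l ≤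
          (2 * d) ^ 2 * (1 / (2 * d) ^ 2) := by
        refine a2b_double (by positivity) fun i hi j hj => ?_
        have h4 := h1 ((O.erase i).erase j)
          ((Finset.erase_subset _ _).trans (Finset.erase_subset _ _))
        have h5 := he i hi j (Finset.mem_of_mem_erase hj)
        have h6 : e i j ≤ 1 / (2 * d) ^ 2 := by
          rw [le_div_iff₀ hN]
          exact h5
        calc e i j * ∏ l ∈ (O.erase i).erase j, b l ≤ e i j * 1 :=
              mul_le_mul_of_nonneg_left h4 (he0 i j)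
          _ ≤ _ := by rw [mul_one]; exact h6
      rw [mul_one_div_cancel hN.ne'] at h3
      exact h3
  have h3 := h1 O (Finset.Subset.refl _)
  unfold Phi
  linarith

end BTS
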