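import Pool.Agent.BTP.G4

set_option autoImplicit false

open Filter

namespace BTS
open BTP

/-- the constants of the proof (independent of `A`) -/
structure Co (d : ℕ) where
  (ka K Kc C3 e0 E cb : ℝ)
  hka : 1000 * d ≤ ka
  hK : 8 ≤ K
  hKc : 0 < Kc
  hC3 : 2 * ka + 3000 * (d : ℝ) ^ 2 ≤ C3
  hcb : cb = Real.exp (-(2 * 4 ^ d)) / 2400
  hIa : 20 * C3 * (1 + 20000) * Real.sqrt 20000 * Real.exp (20000 / 2) ≤ K
  he0 : 0 < e0
  hIIa : ∀ z, 0 ≤ z → C3 * (1 + 20000 * z) * (1 + 4 ^ d * 20000 * z) ^ 2 * Real.exp (-z) ≤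
    Kc * Real.sqrt e0
  hE : 1 ≤ E
  he0E : 8 * e0 * (4 * E) ^ (d - 2) ≤ 1
  hEA : 8 * d * lam d ≤ E * gg 1

/-- [BTS-A4] the constants exist.
PROOF. `ka = 1000 d`, `C3 = 2 ka + 3000 d²`, `K` the left side of `hIa` plus `8`, `E = 1 + 8 d λ/g(1)` (`gg_pos`), `e0 = 1/(8 (4E)^{d-2})`, and `Kc = (C3 · M)/√e0 + 1` where `M` bounds `(1 + 20000 z)(1 + 4^d 20000 z)² e^{-z} ≤ (1 + 4^d 20000 z)³ e^{-z} ≤ (4^d 20000)³ (1+z)³ e^{-z} ≤ 6 e (4^d 20000)³` (`e^{1+z} ≥ (1+z)³/6`). -/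
theorem exists_co {d : ℕ} (hd : 2 ≤ d) : Nonempty (Co d) := by
  have hd0 : (0 : ℝ) < d := by
    have : (2 : ℝ) ≤ d := by exact_mod_cast hd
    linarith
  have hg1 : 0 < gg 1 := gg_pos one_pos
  have hlam : 0 ≤ lam d := by
    unfold lam
    exact MeasureTheory.setIntegral_nonneg measurableSet_Ioi fun z hz => gg_nonneg (pow_pos hz _)
  set C3 : ℝ := 2 * (1000 * d) + 3000 * (d : ℝ) ^ 2 with hC3
  have hC3p : 0 < C3 := by rw [hC3]; positivity
  set E : ℝ := 1 + 8 * d * lam d / gg 1 with hE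
  have hE1 : 1 ≤ E := by
    rw [hE]
    have : 0 ≤ 8 * d * lam d / gg 1 := by positivity
    linarith
  have hEp : 0 < (4 * E) ^ (d - 2) := by
    have : 0 < 4 * E := by linarith
    positivity
  set e0 : ℝ := 1 / (8 * (4 * E) ^ (d - 2)) with he0
  have he0p : 0 < e0 := by rw [he0]; positivity
  set N : ℝ := 4 ^ d * 20000 with hN
  have h4d : (1 : ℝ) ≤ 4 ^ d := one_le_pow₀ (by norm_num)
  have hNp : 20000 ≤ N := by rw [hN]; linarith
  set M : ℝ := N ^ 3 * (6 * Real.exp 1) with hM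
  have hMp : 0 < M := by
    rw [hM]
    have : 0 < N := by linarith
    positivity
  have hse : 0 < Real.sqrt e0 := Real.sqrt_pos.mpr he0p
  refine ⟨⟨1000 * d, 20 * C3 * (1 + 20000) * Real.sqrt 20000 * Real.exp (20000 / 2) + 8,
    C3 * M / Real.sqrt e0 + 1, C3, e0, E, Real.exp (-(2 * 4 ^ d)) / 2400, le_rfl, ?_, ?_, le_rfl,
    rfl, ?_, he0p, ?_, hE1, ?_, ?_⟩⟩
  · have : 0 ≤ 20 * C3 * (1 + 20000) * Real.sqrt 20000 * Real.exp (20000 / 2) := by positivity
    linarith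
  · positivity
  · linarith
  · intro z hz
    have h1 : 1 + 20000 * z ≤ N * (1 + z) := by nlinarith
    have h2 : 1 + 4 ^ d * 20000 * z ≤ N * (1 + z) := by
      rw [← hN]
      nlinarith
    have h3 : 0 ≤ 1 + 20000 * z := by positivity
    have h4 : 0 ≤ 1 + 4 ^ d * 20000 * z := by positivity
    have hN0 : 0 ≤ N * (1 + z) := le_trans h3 h1
    have h5 : (1 + 20000 * z) * (1 + 4 ^ d * 20000 * z) ^ 2 ≤ (N * (1 + z)) * (N * (1 + z)) ^ 2 :=
      mul_le_mul h1 (pow_le_pow_left₀ h4 h2 2) (by positivity) hN0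
    have h6 : (1 + z) ^ 3 ≤ 6 * Real.exp (1 + z) := by
      have := Real.pow_div_factorial_le_exp (x := 1 + z) (by linarith) 3
      have h7 : ((Nat.factorial 3 : ℕ) : ℝ) = 6 := by norm_num [Nat.factorial]
      rw [h7] at this
      linarith
    have h8 : (1 + z) ^ 3 * Real.exp (-z) ≤ 6 * Real.exp 1 := by
      have h9 : 6 * Real.exp (1 + z) * Real.exp (-z) = 6 * Real.exp 1 := by
        rw [mul_assoc, ← Real.exp_add]
        congr 2
        ring
      rw [← h9]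
      exact mul_le_mul_of_nonneg_right h6 (Real.exp_pos _).le
    have h10 : (C3 * M / Real.sqrt e0 + 1) * Real.sqrt e0 = C3 * M + Real.sqrt e0 := by
      field_simp
    rw [h10]
    have hN3 : 0 ≤ N ^ 3 := by
      have : 0 ≤ N := by linarith
      positivity
    calc C3 * (1 + 20000 * z) * (1 + 4 ^ d * 20000 * z) ^ 2 * Real.exp (-z)
        = C3 * (((1 + 20000 * z) * (1 + 4 ^ d * 20000 * z) ^ 2) * Real.exp (-z)) := by ring
      _ ≤ C3 * (((N * (1 + z)) * (N * (1 + z)) ^ 2) * Real.exp (-z)) := by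
          refine mul_le_mul_of_nonneg_left ?_ hC3p.le
          exact mul_le_mul_of_nonneg_right h5 (Real.exp_pos _).le
      _ = C3 * (N ^ 3 * ((1 + z) ^ 3 * Real.exp (-z))) := by ring
      _ ≤ C3 * (N ^ 3 * (6 * Real.exp 1)) := by
          refine mul_le_mul_of_nonneg_left ?_ hC3p.le
          exact mul_le_mul_of_nonneg_left h8 hN3
      _ = C3 * M := by rw [hM]
      _ ≤ C3 * M + Real.sqrt e0 := by linarith
  · rw [he0]
    have : 8 * (1 / (8 * (4 * E) ^ (d - 2))) * (4 * E) ^ (d - 2) = 1 := by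
      field_simp
    linarith
  · rw [hE, add_mul, one_mul, div_mul_cancel₀ _ hg1.ne']
    linarith

end BTS
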