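import Pool.Agent.BTS.G6
import Pool.Agent.BTP.G2

set_option autoImplicit false

open scoped Classical
open Finset

namespace BTS
open BTP

theorem g7a_mvt {y1 y2 : ℝ} (h0 : 0 < y1) (h : y1 < y2) :
    ∃ ξ, y1 < ξ ∧ ξ < y2 ∧ gg y2 - gg y1 = dg ξ * (y2 - y1) := by
  obtain ⟨ξ, hξ, he⟩ := exists_hasDerivAt_eq_slope gg dg h
    (fun z hz => (hasDeriv_gg (lt_of_lt_of_le h0 hz.1)).continuousAt.continuousWithinAt)
    (fun z hz => hasDeriv_gg (lt_trans h0 hz.1))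
  refine ⟨ξ, hξ.1, hξ.2, ?_⟩
  rw [he, div_mul_cancel₀]
  linarith

/-- [BTS-G7a] PROOF. `g` is convex (`gg_convex`), so `g(y₁) - g(y₂) ≥ (y₂ - y₁)(-g'(y₂))` (mean value theorem with `dg` monotone by `dg_incr`, or `ConvexOn` slope inequality), and `dg_le`. -/
theorem gg_sub_ge {y1 y2 : ℝ} (h0 : 0 < y1) (h : y1 ≤ y2) :
    (y2 - y1) * Real.exp (-(2 * y2)) ≤ gg y1 - gg y2 := by
  rcases eq_or_lt_of_le h with h1 | h1
  · rw [h1, sub_self, zero_mul, sub_self]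
  · obtain ⟨ξ, a1, a2, a3⟩ := g7a_mvt h0 h1
    have h2 := dg_le (lt_trans h0 a1)
    have h3 : Real.exp (-(2 * y2)) ≤ Real.exp (-(2 * ξ)) := Real.exp_le_exp.2 (by linarith)
    have h4 : dg ξ ≤ -Real.exp (-(2 * y2)) := by linarith
    have h5 := mul_le_mul_of_nonneg_right h4 (by linarith : (0 : ℝ) ≤ y2 - y1)
    nlinarith

/-- [BTS-G7a] the same with `dg_le_small` -/
theorem gg_sub_ge' {y1 y2 : ℝ} (h0 : 0 < y1) (h : y1 ≤ y2) (h2 : y2 ≤ 2 / 5) :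
    (y2 - y1) / (4 * y2) ≤ gg y1 - gg y2 := by
  rcases eq_or_lt_of_le h with h1 | h1
  · rw [h1, sub_self, zero_div, sub_self]
  · obtain ⟨ξ, a1, a2, a3⟩ := g7a_mvt h0 h1
    have hξ : 0 < ξ := lt_trans h0 a1
    have h3 := dg_le_small hξ (by linarith)
    have h4 : 1 / (4 * y2) ≤ 1 / (4 * ξ) := one_div_le_one_div_of_le (by linarith) (by linarith)
    have h5 : dg ξ ≤ -(1 / (4 * y2)) := by linarith
    have h6 := mul_le_mul_of_nonneg_right h5 (by linarith : (0 : ℝ) ≤ y2 - y1)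
    have e : (y2 - y1) / (4 * y2) = 1 / (4 * y2) * (y2 - y1) := by ring
    rw [e]
    linarith

/-- [BTS-G7a] PROOF. `gg_sub_ge` with `y₂ = z + 1`, `gg_nonneg`, `e^{-2} ≥ 1/32`. -/
theorem gg_ge {z : ℝ} (hz : 0 < z) : Real.exp (-(2 * z)) / 32 ≤ gg z := by
  have h1 := gg_sub_ge (y1 := z) (y2 := z + 1) hz (by linarith)
  have h2 : 0 ≤ gg (z + 1) := gg_nonneg (by linarith)
  have h3 : Real.exp (-(2 * (z + 1))) = Real.exp (-(2 * z)) * (Real.exp 1 ^ 2)⁻¹ := by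
    rw [← Real.exp_nat_mul, ← Real.exp_neg, ← Real.exp_add]
    congr 1
    push_cast
    ring
  have h4 : Real.exp 1 ^ 2 ≤ 32 := by
    have a1 := Real.exp_one_lt_d9
    have a2 := Real.exp_pos 1
    nlinarith
  have h5 : (32 : ℝ)⁻¹ ≤ (Real.exp 1 ^ 2)⁻¹ := inv_anti₀ (by positivity) h4
  have h6 := mul_le_mul_of_nonneg_left h5 (Real.exp_pos (-(2 * z))).le
  rw [h3] at h1
  have e : Real.exp (-(2 * z)) / 32 = Real.exp (-(2 * z)) * (32 : ℝ)⁻¹ := by ring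
  rw [e]
  have e2 : z + 1 - z = 1 := by ring
  rw [e2, one_mul] at h1
  linarith

/-- [BTS-G7a] PROOF. `v = e^{-z} ≤ e^{-1}`, `u = 1 - v`. `s = √(1+2v-3v²) ≥ 1 + v - 2v²` (`(1+v-2v²)² = 1+2v-3v²-4v³+4v⁴`), so `β ≥ 1 - v²` and `g ≤ -log(1-v²) ≤ v²/(1-v²) ≤ 2v²`. -/
theorem gg_tail2 {z : ℝ} (hz : 1 ≤ z) : gg z ≤ 2 * Real.exp (-(2 * z)) := by
  have hz0 : 0 < z := by linarith
  set v : ℝ := Real.exp (-z) with hv
  have hv0 : 0 < v := Real.exp_pos _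
  have hv1 : v ≤ 1 / 2 := by
    have h1 : v ≤ Real.exp (-1) := Real.exp_le_exp.2 (by linarith)
    have h2 : Real.exp (-1) ≤ 1 / 2 := by
      rw [Real.exp_neg]
      have := Real.exp_one_gt_d9
      rw [inv_le_comm₀ (Real.exp_pos 1) (by norm_num)]
      norm_num
      linarith
    linarith
  have he : Real.exp (-(2 * z)) = v ^ 2 := by
    rw [hv, ← Real.exp_nat_mul]
    congr 1
    push_cast
    ring
  rw [he]
  have hs : 1 + v - 2 * v ^ 2 ≤ Real.sqrt ((1 - v) * (4 - 3 * (1 - v))) := by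
    apply Real.le_sqrt_of_sq_le
    have h1 : v ^ 4 ≤ v ^ 3 := pow_le_pow_of_le_one hv0.le (by linarith) (by norm_num)
    nlinarith
  have hb : 1 - v ^ 2 ≤ bet (1 - v) := by
    unfold bet
    linarith
  have hb0 : 0 < 1 - v ^ 2 := by nlinarith
  have h1 : gg z = -Real.log (bet (1 - v)) := rfl
  rw [h1]
  have h2 : Real.log (1 - v ^ 2) ≤ Real.log (bet (1 - v)) := Real.log_le_log hb0 hb
  have h3 := Real.one_sub_inv_le_log_of_pos hb0
  have h4 : (1 - v ^ 2)⁻¹ ≤ 1 + 2 * v ^ 2 := by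
    rw [inv_le_iff_one_le_mul₀ hb0]
    have h5 : v ^ 2 ≤ 1 / 4 := by nlinarith
    nlinarith [sq_nonneg v]
  linarith

end BTS
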