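import Pool.Agent.BTS.A4
import Pool.Agent.BTS.V20
import Pool.Agent.BTP.A1
import Pool.Agent.BTP.A3
import Pool.Agent.BTS.G7a

set_option autoImplicit false

open Filter

namespace BTS
open BTP

/-- [BTS-A5a] the conditions on the reduction.
PROOF. `Z = L/4 + (3/4) log L`, `c₁ = Kc e^{-L/2}`. `z ≤ Z/2`: `128 c₁ e^{2z} ≤ 128 Kc e^{-L/2} e^{L/4} L ≤ 1` (`e^Z = e^{L/4} L^{3/4}`). `z ≥ Z/2 ≥ L/8`: `128 c₁ e^{2Z} = 128 Kc L^{3/2} ≤ (L/8)³`.
`g(Z) ≥ e^{-2Z}/32 = e^{-L/2} L^{-3/2}/32` (`gg_ge`) `≥ Kc e^{-L/2}/(L/4)²` for `√L ≥ 512 Kc`. `g(Z) ≤ 2 e^{-2Z}` (`gg_tail2`). -/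
theorem red_ok (Kc : ℝ) (hKc : 0 < Kc) : ∀ᶠ L : ℝ in atTop,
    1 ≤ L / 4 + 3 / 4 * Real.log L ∧ L / 4 + 3 / 4 * Real.log L ≤ L ∧
    (∀ z, 0 ≤ z → z ≤ L / 4 + 3 / 4 * Real.log L →
      128 * (Kc * Real.exp (-(L / 2))) * Real.exp (2 * z) ≤ (1 + z) ^ 3) ∧
    0 ≤ gg (L / 4 + 3 / 4 * Real.log L) -
      Kc * Real.exp (-(L / 2)) / (1 + (L / 4 + 3 / 4 * Real.log L)) ^ 2 ∧
    gg (L / 4 + 3 / 4 * Real.log L) * L ≤ Real.exp (-(L / 2)) := by
  filter_upwards [eventually_ge_atTop (max 4 ((65536 * Kc + 2) ^ 2))] with L hL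
  have hL4 : 4 ≤ L := le_trans (le_max_left _ _) hL
  have hLK : (65536 * Kc + 2) ^ 2 ≤ L := le_trans (le_max_right _ _) hL
  have hL0 : 0 < L := by linarith
  set s : ℝ := Real.sqrt L with hs
  have hsL : s ^ 2 = L := Real.sq_sqrt hL0.le
  have hs1 : 65536 * Kc + 2 ≤ s := by
    rw [hs]
    exact Real.le_sqrt_of_sq_le hLK
  have hs0 : 0 < s := by linarith
  have hs2 : 2 ≤ s := by linarith
  have hlog : Real.log L = 2 * Real.log s := by
    rw [← hsL, Real.log_pow]
    norm_num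
  have hlog0 : 0 ≤ Real.log L := Real.log_nonneg (by linarith)
  have hlogL : Real.log L ≤ L := (Real.log_le_sub_one_of_pos hL0).trans (by linarith)
  set Z : ℝ := L / 4 + 3 / 4 * Real.log L with hZ
  have hZ1 : 1 ≤ Z := by rw [hZ]; linarith
  have hZL4 : L / 4 ≤ Z := by rw [hZ]; linarith
  have he3 : Real.exp (3 * Real.log s) = s ^ 3 := by
    have h1 : Real.exp (3 * Real.log s) = Real.exp (Real.log s) ^ 3 := by
      rw [← Real.exp_nat_mul]
      norm_num
    rw [h1, Real.exp_log hs0]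
  have he2Z : Real.exp (2 * Z) = Real.exp (L / 2) * s ^ 3 := by
    rw [← he3, ← Real.exp_add]
    congr 1
    rw [hZ, hlog]
    ring
  have hem : Real.exp (-(L / 2)) * Real.exp (L / 2) = 1 := by
    rw [← Real.exp_add, neg_add_cancel, Real.exp_zero]
  have hs3 : 0 < s ^ 3 := by positivity
  have he2Zm : Real.exp (-(2 * Z)) * s ^ 3 = Real.exp (-(L / 2)) := by
    have h1 : Real.exp (-(2 * Z)) * Real.exp (2 * Z) = 1 := by
      rw [← Real.exp_add, neg_add_cancel, Real.exp_zero]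
    rw [he2Z] at h1
    have h2 : Real.exp (-(2 * Z)) * s ^ 3 * (Real.exp (L / 2)) =
        Real.exp (-(L / 2)) * Real.exp (L / 2) := by
      rw [hem]
      linarith
    exact mul_right_cancel₀ (Real.exp_pos _).ne' h2
  have hep := Real.exp_pos (-(L / 2))
  refine ⟨hZ1, by rw [hZ]; linarith, ?_, ?_, ?_⟩
  · intro z hz0 hzZ
    by_cases hc : z ≤ Z / 2
    · have h1 : Real.exp (2 * z) ≤ Real.exp (L / 4) * L := by
        have h2 : Real.exp (L / 4) * L = Real.exp (L / 4 + Real.log L) := by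
          rw [Real.exp_add, Real.exp_log hL0]
        rw [h2]
        apply Real.exp_le_exp.mpr
        have h3 : 2 * z ≤ Z := by linarith
        rw [hZ] at h3
        linarith
      have h4 : L ^ 2 / 32 ≤ Real.exp (L / 4) := by
        have h5 := Real.pow_div_factorial_le_exp (x := L / 4) (by linarith) 2
        have h6 : ((Nat.factorial 2 : ℕ) : ℝ) = 2 := by norm_num [Nat.factorial]
        rw [h6] at h5
        calc L ^ 2 / 32 = (L / 4) ^ 2 / 2 := by ring
          _ ≤ _ := h5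
      have h7 : Real.exp (-(L / 2)) * Real.exp (L / 4) * Real.exp (L / 4) = 1 := by
        rw [mul_assoc, ← Real.exp_add, ← Real.exp_add]
        have : -(L / 2) + (L / 4 + L / 4) = 0 := by ring
        rw [this, Real.exp_zero]
      have hE4 := Real.exp_pos (L / 4)
      have h8 : Real.exp (-(L / 2)) * Real.exp (L / 4) * L ^ 2 ≤ 32 := by
        have h9 : Real.exp (-(L / 2)) * Real.exp (L / 4) * (L ^ 2 / 32) ≤
            Real.exp (-(L / 2)) * Real.exp (L / 4) * Real.exp (L / 4) :=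
          mul_le_mul_of_nonneg_left h4 (by positivity)
        rw [h7] at h9
        linarith
      have hKL : 4096 * Kc ≤ L := by nlinarith
      have h10 : 128 * (Kc * Real.exp (-(L / 2))) * Real.exp (2 * z) ≤
          128 * (Kc * Real.exp (-(L / 2))) * (Real.exp (L / 4) * L) :=
        mul_le_mul_of_nonneg_left h1 (by positivity)
      refine h10.trans ?_
      have h11 : 128 * (Kc * Real.exp (-(L / 2))) * (Real.exp (L / 4) * L) ≤ 1 := by
        have h12 : 128 * (Kc * Real.exp (-(L / 2))) * (Real.exp (L / 4) * L) * L ≤ 1 * L := by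
          calc 128 * (Kc * Real.exp (-(L / 2))) * (Real.exp (L / 4) * L) * L
              = 128 * Kc * (Real.exp (-(L / 2)) * Real.exp (L / 4) * L ^ 2) := by ring
            _ ≤ 128 * Kc * 32 := mul_le_mul_of_nonneg_left h8 (by positivity)
            _ ≤ 1 * L := by linarith
        exact le_of_mul_le_mul_right h12 hL0
      refine h11.trans ?_
      exact one_le_pow₀ (by linarith)
    · push Not at hc
      have h1 : Real.exp (2 * z) ≤ Real.exp (L / 2) * s ^ 3 := by
        rw [← he2Z]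
        exact Real.exp_le_exp.mpr (by linarith)
      have h2 : 128 * (Kc * Real.exp (-(L / 2))) * Real.exp (2 * z) ≤
          128 * (Kc * Real.exp (-(L / 2))) * (Real.exp (L / 2) * s ^ 3) :=
        mul_le_mul_of_nonneg_left h1 (by positivity)
      refine h2.trans ?_
      have h3 : 128 * (Kc * Real.exp (-(L / 2))) * (Real.exp (L / 2) * s ^ 3) =
          128 * Kc * s ^ 3 * (Real.exp (-(L / 2)) * Real.exp (L / 2)) := by ring
      rw [h3, hem, mul_one]
      have h4 : L / 8 ≤ 1 + z := by linarith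
      have h5 : (L / 8) ^ 3 ≤ (1 + z) ^ 3 := pow_le_pow_left₀ (by linarith) h4 3
      refine le_trans ?_ h5
      have h6 : (L / 8) ^ 3 = s ^ 3 * (s ^ 3 / 512) := by
        rw [← hsL]; ring
      rw [h6]
      have h7 : 128 * Kc ≤ s ^ 3 / 512 := by
        have h8 : s ≤ s ^ 3 := by
          calc s = s * 1 := by ring
            _ ≤ s * s ^ 2 := by
                refine mul_le_mul_of_nonneg_left ?_ hs0.le
                nlinarith
            _ = s ^ 3 := by ring
        linarith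
      calc 128 * Kc * s ^ 3 = s ^ 3 * (128 * Kc) := by ring
        _ ≤ s ^ 3 * (s ^ 3 / 512) := mul_le_mul_of_nonneg_left h7 hs3.le
  · have hZ0 : 0 < Z := by linarith
    have h1 := gg_ge hZ0
    have h2 : Kc * Real.exp (-(L / 2)) / (1 + Z) ^ 2 ≤ Kc * Real.exp (-(L / 2)) / (L / 4) ^ 2 := by
      refine div_le_div_of_nonneg_left (by positivity) (by positivity) ?_
      exact pow_le_pow_left₀ (by linarith) (by linarith) 2
    have h3 : Kc * Real.exp (-(L / 2)) / (L / 4) ^ 2 ≤ Real.exp (-(2 * Z)) / 32 := by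
      rw [div_le_div_iff₀ (by positivity) (by norm_num), ← he2Zm]
      have h4 : (L / 4) ^ 2 = s ^ 3 * (s / 16) := by
        rw [← hsL]; ring
      rw [h4]
      have h5 : Kc * 32 ≤ s / 16 := by linarith
      have h6 : 0 < Real.exp (-(2 * Z)) := Real.exp_pos _
      calc Kc * (Real.exp (-(2 * Z)) * s ^ 3) * 32
          = Real.exp (-(2 * Z)) * s ^ 3 * (Kc * 32) := by ring
        _ ≤ Real.exp (-(2 * Z)) * s ^ 3 * (s / 16) :=
            mul_le_mul_of_nonneg_left h5 (by positivity)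
        _ = Real.exp (-(2 * Z)) * (s ^ 3 * (s / 16)) := by ring
    linarith
  · have h1 := gg_tail2 hZ1
    have h2 : gg Z * L ≤ 2 * Real.exp (-(2 * Z)) * L := mul_le_mul_of_nonneg_right h1 hL0.le
    refine h2.trans ?_
    rw [← he2Zm, ← hsL]
    have h6 : 0 < Real.exp (-(2 * Z)) := Real.exp_pos _
    calc 2 * Real.exp (-(2 * Z)) * s ^ 2 = Real.exp (-(2 * Z)) * s ^ 2 * 2 := by ring
      _ ≤ Real.exp (-(2 * Z)) * s ^ 2 * s := mul_le_mul_of_nonneg_left hs2 (by positivity)
      _ = Real.exp (-(2 * Z)) * s ^ 3 := by ring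

end BTS
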