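import Pool.Agent.BTS.A5

set_option autoImplicit false

open Filter

namespace BTS
open BTP

theorem a6_pow (k : ℕ) (c : ℝ) (hc : 0 < c) :
    ∀ᶠ L : ℝ in atTop, c * L ^ k ≤ Real.exp (L / 2) := by
  have h := (isLittleO_pow_exp_pos_mul_atTop k (show (0 : ℝ) < 1 / 2 by norm_num)).bound
    (show (0 : ℝ) < 1 / c by positivity)
  filter_upwards [h, eventually_ge_atTop (0 : ℝ)] with L hL hL0
  rw [Real.norm_of_nonneg (by positivity), Real.norm_of_nonneg (Real.exp_nonneg _)] at hL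
  have h1 : (1 / 2 : ℝ) * L = L / 2 := by ring
  rw [h1] at hL
  calc c * L ^ k ≤ c * (1 / c * Real.exp (L / 2)) := mul_le_mul_of_nonneg_left hL hc.le
    _ = Real.exp (L / 2) := by field_simp

/-- [BTS-A6] the error.
PROOF. From `exists_pa`: `Er = d (dL + 1 + 4 Kc e^{-L/2} e^L + g(Z) MM + 70 d (K e^{L/2} + 2 L^(10d+8)(1+L)))`, `MM ≤ 3 L e^L`, `g(Z) L ≤ e^{-L/2}`, so `g(Z) MM ≤ 3 e^{L/2}`; the polynomial terms are at most `e^{L/2}`. `C = d (10 + 4 Kc + 70 d (K + 1)) + 1`. -/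
theorem exists_pa' {d : ℕ} (hd : 2 ≤ d) : ∃ C : ℝ, 0 < C ∧ ∀ᶠ L : ℝ in atTop, ∃ a : Pa d,
    a.A = Real.exp L ∧ a.B ≤ Real.exp (2 * L) ∧
    Er a + 2 * ((a.h : ℝ) + d + 1) * a.gam ≤ C * Real.exp (L / 2) := by
  obtain ⟨c⟩ := exists_co hd
  have hK := c.hK
  have hKc := c.hKc
  have hd0 : (2 : ℝ) ≤ d := by exact_mod_cast hd
  refine ⟨d * (5 + 4 * c.Kc + 70 * d * (c.K + 1)) + 1, by positivity, ?_⟩
  filter_upwards [exists_pa hd c, eventually_ge_atTop (1 : ℝ), a6_pow (10 * d + 9) 4 (by norm_num),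
    a6_pow 2 (2 * d * (d + 3)) (by positivity), a6_pow 1 d (by positivity)] with L hL hL1 e1 e2 e3
  obtain ⟨a, hA, hB, hK', hc1, hgZ, hH, hh, hgam⟩ := hL
  refine ⟨a, hA, hB, ?_⟩
  have hE1 : 1 ≤ Real.exp (L / 2) := Real.one_le_exp (by linarith)
  have hEE : Real.exp L = Real.exp (L / 2) * Real.exp (L / 2) := by
    rw [← Real.exp_add]; congr 1; ring
  have hE2 : Real.exp (-(L / 2)) * Real.exp (L / 2) = 1 := by
    rw [← Real.exp_add]; simp
  have hsq : Real.sqrt (Real.exp L) = Real.exp (L / 2) := by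
    rw [hEE]; exact Real.sqrt_mul_self (Real.exp_nonneg _)
  set E := Real.exp (L / 2) with hEdef
  have hgam0 := a.hgam0
  have hg0 : 0 ≤ gg a.Z := (gg_pos (by have := a.hZ; linarith)).le
  -- the terms
  have t1 : (d : ℝ) * Real.log a.A ≤ E := by
    rw [hA, Real.log_exp]; simpa using e3
  have t2 : 4 * a.c1 * a.A = 4 * c.Kc * E := by
    rw [hA, hc1, hEE]
    linear_combination (4 * c.Kc * E) * hE2
  have hMM : (MM a : ℝ) ≤ 3 * L * (E * E) := by
    unfold MM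
    have h0 : 0 ≤ 2 * a.A * Real.log a.A := by
      rw [hA, Real.log_exp]; positivity
    have h1 := (Nat.ceil_lt_add_one h0).le
    rw [hA, Real.log_exp, hEE] at h1
    rw [hA, Real.log_exp, hEE]
    have h2 : 1 ≤ E * E := by nlinarith
    have h3 : 1 ≤ L * (E * E) := by nlinarith
    linarith
  have t3 : gg a.Z * MM a ≤ 3 * E := by
    have h1 : gg a.Z * MM a ≤ gg a.Z * (3 * L * (E * E)) := mul_le_mul_of_nonneg_left hMM hg0
    have h2 : gg a.Z * (3 * L * (E * E)) = 3 * (gg a.Z * L) * (E * E) := by ring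
    have h3 : 3 * (gg a.Z * L) * (E * E) ≤ 3 * Real.exp (-(L / 2)) * (E * E) := by
      have : 0 ≤ E * E := by positivity
      nlinarith
    have h4 : 3 * Real.exp (-(L / 2)) * (E * E) = 3 * E := by
      linear_combination (3 * E) * hE2
    linarith
  have t4 : a.K * Real.sqrt a.A = c.K * E := by rw [hA, hK', hsq]
  have t5 : a.H * (1 + Real.log a.A) ≤ E := by
    rw [hA, Real.log_exp, hH]
    have h1 : (0 : ℝ) ≤ L ^ (10 * d + 8) := by positivity
    have h2 : L ^ (10 * d + 9) = L ^ (10 * d + 8) * L := pow_succ _ _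
    have h3 : 2 * L ^ (10 * d + 8) * (1 + L) ≤ 4 * (L ^ (10 * d + 8) * L) := by nlinarith
    rw [← h2] at h3
    linarith
  have t6 : 2 * ((a.h : ℝ) + d + 1) * a.gam ≤ E := by
    have h1 : 2 * ((a.h : ℝ) + d + 1) ≤ 2 * (L + d + 2) := by linarith
    have h2 : 2 * ((a.h : ℝ) + d + 1) * a.gam ≤ 2 * (L + d + 2) * (d * L) := by
      refine mul_le_mul h1 hgam hgam0 (by positivity)
    have h3 : 2 * (L + d + 2) ≤ 2 * ((d + 3) * L) := by nlinarith
    have h4 : 2 * (L + d + 2) * (d * L) ≤ 2 * ((d + 3) * L) * (d * L) :=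
      mul_le_mul_of_nonneg_right h3 (by positivity)
    have h5 : 2 * (((d : ℝ) + 3) * L) * (d * L) = 2 * d * (d + 3) * L ^ 2 := by ring
    linarith
  have hfin : Er a ≤ d * ((5 + 4 * c.Kc + 70 * d * (c.K + 1)) * E) := by
    unfold Er
    refine mul_le_mul_of_nonneg_left ?_ (by positivity)
    have h1 : 70 * (d : ℝ) * (a.K * Real.sqrt a.A + a.H * (1 + Real.log a.A)) ≤
        70 * d * ((c.K + 1) * E) := by
      refine mul_le_mul_of_nonneg_left ?_ (by positivity)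
      rw [t4]; linarith
    rw [t2]
    have h2 : (5 + 4 * c.Kc + 70 * d * (c.K + 1)) * E =
      E + E + 4 * c.Kc * E + 3 * E + 70 * d * ((c.K + 1) * E) := by ring
    rw [h2]
    linarith
  have h7 : (d * (5 + 4 * c.Kc + 70 * d * (c.K + 1)) + 1) * E =
    d * ((5 + 4 * c.Kc + 70 * d * (c.K + 1)) * E) + E := by ring
  rw [h7]
  linarith

end BTS
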