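import Pool.Agent.BTS.E3

set_option autoImplicit false

open scoped Classical
open Finset

namespace BTS
open BTP

variable {d : ℕ}

/-! ## Counting sites over the faces and the edges -/

theorem c3a_fix (T : Box d) (F : Finset (Site d)) (s : Finset (Fin d)) (c : Fin d → ℤ)
    (h : ∀ v ∈ F, (∀ l ∈ s, v l = c l) ∧ ∀ l, l ∉ s → - T (l, false) ≤ v l ∧ v l ≤ T (l, true)) :
    F.card ≤ ∏ l ∈ Finset.univ \ s, sd T l := by
  set S : Fin d → Finset ℤ := fun l => if l ∈ s then {c l} else
    Finset.Icc (- T (l, false)) (T (l, true)) with hS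
  have h1 : F ⊆ Fintype.piFinset S := by
    intro v hv
    obtain ⟨h2, h3⟩ := h v hv
    rw [Fintype.mem_piFinset]
    intro l
    by_cases hl : l ∈ s
    · simp only [hS, if_pos hl, Finset.mem_singleton]
      exact h2 l hl
    · simp only [hS, if_neg hl, Finset.mem_Icc]
      exact h3 l hl
  refine (Finset.card_le_card h1).trans (le_of_eq ?_)
  rw [Fintype.card_piFinset, ← Finset.prod_sdiff (Finset.subset_univ s)]
  have h4 : ∏ l ∈ s, (S l).card = 1 := by
    refine Finset.prod_eq_one fun l hl => ?_
    simp only [hS, if_pos hl, Finset.card_singleton]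
  rw [h4, mul_one]
  refine Finset.prod_congr rfl fun l hl => ?_
  have hl' : l ∉ s := (Finset.mem_sdiff.1 hl).2
  simp only [hS, if_neg hl', Int.card_Icc, sd]
  congr 1
  ring

theorem c3a_cc_range {T : Box d} {v : Site d} {l : Fin d}
    (h : ∀ b : Bool, cc v (l, b) ≤ T (l, b)) : - T (l, false) ≤ v l ∧ v l ≤ T (l, true) := by
  have h1 := h true
  have h2 := h false
  simp only [cc, if_true, Bool.false_eq_true, if_false] at h1 h2
  constructor
  · linarith
  · exact h1

theorem c3a_cc_val {v : Site d} {j : Dir d} {c : ℤ} (h : cc v j = c) :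
    v j.1 = if j.2 = true then c else -c := by
  unfold cc at h
  split_ifs at h ⊢ with h1
  · exact h
  · linarith

theorem c3a_two (i j : Fin d) :
    (Finset.univ : Finset (Fin d)) \ {i, j} = (Finset.univ.erase i).erase j := by
  ext l
  simp only [Finset.mem_sdiff, Finset.mem_univ, true_and, Finset.mem_insert,
    Finset.mem_singleton, Finset.mem_erase, and_true]
  tauto

theorem c3a_three (i i' j : Fin d) :
    (Finset.univ : Finset (Fin d)) \ {i, i', j} =
      ((Finset.univ.erase i).erase i').erase j := by
  ext l
  simp only [Finset.mem_sdiff, Finset.mem_univ, true_and, Finset.mem_insert,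
    Finset.mem_singleton, Finset.mem_erase, and_true]
  tauto

/-- [BTS-C3a] PROOF. The sites are determined by the coordinates of the axes `l ≠ j.1`, which lie in `[- T (l,false), T (l,true)]`: `sd T l` values. (Injection into `Fintype.piFinset`, or into `sites T` with one coordinate fixed; `Finset.card_le_card_of_injOn`.) -/
theorem nL_le {T : Box d} (hT : Ne T) (D : Finset (Site d)) (j : Dir d) (k : ℤ) :
    nL T D j k ≤ ∏ l ∈ Finset.univ.erase j.1, sd T l := by
  have h := c3a_fix T (D.filter (fun v => inL T j k v)) {j.1}
    (fun _ => if j.2 = true then T j + k else -(T j + k)) (by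
      intro v hv
      obtain ⟨h1, h2⟩ := (Finset.mem_filter.1 hv).2
      refine ⟨?_, ?_⟩
      · intro l hl
        rw [Finset.mem_singleton] at hl
        subst hl
        exact c3a_cc_val h1
      · intro l hl
        rw [Finset.mem_singleton] at hl
        exact c3a_cc_range fun b => h2 (l, b) hl)
  rw [Finset.sdiff_singleton_eq_erase] at h
  exact h

theorem nC_le {T : Box d} (hT : Ne T) (D : Finset (Site d)) (i j : Dir d) :
    nC T D i j ≤ ∏ l ∈ (Finset.univ.erase i.1).erase j.1, sd T l := by
  unfold nC
  split_ifs with hij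
  · exact Nat.zero_le _
  have h := c3a_fix T (D.filter (fun v => inC T i j v)) {i.1, j.1}
    (fun l => if l = i.1 then (if i.2 = true then T i + 1 else -(T i + 1)) else
      (if j.2 = true then T j + 1 else -(T j + 1))) (by
      intro v hv
      obtain ⟨h1, h2, h3⟩ := (Finset.mem_filter.1 hv).2
      refine ⟨?_, ?_⟩
      · intro l hl
        rw [Finset.mem_insert, Finset.mem_singleton] at hl
        rcases hl with hl | hl
        · subst hl
          simp only [if_true]
          exact c3a_cc_val h1
        · subst hl
          rw [if_neg (Ne.symm hij)]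
          exact c3a_cc_val h2
      · intro l hl
        rw [Finset.mem_insert, Finset.mem_singleton, not_or] at hl
        exact c3a_cc_range fun b => h3 (l, b) hl.1 hl.2)
  rw [c3a_two] at h
  exact h

theorem nC_symm (T : Box d) (D : Finset (Site d)) (i j : Dir d) : nC T D i j = nC T D j i := by
  unfold nC
  by_cases h : i.1 = j.1
  · rw [if_pos h, if_pos h.symm]
  · rw [if_neg h, if_neg (Ne.symm h)]
    congr 1
    refine Finset.filter_congr fun v _ => ?_
    unfold inC
    constructor
    · rintro ⟨h1, h2, h3⟩
      exact ⟨h2, h1, fun l a b => h3 l b a⟩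
    · rintro ⟨h1, h2, h3⟩
      exact ⟨h2, h1, fun l a b => h3 l b a⟩

/-- [BTS-C3a] growth of `T` in direction `j`: the layers in the directions of the same axis (`i = opp j`) do not change -/
theorem nL_up_same {T : Box d} (D : Finset (Site d)) {i j : Dir d} (h : i.1 = j.1) (hij : i ≠ j)
    (k : ℤ) : nL (up T j) D i k = nL T D i k := by
  unfold nL
  congr 1
  refine Finset.filter_congr fun v _ => ?_
  unfold inL
  rw [up_ne T hij]
  refine and_congr Iff.rfl (forall_congr' fun l => ?_)
  constructor
  · intro h1 hl
    have h2 := h1 hl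
    rwa [up_ne T (fun h3 => hl (by rw [h3, h]))] at h2
  · intro h1 hl
    rw [up_ne T (fun h3 => hl (by rw [h3, h]))]
    exact h1 hl

/-- [BTS-C3a] the new sites of the layer in direction `i` have `cc v j = T j + 1` and `cc v i = T i + k`, all other coordinates in the range of `T` -/
theorem nL_up {T : Box d} (hT : Ne T) (D : Finset (Site d)) {i j : Dir d} (h : i.1 ≠ j.1) (k : ℤ) :
    nL (up T j) D i k ≤ nL T D i k + ∏ l ∈ (Finset.univ.erase i.1).erase j.1, sd T l := by
  have hij : i ≠ j := fun h1 => h (by rw [h1])
  have h0 : D.filter (fun v => inL (up T j) i k v) ⊆ D.filter (fun v => inL T i k v) ∪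
      D.filter (fun v => inL (up T j) i k v ∧ ¬ inL T i k v) := by
    intro v hv
    rw [Finset.mem_filter] at hv
    rw [Finset.mem_union, Finset.mem_filter, Finset.mem_filter]
    by_cases h1 : inL T i k v
    · exact Or.inl ⟨hv.1, h1⟩
    · exact Or.inr ⟨hv.1, hv.2, h1⟩
  have h2 := c3a_fix T (D.filter (fun v => inL (up T j) i k v ∧ ¬ inL T i k v)) {i.1, j.1}
    (fun l => if l = i.1 then (if i.2 = true then T i + k else -(T i + k)) else
      (if j.2 = true then T j + 1 else -(T j + 1))) (by
      intro v hv
      obtain ⟨⟨h1, h2⟩, h3⟩ := (Finset.mem_filter.1 hv).2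
      rw [up_ne T hij] at h1
      have h4 : cc v j = T j + 1 := by
        by_contra h5
        have h6 : cc v j ≤ T j := by
          have h7 := h2 j (Ne.symm h)
          rw [up_self] at h7
          omega
        refine h3 ⟨h1, fun l hl => ?_⟩
        by_cases hlj : l = j
        · rw [hlj]; exact h6
        · have h8 := h2 l hl
          rwa [up_ne T hlj] at h8
      refine ⟨?_, ?_⟩
      · intro l hl
        rw [Finset.mem_insert, Finset.mem_singleton] at hl
        rcases hl with hl | hl
        · subst hl
          simp only [if_true]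
          exact c3a_cc_val h1
        · subst hl
          rw [if_neg (Ne.symm h)]
          exact c3a_cc_val h4
      · intro l hl
        rw [Finset.mem_insert, Finset.mem_singleton, not_or] at hl
        refine c3a_cc_range fun b => ?_
        have h8 := h2 (l, b) hl.1
        rwa [up_ne T (fun h9 => hl.2 (by rw [← h9]))] at h8)
  rw [c3a_two] at h2
  refine (Finset.card_le_card h0).trans ((Finset.card_union_le _ _).trans ?_)
  exact Nat.add_le_add_left h2 _

theorem nC_up_same {T : Box d} (D : Finset (Site d)) {i i' j : Dir d} (h : i.1 = j.1 ∨ i'.1 = j.1)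
    (hi : i ≠ j) (hi' : i' ≠ j) : nC (up T j) D i i' = nC T D i i' := by
  unfold nC
  by_cases hii : i.1 = i'.1
  · rw [if_pos hii, if_pos hii]
  rw [if_neg hii, if_neg hii]
  congr 1
  refine Finset.filter_congr fun v _ => ?_
  unfold inC
  rw [up_ne T hi, up_ne T hi']
  refine and_congr Iff.rfl (and_congr Iff.rfl (forall_congr' fun l => ?_))
  have key : l.1 ≠ i.1 → l.1 ≠ i'.1 → l ≠ j := by
    intro h1 h2 h3
    rcases h with h | h
    · exact h1 (by rw [h3, h])
    · exact h2 (by rw [h3, h])
  constructor
  · intro h1 hl hl'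
    have h2 := h1 hl hl'
    rwa [up_ne T (key hl hl')] at h2
  · intro h1 hl hl'
    rw [up_ne T (key hl hl')]
    exact h1 hl hl'

theorem nC_up {T : Box d} (hT : Ne T) (D : Finset (Site d)) {i i' j : Dir d} (h : i.1 ≠ j.1)
    (h' : i'.1 ≠ j.1) (hii : i.1 ≠ i'.1) : nC (up T j) D i i' ≤ nC T D i i' +
      ∏ l ∈ ((Finset.univ.erase i.1).erase i'.1).erase j.1, sd T l := by
  have hij : i ≠ j := fun h1 => h (by rw [h1])
  have hij' : i' ≠ j := fun h1 => h' (by rw [h1])
  unfold nC
  rw [if_neg hii, if_neg hii]
  have h0 : D.filter (fun v => inC (up T j) i i' v) ⊆ D.filter (fun v => inC T i i' v) ∪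
      D.filter (fun v => inC (up T j) i i' v ∧ ¬ inC T i i' v) := by
    intro v hv
    rw [Finset.mem_filter] at hv
    rw [Finset.mem_union, Finset.mem_filter, Finset.mem_filter]
    by_cases h1 : inC T i i' v
    · exact Or.inl ⟨hv.1, h1⟩
    · exact Or.inr ⟨hv.1, hv.2, h1⟩
  have h2 := c3a_fix T (D.filter (fun v => inC (up T j) i i' v ∧ ¬ inC T i i' v))
    {i.1, i'.1, j.1}
    (fun l => if l = i.1 then (if i.2 = true then T i + 1 else -(T i + 1)) else
      if l = i'.1 then (if i'.2 = true then T i' + 1 else -(T i' + 1)) else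
      (if j.2 = true then T j + 1 else -(T j + 1))) (by
      intro v hv
      obtain ⟨⟨h1, h1', h2⟩, h3⟩ := (Finset.mem_filter.1 hv).2
      rw [up_ne T hij] at h1
      rw [up_ne T hij'] at h1'
      have h4 : cc v j = T j + 1 := by
        by_contra h5
        have h6 : cc v j ≤ T j := by
          have h7 := h2 j (Ne.symm h) (Ne.symm h')
          rw [up_self] at h7
          omega
        refine h3 ⟨h1, h1', fun l hl hl' => ?_⟩
        by_cases hlj : l = j
        · rw [hlj]; exact h6
        · have h8 := h2 l hl hl'
          rwa [up_ne T hlj] at h8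
      refine ⟨?_, ?_⟩
      · intro l hl
        rw [Finset.mem_insert, Finset.mem_insert, Finset.mem_singleton] at hl
        rcases hl with hl | hl | hl
        · subst hl
          simp only [if_true]
          exact c3a_cc_val h1
        · subst hl
          rw [if_neg (Ne.symm hii)]
          simp only [if_true]
          exact c3a_cc_val h1'
        · subst hl
          rw [if_neg (Ne.symm h), if_neg (Ne.symm h')]
          exact c3a_cc_val h4
      · intro l hl
        rw [Finset.mem_insert, Finset.mem_insert, Finset.mem_singleton, not_or, not_or] at hl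
        refine c3a_cc_range fun b => ?_
        have h8 := h2 (l, b) hl.1 hl.2.1
        rwa [up_ne T (fun h9 => hl.2.2 (by rw [← h9]))] at h8)
  rw [c3a_three] at h2
  refine (Finset.card_le_card h0).trans ((Finset.card_union_le _ _).trans ?_)
  exact Nat.add_le_add_left h2 _

end BTS
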