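import Pool.Agent.BTS.C3a
import Pool.Agent.BTS.E3
import Pool.Agent.BTP.B1
import Pool.Agent.BTP.B2

set_option autoImplicit false

open scoped Classical
open Finset

namespace BTS
open BTP

variable {d : ℕ}

/-! ## Counting sites over the faces and the edges -/

theorem c3b_dir {j l : Dir d} (h : l.1 = j.1) (hne : l ≠ j) : l = opp j := by
  obtain ⟨a, b⟩ := l
  obtain ⟨a', b'⟩ := j
  simp only [opp, ne_eq, Prod.mk.injEq, not_and] at h hne ⊢
  refine ⟨h, ?_⟩
  have := hne h
  cases b <;> cases b' <;> simp_all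

theorem c3b_ne {T : Box d} (hT : Ne T) (j : Dir d) : - T j ≤ T (opp j) := by
  have := b2_ne_dir hT (opp j)
  rwa [b2_opp_opp] at this

/-- a site in a layer is beyond `T` in no other direction -/
theorem c3b_inL {T : Box d} (hT : Ne T) {j : Dir d} {k : ℤ} (hk : 1 ≤ k) {v : Site d}
    (h : inL T j k v) (l : Dir d) (hl : l ≠ j) : cc v l ≤ T l := by
  by_cases h1 : l.1 = j.1
  · have h2 := c3b_dir h1 hl
    subst h2
    rw [b2_cc_opp, h.1]
    have := c3b_ne hT j
    omega
  · exact h.2 l h1

theorem c3b_inC {T : Box d} (hT : Ne T) {i j : Dir d} {v : Site d}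
    (h : inC T i j v) (l : Dir d) (hl : l ≠ i) (hl' : l ≠ j) : cc v l ≤ T l := by
  by_cases h1 : l.1 = i.1
  · have h2 := c3b_dir h1 hl
    subst h2
    rw [b2_cc_opp, h.1]
    have := c3b_ne hT i
    omega
  · by_cases h1' : l.1 = j.1
    · have h2 := c3b_dir h1' hl'
      subst h2
      rw [b2_cc_opp, h.2.1]
      have := c3b_ne hT j
      omega
    · exact h.2.2 l h1 h1'

theorem c3b_card_erase {D : Finset (Site d)} {P : Site d → Prop} {v : Site d} (hv : v ∈ D)
    (h : P v) : (D.filter P).card = ((D.erase v).filter P).card + 1 := by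
  have h1 : (D.erase v).filter P = (D.filter P).erase v := by
    ext w
    simp only [Finset.mem_filter, Finset.mem_erase]
    tauto
  rw [h1, Finset.card_erase_add_one (Finset.mem_filter.2 ⟨hv, h⟩)]

theorem c3b_card_erase_not {D : Finset (Site d)} {P : Site d → Prop} {v : Site d}
    (h : ¬ P v) : ((D.erase v).filter P).card = (D.filter P).card := by
  have h1 : (D.erase v).filter P = D.filter P := by
    ext w
    simp only [Finset.mem_filter, Finset.mem_erase]
    constructor
    · rintro ⟨⟨_, h2⟩, h3⟩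
      exact ⟨h2, h3⟩
    · rintro ⟨h2, h3⟩
      refine ⟨⟨?_, h2⟩, h3⟩
      rintro rfl
      exact h h3
  rw [h1]

theorem c3b_card_sdiff {T : Box d} {D : Finset (Site d)} {P : Site d → Prop}
    (h : ∀ v, v ∈ sites T → ¬ P v) : ((D \ sites T).filter P).card = (D.filter P).card := by
  have h1 : (D \ sites T).filter P = D.filter P := by
    ext w
    simp only [Finset.mem_filter, Finset.mem_sdiff]
    constructor
    · rintro ⟨⟨h2, _⟩, h3⟩
      exact ⟨h2, h3⟩
    · rintro ⟨h2, h3⟩
      exact ⟨⟨h2, fun h4 => h w h4 h3⟩, h3⟩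
  rw [h1]

/-- [BTS-C3b] removing a site of the first or second layer (`k ≠ 0`): only one count changes.
PROOF. `inL T j k v` determines `(j, k)`: in a direction `j' ≠ j`, `cc v j' ≤ T j'` (for `j' = opp j`: `cc v j' = - T j - k ≤ T j'` by `Ne T`). -/
theorem nL_erase {T : Box d} {D : Finset (Site d)} {j : Dir d} {k : ℤ}
    {v : Site d} (hv : v ∈ D) (h : inL T j k v) : nL T D j k = nL T (D.erase v) j k + 1 := by
  unfold nL
  exact c3b_card_erase hv h

theorem nL_erase_ne {T : Box d} (hT : Ne T) {D : Finset (Site d)} {j j' : Dir d} {k k' : ℤ}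
    (hk : 1 ≤ k) (hk' : 1 ≤ k') {v : Site d} (h : inL T j k v) (hne : (j', k') ≠ (j, k)) :
    nL T (D.erase v) j' k' = nL T D j' k' := by
  unfold nL
  refine c3b_card_erase_not ?_
  intro h'
  by_cases hj : j' = j
  · subst hj
    have h1 := h.1
    have h2 := h'.1
    apply hne
    rw [Prod.mk.injEq]
    exact ⟨rfl, by omega⟩
  · have h1 := c3b_inL hT hk h j' hj
    have h2 := h'.1
    omega

theorem nC_erase_inL {T : Box d} (hT : Ne T) {D : Finset (Site d)} {j i i' : Dir d} {k : ℤ}
    (hk : 1 ≤ k) {v : Site d} (h : inL T j k v) : nC T (D.erase v) i i' = nC T D i i' := by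
  unfold nC
  by_cases hi : i.1 = i'.1
  · rw [if_pos hi, if_pos hi]
  · rw [if_neg hi, if_neg hi]
    refine c3b_card_erase_not ?_
    intro h'
    by_cases hj : i = j
    · have hj' : i' ≠ j := by
        rintro rfl
        exact hi (by rw [hj])
      have h1 := c3b_inL hT hk h i' hj'
      have h2 := h'.2.1
      omega
    · have h1 := c3b_inL hT hk h i hj
      have h2 := h'.1
      omega

/-- [BTS-C3b] removing a site over an edge -/
theorem nC_erase {T : Box d} {D : Finset (Site d)} {i j : Dir d} (hij : i.1 ≠ j.1)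
    {v : Site d} (hv : v ∈ D) (h : inC T i j v) : nC T D i j = nC T (D.erase v) i j + 1 := by
  unfold nC
  rw [if_neg hij, if_neg hij]
  exact c3b_card_erase hv h

theorem nC_erase_ne {T : Box d} (hT : Ne T) {D : Finset (Site d)} {i j l m : Dir d}
    (hij : i.1 ≠ j.1) {v : Site d} (h : inC T i j v) (hne : (l, m) ≠ (i, j)) (hne' : (l, m) ≠ (j, i)) :
    nC T (D.erase v) l m = nC T D l m := by
  unfold nC
  by_cases hi : l.1 = m.1
  · rw [if_pos hi, if_pos hi]
  · rw [if_neg hi, if_neg hi]
    refine c3b_card_erase_not ?_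
    intro h'
    have key : ∀ x : Dir d, cc v x = T x + 1 → x = i ∨ x = j := by
      intro x hx
      by_contra hc
      push Not at hc
      have := c3b_inC hT h x hc.1 hc.2
      omega
    have hlm : l ≠ m := fun h => hi (by rw [h])
    rcases key l h'.1 with rfl | rfl
    · rcases key m h'.2.1 with rfl | rfl
      · exact hlm rfl
      · exact hne rfl
    · rcases key m h'.2.1 with rfl | rfl
      · exact hne' rfl
      · exact hlm rfl

theorem nL_erase_inC {T : Box d} (hT : Ne T) {D : Finset (Site d)} {i j l : Dir d}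
    (hij : i.1 ≠ j.1) {k : ℤ} (hk : 1 ≤ k) {v : Site d} (h : inC T i j v) :
    nL T (D.erase v) l k = nL T D l k := by
  unfold nL
  refine c3b_card_erase_not ?_
  intro h'
  by_cases hl : i = l
  · have hj : j ≠ l := by
      rintro rfl
      exact hij (by rw [hl])
    have h1 := c3b_inL hT hk h' j hj
    have h2 := h.2.1
    omega
  · have h1 := c3b_inL hT hk h' i hl
    have h2 := h.1
    omega

/-- [BTS-C3b] -/
theorem nL_mono {T : Box d} {D D' : Finset (Site d)} (h : D ⊆ D') (j : Dir d) (k : ℤ) :
    nL T D j k ≤ nL T D' j k := by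
  unfold nL
  exact Finset.card_le_card (Finset.filter_subset_filter _ h)

theorem nC_mono {T : Box d} {D D' : Finset (Site d)} (h : D ⊆ D') (i j : Dir d) :
    nC T D i j ≤ nC T D' i j := by
  unfold nC
  split_ifs
  · exact le_rfl
  · exact Finset.card_le_card (Finset.filter_subset_filter _ h)

/-- [BTS-C3b] the sites in `T` are not counted -/
theorem nL_sdiff {T : Box d} {D : Finset (Site d)} (j : Dir d) {k : ℤ} (hk : 1 ≤ k) :
    nL T (D \ sites T) j k = nL T D j k := by
  unfold nL
  refine c3b_card_sdiff ?_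
  intro v hv h
  have h1 : cc v j ≤ T j := mem_sites.1 hv j
  have h2 := h.1
  omega

theorem nC_sdiff {T : Box d} {D : Finset (Site d)} (i j : Dir d) :
    nC T (D \ sites T) i j = nC T D i j := by
  unfold nC
  by_cases hi : i.1 = j.1
  · rw [if_pos hi, if_pos hi]
  · rw [if_neg hi, if_neg hi]
    refine c3b_card_sdiff ?_
    intro v hv h
    have h1 : cc v i ≤ T i := mem_sites.1 hv i
    have h2 := h.1
    omega

end BTS
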