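import Pool.Agent.BTS.D1
import Pool.Agent.BTP.B2

set_option autoImplicit false

open scoped Classical
open Finset

namespace BTS
open BTP

variable {d : ℕ}

/-- [BTS-E1a] bigger boxes are nearer. PROOF. `gap B B' i ≤ gap R S i` for `R ≤ B`, `S ≤ B'`. -/
theorem near_mono {R S B B' : Box d} (h : R ≤ B) (h' : S ≤ B') (hn : near R S) : near B B' := by
  have hn' : ∑ i : Fin d, gap R S i ≤ 2 := hn
  show ∑ i : Fin d, gap B B' i ≤ 2
  refine le_trans (Finset.sum_le_sum fun i _ => ?_) hn'
  have h1 : R (i, true) ≤ B (i, true) := h (i, true)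
  have h2 : R (i, false) ≤ B (i, false) := h (i, false)
  have h3 : S (i, true) ≤ B' (i, true) := h' (i, true)
  have h4 : S (i, false) ≤ B' (i, false) := h' (i, false)
  unfold gap
  refine max_le_max le_rfl (max_le_max ?_ ?_)
  · omega
  · omega

theorem near_symm {R S : Box d} (hn : near R S) : near S R := by
  exact BTP.near_symm hn

/-- [BTS-E1a] a nonempty box is near to every box containing it (all gaps are `0`) -/
theorem near_of_le {R S : Box d} (hR : Ne R) (h : R ≤ S) : near R S := by
  show ∑ i : Fin d, gap R S i ≤ 2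
  have h0 : ∀ i : Fin d, gap R S i = 0 := by
    intro i
    have h1 : R (i, true) ≤ S (i, true) := h (i, true)
    have h2 : R (i, false) ≤ S (i, false) := h (i, false)
    have h3 := hR i
    unfold gap
    omega
  simp [h0]

/-- [BTS-E1a] PROOF. Induction on `Gen`: `single v`: `W = {v}`. `merge R S`: by induction `R ≤ B`, `S ≤ B'` with `B, B' ∈ F`; `near B B'` (`near_mono`), so `B = B'` and `R ⊔ S ≤ B`. -/
theorem Gen_cover {Q : Box d} {W : Finset (Site d)} (hg : Gen Q W) (F : Finset (Box d))
    (hF : ∀ B ∈ F, ∀ B' ∈ F, B ≠ B' → ¬ near B B') (hW : ∀ v ∈ W, ∃ B ∈ F, cc v ≤ B) :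
    ∃ B ∈ F, Q ≤ B := by
  induction hg with
  | single v => exact hW v (Finset.mem_singleton_self v)
  | @merge R S W W' hR hS hd hn ihR ihS =>
    obtain ⟨B, hB, hRB⟩ := ihR fun v hv => hW v (Finset.mem_union_left _ hv)
    obtain ⟨B', hB', hSB⟩ := ihS fun v hv => hW v (Finset.mem_union_right _ hv)
    have hnB : near B B' := near_mono hRB hSB hn
    have hBB : B = B' := by
      by_contra hne
      exact hF B hB B' hB' hne hnB
    subst hBB
    exact ⟨B, hB, sup_le hRB hSB⟩

theorem Inc_Cl (T Q : Box d) : Inc (Cl T Q) := by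
  intro U U' hUU hU F hF hT hU'
  exact hU F hF hT fun v hv => hU' v (hUU hv)

end BTS
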