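import Pool.Agent.BTS.E1a
import Pool.Agent.BTS.D1
import Pool.Agent.BTP.B2

set_option autoImplicit false

open scoped Classical
open Finset

namespace BTS
open BTP

variable {d : ℕ}

/-- [BTS-E1b] -/
theorem Cl_mono {T T' Q : Box d} {U : Finset (Site d)} (h : T ≤ T') (hC : Cl T Q U) : Cl T' Q U := by
  intro F hF hT hU
  obtain ⟨B, hB, hTB⟩ := hT
  exact hC F hF ⟨B, hB, h.trans hTB⟩ hU

/-- [BTS-E1b] PROOF. A family covering `T ⊔ cc v` and `U` covers `T` and `insert v U`. -/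
theorem Cl_sup {T Q : Box d} {U : Finset (Site d)} {v : Site d} (hC : Cl T Q (insert v U)) :
    Cl (T ⊔ cc v) Q U := by
  intro F hF hT hU
  obtain ⟨B, hB, hTB⟩ := hT
  refine hC F hF ⟨B, hB, le_sup_left.trans hTB⟩ ?_
  intro w hw
  rcases Finset.mem_insert.mp hw with rfl | hw
  · exact ⟨B, hB, le_sup_right.trans hTB⟩
  · exact hU w hw

/-- [BTS-E1b] the sites in `T` are not needed (`mem_sites`) -/
theorem Cl_sdiff {T Q : Box d} {U : Finset (Site d)} (hC : Cl T Q U) : Cl T Q (U \ sites T) := by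
  intro F hF hT hU
  refine hC F hF hT ?_
  intro w hw
  obtain ⟨B, hB, hTB⟩ := hT
  by_cases hw' : w ∈ sites T
  · exact ⟨B, hB, (mem_sites.mp hw').trans hTB⟩
  · exact hU w (Finset.mem_sdiff.mpr ⟨hw, hw'⟩)

/-- [BTS-E1b] the set which generates `T` may be replaced by `T`.
PROOF. A family covering `T` and `W \ W0` covers `W` (for `v ∈ W0`, `cc v ≤ T` by `Gen.le`), then `Gen_cover`. -/
theorem Cl_of_Gen {T Q : Box d} {W W0 : Finset (Site d)} (hQ : Gen Q W) (hT : Gen T W0) :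
    Cl T Q (W \ W0) := by
  intro F hF hT' hU
  refine Gen_cover hQ F hF ?_
  intro w hw
  obtain ⟨B, hB, hTB⟩ := hT'
  by_cases hw' : w ∈ W0
  · exact ⟨B, hB, (hT.le w hw').trans hTB⟩
  · exact hU w (Finset.mem_sdiff.mpr ⟨hw, hw'⟩)

theorem e1b_Ys_cc (v : Site d) : Ys (cc v) = 0 := by
  unfold Ys cc
  rw [Fintype.sum_prod_type]
  simp

/-- [BTS-E1b] the first box of extent at least `h` in the merge tree.
PROOF. Induction on `Gen`: `single`: `Ys = 0 < h`, impossible. `merge R S`: if `h ≤ Ys R` the induction hypothesis for `R` (`W_R ⊆ W`, `R ≤ R ⊔ S`); similarly `S`; otherwise `Ys R, Ys S ≤ h - 1` and `Ys (R ⊔ S) ≤ 2 h` (`Ys_sup_le`): take `T = R ⊔ S` itself. -/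
theorem first_box {h : ℕ} (hh : 1 ≤ h) {Q : Box d} {W : Finset (Site d)} (hQ : Gen Q W)
    (hY : (h : ℤ) ≤ Ys Q) : ∃ (T : Box d) (W0 : Finset (Site d)), Gen T W0 ∧ W0 ⊆ W ∧ T ≤ Q ∧
      (h : ℤ) ≤ Ys T ∧ Ys T ≤ 2 * h := by
  induction hQ with
  | single v =>
    exfalso
    have h0 : Ys (cc v) = 0 := e1b_Ys_cc v
    rw [h0] at hY
    have : (1 : ℤ) ≤ h := by exact_mod_cast hh
    omega
  | @merge R S W W' hR hS hd hn ihR ihS =>
    by_cases hYR : (h : ℤ) ≤ Ys R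
    · obtain ⟨T, W0, hT, hW0, hTQ, h1, h2⟩ := ihR hYR
      exact ⟨T, W0, hT, hW0.trans Finset.subset_union_left, hTQ.trans le_sup_left, h1, h2⟩
    · by_cases hYS : (h : ℤ) ≤ Ys S
      · obtain ⟨T, W0, hT, hW0, hTQ, h1, h2⟩ := ihS hYS
        exact ⟨T, W0, hT, hW0.trans Finset.subset_union_right, hTQ.trans le_sup_right, h1, h2⟩
      · have hsup := Ys_sup_le hR.ne hS.ne hn
        refine ⟨R ⊔ S, W ∪ W', Gen.merge hR hS hd hn, Finset.Subset.refl _, le_rfl, hY, ?_⟩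
        omega

end BTS
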