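import Pool.Agent.BTS.E1

set_option autoImplicit false

open scoped Classical
open Finset

namespace BTS
open BTP

variable {d : ℕ}

/-- a site just above a box in one direction is near the box -/
theorem e2_near {T : Box d} {v : Site d} {j : Dir d} (hT : Ne T)
    (h : ∀ l : Dir d, l.1 ≠ j.1 → cc v l ≤ T l) (h1 : T j ≤ cc v j) (h2 : cc v j ≤ T j + 2) :
    near T (cc v) := by
  have hz : ∀ i : Fin d, i ≠ j.1 → gap T (cc v) i = 0 := by
    intro i hi
    have a1 := h (i, true) hi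
    have a2 := h (i, false) hi
    have b1 := b2_cc_opp v (i, true)
    have b2 : cc v (i, false) = - cc v (i, true) := b1
    unfold gap
    omega
  unfold near
  rw [Finset.sum_eq_single j.1 (fun i _ hi => hz i hi) (fun hn => absurd (Finset.mem_univ _) hn)]
  obtain ⟨i, b⟩ := j
  have b2 : cc v (i, false) = - cc v (i, true) := b2_cc_opp v (i, true)
  have hTi := hT i
  show gap T (cc v) i ≤ 2
  unfold gap
  cases b <;> omega

/-- [BTS-E2] growth when no single site is near `T`.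
PROOF. `spanning U` gives the family `𝓒` (pairs of generated boxes and sets). Suppose first that no `c ∈ 𝓒` with `¬ c.1 ≤ T` is near `T`. Then `F = insert T (the boxes c.1, c ∈ 𝓒, ¬ c.1 ≤ T)` (`Finset.image`) is pairwise distant
(`spanning` for two different boxes `c.1 ≠ c'.1`, so `c ≠ c'`; `near_symm`), covers `T` and `U` (a site in `c.1 ≤ T` is covered by `T`), so some member contains `Q`: `Q ≤ T` is excluded by `T ≤ Q`, `T ≠ Q` (`le_antisymm`); `Q ≤ c.1` implies `T ≤ c.1`, hence `near T c.1` (`near_of_le`), a contradiction.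
So there is `c = (S, W') ∈ 𝓒` near `T` with `¬ S ≤ T`; `Gen S W'`, `W' ⊆ U`. `Cl (T ⊔ S) Q (U \ W')`: a family covering `T ⊔ S` and `U \ W'` covers `T` and `U` (`Gen.le`).
Two axes: let `T j < S j`. Suppose that `S l ≤ T l` for all `l` with `l.1 ≠ j.1`. By `Gen.hit_step` (with `R = T`, level `T j + 1`) there is `v ∈ W'` with `cc v j = T j + 1` or `cc v j = T j + 2`. Then `near T (cc v)`: for the axes `l ≠ j.1`, `cc v ≤ S ≤ T` in both directions so the gap is `0`
(`cc v (opp l) = - cc v l`); in the axis `j.1` the gap is at most `2` (`T (opp j) + cc v (opp j)` negative of ..: use `Ne T`). By `hnear`, `cc v ≤ T`, contradicting `cc v j > T j`. So there is `j'` with `j'.1 ≠ j.1` and `T j' < S j'`. -/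
theorem stuck {T Q : Box d} {U : Finset (Site d)} (hT : Ne T) (hTQ : T ≤ Q) (hne : T ≠ Q)
    (hC : Cl T Q U) (hnear : ∀ v ∈ U, near T (cc v) → cc v ≤ T) :
    ∃ (S : Box d) (W' : Finset (Site d)), Gen S W' ∧ W' ⊆ U ∧ near T S ∧
      (∃ j j' : Dir d, j.1 ≠ j'.1 ∧ T j < S j ∧ T j' < S j') ∧ Cl (T ⊔ S) Q (U \ W') := by
  obtain ⟨𝓒, hg, hcov, hdist⟩ := spanning U
  have key : ∃ c ∈ 𝓒, near T c.1 ∧ ¬ c.1 ≤ T := by
    by_contra hcon
    have hcon' : ∀ c ∈ 𝓒, ¬ c.1 ≤ T → ¬ near T c.1 := by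
      intro c hc h1 h2
      exact hcon ⟨c, hc, h2, h1⟩
    have hF := hC (insert T ((𝓒.filter (fun c => ¬ c.1 ≤ T)).image Prod.fst)) ?_ ?_ ?_
    · obtain ⟨B, hB, hQB⟩ := hF
      rcases Finset.mem_insert.1 hB with rfl | hB
      · exact hne (le_antisymm hTQ hQB)
      · obtain ⟨c, hc, rfl⟩ := Finset.mem_image.1 hB
        obtain ⟨hc1, hc2⟩ := Finset.mem_filter.1 hc
        exact hcon' c hc1 hc2 (near_of_le hT (hTQ.trans hQB))
    · intro B hB B' hB' hBB
      rcases Finset.mem_insert.1 hB with rfl | hB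
      · rcases Finset.mem_insert.1 hB' with rfl | hB'
        · exact absurd rfl hBB
        · obtain ⟨c, hc, rfl⟩ := Finset.mem_image.1 hB'
          obtain ⟨hc1, hc2⟩ := Finset.mem_filter.1 hc
          exact hcon' c hc1 hc2
      · obtain ⟨c, hc, rfl⟩ := Finset.mem_image.1 hB
        obtain ⟨hc1, hc2⟩ := Finset.mem_filter.1 hc
        rcases Finset.mem_insert.1 hB' with rfl | hB'
        · exact fun hn => hcon' c hc1 hc2 (near_symm hn)
        · obtain ⟨c', hc', rfl⟩ := Finset.mem_image.1 hB'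
          obtain ⟨hc1', hc2'⟩ := Finset.mem_filter.1 hc'
          refine hdist c hc1 c' hc1' ?_
          rintro rfl
          exact hBB rfl
    · exact ⟨T, Finset.mem_insert_self _ _, le_rfl⟩
    · intro v hv
      obtain ⟨c, hc, hvc⟩ := hcov v hv
      by_cases hcT : c.1 ≤ T
      · exact ⟨T, Finset.mem_insert_self _ _, hvc.trans hcT⟩
      · exact ⟨c.1, Finset.mem_insert_of_mem
          (Finset.mem_image_of_mem _ (Finset.mem_filter.2 ⟨hc, hcT⟩)), hvc⟩
  obtain ⟨⟨S, W'⟩, hc, hn, hnle⟩ := key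
  obtain ⟨hG, hW⟩ := hg _ hc
  simp only at hn hnle hG hW
  refine ⟨S, W', hG, hW, hn, ?_, ?_⟩
  · rw [Pi.le_def] at hnle
    simp only [not_forall, not_le] at hnle
    obtain ⟨j, hj⟩ := hnle
    by_contra hcon
    have hle : ∀ l : Dir d, l.1 ≠ j.1 → S l ≤ T l := by
      intro l hl
      by_contra hlt
      exact hcon ⟨j, l, fun h => hl h.symm, hj, not_le.1 hlt⟩
    have hstep : ∃ v ∈ W', T j < cc v j ∧ cc v j ≤ T j + 2 := by
      rcases hG.hit_step hn j (T j + 1) (by omega) (by omega) with ⟨v, hv, h⟩ | ⟨_, v, hv, h⟩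
      · exact ⟨v, hv, by omega, by omega⟩
      · exact ⟨v, hv, by omega, by omega⟩
    obtain ⟨v, hv, h1, h2⟩ := hstep
    have hvS := hG.le v hv
    have hnv : near T (cc v) := e2_near hT (fun l hl => (hvS l).trans (hle l hl)) h1.le h2
    have h3 : cc v j ≤ T j := hnear v (hW hv) hnv j
    omega
  · intro F hF1 hF2 hF3
    obtain ⟨B, hB, hTB⟩ := hF2
    refine hC F hF1 ⟨B, hB, le_sup_left.trans hTB⟩ ?_
    intro v hv
    by_cases hvW : v ∈ W'
    · exact ⟨B, hB, ((hG.le v hvW).trans le_sup_right).trans hTB⟩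
    · exact hF3 v (Finset.mem_sdiff.2 ⟨hv, hvW⟩)

end BTS
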