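import Pool.Agent.BTS.V19
import Pool.Agent.BTS.V20
import Pool.Agent.BTP.V4

set_option autoImplicit false

open scoped Classical
open Finset

namespace BTS
open BTP

variable {d : ℕ} (a : Pa d)

/-- [BTS-V21] the potential outside the domain.
PROOF. If all `zf ≤ Z` some side is `> B`: `Ps_long`, `Er_nonneg`. Otherwise `zf T i > Z` for some `i`: `G(∏_{l≠i} φ(x l)) = 0` (`G_zero`). `b = max x`; `GP.raise`, `GP.Psi_diag`: `Ps T ≥ d ∑_{m=1}^b G(φ(m)^{d-1})`. As `φ(b)^{d-1} ≥ ∏_{l≠i} φ(x l)`, `G(φ(m)^{d-1}) = 0` for `m ≥ b`, so `∑_{m=1}^b G ≥ ∑_{m=1}^{MM} G` (all terms `≥ 0`). `diag_sum`. -/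
theorem Ps_out {T : Box d} (hT : Ne T) (h : ¬ a.InD T) : d * a.A * lam d - Er a ≤ a.Ps T := by
  have hEr := Er_nonneg a
  by_cases hf : ∀ i, a.zf T i ≤ a.Z
  · have h1 : ∃ k, a.B < sd T k := by
      by_contra hc
      push Not at hc
      exact h ⟨hf, hc⟩
    obtain ⟨k, hk⟩ := h1
    have h2 := Ps_long a hT hf k hk
    linarith
  · push Not at hf
    obtain ⟨i, hi⟩ := hf
    have hd := a.hd
    have hg := gp a
    have hp : ∀ (s : Finset (Fin d)) (u : Fin d → ℕ), 0 < ∏ l ∈ s, a.f (u l) :=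
      fun s u => Finset.prod_pos fun _ _ => hg.pos _
    have hG0 : a.G (∏ l ∈ Finset.univ.erase i, a.f (sd T l)) = 0 := by
      apply G_zero a
      exact hi.le
    obtain ⟨i₀, -, hi₀⟩ := Finset.exists_max_image Finset.univ (sd T) ⟨i, Finset.mem_univ i⟩
    have hmax : ∀ l, sd T l ≤ sd T i₀ := fun l => hi₀ l (Finset.mem_univ l)
    have h1 := hg.raise hmax i hG0
    have h2 := hg.Psi_diag (d := d) (sd T i₀)
    have hzero : ∀ m, sd T i₀ ≤ m → a.G (a.f m ^ (d - 1)) = 0 := by
      intro m hm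
      apply le_antisymm _ (hg.nonneg _)
      rw [← hG0]
      apply hg.anti (hp _ _) (pow_pos (hg.pos _) _)
      calc ∏ l ∈ Finset.univ.erase i, a.f (sd T l)
          ≤ ∏ _l ∈ Finset.univ.erase i, a.f m := by
            apply Finset.prod_le_prod (fun _ _ => (hg.pos _).le)
            intro l _
            exact hg.mono ((hmax l).trans hm)
        _ = a.f m ^ (d - 1) := by
            rw [Finset.prod_const, Finset.card_erase_of_mem (Finset.mem_univ i), Finset.card_univ,
              Fintype.card_fin]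
    have h3 : ∑ m ∈ Finset.Icc 1 (MM a), a.G (a.f m ^ (d - 1)) ≤
        ∑ m ∈ Finset.Icc 1 (sd T i₀), a.G (a.f m ^ (d - 1)) := by
      calc ∑ m ∈ Finset.Icc 1 (MM a), a.G (a.f m ^ (d - 1))
          ≤ ∑ m ∈ Finset.Icc 1 (max (MM a) (sd T i₀)), a.G (a.f m ^ (d - 1)) := by
            apply Finset.sum_le_sum_of_subset_of_nonneg
            · exact Finset.Icc_subset_Icc le_rfl (le_max_left _ _)
            · intro m _ _
              exact hg.nonneg _
        _ = ∑ m ∈ Finset.Icc 1 (sd T i₀), a.G (a.f m ^ (d - 1)) := by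
            symm
            apply Finset.sum_subset
            · exact Finset.Icc_subset_Icc le_rfl (le_max_right _ _)
            · intro m hm hm'
              apply hzero
              rw [Finset.mem_Icc] at hm hm'
              omega
    have h4 := diag_sum a
    have hd0 : (0 : ℝ) < d := by
      have : (0 : ℕ) < d := by omega
      exact_mod_cast this
    have h5 : (d : ℝ) * (a.A * lam d - Er a / d) ≤
        d * ∑ m ∈ Finset.Icc 1 (sd T i₀), a.G (a.f m ^ (d - 1)) :=
      mul_le_mul_of_nonneg_left (h4.trans h3) hd0.le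
    have h6 : (d : ℝ) * (a.A * lam d - Er a / d) = d * a.A * lam d - Er a := by
      field_simp
    unfold Pa.Ps
    linarith

end BTS
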