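import Pool.Agent.BTS.M6
import Pool.Agent.BTS.V21
import Pool.Agent.BTP.C2
import Pool.Agent.BTP.B5

set_option autoImplicit false

open scoped Classical
open Finset

namespace BTS
open BTP

variable {d : ℕ} (a : Pa d)

/-- [BTS-M7] PROOF. `Ys T ≥ h`: `main_bound`. `Ys T < h`: `Pr ≤ 1` and `Ps T ≤ (h + d) γ` (`Ps_le`). -/
theorem bound_all {T : Box d} (hT : Ne T) (hD : a.InD T) (hP : a.Ps T ≤ d * a.A * lam d)
    (V : Finset (Site d)) : Pr V a.p (IG T) ≤ Real.exp (((a.h : ℝ) + d) * a.gam - a.Ps T) := by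
  have hg := a.hgam0
  have hP' := a.hP
  have hhd : 0 ≤ ((a.h : ℝ) + d) * a.gam := by positivity
  rcases le_or_gt (a.h : ℤ) (Ys T) with h | h
  · refine (main_bound a hT hD h hP V).trans (Real.exp_le_exp.2 ?_)
    linarith
  · have h1 := Ps_le a hT
    have h2 : (Ys T : ℝ) ≤ a.h := by exact_mod_cast h.le
    have h3 : ((Ys T : ℝ) + d) * a.gam ≤ ((a.h : ℝ) + d) * a.gam :=
      mul_le_mul_of_nonneg_right (by linarith) hg
    refine (Pr_le_one (p_nonneg a) (p_le_one a)).trans (Real.one_le_exp ?_)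
    linarith

/-- [BTS-M7] the probability that the world is generated (cf. `BTP.world_bound`).
PROOF. `exitD` with `D R := InD R ∧ Ps R ≤ d A λ` (`InD_cc`, `Ps_le`, `hLm` for single sites; `Wn d n` is not in `InD` as `n > B`): `IG (Wn d n) U → ∃ y ∈ prs d n B, ¬ D (y.1 ⊔ y.2) ∧ D y.1 ∧ D y.2 ∧ dis (IG y.1) (IG y.2) U`. `Pr_union`, `bk`, `bound_all`, `Ps_merge`: each term is at most `exp(2(h+d)γ + 2γ - Ps (R ⊔ S))`, and `Ps (R ⊔ S) ≥ d A λ - Er` (`Ps_out`, or `> d A λ`; `Er_nonneg`); `card_prs` (`1 ≤ B`). -/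
theorem world_bound {n : ℕ} (hn : 1 ≤ n) (hnB : a.B < n) :
    Pr (sites (Wn d n)) a.p (IG (Wn d n)) ≤
      ((n : ℝ) * (3 * a.B) ^ 3) ^ d *
        Real.exp (-(d * a.A * lam d) + Er a + 2 * ((a.h : ℝ) + d + 1) * a.gam) := by
  have hg := a.hgam0
  have hB1 : 1 ≤ a.B := by
    have h1 := a.hH1
    have h2 := a.hHB
    linarith
  have hEr := Er_nonneg a
  -- the domain
  set D : Box d → Prop := fun R => a.InD R ∧ a.Ps R ≤ d * a.A * lam d with hDdef
  have hDcc : ∀ v : Site d, D (cc v) := by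
    intro v
    refine ⟨InD_cc a v, ?_⟩
    have h1 := Ps_le a (ne_cc v)
    rw [Ys_cc] at h1
    have h2 := a.hLm
    have h3 : 0 ≤ Real.log a.B := Real.log_nonneg hB1
    have h4 : 0 ≤ (d : ℝ) * Real.log a.B := by positivity
    have h5 : 0 ≤ (2 * (a.h : ℝ) + 4) * a.gam := by positivity
    push_cast at h1
    nlinarith
  -- the world is not in the domain
  have hnD : ¬ D (Wn d n) := by
    rintro ⟨hD, -⟩
    have hd : 0 < d := by have := a.hd; omega
    have h1 := hD.2 ⟨0, hd⟩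
    have h2 : sd (Wn d n) ⟨0, hd⟩ = n := by
      simp [sd, Wn]
    rw [h2] at h1
    linarith
  set Sx : Finset (Box d × Box d) := (prs d n a.B).filter (fun y =>
    ¬ D (y.1 ⊔ y.2) ∧ D y.1 ∧ D y.2) with hSx
  have hsub : ∀ U ⊆ sites (Wn d n), IG (Wn d n) U →
      ∃ y ∈ Sx, dis (IG y.1) (IG y.2) U := by
    rintro U hU ⟨W, hWU, hW⟩
    obtain ⟨R, S, WR, WS, hR, hS, hRS, hnear, hle, hgR, hgS, hdis, hWR, hWS⟩ :=
      exitD D hDcc hW hnD
    refine ⟨(R, S), ?_, WR, WS, hdis, hWR.trans hWU, hWS.trans hWU, ⟨WR, Finset.Subset.refl _, hgR⟩,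
      ⟨WS, Finset.Subset.refl _, hgS⟩⟩
    rw [hSx, Finset.mem_filter]
    refine ⟨?_, hRS, hR, hS⟩
    unfold prs
    rw [Finset.mem_filter, Finset.mem_product, mem_sub, mem_sub]
    exact ⟨⟨⟨hgR.ne, le_sup_left.trans hle⟩, ⟨hgS.ne, le_sup_right.trans hle⟩⟩, hnear,
      hR.1.2, hS.1.2⟩
  have h1 : Pr (sites (Wn d n)) a.p (IG (Wn d n)) ≤
      ∑ y ∈ Sx, Pr (sites (Wn d n)) a.p (dis (IG y.1) (IG y.2)) :=
    (Pr_mono (p_nonneg a) (p_le_one a) hsub).trans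
      (Pr_union (p_nonneg a) (p_le_one a) Sx (fun y => dis (IG y.1) (IG y.2)))
  have h2 : ∀ y ∈ Sx, Pr (sites (Wn d n)) a.p (dis (IG y.1) (IG y.2)) ≤
      Real.exp (-(d * a.A * lam d) + Er a + 2 * ((a.h : ℝ) + d + 1) * a.gam) := by
    rintro ⟨R, S⟩ hy
    rw [hSx, Finset.mem_filter] at hy
    obtain ⟨hy1, hRS, hR, hS⟩ := hy
    unfold prs at hy1
    rw [Finset.mem_filter, Finset.mem_product, mem_sub, mem_sub] at hy1
    obtain ⟨⟨⟨hRn, hRW⟩, ⟨hSn, hSW⟩⟩, hnear, -, -⟩ := hy1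
    simp only at hRS hR hS hRn hRW hSn hSW hnear ⊢
    have e1 := bk (p_nonneg a) a.hp2 (sites (Wn d n)) (IG R) (IG S) (Inc_IG R) (Inc_IG S)
    have e2 := bound_all a hRn hR.1 hR.2 (sites (Wn d n))
    have e3 := bound_all a hSn hS.1 hS.2 (sites (Wn d n))
    have e4 := Ps_merge a hRn hSn hnear
    have e5 : d * a.A * lam d - Er a ≤ a.Ps (R ⊔ S) := by
      by_cases hin : a.InD (R ⊔ S)
      · have h6 : ¬ a.Ps (R ⊔ S) ≤ d * a.A * lam d := fun h => hRS ⟨hin, h⟩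
        have h7 := not_le.1 h6
        linarith
      · exact Ps_out a (BTP.Ne.sup_left (S := S) hRn) hin
    refine e1.trans ((mul_le_mul e2 e3 (Pr_nonneg (p_nonneg a) (p_le_one a))
      (Real.exp_nonneg _)).trans ?_)
    rw [← Real.exp_add]
    refine Real.exp_le_exp.2 ?_
    linarith
  refine h1.trans ((Finset.sum_le_sum h2).trans ?_)
  rw [Finset.sum_const, nsmul_eq_mul]
  refine mul_le_mul_of_nonneg_right ?_ (Real.exp_nonneg _)
  refine le_trans ?_ (card_prs (d := d) hn hB1)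
  exact_mod_cast Finset.card_le_card (Finset.filter_subset _ _)

end BTS
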