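import Pool.Agent.BTS.A6
import Pool.Agent.BTS.M7
import Pool.Agent.BTP.F1

set_option autoImplicit false

open Filter

namespace BTS
open BTP

/-- the final estimate of the exponent -/
theorem f3_final {d : ℕ} (hd : 2 ≤ d) {lm L R l y A C K : ℝ} (hlm : 0 < lm) (hl1 : 1 ≤ l)
    (hR : (18 * d + 2 * d * lm + 1) * l ≤ R)
    (hA : L + K * R / lm - 2 * lm ≤ lm * A) (hy : y ≤ C * R) (hK : (C + 1) * lm ≤ d * K) :
    d * (L + 6 + 12 * l) + (-(d * A * lm) + y) ≤ -1 := by
  have hd0 : (2 : ℝ) ≤ d := by exact_mod_cast hd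
  have hR0 : 0 ≤ R := by
    refine le_trans ?_ hR
    positivity
  have h1 : (C + 1) * R ≤ d * (K * R / lm) := by
    have h2 : d * (K * R / lm) = d * K * R / lm := by ring
    rw [h2, le_div_iff₀ hlm]
    nlinarith
  have h6 : (d : ℝ) * (L + K * R / lm - 2 * lm) ≤ d * (lm * A) :=
    mul_le_mul_of_nonneg_left hA (by linarith)
  have h10 : (2 * d * lm + 1) * 1 ≤ (2 * d * lm + 1) * l :=
    mul_le_mul_of_nonneg_left hl1 (by positivity)
  have h11 : 6 * (d : ℝ) ≤ 6 * d * l := by nlinarith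
  have e1 : (d : ℝ) * (L + K * R / lm - 2 * lm) = d * L + d * (K * R / lm) - 2 * d * lm := by ring
  have e2 : (18 * (d : ℝ) + 2 * d * lm + 1) * l = 18 * d * l + (2 * d * lm + 1) * l := by ring
  have e3 : (d : ℝ) * (lm * A) = d * A * lm := by ring
  rw [e1, e3] at h6
  rw [e2] at hR
  have e4 : (d : ℝ) * (L + 6 + 12 * l) = d * L + 6 * d + 12 * d * l := by ring
  rw [e4]
  linarith

/-- [BTS-F3] the critical value as a function of `n` (cf. `BTP.world_small`, file BTP/F1.lean).
PROOF. `C₀` from `exists_pa'`. Let `C = λ (C₀ √(2/λ) + 1)/d + 1` (any `C` with `d C/λ > C₀ √(2/λ)`), `L = log n`, `s = λ/L - C/L^(3/2)`, `p = s^{d-1}`; for large `n`: `0 < s ≤ 1/2`, `p ≤ s`. `q = -log(1-p)`, `p ≤ q ≤ p(1+p)`; `A = q^{-1/(d-1)}`, `q A^{d-1} = 1`; `A ≤ 1/s ≤ 2L/λ` and `A ≥ (1/s)(1+p)^{-1/(d-1)} ≥ (1/s)(1 - s)`.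
`λ/s = L/(1 - C/(λ√L)) ≥ L + C√L/λ`, so `λ A ≥ λ/s - λ ≥ L + C√L/λ - λ`. `exists_pa'` for `log A` gives `a` with `a.A = A`; `a.q = q`, `a.p = p` follow from `hqA`, `hp`. `n > B` as `B ≤ A² ≤ (2L/λ)²`. `world_bound`: the probability is at most `exp` of
`d(L + 3 log(3 A²)) - dλA + C₀√A ≤ -dC√L/λ + dλ + 3d log(3A²) + C₀ √(2L/λ) → -∞`. -/
theorem world_small {d : ℕ} (hd : 2 ≤ d) : ∃ C : ℝ, 0 < C ∧ ∀ᶠ n : ℕ in atTop,
    0 < lam d / Real.log n - C / Real.log n ^ ((3 : ℝ) / 2) ∧
    (lam d / Real.log n - C / Real.log n ^ ((3 : ℝ) / 2)) ^ (d - 1) ≤ 1 / 2 ∧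
    Pr (sites (Wn d n)) ((lam d / Real.log n - C / Real.log n ^ ((3 : ℝ) / 2)) ^ (d - 1))
      (IG (Wn d n)) < 1 / 2 := by
  have hlm : 0 < lam d := lam_pos hd
  have hd0 : (2 : ℝ) ≤ d := by exact_mod_cast hd
  obtain ⟨C0, hC0, hex⟩ := exists_pa' hd
  obtain ⟨L1, hL1⟩ := eventually_atTop.mp hex
  obtain ⟨C, hCd⟩ : ∃ C, C = lam d * (C0 * Real.sqrt (2 / lam d) + 1) := ⟨_, rfl⟩
  have hCpos : 0 < C := by rw [hCd]; positivity
  have hCK : (C0 * Real.sqrt (2 / lam d) + 1) * lam d ≤ d * C := by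
    have h1 : C ≤ d * C := le_mul_of_one_le_left hCpos.le (by linarith)
    rw [hCd] at h1 ⊢
    linarith
  refine ⟨C, hCpos, ?_⟩
  have hev : ∀ᶠ L : ℝ in atTop, ∀ n : ℕ, Real.log n = L →
      0 < lam d / Real.log n - C / Real.log n ^ ((3 : ℝ) / 2) ∧
      (lam d / Real.log n - C / Real.log n ^ ((3 : ℝ) / 2)) ^ (d - 1) ≤ 1 / 2 ∧
      Pr (sites (Wn d n)) ((lam d / Real.log n - C / Real.log n ^ ((3 : ℝ) / 2)) ^ (d - 1))
        (IG (Wn d n)) < 1 / 2 := by
    filter_upwards [f1_log_pow 0 (show 0 < lam d / (2 * C) by positivity),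
      eventually_ge_atTop (1 : ℝ),
      eventually_ge_atTop (2 * lam d), eventually_ge_atTop (2 / lam d),
      ev_exp (4 / lam d ^ 2) 2, eventually_ge_atTop (lam d * (Real.exp (max L1 0) + 2)),
      f1_log_pow 1 (show 0 < 1 / (18 * (d : ℝ) + 2 * d * lam d + 1) by positivity),
      ev_log 1] with L c2 c1 c3 c4 c5 c6 c7 c8
    intro n hn
    rw [hn]
    set lm := lam d with hlmdef
    have hL0 : 0 < L := by linarith
    set R := Real.sqrt L with hR
    have hRR : R * R = L := Real.mul_self_sqrt hL0.le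
    have hR0 : 0 < R := Real.sqrt_pos.mpr hL0
    have hR1 : 1 ≤ R := by
      rw [hR, Real.one_le_sqrt]
      exact c1
    set l := Real.log L with hl
    have hl0 : 0 < l := by linarith
    set y := C / R with hy
    have hy0 : 0 ≤ y := by positivity
    have hy1 : y ≤ lm / 2 := by
      rw [hy, div_le_iff₀ hR0]
      rw [pow_zero, div_mul_eq_mul_div, le_div_iff₀ (by positivity)] at c2
      linarith
    have hLy : L * y = C * R := by
      rw [hy, ← hRR]
      field_simp
    have h32 : L ^ ((3 : ℝ) / 2) = L * R := by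
      rw [show (3 : ℝ) / 2 = 1 + 1 / 2 by norm_num, Real.rpow_add hL0, Real.rpow_one,
        ← Real.sqrt_eq_rpow]
    have hs : lm / L - C / L ^ ((3 : ℝ) / 2) = (lm - y) / L := by
      rw [h32, hy]
      field_simp
    rw [hs]
    have hlmy : 0 < lm - y := by linarith
    have hs0 : 0 < (lm - y) / L := div_pos hlmy hL0
    have hs2 : (lm - y) / L ≤ 1 / 2 := by
      rw [div_le_iff₀ hL0]
      linarith
    obtain ⟨hp2, A, q, hA0, hq0, hqA, hpq, hA1, hA2⟩ := f1_A hd hs0 hs2
    refine ⟨hs0, hp2, ?_⟩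
    rw [one_div_div] at hA1 hA2
    have hA3 : A ≤ 2 * L / lm := by
      refine hA1.trans ?_
      rw [div_le_div_iff₀ hlmy hlm]
      nlinarith
    have hA4 : L / lm - 2 ≤ A := by
      refine le_trans ?_ hA2
      have : L / lm ≤ L / (lm - y) := div_le_div_of_nonneg_left hL0.le hlmy (by linarith)
      linarith
    have hA5 : Real.exp (max L1 0) ≤ A := by
      refine le_trans ?_ hA4
      have : Real.exp (max L1 0) + 2 ≤ L / lm := by
        rw [le_div_iff₀ hlm]
        linarith
      linarith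
    have hlogA : max L1 0 ≤ Real.log A := (Real.le_log_iff_exp_le hA0).mpr hA5
    have hlogA0 : 0 ≤ Real.log A := le_trans (le_max_right _ _) hlogA
    obtain ⟨a, haA, haB, haE⟩ := hL1 (Real.log A) (le_trans (le_max_left _ _) hlogA)
    rw [Real.exp_log hA0] at haA
    have haq : a.q = q := by
      have h1 := a.hqA
      rw [haA] at h1
      have h2 : A ^ (d - 1) ≠ 0 := (pow_pos hA0 _).ne'
      exact mul_right_cancel₀ h2 (h1.trans hqA.symm)
    have hap : a.p = ((lm - y) / L) ^ (d - 1) := by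
      rw [a.hp, haq, hpq]
    have hlogA2 : Real.log A ≤ 2 * l := by
      have h1 : A ≤ L * L := by
        refine hA3.trans ?_
        have : 2 * L / lm = L * (2 / lm) := by ring
        rw [this]
        exact mul_le_mul_of_nonneg_left c4 hL0.le
      have h2 := Real.log_le_log hA0 h1
      rw [Real.log_mul hL0.ne' hL0.ne'] at h2
      linarith
    have hn0 : (n : ℝ) ≠ 0 := by
      intro h0
      rw [h0, Real.log_zero] at hn
      linarith
    have hnpos : (0 : ℝ) < n := lt_of_le_of_ne (Nat.cast_nonneg n) (Ne.symm hn0)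
    have hnexp : (n : ℝ) = Real.exp L := by rw [← hn, Real.exp_log hnpos]
    have hn1 : 1 ≤ n := by
      rcases Nat.eq_zero_or_pos n with h | h
      · exact absurd (by rw [h, Nat.cast_zero]) hn0
      · exact h
    have hB0 : 0 < a.B := by
      have h1 := a.hB
      have h2 := a.hZ
      have h3 := a.hA
      refine lt_of_lt_of_le ?_ h1
      positivity
    have hBn : a.B < n := by
      have h1 : Real.exp (2 * Real.log A) = A * A := by
        rw [two_mul, Real.exp_add, Real.exp_log hA0]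
      have h2 : A * A ≤ (2 * L / lm) * (2 * L / lm) :=
        mul_le_mul hA3 hA3 hA0.le (by positivity)
      have h3 : (2 * L / lm) * (2 * L / lm) = 4 / lm ^ 2 * L ^ 2 := by
        field_simp
        ring
      have h4 : Real.exp (L / 4) < Real.exp L := Real.exp_lt_exp.mpr (by linarith)
      rw [hnexp]
      calc a.B ≤ Real.exp (2 * Real.log A) := haB
        _ ≤ 4 / lm ^ 2 * L ^ 2 := by rw [h1, ← h3]; exact h2
        _ ≤ Real.exp (L / 4) := c5
        _ < Real.exp L := h4
    have hwb := world_bound a hn1 hBn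
    rw [hap] at hwb
    refine lt_of_le_of_lt hwb ?_
    have h3B : 3 * a.B ≤ Real.exp (2 + 4 * l) := by
      have h1 : (3 : ℝ) ≤ Real.exp 2 := by
        have h2 := Real.exp_one_gt_d9
        have h3 : Real.exp 2 = Real.exp 1 * Real.exp 1 := by
          rw [← Real.exp_add]
          norm_num
        rw [h3]
        nlinarith
      have h4 : a.B ≤ Real.exp (4 * l) := haB.trans (Real.exp_le_exp.mpr (by linarith))
      rw [Real.exp_add]
      exact mul_le_mul h1 h4 hB0.le (Real.exp_pos _).le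
    have hfirst : ((n : ℝ) * (3 * a.B) ^ 3) ^ d ≤ Real.exp (d * (L + 6 + 12 * l)) := by
      have h1 : (3 * a.B) ^ 3 ≤ Real.exp (6 + 12 * l) := by
        have h2 := pow_le_pow_left₀ (by positivity) h3B 3
        rw [← Real.exp_nat_mul] at h2
        refine h2.trans (le_of_eq ?_)
        congr 1
        push_cast
        ring
      have h3 : (n : ℝ) * (3 * a.B) ^ 3 ≤ Real.exp (L + 6 + 12 * l) := by
        rw [hnexp, add_assoc, Real.exp_add]
        exact mul_le_mul_of_nonneg_left h1 (Real.exp_pos _).le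
      have h4 := pow_le_pow_left₀ (by positivity) h3 d
      rw [← Real.exp_nat_mul] at h4
      exact h4
    have hsecond : Er a + 2 * ((a.h : ℝ) + d + 1) * a.gam ≤
        C0 * Real.sqrt (2 / lm) * R := by
      refine haE.trans ?_
      have h1 : Real.exp (Real.log A / 2) ≤ Real.sqrt (2 / lm) * R := by
        rw [Real.exp_half, Real.exp_log hA0, hR, ← Real.sqrt_mul (by positivity)]
        apply Real.sqrt_le_sqrt
        refine hA3.trans (le_of_eq ?_)
        ring
      calc C0 * Real.exp (Real.log A / 2)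
          ≤ C0 * (Real.sqrt (2 / lm) * R) := mul_le_mul_of_nonneg_left h1 hC0.le
        _ = _ := by ring
    have hAfin : L + C * R / lm - 2 * lm ≤ lm * A := by
      rw [← hLy]
      have h1 : L + L * y / lm ≤ lm * (L / (lm - y)) := by
        rw [show lm * (L / (lm - y)) = lm * L / (lm - y) by ring, le_div_iff₀ hlmy]
        have h2 : (L + L * y / lm) * (lm - y) = lm * L - L * y ^ 2 / lm := by
          field_simp
          ring
        rw [h2]
        have : 0 ≤ L * y ^ 2 / lm := by positivity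
        linarith
      have h3 : lm * (L / (lm - y) - 2) ≤ lm * A := mul_le_mul_of_nonneg_left hA2 hlm.le
      linarith
    have hRl : (18 * (d : ℝ) + 2 * d * lm + 1) * l ≤ R := by
      rw [pow_one, one_div, inv_mul_eq_div, le_div_iff₀ (by positivity)] at c7
      linarith
    have hfin := f3_final hd hlm c8 hRl hAfin hsecond hCK
    calc ((n : ℝ) * (3 * a.B) ^ 3) ^ d *
          Real.exp (-(d * a.A * lm) + Er a + 2 * ((a.h : ℝ) + d + 1) * a.gam)
        ≤ Real.exp (d * (L + 6 + 12 * l)) *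
          Real.exp (-(d * a.A * lm) + Er a + 2 * ((a.h : ℝ) + d + 1) * a.gam) :=
          mul_le_mul_of_nonneg_right hfirst (Real.exp_pos _).le
      _ ≤ Real.exp (-1) := by
          rw [← Real.exp_add, haA]
          apply Real.exp_le_exp.mpr
          linarith
      _ < 1 / 2 := f1_exp_neg_one
  have h1 := (Real.tendsto_log_atTop.comp tendsto_natCast_atTop_atTop).eventually hev
  exact h1.mono fun n hn => hn n rfl

end BTS
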