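import Pool.Agent.BTP.G3

set_option autoImplicit false

open scoped Classical
open Finset

namespace BTS
open BTP

/-- the derivative of `g` -/
noncomputable def dg (z : ℝ) : ℝ :=
  1 - (1 / Real.sqrt ((1 - Real.exp (-z)) * (4 - 3 * (1 - Real.exp (-z)))) +
    1 / (1 - Real.exp (-z))) / 2

/-- [BTS-G6] `gg_deriv` -/
theorem hasDeriv_gg {z : ℝ} (hz : 0 < z) : HasDerivAt gg (dg z) z := by
  exact gg_deriv hz

/-- [BTS-G6] PROOF. `v = e^{-z}`, `u = 1 - v`, `s = √(u(4-3u)) = √(1 + 2v - 3v²) ≤ 1 + v` (square). `-g' = (1/s + 1/u)/2 - 1 ≥ (1/(1+v) + 1/(1-v))/2 - 1 = 1/(1-v²) - 1 ≥ v²`. -/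
theorem dg_le {z : ℝ} (hz : 0 < z) : dg z ≤ -Real.exp (-(2 * z)) := by
  obtain ⟨hu0, hu1⟩ := g3_u hz
  unfold dg
  set u : ℝ := 1 - Real.exp (-z) with hu
  set v : ℝ := Real.exp (-z) with hv
  have hv0 : 0 < v := Real.exp_pos _
  have hv1 : v < 1 := by linarith
  have he : Real.exp (-(2 * z)) = v ^ 2 := by
    rw [hv, ← Real.exp_nat_mul]
    congr 1
    push_cast
    ring
  have hpos : 0 < u * (4 - 3 * u) := mul_pos hu0 (by linarith)
  have hs0 : 0 < Real.sqrt (u * (4 - 3 * u)) := Real.sqrt_pos.mpr hpos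
  have hs : Real.sqrt (u * (4 - 3 * u)) ≤ 1 + v := by
    refine Real.sqrt_le_iff.2 ⟨by linarith, ?_⟩
    have e : u = 1 - v := hu
    rw [e]
    nlinarith
  have h1 : 1 / (1 + v) ≤ 1 / Real.sqrt (u * (4 - 3 * u)) := one_div_le_one_div_of_le hs0 hs
  have h2 : 1 + v ^ 2 ≤ (1 / (1 + v) + 1 / u) / 2 := by
    have e : (1 / (1 + v) + 1 / u) / 2 = 1 / (1 - v ^ 2) := by
      have e1 : u = 1 - v := hu
      rw [e1]
      have a1 : 1 + v ≠ 0 := by linarith
      have a2 : 1 - v ≠ 0 := by linarith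
      have a3 : 1 - v ^ 2 ≠ 0 := by
        have : 1 - v ^ 2 = (1 - v) * (1 + v) := by ring
        rw [this]
        exact mul_ne_zero a2 a1
      field_simp
      ring
    rw [e]
    have a3 : 0 < 1 - v ^ 2 := by nlinarith
    rw [le_div_iff₀ a3]
    nlinarith [sq_nonneg (v ^ 2)]
  rw [he]
  linarith

/-- [BTS-G6] PROOF. `s² = u(4-3u) ≤ 4/3`, so `1/s ≥ √3/2 ≥ 433/500`; `u ≤ z`: `-g' ≥ 1/(2z) + 433/1000 - 1 ≥ 1/(4z)` for `z ≤ 2/5`. -/
theorem dg_le_small {z : ℝ} (hz : 0 < z) (h : z ≤ 2 / 5) : dg z ≤ -(1 / (4 * z)) := by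
  obtain ⟨hu0, hu1⟩ := g3_u hz
  unfold dg
  set u : ℝ := 1 - Real.exp (-z) with hu
  have huz : u ≤ z := by
    have := Real.add_one_le_exp (-z)
    linarith
  have hpos : 0 < u * (4 - 3 * u) := mul_pos hu0 (by linarith)
  have hs0 : 0 < Real.sqrt (u * (4 - 3 * u)) := Real.sqrt_pos.mpr hpos
  have hs : Real.sqrt (u * (4 - 3 * u)) ≤ 500 / 433 := by
    refine Real.sqrt_le_iff.2 ⟨by norm_num, ?_⟩
    nlinarith [sq_nonneg (3 * u - 2)]
  have h1 : 433 / 500 ≤ 1 / Real.sqrt (u * (4 - 3 * u)) := by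
    have := one_div_le_one_div_of_le hs0 hs
    norm_num at this ⊢
    exact this
  have h2 : 1 / z ≤ 1 / u := one_div_le_one_div_of_le hu0 huz
  have h3 : 5 / 2 ≤ 1 / z := by
    rw [le_div_iff₀ hz]
    linarith
  have h4 : 1 / (4 * z) = (1 / z) / 4 := by
    field_simp
  rw [h4]
  linarith

/-- [BTS-G6] strong convexity.
PROOF. Let `u = 1 - e^{-x} ≤ u' = 1 - e^{-y}`, `s = √(u(4-3u))`, `t = √(u'(4-3u'))`, `σ = u + u' ≤ 2`; `s ≥ u`, `t ≥ u'`. `2 (g'(y) - g'(x)) = (1/u - 1/u') - (1/t - 1/s) = (u'-u) [1/(uu') - (3σ-4)/(st(s+t))]` (`s² - t² = (u'-u)(3σ-4)`; cf. `inv_sqrt_anti`).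
If `3σ ≤ 4` the bracket is `≥ 1 ≥ (2-σ)/2`. Otherwise `st(s+t) ≥ uu'σ` and the bracket is `≥ (1/(uu'))(1 - (3σ-4)/σ) = 2(2-σ)/(uu'σ) ≥ 2 - σ`. So `2 (g'(y) - g'(x)) ≥ (u'-u)(2-σ)/2 = (e^{-2x} - e^{-2y})/2`. -/
theorem dg_incr {x y : ℝ} (hx : 0 < x) (hxy : x ≤ y) :
    dg x + (Real.exp (-(2 * x)) - Real.exp (-(2 * y))) / 4 ≤ dg y := by
  have hy : 0 < y := lt_of_lt_of_le hx hxy
  obtain ⟨hu0, hu1⟩ := g3_u hx
  obtain ⟨hw0, hw1⟩ := g3_u hy
  unfold dg
  have hex : Real.exp (-(2 * x)) = (1 - (1 - Real.exp (-x))) ^ 2 := by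
    rw [sub_sub_cancel, ← Real.exp_nat_mul]
    congr 1
    push_cast
    ring
  have hey : Real.exp (-(2 * y)) = (1 - (1 - Real.exp (-y))) ^ 2 := by
    rw [sub_sub_cancel, ← Real.exp_nat_mul]
    congr 1
    push_cast
    ring
  rw [hex, hey]
  have huw : 1 - Real.exp (-x) ≤ 1 - Real.exp (-y) := by
    have : Real.exp (-y) ≤ Real.exp (-x) := Real.exp_le_exp.mpr (by linarith)
    linarith
  generalize 1 - Real.exp (-x) = u at *
  generalize 1 - Real.exp (-y) = w at *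
  have hpu : 0 < u * (4 - 3 * u) := mul_pos hu0 (by linarith)
  have hpw : 0 < w * (4 - 3 * w) := mul_pos hw0 (by linarith)
  set s : ℝ := Real.sqrt (u * (4 - 3 * u)) with hs
  set t : ℝ := Real.sqrt (w * (4 - 3 * w)) with ht
  have hs0 : 0 < s := Real.sqrt_pos.mpr hpu
  have ht0 : 0 < t := Real.sqrt_pos.mpr hpw
  have hs2 : s ^ 2 = u * (4 - 3 * u) := Real.sq_sqrt hpu.le
  have ht2 : t ^ 2 = w * (4 - 3 * w) := Real.sq_sqrt hpw.le
  have hsu : u ≤ s := by
    apply Real.le_sqrt_of_sq_le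
    nlinarith
  have htw : w ≤ t := by
    apply Real.le_sqrt_of_sq_le
    nlinarith
  have huw0 : 0 < u * w := mul_pos hu0 hw0
  have huw1 : u * w ≤ 1 := by nlinarith
  have hst : 0 < s * t * (s + t) := by positivity
  have key : (2 - (u + w)) / 2 ≤ 1 / (u * w) + (4 - 3 * (u + w)) / (s * t * (s + t)) := by
    have h1 : 1 ≤ 1 / (u * w) := by
      rw [le_div_iff₀ huw0]
      linarith
    by_cases hc : 3 * (u + w) ≤ 4
    · have h2 : 0 ≤ (4 - 3 * (u + w)) / (s * t * (s + t)) := div_nonneg (by linarith) hst.le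
      linarith
    · have hc' : 0 < 3 * (u + w) - 4 := by linarith
      have hσ0 : 0 < u + w := by linarith
      have hden : u * w * (u + w) ≤ s * t * (s + t) := by
        apply mul_le_mul (mul_le_mul hsu htw hw0.le hs0.le) (by linarith) hσ0.le (by positivity)
      have hd0 : 0 < u * w * (u + w) := by positivity
      have h2 : (3 * (u + w) - 4) / (s * t * (s + t)) ≤ (3 * (u + w) - 4) / (u * w * (u + w)) :=
        div_le_div_of_nonneg_left hc'.le hd0 hden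
      have h3 : (4 - 3 * (u + w)) / (s * t * (s + t)) = -((3 * (u + w) - 4) / (s * t * (s + t))) := by
        rw [← neg_div]
        congr 1
        ring
      have h4 : 1 / (u * w) - (3 * (u + w) - 4) / (u * w * (u + w)) =
          2 * (2 - (u + w)) / (u * w * (u + w)) := by
        field_simp
        ring
      have h5 : (2 - (u + w)) ≤ 2 * (2 - (u + w)) / (u * w * (u + w)) := by
        rw [le_div_iff₀ hd0]
        have h6 : u * w * (u + w) ≤ 2 := by nlinarith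
        nlinarith
      rw [h3]
      have h7 : 0 ≤ 2 - (u + w) := by linarith
      linarith
  have hid : 1 / s + 1 / u - (1 / t + 1 / w) =
      (w - u) * (1 / (u * w) + (4 - 3 * (u + w)) / (s * t * (s + t))) := by
    have hdiff : (t - s) * (s + t) = (w - u) * (4 - 3 * (u + w)) := by
      nlinarith [hs2, ht2]
    have h1 : 1 / s - 1 / t = (w - u) * (4 - 3 * (u + w)) / (s * t * (s + t)) := by
      rw [← hdiff]
      field_simp
    have h2 : 1 / u - 1 / w = (w - u) / (u * w) := by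
      field_simp
    have e : 1 / s + 1 / u - (1 / t + 1 / w) = (1 / s - 1 / t) + (1 / u - 1 / w) := by ring
    rw [e, h1, h2]
    ring
  have hfin : (w - u) * ((2 - (u + w)) / 2) ≤ 1 / s + 1 / u - (1 / t + 1 / w) := by
    rw [hid]
    exact mul_le_mul_of_nonneg_left key (by linarith)
  have e2 : ((1 - u) ^ 2 - (1 - w) ^ 2) / 4 = (w - u) * ((2 - (u + w)) / 2) / 2 := by ring
  rw [e2]
  linarith

end BTS
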