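import Pool.Agent.BTS.G7a
import Pool.Agent.BTS.G6
import Pool.Agent.BTP.G2

set_option autoImplicit false

open scoped Classical
open Finset

namespace BTS
open BTP

/-- [BTS-G7b] PROOF. `y = z(1+k)`. If `y ≤ 2/5`: `gg_sub_ge'`: `≥ zk/(4z(1+k)) ≥ k/8`. Otherwise `z > 1/5`, `gg_sub_ge`: `≥ zk e^{-2y} ≥ (k/5) e^{-4R}`. -/
theorem gg_gain2 {z k R : ℝ} (hz : 0 < z) (hzR : z ≤ R) (hk : 0 ≤ k) (hk1 : k ≤ 1) :
    k * Real.exp (-(4 * R)) / 20 ≤ gg z - gg (z * (1 + k)) := by
  set y : ℝ := z * (1 + k) with hy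
  have hzy : z ≤ y := by
    rw [hy]
    nlinarith
  have hy0 : 0 < y := lt_of_lt_of_le hz hzy
  have hR : 0 < R := lt_of_lt_of_le hz hzR
  have he1 : Real.exp (-(4 * R)) ≤ 1 := Real.exp_le_one_iff.2 (by linarith)
  have he0 := Real.exp_pos (-(4 * R))
  have hyz : y - z = z * k := by
    rw [hy]
    ring
  by_cases hc : y ≤ 2 / 5
  · have h1 := gg_sub_ge' hz hzy hc
    have h2 : k / 8 ≤ (y - z) / (4 * y) := by
      rw [hyz, hy]
      have e : z * k / (4 * (z * (1 + k))) = k / (4 * (1 + k)) := by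
        have : 1 + k ≠ 0 := by linarith
        field_simp
      rw [e]
      exact div_le_div_of_nonneg_left hk (by linarith) (by linarith)
    have h3 : k * Real.exp (-(4 * R)) ≤ k * 1 := mul_le_mul_of_nonneg_left he1 hk
    linarith
  · have hc' : 2 / 5 < y := not_le.1 hc
    have hz5 : 1 / 5 ≤ z := by
      by_contra hlt
      have : y ≤ z * 2 := mul_le_mul_of_nonneg_left (by linarith) hz.le
      linarith
    have h1 := gg_sub_ge hz hzy
    have hyR : y ≤ 2 * R := by
      have : y ≤ z * 2 := mul_le_mul_of_nonneg_left (by linarith) hz.le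
      linarith
    have h2 : Real.exp (-(4 * R)) ≤ Real.exp (-(2 * y)) := Real.exp_le_exp.2 (by linarith)
    have h3 : (y - z) * Real.exp (-(4 * R)) ≤ (y - z) * Real.exp (-(2 * y)) :=
      mul_le_mul_of_nonneg_left h2 (by linarith)
    have h4 : k / 5 * Real.exp (-(4 * R)) ≤ (y - z) * Real.exp (-(4 * R)) := by
      refine mul_le_mul_of_nonneg_right ?_ he0.le
      rw [hyz]
      nlinarith
    have h5 : 0 ≤ k * Real.exp (-(4 * R)) := mul_nonneg hk he0.le
    linarith

/-- [BTS-G7b] (`gg_up`) -/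
theorem exp_gg_sq {z : ℝ} (hz : 0 < z) : Real.exp (gg z) ^ 2 ≤ (1 + z) / z := by
  have h1 := gg_up hz
  have hpos : 0 < (1 + z) / z := by positivity
  rw [← Real.exp_nat_mul]
  calc Real.exp (((2 : ℕ) : ℝ) * gg z) ≤ Real.exp (Real.log ((1 + z) / z)) := by
        refine Real.exp_le_exp.2 ?_
        push_cast
        linarith
    _ = (1 + z) / z := Real.exp_log hpos

/-- [BTS-G7b] a simple bound for the decrease. PROOF. Convexity: the slope of `g` on `[z, z']` is at most (in absolute value) the slope on `[z/2, z]`. -/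
theorem gg_sub_le {z z' : ℝ} (hz : 0 < z) (h : z ≤ z') :
    gg z - gg z' ≤ 2 * ((z' - z) / z) * gg (z / 2) := by
  have hz2 : 0 < z / 2 := by linarith
  have h0 : 0 ≤ gg (z / 2) := gg_nonneg hz2
  rcases eq_or_lt_of_le h with h1 | h1
  · rw [← h1, sub_self, sub_self, zero_div, mul_zero, zero_mul]
  · have hz' : 0 < z' := lt_trans hz h1
    have h2 := gg_convex.slope_mono_adjacent (x := z / 2) (y := z) (z := z') hz2 hz' (by linarith) h1
    have hd : 0 < z' - z := by linarith
    have e1 : z - z / 2 = z / 2 := by ring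
    rw [e1, le_div_iff₀ hd] at h2
    have h3 : 0 ≤ gg z := gg_nonneg hz
    have h4 : gg z - gg z' ≤ (gg (z / 2) - gg z) / (z / 2) * (z' - z) := by
      have e2 : (gg (z / 2) - gg z) / (z / 2) * (z' - z) = -((gg z - gg (z / 2)) / (z / 2) * (z' - z)) := by
        ring
      rw [e2]
      linarith
    have h5 : (gg (z / 2) - gg z) / (z / 2) ≤ gg (z / 2) / (z / 2) :=
      div_le_div_of_nonneg_right (by linarith) hz2.le
    have h6 := mul_le_mul_of_nonneg_right h5 hd.le
    have e3 : gg (z / 2) / (z / 2) * (z' - z) = 2 * ((z' - z) / z) * gg (z / 2) := by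
      field_simp
    linarith

end BTS
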