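import Pool.Agent.BTS.D1
import Pool.Agent.BTS.G6

set_option autoImplicit false

open scoped Classical
open Finset

namespace BTS
open BTP

variable {d : ℕ} (a : Pa d)

/-- [BTS-G8a] the derivative of `f₀` -/
theorem f0_deriv {z : ℝ} (hz : 0 < z) : HasDerivAt a.f0 (dg z + 2 * a.c1 / (1 + z) ^ 3) z := by
  have h1 := hasDeriv_gg hz
  have h0 : (1 + z) ^ 2 ≠ 0 := by positivity
  have h2 : HasDerivAt (fun z : ℝ => (1 + z) ^ 2) (2 * (1 + z) ^ 1 * 1) z := by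
    have := ((hasDerivAt_id' z).const_add 1).fun_pow 2
    simpa using this
  have h3 : HasDerivAt (fun z : ℝ => a.c1 / (1 + z) ^ 2)
      ((0 * (1 + z) ^ 2 - a.c1 * (2 * (1 + z) ^ 1 * 1)) / ((1 + z) ^ 2) ^ 2) z :=
    (hasDerivAt_const z a.c1).div h2 h0
  have h4 := (h1.sub h3).sub_const a.c0
  refine HasDerivAt.congr_deriv (f := a.f0) h4 ?_
  have h5 : (1 + z) ≠ 0 := by positivity
  field_simp
  ring

lemma g8a_c1 {z : ℝ} (h0 : 0 < z) (h : z ≤ a.Z) :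
    a.c1 / (1 + z) ^ 3 ≤ Real.exp (-(2 * z)) / 128 := by
  have h1 := a.hc1Z z h0.le h
  rw [div_le_div_iff₀ (by positivity) (by norm_num)]
  have h2 : Real.exp (-(2 * z)) * Real.exp (2 * z) = 1 := by
    rw [← Real.exp_add]
    simp
  have h3 : 0 < Real.exp (-(2 * z)) := Real.exp_pos _
  calc a.c1 * 128 = Real.exp (-(2 * z)) * (128 * a.c1 * Real.exp (2 * z)) := by
        linear_combination (-(128 * a.c1)) * h2
    _ ≤ Real.exp (-(2 * z)) * (1 + z) ^ 3 := by gcongr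

/-- [BTS-G8a] PROOF. The derivative is `≤ -e^{-2z} + 2c₁/(1+z)³ ≤ 0` for `z ≤ Z` (`dg_le`, `hc1Z`); `antitoneOn_of_deriv_nonpos` on the convex set `(0, Z]`. -/
theorem f0_anti : AntitoneOn a.f0 (Set.Ioc 0 a.Z) := by
  refine antitoneOn_of_deriv_nonpos (convex_Ioc 0 a.Z) ?_ ?_ ?_
  · exact fun z hz => (f0_deriv a hz.1).continuousAt.continuousWithinAt
  · rw [interior_Ioc]
    exact fun z hz => (f0_deriv a hz.1).differentiableAt.differentiableWithinAt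
  · rw [interior_Ioc]
    intro z hz
    rw [(f0_deriv a hz.1).deriv]
    have h1 := g8a_c1 a hz.1 hz.2.le
    have h2 := dg_le hz.1
    have h3 : 0 < Real.exp (-(2 * z)) := Real.exp_pos _
    have h4 : 2 * a.c1 / (1 + z) ^ 3 = 2 * (a.c1 / (1 + z) ^ 3) := by ring
    rw [h4]
    linarith

lemma g8a_k_deriv {z : ℝ} (hz : 0 < z) :
    HasDerivAt (fun z : ℝ => Real.exp (-(2 * z)) / 4 - 2 * a.c1 / (1 + z) ^ 3)
      (-Real.exp (-(2 * z)) / 2 + 6 * a.c1 / (1 + z) ^ 4) z := by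
  have h0 : (1 + z) ^ 3 ≠ 0 := by positivity
  have h2 : HasDerivAt (fun z : ℝ => (1 + z) ^ 3) (3 * (1 + z) ^ 2 * 1) z := by
    have := ((hasDerivAt_id' z).const_add 1).fun_pow 3
    simpa using this
  have h3 : HasDerivAt (fun z : ℝ => 2 * a.c1 / (1 + z) ^ 3)
      ((0 * (1 + z) ^ 3 - 2 * a.c1 * (3 * (1 + z) ^ 2 * 1)) / ((1 + z) ^ 3) ^ 2) z :=
    (hasDerivAt_const z (2 * a.c1)).div h2 h0
  have h6 : HasDerivAt (fun z : ℝ => -(2 * z)) (-(2 * 1)) z :=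
    ((hasDerivAt_id z).const_mul 2).neg
  have h4 := (h6.exp.div_const 4).sub h3
  refine HasDerivAt.congr_deriv (f := fun z : ℝ => Real.exp (-(2 * z)) / 4 - 2 * a.c1 / (1 + z) ^ 3)
    h4 ?_
  have h5 : (1 + z) ≠ 0 := by positivity
  field_simp
  ring

lemma g8a_k_anti : AntitoneOn (fun z : ℝ => Real.exp (-(2 * z)) / 4 - 2 * a.c1 / (1 + z) ^ 3)
    (Set.Ioc 0 a.Z) := by
  refine antitoneOn_of_deriv_nonpos (convex_Ioc 0 a.Z) ?_ ?_ ?_
  · exact fun z hz => (g8a_k_deriv a hz.1).continuousAt.continuousWithinAt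
  · rw [interior_Ioc]
    exact fun z hz => (g8a_k_deriv a hz.1).differentiableAt.differentiableWithinAt
  · rw [interior_Ioc]
    intro z hz
    rw [(g8a_k_deriv a hz.1).deriv]
    have h1 := g8a_c1 a hz.1 hz.2.le
    have h3 : 0 < Real.exp (-(2 * z)) := Real.exp_pos _
    have hz0 := hz.1
    have h4 : 6 * a.c1 / (1 + z) ^ 4 ≤ 6 * (a.c1 / (1 + z) ^ 3) := by
      have h5 : 6 * a.c1 / (1 + z) ^ 4 = 6 * (a.c1 / (1 + z) ^ 3) * (1 / (1 + z)) := by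
        field_simp
      rw [h5]
      have h6 : 1 / (1 + z) ≤ 1 := by
        rw [div_le_one (by positivity)]
        linarith
      have h7 : 0 ≤ 6 * (a.c1 / (1 + z) ^ 3) := by
        have := a.hc1
        positivity
      nlinarith
    linarith

/-- [BTS-G8a] PROOF. The derivative is monotone: `dg_incr` and `(e^{-2x} - e^{-2y})/4 ≥ 2c₁/(1+x)³ - 2c₁/(1+y)³`, i.e. `e^{-2z}/4 - 2c₁(1+z)^{-3}` is antitone on `[0, Z]` (its derivative is `-e^{-2z}/2 + 6c₁(1+z)^{-4} ≤ 0` by `hc1Z`). `MonotoneOn.convexOn_of_deriv`. -/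
theorem f0_convex : ConvexOn ℝ (Set.Ioc 0 a.Z) a.f0 := by
  refine MonotoneOn.convexOn_of_deriv (convex_Ioc 0 a.Z) ?_ ?_ ?_
  · exact fun z hz => (f0_deriv a hz.1).continuousAt.continuousWithinAt
  · rw [interior_Ioc]
    exact fun z hz => (f0_deriv a hz.1).differentiableAt.differentiableWithinAt
  · rw [interior_Ioc]
    intro x hx y hy hxy
    rw [(f0_deriv a hx.1).deriv, (f0_deriv a hy.1).deriv]
    have h1 := dg_incr hx.1 hxy
    have h2 := g8a_k_anti a ⟨hx.1, hx.2.le⟩ ⟨hy.1, hy.2.le⟩ hxy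
    simp only at h2
    linarith

/-- [BTS-G8a] (`hc0`) -/
theorem f0_Z : a.f0 a.Z = 0 := by
  unfold Pa.f0
  rw [a.hc0]
  ring

theorem f0_nonneg {z : ℝ} (h0 : 0 < z) (h : z ≤ a.Z) : 0 ≤ a.f0 z := by
  rw [← f0_Z a]
  have hZ : 0 < a.Z := by linarith [a.hZ]
  exact f0_anti a ⟨h0, h⟩ ⟨hZ, le_rfl⟩ h

end BTS
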