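import Pool.Agent.BTS.I1a
import Pool.Agent.BTS.R5
import Pool.Agent.BTS.A1
import Pool.Agent.BTS.A2

set_option autoImplicit false

open scoped Classical
open Finset

namespace BTS
open BTP

variable {d : ℕ} (a : Pa d)

theorem i1b_X (T : Box d) (i : Fin d) : 100 ≤ a.X T i := a.hH1.trans (X_ge a T i)

theorem i1b_w_nonneg (T : Box d) (i l : Fin d) : 0 ≤ (1 + a.z T l) / (a.th T l * a.X T i) := by
  have h1 := th_pos a T l
  have h2 := X_pos a T i
  have h3 := z_pos a T l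
  positivity

theorem i1b_be_nonneg (T : Box d) (j l : Dir d) : 0 ≤ be a T j l := by
  unfold be
  have h2 := X_pos a T j.1
  split_ifs
  · positivity
  · have := i1b_w_nonneg a T j.1 l.1
    linarith

theorem i1b_filter {O : Finset (Dir d)} {j : Dir d} (hO : j ∉ O) :
    (O.filter (fun l => l.1 = j.1)).card ≤ 1 := by
  have h1 : O.filter (fun l => l.1 = j.1) ⊆ {opp j} := by
    intro l hl
    obtain ⟨hl1, hl2⟩ := Finset.mem_filter.1 hl
    rw [Finset.mem_singleton]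
    have hne : l ≠ j := by
      rintro rfl
      exact hO hl1
    obtain ⟨x, b⟩ := l
    obtain ⟨x', b'⟩ := j
    simp only [opp, ne_eq, Prod.mk.injEq, not_and] at hl2 hne ⊢
    refine ⟨hl2, ?_⟩
    have := hne hl2
    cases b <;> cases b' <;> simp_all
  exact (Finset.card_le_card h1).trans (by simp)

theorem i1b_sum_dir (i : Fin d) (w : Fin d → ℝ) :
    ∑ l ∈ Finset.univ.filter (fun l : Dir d => ¬ l.1 = i), w l.1 =
      2 * ∑ m ∈ Finset.univ.erase i, w m := by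
  have h1 : Finset.univ.filter (fun l : Dir d => ¬ l.1 = i) =
      (Finset.univ.erase i) ×ˢ (Finset.univ : Finset Bool) := by
    ext l
    simp
  rw [h1, Finset.sum_product, Finset.mul_sum]
  refine Finset.sum_congr rfl fun m _ => ?_
  rw [Fintype.sum_bool]
  ring

/-- [BTS-I1b] PROOF. At most one direction `l ∈ O` has `l.1 = j.1` (`j ∉ O`); each axis `≠ j.1` has two directions: `∑ be ≤ 14 ∑ .. + 1/(4X₀)`. -/
theorem sum_be {T : Box d} {j : Dir d} {O : Finset (Dir d)} (hO : j ∉ O) :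
    ∑ l ∈ O, be a T j l + 1 / (2 * a.X T j.1) ≤ LS a T j.1 := by
  have hX := X_pos a T j.1
  rw [← Finset.sum_filter_add_sum_filter_not O (fun l => l.1 = j.1)]
  have h1 : ∑ l ∈ O.filter (fun l => l.1 = j.1), be a T j l ≤ 1 / (4 * a.X T j.1) := by
    have h2 : ∀ l ∈ O.filter (fun l => l.1 = j.1), be a T j l = 1 / (4 * a.X T j.1) := by
      intro l hl
      unfold be
      rw [if_pos (Finset.mem_filter.1 hl).2]
    rw [Finset.sum_congr rfl h2, Finset.sum_const, nsmul_eq_mul]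
    have h3 : (((O.filter (fun l => l.1 = j.1)).card : ℕ) : ℝ) ≤ 1 := by
      exact_mod_cast i1b_filter hO
    have h4 : 0 ≤ 1 / (4 * a.X T j.1) := by positivity
    nlinarith
  have h5 : ∑ l ∈ O.filter (fun l => ¬ l.1 = j.1), be a T j l ≤
      14 * ∑ l ∈ Finset.univ.erase j.1, (1 + a.z T l) / (a.th T l * a.X T j.1) := by
    have h6 : ∀ l ∈ O.filter (fun l => ¬ l.1 = j.1), be a T j l =
        7 * ((1 + a.z T l.1) / (a.th T l.1 * a.X T j.1)) := by
      intro l hl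
      unfold be
      rw [if_neg (Finset.mem_filter.1 hl).2]
    rw [Finset.sum_congr rfl h6]
    have h7 : ∑ l ∈ O.filter (fun l => ¬ l.1 = j.1), 7 * ((1 + a.z T l.1) / (a.th T l.1 * a.X T j.1)) ≤
        ∑ l ∈ Finset.univ.filter (fun l : Dir d => ¬ l.1 = j.1),
          7 * ((1 + a.z T l.1) / (a.th T l.1 * a.X T j.1)) := by
      refine Finset.sum_le_sum_of_subset_of_nonneg ?_ ?_
      · intro l hl
        exact Finset.mem_filter.2 ⟨Finset.mem_univ _, (Finset.mem_filter.1 hl).2⟩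
      · intro l _ _
        have := i1b_w_nonneg a T j.1 l.1
        linarith
    have h8 := i1b_sum_dir j.1 (fun m => 7 * ((1 + a.z T m) / (a.th T m * a.X T j.1)))
    rw [h8] at h7
    refine h7.trans (le_of_eq ?_)
    rw [← Finset.mul_sum]
    ring
  unfold LS
  have h9 : 1 / (4 * a.X T j.1) + 1 / (2 * a.X T j.1) ≤ 2 / a.X T j.1 := by
    have : 1 / (4 * a.X T j.1) + 1 / (2 * a.X T j.1) = (3 / 4) / a.X T j.1 := by
      field_simp
      norm_num
    rw [this]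
    exact div_le_div_of_nonneg_right (by norm_num) hX.le
  linarith

theorem i1b_sh_nonneg (T : Box d) (j : Dir d) {n : Dir d → ℝ} (h : ∀ i, 0 ≤ n i) (i : Dir d) :
    0 ≤ sh T j n i := by
  unfold sh
  split_ifs
  · exact h i
  · have : (0 : ℝ) ≤ ∏ l ∈ (Finset.univ.erase i.1).erase j.1, (sd T l : ℝ) :=
      Finset.prod_nonneg fun _ _ => Nat.cast_nonneg _
    linarith [h i]

theorem i1b_sh3_nonneg (T : Box d) (j : Dir d) {n : Dir d → Dir d → ℝ} (h : ∀ i i', 0 ≤ n i i')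
    (i i' : Dir d) : 0 ≤ sh3 T j n i i' := by
  unfold sh3
  split_ifs
  · exact h i i'
  · have : (0 : ℝ) ≤ ∏ l ∈ ((Finset.univ.erase i.1).erase i'.1).erase j.1, (sd T l : ℝ) :=
      Finset.prod_nonneg fun _ _ => Nat.cast_nonneg _
    linarith [h i i']

theorem i1b_bT_nonneg (T : Box d) {n1 n2 : Dir d → ℝ} (h1 : ∀ i, 0 ≤ n1 i) (h2 : ∀ i, 0 ≤ n2 i)
    (l : Dir d) : 0 ≤ a.bT T n1 n2 l :=
  (th_pos a T l.1).le.trans (th_le_bT a T h1 h2 l)

/-- [BTS-I1b] PROOF. `bT_step`, `sum_be`, `Finset.prod_le_prod`. -/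
theorem prod_step {T : Box d} (hT : Ne T) {j : Dir d} {O : Finset (Dir d)} (hO : j ∉ O)
    {n1 n2 : Dir d → ℝ} (h1 : ∀ i, 0 ≤ n1 i) (h2 : ∀ i, 0 ≤ n2 i) :
    ∏ l ∈ O, a.bT (up T j) (sh T j n1) (sh T j n2) l ≤
      Real.exp (LS a T j.1) * ∏ l ∈ O, a.bT T n1 n2 l := by
  have h3 : ∏ l ∈ O, a.bT (up T j) (sh T j n1) (sh T j n2) l ≤
      ∏ l ∈ O, (Real.exp (be a T j l) * a.bT T n1 n2 l) :=
    Finset.prod_le_prod (fun l _ => i1b_bT_nonneg a _ (i1b_sh_nonneg T j h1)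
      (i1b_sh_nonneg T j h2) l) (fun l _ => bT_step a hT j l h1 h2)
  rw [Finset.prod_mul_distrib, ← Real.exp_sum] at h3
  refine h3.trans ?_
  refine mul_le_mul_of_nonneg_right ?_
    (Finset.prod_nonneg fun l _ => i1b_bT_nonneg a T h1 h2 l)
  refine Real.exp_le_exp.2 ?_
  have h4 := sum_be a (T := T) hO
  have h5 : 0 < 1 / (2 * a.X T j.1) := by
    have := X_pos a T j.1
    positivity
  linarith

theorem i1b_exp_two (T : Box d) (i : Fin d) : Real.exp (1 / (4 * a.X T i)) ≤ 2 := by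
  have hX := i1b_X a T i
  have h1 : 1 / (4 * a.X T i) ≤ 1 / 2 := by
    exact one_div_le_one_div_of_le (by norm_num) (by linarith)
  have h2 : Real.exp (1 / 2) ≤ 2 := by
    have h3 : Real.exp (1 / 2) ^ 2 = Real.exp 1 := by
      rw [← Real.exp_nat_mul]
      norm_num
    have h4 := Real.exp_one_lt_d9
    have h5 := Real.exp_pos (1 / 2)
    nlinarith
  exact (Real.exp_le_exp.2 h1).trans h2

/-- [BTS-I1b] the change of the value of an edge.
PROOF. `exp(gm'_i + gm'_{i'}) ≤ exp(1/(4X₀)) exp(gm_i + gm_{i'})` (`gm_up_le`). The new sites: `i.1, i'.1, j.1` different, `q ∏_{≠ i,i',j} sd ≤ q ∏_{≠ i,i'} X / X₀`, `edge_le`, `EE_le`, `exp(1/(4X₀)) ≤ 2`. -/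
theorem eT_step {T : Box d} (hT : Ne T) (hD : a.InD T) (j i i' : Dir d)
    {n3 : Dir d → Dir d → ℝ} (h3 : ∀ i i', 0 ≤ n3 i i') :
    a.eT (up T j) (sh3 T j n3) i i' ≤ Real.exp (1 / (4 * a.X T j.1)) * a.eT T n3 i i' +
      2 / (a.ka ^ 2 * a.X T j.1) * (a.th T i.1 * a.th T i'.1) := by
  have hX := X_pos a T j.1
  have hg1 := gm_up_le a hT j i.1
  have hg2 := gm_up_le a hT j i'.1
  have hexp : Real.exp (a.gm (up T j) i.1 + a.gm (up T j) i'.1) ≤
      Real.exp (1 / (4 * a.X T j.1)) * Real.exp (a.gm T i.1 + a.gm T i'.1) := by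
    rw [← Real.exp_add]
    refine Real.exp_le_exp.2 ?_
    have : 1 / (8 * a.X T j.1) + 1 / (8 * a.X T j.1) = 1 / (4 * a.X T j.1) := by
      field_simp
      norm_num
    linarith
  have hth1 := th_pos a T i.1
  have hth2 := th_pos a T i'.1
  have hka : 0 ≤ 2 / (a.ka ^ 2 * a.X T j.1) * (a.th T i.1 * a.th T i'.1) := by positivity
  have hq := a.hq
  have hmain : ∀ y : ℝ, 0 ≤ y → a.q * y * Real.exp (a.gm (up T j) i.1 + a.gm (up T j) i'.1) ≤
      Real.exp (1 / (4 * a.X T j.1)) * (a.q * y * Real.exp (a.gm T i.1 + a.gm T i'.1)) := by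
    intro y hy
    have := mul_le_mul_of_nonneg_left hexp (mul_nonneg hq.le hy)
    nlinarith
  unfold Pa.eT
  by_cases hc : i.1 = j.1 ∨ i'.1 = j.1 ∨ i.1 = i'.1
  · have h4 : sh3 T j n3 i i' = n3 i i' := by
      unfold sh3
      rw [if_pos hc]
    rw [h4]
    have := hmain _ (h3 i i')
    linarith
  · have h4 : sh3 T j n3 i i' = n3 i i' +
        ∏ l ∈ ((Finset.univ.erase i.1).erase i'.1).erase j.1, (sd T l : ℝ) := by
      unfold sh3
      rw [if_neg hc]
    rw [h4]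
    push Not at hc
    obtain ⟨hc1, hc2, hc3⟩ := hc
    set P := ∏ l ∈ ((Finset.univ.erase i.1).erase i'.1).erase j.1, (sd T l : ℝ) with hP
    have hP0 : 0 ≤ P := Finset.prod_nonneg fun _ _ => Nat.cast_nonneg _
    have h5 := hmain _ (h3 i i')
    have h6 := hmain _ hP0
    have h7 : P ≤ ∏ l ∈ ((Finset.univ.erase i.1).erase i'.1).erase j.1, a.X T l :=
      Finset.prod_le_prod (fun _ _ => Nat.cast_nonneg _) (fun l _ => X_ge_sd a T l)
    have h8 : a.X T j.1 * ∏ l ∈ ((Finset.univ.erase i.1).erase i'.1).erase j.1, a.X T l =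
        ∏ l ∈ (Finset.univ.erase i.1).erase i'.1, a.X T l := by
      refine Finset.mul_prod_erase _ _ ?_
      simp only [Finset.mem_erase, Finset.mem_univ, and_true]
      exact ⟨fun h => hc2 h.symm, fun h => hc1 h.symm⟩
    have h9 : a.X T j.1 * (a.q * P * Real.exp (a.gm T i.1 + a.gm T i'.1)) ≤
        a.th T i.1 * a.th T i'.1 / a.ka ^ 2 := by
      have h10 := (edge_le a (T := T) hc3).trans (EE_le a hD i.1 i'.1)
      refine le_trans ?_ h10
      rw [← h8]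
      have h11 := mul_le_mul_of_nonneg_left h7
        (mul_nonneg (mul_nonneg hX.le hq.le) (Real.exp_pos (a.gm T i.1 + a.gm T i'.1)).le)
      nlinarith
    have h12 : a.q * P * Real.exp (a.gm T i.1 + a.gm T i'.1) ≤
        a.th T i.1 * a.th T i'.1 / a.ka ^ 2 / a.X T j.1 := by
      rw [le_div_iff₀ hX]
      linarith
    have h13 := i1b_exp_two a T j.1
    have h14 : 0 ≤ a.q * P * Real.exp (a.gm T i.1 + a.gm T i'.1) :=
      mul_nonneg (mul_nonneg hq.le hP0) (Real.exp_pos _).le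
    have h15 : Real.exp (1 / (4 * a.X T j.1)) * (a.q * P * Real.exp (a.gm T i.1 + a.gm T i'.1)) ≤
        2 * (a.th T i.1 * a.th T i'.1 / a.ka ^ 2 / a.X T j.1) :=
      mul_le_mul h13 h12 h14 (by norm_num)
    have h16 : 2 * (a.th T i.1 * a.th T i'.1 / a.ka ^ 2 / a.X T j.1) =
        2 / (a.ka ^ 2 * a.X T j.1) * (a.th T i.1 * a.th T i'.1) := by
      rw [div_div, mul_div_assoc', div_mul_eq_mul_div]
    rw [← h16]
    have h17 : a.q * (n3 i i' + P) * Real.exp (a.gm (up T j) i.1 + a.gm (up T j) i'.1) =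
        a.q * n3 i i' * Real.exp (a.gm (up T j) i.1 + a.gm (up T j) i'.1) +
          a.q * P * Real.exp (a.gm (up T j) i.1 + a.gm (up T j) i'.1) := by ring
    rw [h17]
    linarith

/-- [BTS-I1b] the change of the value of a state.
PROOF. `Phi_cmp` with `th l = th T l.1`, `β = be`, `s = 1/(4X₀)`, `ρ = 2/(ka² X₀)`; `(2d)² ρ ≤ 8d²/(10⁶ d² X₀) ≤ 1/(4X₀)`; `sum_be`. -/
theorem Phi_step {T : Box d} (hT : Ne T) (hD : a.InD T) {j : Dir d} {O : Finset (Dir d)}
    (hO : j ∉ O) {n1 n2 : Dir d → ℝ} {n3 : Dir d → Dir d → ℝ} (h1 : ∀ i, 0 ≤ n1 i)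
    (h2 : ∀ i, 0 ≤ n2 i) (h3 : ∀ i i', 0 ≤ n3 i i') :
    Phi O (a.bT (up T j) (sh T j n1) (sh T j n2)) (a.eT (up T j) (sh3 T j n3)) ≤
      Real.exp (LS a T j.1) * Phi O (a.bT T n1 n2) (a.eT T n3) := by
  have hX := X_pos a T j.1
  have hq := a.hq
  have hka : (1000 : ℝ) * d ≤ a.ka := a.hka
  have hd : (2 : ℝ) ≤ d := by exact_mod_cast a.hd
  have hka0 : 0 < a.ka := by linarith
  have h4 := Phi_cmp (O := O) (a.bT T n1 n2) (a.bT (up T j) (sh T j n1) (sh T j n2))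
    (fun l => a.th T l.1) (be a T j) (a.eT T n3) (a.eT (up T j) (sh3 T j n3))
    (s := 1 / (4 * a.X T j.1)) (ρ := 2 / (a.ka ^ 2 * a.X T j.1)) (by positivity) (by positivity)
    (fun l => th_pos a T l.1) (fun l _ => th_le_bT a T h1 h2 l)
    (fun l _ => i1b_bT_nonneg a _ (i1b_sh_nonneg T j h1) (i1b_sh_nonneg T j h2) l)
    (i1b_be_nonneg a T j) (fun l _ => bT_step a hT j l h1 h2)
    (fun i i' => mul_nonneg (mul_nonneg hq.le (h3 i i')) (Real.exp_pos _).le)
    (fun i i' => mul_nonneg (mul_nonneg hq.le (i1b_sh3_nonneg T j h3 i i')) (Real.exp_pos _).le)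
    (fun i _ i' _ => eT_step a hT hD j i i' h3)
  refine h4.trans ?_
  refine mul_le_mul_of_nonneg_right (Real.exp_le_exp.2 ?_) ?_
  · have h5 := sum_be a (T := T) hO
    have h6 : (2 * (d : ℝ)) ^ 2 * (2 / (a.ka ^ 2 * a.X T j.1)) ≤ 1 / (4 * a.X T j.1) := by
      rw [mul_div_assoc', div_le_div_iff₀ (by positivity) (by positivity)]
      have h7 : 32 * (d : ℝ) ^ 2 ≤ a.ka ^ 2 := by nlinarith
      nlinarith [mul_le_mul_of_nonneg_right h7 hX.le]
    have h8 : 1 / (4 * a.X T j.1) + 1 / (4 * a.X T j.1) = 1 / (2 * a.X T j.1) := by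
      field_simp
      norm_num
    linarith
  · exact Phi_nonneg (fun l _ => i1b_bT_nonneg a T h1 h2 l)
      (fun i i' => mul_nonneg (mul_nonneg hq.le (h3 i i')) (Real.exp_pos _).le)

end BTS
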