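import Pool.Agent.BTS.I1
import Pool.Agent.BTS.C3

set_option autoImplicit false

open scoped Classical
open Finset

namespace BTS
open BTP

variable {d : ℕ} (a : Pa d)

/-- the values of the directions and edges in the state `(T, D)` -/
noncomputable def bD (T : Box d) (D : Finset (Site d)) : Dir d → ℝ :=
  a.bT T (fun j => nL T D j 1) (fun j => nL T D j 2)
noncomputable def eD (T : Box d) (D : Finset (Site d)) : Dir d → Dir d → ℝ :=
  a.eT T (fun i j => nC T D i j)
/-- the open directions -/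
noncomputable def OO (T Q : Box d) : Finset (Dir d) := Finset.univ.filter (fun j : Dir d => T j < Q j)

theorem Ph_eq (T Q : Box d) (D : Finset (Site d)) : a.Ph T Q D = Phi (OO T Q) (bD a T D) (eD a T D) := rfl

/-- [BTS-I2a] (`th_le_bT`, `bT_le_one` with `nL_le`, `q_prod_le`) -/
theorem th_le_bD (T : Box d) (D : Finset (Site d)) (l : Dir d) : a.th T l.1 ≤ bD a T D l :=
  th_le_bT a T (fun _ => Nat.cast_nonneg _) (fun _ => Nat.cast_nonneg _) l

theorem i2a_nL {T : Box d} (hT : Ne T) (D : Finset (Site d)) (l : Dir d) (k : ℤ) :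
    a.q * (nL T D l k : ℝ) ≤ a.z T l.1 := by
  have h1 : (nL T D l k : ℝ) ≤ ∏ m ∈ Finset.univ.erase l.1, (sd T m : ℝ) := by
    have h2 : ((nL T D l k : ℕ) : ℝ) ≤ ((∏ m ∈ Finset.univ.erase l.1, sd T m : ℕ) : ℝ) :=
      Nat.cast_le.2 (nL_le hT D l k)
    rwa [Nat.cast_prod] at h2
  exact (mul_le_mul_of_nonneg_left h1 a.hq.le).trans (q_prod_le a l.1)

theorem bD_le_one {T : Box d} (hT : Ne T) (D : Finset (Site d)) (l : Dir d) : bD a T D l ≤ 1 :=
  bT_le_one a T (Nat.cast_nonneg _) (Nat.cast_nonneg _) (i2a_nL a hT D l 1) (i2a_nL a hT D l 2)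

theorem eD_nonneg (T : Box d) (D : Finset (Site d)) (i j : Dir d) : 0 ≤ eD a T D i j :=
  mul_nonneg (mul_nonneg a.hq.le (Nat.cast_nonneg _)) (Real.exp_pos _).le

theorem eD_symm (T : Box d) (D : Finset (Site d)) (i j : Dir d) : eD a T D i j = eD a T D j i := by
  unfold eD Pa.eT
  beta_reduce
  rw [nC_symm T D i j, add_comm (a.gm T i.1)]

/-- [BTS-I2a] PROOF. `0` if `i.1 = j.1`; otherwise `nC_le`, `sd ≤ X`, `edge_le`. -/
theorem eD_le {T : Box d} (hT : Ne T) (D : Finset (Site d)) (i j : Dir d) :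
    eD a T D i j ≤ EE a T i.1 j.1 := by
  by_cases h : i.1 = j.1
  · have h1 : nC T D i j = 0 := by
      unfold nC
      rw [if_pos h]
    have h2 : eD a T D i j = 0 := by
      unfold eD Pa.eT
      beta_reduce
      rw [h1]
      simp
    rw [h2]
    exact Real.sqrt_nonneg _
  · refine le_trans ?_ (edge_le a h)
    unfold eD Pa.eT
    beta_reduce
    refine mul_le_mul_of_nonneg_right (mul_le_mul_of_nonneg_left ?_ a.hq.le) (Real.exp_pos _).le
    have h2 : ((nC T D i j : ℕ) : ℝ) ≤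
        ((∏ m ∈ (Finset.univ.erase i.1).erase j.1, sd T m : ℕ) : ℝ) :=
      Nat.cast_le.2 (nC_le hT D i j)
    rw [Nat.cast_prod] at h2
    exact h2.trans (Finset.prod_le_prod (fun _ _ => Nat.cast_nonneg _)
      (fun m _ => le_max_left _ _))

/-- [BTS-I2a] PROOF. `nL_up`, `nL_up_same`: the counts of `(up T j, D')` are at most `sh T j` of those of `(T, D)`; `bT_mono` (the shifted count is at most `∏ sd (up T j)`: `nL_le` for `T` plus the new sites, `q_prod_le` for `up T j`). -/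
theorem bD_up_le {T : Box d} (hT : Ne T) (j l : Dir d) (hl : l ≠ j) {D D' : Finset (Site d)}
    (h : D' ⊆ D) : bD a (up T j) D' l ≤
      a.bT (up T j) (sh T j (fun j => nL T D j 1)) (sh T j (fun j => nL T D j 2)) l := by
  have key : ∀ k : ℤ, (nL (up T j) D' l k : ℝ) ≤ sh T j (fun j => (nL T D j k : ℝ)) l := by
    intro k
    unfold sh
    beta_reduce
    have hm : (nL T D' l k : ℝ) ≤ (nL T D l k : ℝ) := Nat.cast_le.2 (nL_mono h l k)
    by_cases hlj : l.1 = j.1
    · rw [if_pos hlj, nL_up_same D' hlj hl k]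
      exact hm
    · rw [if_neg hlj]
      have h2 : ((nL (up T j) D' l k : ℕ) : ℝ) ≤ ((nL T D' l k +
          ∏ m ∈ (Finset.univ.erase l.1).erase j.1, sd T m : ℕ) : ℝ) :=
        Nat.cast_le.2 (nL_up hT D' hlj k)
      rw [Nat.cast_add, Nat.cast_prod] at h2
      linarith
  have hz : ∀ k : ℤ, a.q * sh T j (fun j => (nL T D j k : ℝ)) l ≤ a.z (up T j) l.1 := by
    intro k
    unfold sh
    beta_reduce
    by_cases hlj : l.1 = j.1
    · rw [if_pos hlj, ← nL_up_same D hlj hl k]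
      exact i2a_nL a (ne_up hT j) D l k
    · rw [if_neg hlj]
      refine le_trans (mul_le_mul_of_nonneg_left ?_ a.hq.le) (q_prod_le a (T := up T j) l.1)
      have hj : j.1 ∈ Finset.univ.erase l.1 :=
        Finset.mem_erase.2 ⟨fun h => hlj h.symm, Finset.mem_univ _⟩
      rw [← Finset.mul_prod_erase (Finset.univ.erase l.1) (fun m => (sd (up T j) m : ℝ)) hj]
      have h1 : ((nL T D l k : ℕ) : ℝ) ≤ ((∏ m ∈ Finset.univ.erase l.1, sd T m : ℕ) : ℝ) :=
        Nat.cast_le.2 (nL_le hT D l k)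
      rw [Nat.cast_prod, ← Finset.mul_prod_erase (Finset.univ.erase l.1)
        (fun m => (sd T m : ℝ)) hj] at h1
      have h2 : ∏ m ∈ (Finset.univ.erase l.1).erase j.1, (sd (up T j) m : ℝ) =
          ∏ m ∈ (Finset.univ.erase l.1).erase j.1, (sd T m : ℝ) := by
        refine Finset.prod_congr rfl fun m hm => ?_
        rw [sd_up hT j, Function.update_of_ne (Finset.mem_erase.1 hm).1]
      have h3 : (sd (up T j) j.1 : ℝ) = sd T j.1 + 1 := by
        rw [sd_up hT j, Function.update_self]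
        push_cast
        ring
      rw [h2, h3]
      linarith
  exact bT_mono a (up T j) (Nat.cast_nonneg _) (key 1) (Nat.cast_nonneg _) (key 2) (hz 2)

/-- [BTS-I2a] PROOF. `nC_up`, `nC_up_same`, `nC = 0` for equal axes. -/
theorem eD_up_le {T : Box d} (hT : Ne T) {j i i' : Dir d} (hi : i ≠ j) (hi' : i' ≠ j)
    {D D' : Finset (Site d)} (h : D' ⊆ D) :
    eD a (up T j) D' i i' ≤ a.eT (up T j) (sh3 T j (fun i j => nC T D i j)) i i' := by
  unfold eD Pa.eT
  beta_reduce
  refine mul_le_mul_of_nonneg_right (mul_le_mul_of_nonneg_left ?_ a.hq.le) (Real.exp_pos _).le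
  have hm : (nC T D' i i' : ℝ) ≤ (nC T D i i' : ℝ) := Nat.cast_le.2 (nC_mono h i i')
  unfold sh3
  beta_reduce
  by_cases h1 : i.1 = i'.1
  · rw [if_pos (Or.inr (Or.inr h1))]
    have h2 : nC (up T j) D' i i' = 0 := by
      unfold nC
      rw [if_pos h1]
    rw [h2, Nat.cast_zero]
    exact Nat.cast_nonneg _
  by_cases h2 : i.1 = j.1 ∨ i'.1 = j.1
  · rw [if_pos (by tauto), nC_up_same D' h2 hi hi']
    exact hm
  · rw [if_neg (by tauto)]
    push Not at h2
    have h3 : ((nC (up T j) D' i i' : ℕ) : ℝ) ≤ ((nC T D' i i' +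
        ∏ m ∈ ((Finset.univ.erase i.1).erase i'.1).erase j.1, sd T m : ℕ) : ℝ) :=
      Nat.cast_le.2 (nC_up hT D' h2.1 h2.2 h1)
    rw [Nat.cast_add, Nat.cast_prod] at h3
    linarith

end BTS
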