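import Pool.Agent.BTS.I2
import Pool.Agent.BTS.V18

set_option autoImplicit false

open scoped Classical
open Finset

namespace BTS
open BTP

variable {d : ℕ} (a : Pa d)

/-- [BTS-I3a] the open directions after one step -/
theorem OO_up (T Q : Box d) (j : Dir d) : (OO (up T j) Q).erase j = (OO T Q).erase j := by
  ext l
  simp only [OO, Finset.mem_erase, Finset.mem_filter, Finset.mem_univ, true_and]
  constructor
  · rintro ⟨h1, h2⟩
    exact ⟨h1, by rwa [up_ne T h1] at h2⟩
  · rintro ⟨h1, h2⟩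
    exact ⟨h1, by rwa [up_ne T h1]⟩

theorem mem_OO {T Q : Box d} {j : Dir d} (h : up T j ≤ Q) : j ∈ OO T Q := by
  simp only [OO, Finset.mem_filter, Finset.mem_univ, true_and]
  have h1 := h j
  rw [up_self] at h1
  exact lt_of_lt_of_le (lt_add_one (T j)) h1

/-- [BTS-I3a] the step inequality for one level.
PROOF. `Phi_fresh` at `up T j`, `OO_up`, `EE_up`, `PhiD_step` (with `O = (OO T Q).erase j`): `Ph (up T j) Q D' ≤ (1 + 8 ∑ EE/θ) exp(LS) Phi ((OO T Q).erase j) ..`. `slack` and `loss` (`exp_zm_le`): `Ps (up T j) - Ps T + LS + 8 ∑ EE/θ ≤ g - 2θe^{-2z} = gm`. -/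
theorem step_one {T Q : Box d} {j : Dir d} {D D' : Finset (Site d)} (hT : Ne T) (hQ : a.InD Q)
    (hj : up T j ≤ Q) (hP : a.Ps T < 2 * (d * a.A * lam d)) (h : D' ⊆ D) :
    Real.exp (a.Ps (up T j) - a.Ps T) * a.Ph (up T j) Q D' ≤
      Real.exp (a.gm T j.1) * Phi ((OO T Q).erase j) (bD a T D) (eD a T D) := by
  have hT' := ne_up hT j
  have hD' : a.InD (up T j) := InD_mono a hT' hj hQ
  have hD : a.InD T := InD_mono a hT ((le_up T j).trans hj) hQ
  have hz := exp_zm_le a hT hD hP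
  have hsl := slack a j hT hD' hP
  have hlo := loss a hz j.1
  set S := ∑ m ∈ Finset.univ.erase j.1, EE a T j.1 m / a.th T m with hS
  have hS0 : 0 ≤ S := Finset.sum_nonneg fun m _ =>
    div_nonneg (Real.sqrt_nonneg _) (th_pos a T m).le
  have hS' : ∑ m ∈ Finset.univ.erase j.1, EE a (up T j) j.1 m / a.th (up T j) m ≤ 2 * S := by
    rw [hS, Finset.mul_sum]
    exact Finset.sum_le_sum fun m hm => EE_up a hT j (Finset.ne_of_mem_erase hm)
  have hPhi0 : 0 ≤ Phi ((OO T Q).erase j) (bD a T D) (eD a T D) :=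
    Phi_nonneg (fun l _ => (th_pos a T l.1).le.trans (th_le_bD a T D l)) (eD_nonneg a T D)
  have hPhi1 : 0 ≤ Phi ((OO T Q).erase j) (bD a (up T j) D') (eD a (up T j) D') :=
    Phi_nonneg (fun l _ => (th_pos a (up T j) l.1).le.trans (th_le_bD a (up T j) D' l))
      (eD_nonneg a (up T j) D')
  have h1 : a.Ph (up T j) Q D' ≤ Real.exp (8 * S + LS a T j.1) *
      Phi ((OO T Q).erase j) (bD a T D) (eD a T D) := by
    rw [Ph_eq]
    have h2 := Phi_fresh a hT' j (OO (up T j) Q) D'
    rw [OO_up] at h2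
    have h3 := PhiD_step a hT hD (Finset.notMem_erase j (OO T Q)) h
    calc _ ≤ _ := h2
      _ ≤ Real.exp (8 * S) * Phi ((OO T Q).erase j) (bD a (up T j) D') (eD a (up T j) D') := by
          refine mul_le_mul_of_nonneg_right ?_ hPhi1
          have h4 := Real.add_one_le_exp (8 * S)
          linarith
      _ ≤ Real.exp (8 * S) * (Real.exp (LS a T j.1) *
            Phi ((OO T Q).erase j) (bD a T D) (eD a T D)) :=
          mul_le_mul_of_nonneg_left h3 (Real.exp_pos _).le
      _ = _ := by rw [Real.exp_add]; ring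
  calc Real.exp (a.Ps (up T j) - a.Ps T) * a.Ph (up T j) Q D'
      ≤ Real.exp (a.Ps (up T j) - a.Ps T) * (Real.exp (8 * S + LS a T j.1) *
          Phi ((OO T Q).erase j) (bD a T D) (eD a T D)) :=
        mul_le_mul_of_nonneg_left h1 (Real.exp_pos _).le
    _ = Real.exp (a.Ps (up T j) - a.Ps T + (8 * S + LS a T j.1)) *
          Phi ((OO T Q).erase j) (bD a T D) (eD a T D) := by rw [← mul_assoc, ← Real.exp_add]
    _ ≤ _ := by
        refine mul_le_mul_of_nonneg_right (Real.exp_le_exp.2 ?_) hPhi0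
        have h5 : a.gm T j.1 = gg (a.z T j.1) - 2 * a.th T j.1 * Real.exp (-(2 * a.z T j.1)) := rfl
        have h6 : 0 ≤ 8 / a.X T j.1 := div_nonneg (by norm_num) (X_pos a T j.1).le
        rw [h5]
        linarith

end BTS
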