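import Pool.Agent.BTS.I3a
import Pool.Agent.BTS.I2
import Pool.Agent.BTS.V18

set_option autoImplicit false

open scoped Classical
open Finset

namespace BTS
open BTP

variable {d : ℕ} (a : Pa d)

theorem i3b_sum_nonneg (T : Box d) (i : Fin d) :
    0 ≤ ∑ m ∈ Finset.univ.erase i, EE a T i m / a.th T m :=
  Finset.sum_nonneg (fun m _ => div_nonneg (Real.sqrt_nonneg _) (th_pos a T m).le)

/-- [BTS-I3b] the step inequality for two levels.
PROOF. `T₁ = up T j`, `T₂ = up T₁ j`. `Phi_fresh` at `T₂`, `EE_up` (from `T₁`), `PhiD_step` twice: factor `(1 + 8 ∑ EE(T₁)/θ(T₁)) exp(LS T₁ + LS T)`. `slack` for `T` and `T₁` (`z_up_same`), `loss` for `T` and `T₁`: the exponent is at most `2 g - 2θ(T)e^{-2z} - 2θ(T₁)e^{-2z} - 8/X(T)`, and `θ(T₁) ≥ θ(T)(1 - 1/X)` (`th_le_up`), so it is at most `2 gm T j.1`. -/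
theorem step_two {T Q : Box d} {j : Dir d} {D D' : Finset (Site d)} (hT : Ne T) (hQ : a.InD Q)
    (hj : up (up T j) j ≤ Q) (hP : a.Ps T + a.gam < 2 * (d * a.A * lam d)) (h : D' ⊆ D) :
    Real.exp (a.Ps (up (up T j) j) - a.Ps T) * a.Ph (up (up T j) j) Q D' ≤
      Real.exp (a.gm T j.1) ^ 2 * Phi ((OO T Q).erase j) (bD a T D) (eD a T D) := by
  set T1 : Box d := up T j with hT1def
  set T2 : Box d := up T1 j with hT2def
  have hT1 : Ne T1 := ne_up hT j
  have hT2 : Ne T2 := ne_up hT1 j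
  have hD2 : a.InD T2 := InD_mono a hT2 hj hQ
  have hD1 : a.InD T1 := InD_mono a hT1 (le_up T1 j) hD2
  have hD0 : a.InD T := InD_mono a hT (le_up T j) hD1
  have hP0 : a.Ps T < 2 * (d * a.A * lam d) := by linarith [a.hgam0]
  have hP1 : a.Ps T1 < 2 * (d * a.A * lam d) := (Ps_up_gam a hT j).trans_lt hP
  have hO : j ∉ (OO T Q).erase j := Finset.notMem_erase _ _
  set O := (OO T Q).erase j with hOdef
  set P0 := Phi O (bD a T D) (eD a T D) with hP0def
  have hP0n : 0 ≤ P0 := Phi_nonneg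
    (fun l _ => (th_pos a T l.1).le.trans (th_le_bD a T D l)) (fun i i' => eD_nonneg a T D i i')
  -- the fresh direction
  have hOO : (OO T2 Q).erase j = O := by
    rw [hT2def, OO_up, hT1def, OO_up]
  set S1 := ∑ m ∈ Finset.univ.erase j.1, EE a T1 j.1 m / a.th T1 m with hS1
  set S0 := ∑ m ∈ Finset.univ.erase j.1, EE a T j.1 m / a.th T m with hS0
  have hS1n : 0 ≤ S1 := i3b_sum_nonneg a T1 j.1
  have hS0n : 0 ≤ S0 := i3b_sum_nonneg a T j.1
  have hfr := Phi_fresh a hT2 j (OO T2 Q) D'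
  rw [hOO] at hfr
  have hE2 : ∑ m ∈ Finset.univ.erase j.1, EE a T2 j.1 m / a.th T2 m ≤ 2 * S1 := by
    rw [hS1, Finset.mul_sum]
    exact Finset.sum_le_sum (fun m hm => EE_up a hT1 j (Finset.ne_of_mem_erase hm))
  have hst1 := PhiD_step a hT1 hD1 (j := j) (O := O) hO h
  have hst0 := PhiD_step a hT hD0 (j := j) (O := O) hO (Finset.Subset.refl D)
  have hPhn : 0 ≤ Phi O (bD a T2 D') (eD a T2 D') := Phi_nonneg
    (fun l _ => (th_pos a T2 l.1).le.trans (th_le_bD a T2 D' l)) (fun i i' => eD_nonneg a T2 D' i i')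
  have hPh : a.Ph T2 Q D' ≤ Real.exp (8 * S1 + LS a T1 j.1 + LS a T j.1) * P0 := by
    rw [Ph_eq]
    calc Phi (OO T2 Q) (bD a T2 D') (eD a T2 D')
        ≤ (1 + 4 * ∑ m ∈ Finset.univ.erase j.1, EE a T2 j.1 m / a.th T2 m) *
          Phi O (bD a T2 D') (eD a T2 D') := hfr
      _ ≤ Real.exp (8 * S1) * Phi O (bD a T2 D') (eD a T2 D') := by
          refine mul_le_mul_of_nonneg_right ?_ hPhn
          have := Real.add_one_le_exp (8 * S1)
          linarith
      _ ≤ Real.exp (8 * S1) * (Real.exp (LS a T1 j.1) * (Real.exp (LS a T j.1) * P0)) := by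
          refine mul_le_mul_of_nonneg_left ?_ (Real.exp_pos _).le
          exact hst1.trans (mul_le_mul_of_nonneg_left hst0 (Real.exp_pos _).le)
      _ = Real.exp (8 * S1 + LS a T1 j.1 + LS a T j.1) * P0 := by
          rw [Real.exp_add, Real.exp_add]
          ring
  -- slack and loss
  have hs0 := slack a j hT hD1 hP0
  have hs1 := slack a j hT1 hD2 hP1
  rw [← hT1def] at hs0
  rw [← hT2def] at hs1
  have hz1 : a.z T1 j.1 = a.z T j.1 := z_up_same a hT j
  have hl0 := loss a (exp_zm_le a hT hD0 hP0) j.1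
  have hl1 := loss a (exp_zm_le a hT1 hD1 hP1) j.1
  rw [← hS0] at hl0
  rw [← hS1] at hl1
  rw [hz1] at hs1 hl1
  have hth : a.th T j.1 * (1 - 1 / a.X T j.1) ≤ a.th T1 j.1 := th_le_up a hT j j.1
  have hthp := th_pos a T j.1
  have hthl := th_le a T j.1
  have hX := X_pos a T j.1
  have hX1 := X_pos a T1 j.1
  have hX1' : 0 ≤ 8 / a.X T1 j.1 := by positivity
  have hzp := z_pos a T j.1
  set e := Real.exp (-(2 * a.z T j.1)) with hedef
  have he0 : 0 < e := Real.exp_pos _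
  have he1 : e ≤ 1 := Real.exp_le_one_iff.2 (by linarith)
  have hgm : a.gm T j.1 = gg (a.z T j.1) - 2 * a.th T j.1 * e := rfl
  have hX0' : 0 < 1 / a.X T j.1 := by positivity
  have h8 : 8 / a.X T j.1 = 8 * (1 / a.X T j.1) := by ring
  have hthe : a.th T j.1 * e ≤ 1 := by nlinarith
  have h1 : a.th T j.1 * (1 - 1 / a.X T j.1) * e ≤ a.th T1 j.1 * e :=
    mul_le_mul_of_nonneg_right hth he0.le
  have h2 : a.th T j.1 * e * (1 / a.X T j.1) ≤ 1 * (1 / a.X T j.1) :=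
    mul_le_mul_of_nonneg_right hthe hX0'.le
  have h3 : a.th T j.1 * (1 - 1 / a.X T j.1) * e =
      a.th T j.1 * e - a.th T j.1 * e * (1 / a.X T j.1) := by ring
  have hexp : a.Ps T2 - a.Ps T + (8 * S1 + LS a T1 j.1 + LS a T j.1) ≤ a.gm T j.1 + a.gm T j.1 := by
    rw [hgm]
    rw [h8] at hl0
    have e1 : 2 * a.th T1 j.1 * e = 2 * (a.th T1 j.1 * e) := by ring
    have e2 : 2 * a.th T j.1 * e = 2 * (a.th T j.1 * e) := by ring
    rw [e1] at hl1
    rw [e2] at hl0 ⊢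
    linarith
  calc Real.exp (a.Ps T2 - a.Ps T) * a.Ph T2 Q D'
      ≤ Real.exp (a.Ps T2 - a.Ps T) * (Real.exp (8 * S1 + LS a T1 j.1 + LS a T j.1) * P0) :=
        mul_le_mul_of_nonneg_left hPh (Real.exp_pos _).le
    _ = Real.exp (a.Ps T2 - a.Ps T + (8 * S1 + LS a T1 j.1 + LS a T j.1)) * P0 := by
        rw [Real.exp_add (a.Ps T2 - a.Ps T)]; ring
    _ ≤ Real.exp (a.gm T j.1 + a.gm T j.1) * P0 :=
        mul_le_mul_of_nonneg_right (Real.exp_le_exp.2 hexp) hP0n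
    _ = Real.exp (a.gm T j.1) ^ 2 * P0 := by
        rw [Real.exp_add]; ring

end BTS
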