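import Pool.Agent.BTS.I3

set_option autoImplicit false

open scoped Classical
open Finset

namespace BTS
open BTP

variable {d : ℕ} (a : Pa d)

/-- [BTS-J1a] the good states -/
def Ok (T Q : Box d) : Prop :=
  Ne T ∧ T ≤ Q ∧ a.InD Q ∧ a.Ps T + a.gam < 2 * (d * a.A * lam d)

/-- common part of the two steps -/
theorem j1a_core {T T2 Q : Box d} {D D' : Finset (Site d)} {j : Dir d} {X : ℝ}
    (hj : j ∈ OO T Q) (hb : bD a T D j = Real.exp (-a.q) * bD a T D' j + a.p * X)
    (hbe : ∀ l, l ≠ j → bD a T D' l = bD a T D l) (he : eD a T D' = eD a T D)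
    (hstep : Real.exp (a.Ps T2 - a.Ps T) * a.Ph T2 Q D' ≤
      X * Phi ((OO T Q).erase j) (bD a T D) (eD a T D)) :
    a.p * a.Fp T2 Q D' + (1 - a.p) * a.Fp T Q D' ≤ a.Fp T Q D := by
  have hp : 1 - a.p = Real.exp (-a.q) := by rw [a.hp]; ring
  have hp0 : 0 ≤ a.p := by
    rw [a.hp]
    have : Real.exp (-a.q) ≤ 1 := Real.exp_le_one_iff.mpr (by linarith [a.hq])
    linarith
  have hsym : ∀ i j, eD a T D i j = eD a T D j i := eD_symm a T D
  have h1 : Phi (OO T Q) (bD a T D) (eD a T D) = bD a T D j * Phi ((OO T Q).erase j) (bD a T D) (eD a T D) +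
      2 * ∑ l ∈ (OO T Q).erase j, eD a T D j l * ∏ m ∈ ((OO T Q).erase j).erase l, bD a T D m :=
    Phi_split hj _ _ hsym
  have h2 : Phi (OO T Q) (bD a T D') (eD a T D') = bD a T D' j * Phi ((OO T Q).erase j) (bD a T D') (eD a T D') +
      2 * ∑ l ∈ (OO T Q).erase j, eD a T D' j l * ∏ m ∈ ((OO T Q).erase j).erase l, bD a T D' m :=
    Phi_split hj _ _ (eD_symm a T D')
  have h3 : Phi ((OO T Q).erase j) (bD a T D') (eD a T D') = Phi ((OO T Q).erase j) (bD a T D) (eD a T D) := by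
    apply Phi_congr
    · intro l hl
      exact hbe l (Finset.ne_of_mem_erase hl)
    · intro i _ l _ _
      rw [he]
  have h4 : ∑ l ∈ (OO T Q).erase j, eD a T D' j l * ∏ m ∈ ((OO T Q).erase j).erase l, bD a T D' m =
      ∑ l ∈ (OO T Q).erase j, eD a T D j l * ∏ m ∈ ((OO T Q).erase j).erase l, bD a T D m := by
    refine Finset.sum_congr rfl fun l _ => ?_
    rw [he]
    congr 1
    refine Finset.prod_congr rfl fun m hm => ?_
    exact hbe m (Finset.ne_of_mem_erase (Finset.mem_of_mem_erase hm))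
  rw [h3, h4] at h2
  have hth : ∀ l : Dir d, 0 ≤ a.th T l.1 := by
    intro l
    unfold Pa.th
    refine le_min (by norm_num) ?_
    have hka : 0 ≤ a.ka := by
      have := a.hka
      have h2 : (0 : ℝ) ≤ d := Nat.cast_nonneg d
      linarith
    positivity
  have h5 : 0 ≤ ∑ l ∈ (OO T Q).erase j, eD a T D j l * ∏ m ∈ ((OO T Q).erase j).erase l, bD a T D m := by
    refine Finset.sum_nonneg fun l _ => mul_nonneg (eD_nonneg a T D j l) (Finset.prod_nonneg fun m _ => ?_)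
    exact (hth m).trans (th_le_bD a T D m)
  set Φ := Phi ((OO T Q).erase j) (bD a T D) (eD a T D) with hΦ
  set S := ∑ l ∈ (OO T Q).erase j, eD a T D j l * ∏ m ∈ ((OO T Q).erase j).erase l, bD a T D m with hS
  have hF1 : a.Fp T2 Q D' = Real.exp (a.Ps T - a.Ps Q) * (Real.exp (a.Ps T2 - a.Ps T) * a.Ph T2 Q D') := by
    unfold Pa.Fp
    rw [← mul_assoc, ← Real.exp_add]
    congr 2
    ring
  have hF2 : a.Fp T Q D' = Real.exp (a.Ps T - a.Ps Q) * (bD a T D' j * Φ + 2 * S) := by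
    unfold Pa.Fp
    rw [Ph_eq, h2]
  have hF3 : a.Fp T Q D = Real.exp (a.Ps T - a.Ps Q) * (bD a T D j * Φ + 2 * S) := by
    unfold Pa.Fp
    rw [Ph_eq, h1]
  rw [hF1, hF2, hF3, hp, hb]
  have hE : 0 < Real.exp (a.Ps T - a.Ps Q) := Real.exp_pos _
  have h6 : a.p * (Real.exp (a.Ps T2 - a.Ps T) * a.Ph T2 Q D') ≤ a.p * (X * Φ) :=
    mul_le_mul_of_nonneg_left hstep hp0
  have h7 : Real.exp (-a.q) * (2 * S) ≤ 2 * S := by
    rw [← hp]
    nlinarith
  have h8 : a.p * (Real.exp (a.Ps T2 - a.Ps T) * a.Ph T2 Q D') + Real.exp (-a.q) * (bD a T D' j * Φ + 2 * S) ≤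
      (Real.exp (-a.q) * bD a T D' j + a.p * X) * Φ + 2 * S := by
    nlinarith
  calc a.p * (Real.exp (a.Ps T - a.Ps Q) * (Real.exp (a.Ps T2 - a.Ps T) * a.Ph T2 Q D')) +
        Real.exp (-a.q) * (Real.exp (a.Ps T - a.Ps Q) * (bD a T D' j * Φ + 2 * S))
      = Real.exp (a.Ps T - a.Ps Q) * (a.p * (Real.exp (a.Ps T2 - a.Ps T) * a.Ph T2 Q D') +
          Real.exp (-a.q) * (bD a T D' j * Φ + 2 * S)) := by ring
    _ ≤ Real.exp (a.Ps T - a.Ps Q) * ((Real.exp (-a.q) * bD a T D' j + a.p * X) * Φ + 2 * S) :=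
        mul_le_mul_of_nonneg_left h8 hE.le

/-- [BTS-J1a] revealing a site of the first layer.
PROOF. `O = OO T Q`, `j ∈ O` (`cc v ≤ Q` gives `up T j ≤ Q`, `sup_inL1`), `b = bD T D`, `b° = bD T (D.erase v)`: equal except at `j` (`nL_erase_ne`), `e` is unchanged (`nC_erase_inL`). `nL T (D.erase v) j 1 = nL T D j 1 - 1` (`nL_erase`), so `b j - e^{-q} b° j = (1-e^{-q}) e^{gm}` (`bv_reveal1`). `Phi_split`:
`Phi O b e - (1-p) Phi O b° e = p e^{gm} Phi (O.erase j) b e + p · 2∑ .. ≥ p e^{gm} Phi (O.erase j) b e` (`1 - p = e^{-q}`, `hp`; `Phi_congr` for `O.erase j`). `step_one` with `D' = D.erase v`. -/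
theorem reveal_L1 {T Q : Box d} (hok : Ok a T Q) {D : Finset (Site d)} {j : Dir d} {v : Site d}
    (hv : v ∈ D) (hin : inL T j 1 v) (hvQ : cc v ≤ Q) :
    a.p * a.Fp (T ⊔ cc v) Q (D.erase v) + (1 - a.p) * a.Fp T Q (D.erase v) ≤ a.Fp T Q D := by
  obtain ⟨hT, hTQ, hQ, hPs⟩ := hok
  have hgam := a.hgam0
  have hup := sup_inL1 hT hin
  have hupQ : up T j ≤ Q := by rw [← hup]; exact sup_le hTQ hvQ
  rw [hup]
  have hstep := step_one a (D := D) (D' := D.erase v) hT hQ hupQ (by linarith) (Finset.erase_subset v D)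
  refine j1a_core a (X := Real.exp (a.gm T j.1)) (mem_OO hupQ) ?_ ?_ ?_ hstep
  · have hn1 : (nL T (D.erase v) j 1 : ℝ) = (nL T D j 1 : ℝ) - 1 := by
      rw [nL_erase hv hin]; push_cast; ring
    have hn2 : nL T (D.erase v) j 2 = nL T D j 2 :=
      nL_erase_ne hT (le_refl 1) (by norm_num) hin (by intro h; have := congrArg Prod.snd h; norm_num at this)
    have h := bv_reveal1 (q := a.q) (x := Real.exp (a.gm T j.1)) (th := a.th T j.1) (n1 := nL T D j 1)
      (n2 := nL T D j 2)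
    unfold bD Pa.bT
    simp only [hn1, hn2]
    rw [a.hp]
    linarith
  · intro l hl
    have hn1 : nL T (D.erase v) l 1 = nL T D l 1 :=
      nL_erase_ne hT (le_refl 1) (le_refl 1) hin (by intro h; exact hl (congrArg Prod.fst h))
    have hn2 : nL T (D.erase v) l 2 = nL T D l 2 :=
      nL_erase_ne hT (le_refl 1) (by norm_num) hin (by intro h; exact hl (congrArg Prod.fst h))
    unfold bD Pa.bT
    simp only [hn1, hn2]
  · funext i l
    unfold eD Pa.eT
    simp only [nC_erase_inL hT (le_refl 1) hin]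

/-- [BTS-J1a] revealing a site of the second layer, when the first layer is explored: `bv_reveal2`, `step_two`, `sup_inL2`. -/
theorem reveal_L2 {T Q : Box d} (hok : Ok a T Q) {D : Finset (Site d)} {j : Dir d} {v : Site d}
    (hv : v ∈ D) (hin : inL T j 2 v) (hvQ : cc v ≤ Q) (h0 : nL T D j 1 = 0) :
    a.p * a.Fp (T ⊔ cc v) Q (D.erase v) + (1 - a.p) * a.Fp T Q (D.erase v) ≤ a.Fp T Q D := by
  obtain ⟨hT, hTQ, hQ, hPs⟩ := hok
  have hup := sup_inL2 hT hin
  have hupQ : up (up T j) j ≤ Q := by rw [← hup]; exact sup_le hTQ hvQ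
  have hj : j ∈ OO T Q := by
    unfold OO
    rw [Finset.mem_filter]
    refine ⟨Finset.mem_univ _, ?_⟩
    have h1 := hvQ j
    have h2 := hin.1
    have h3 : cc v j ≤ Q j := h1
    omega
  rw [hup]
  have hstep := step_two a (D := D) (D' := D.erase v) hT hQ hupQ hPs (Finset.erase_subset v D)
  refine j1a_core a (X := Real.exp (a.gm T j.1) ^ 2) hj ?_ ?_ ?_ hstep
  · have hn2 : (nL T (D.erase v) j 2 : ℝ) = (nL T D j 2 : ℝ) - 1 := by
      rw [nL_erase hv hin]; push_cast; ring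
    have hn1 : nL T (D.erase v) j 1 = nL T D j 1 :=
      nL_erase_ne hT (by norm_num) (le_refl 1) hin (by intro h; have := congrArg Prod.snd h; norm_num at this)
    have h := bv_reveal2 (q := a.q) (x := Real.exp (a.gm T j.1)) (th := a.th T j.1) (n2 := nL T D j 2)
    unfold bD Pa.bT
    simp only [hn1, hn2, h0]
    rw [a.hp]
    push_cast
    linarith
  · intro l hl
    have hn1 : nL T (D.erase v) l 1 = nL T D l 1 :=
      nL_erase_ne hT (by norm_num) (le_refl 1) hin (by intro h; exact hl (congrArg Prod.fst h))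
    have hn2 : nL T (D.erase v) l 2 = nL T D l 2 :=
      nL_erase_ne hT (by norm_num) (by norm_num) hin (by intro h; exact hl (congrArg Prod.fst h))
    unfold bD Pa.bT
    simp only [hn1, hn2]
  · funext i l
    unfold eD Pa.eT
    simp only [nC_erase_inL hT (by norm_num : (1:ℤ) ≤ 2) hin]

end BTS
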