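import Pool.Agent.BTS.V11
import Pool.Agent.BTP.V2
import Pool.Agent.BTP.V3
import Pool.Agent.BTP.M0

set_option autoImplicit false

open scoped Classical
open Finset

namespace BTS
open BTP

variable {d : ℕ} (a : Pa d)

/-! ## First facts on the potential -/

theorem v12_prod_pos (T : Box d) (s : Finset (Fin d)) : 0 < ∏ l ∈ s, a.f (sd T l) :=
  Finset.prod_pos fun _ _ => (gp a).pos _

/-- [BTS-V12] (`GP.Psi_nonneg`) -/
theorem Ps_nonneg (T : Box d) : 0 ≤ a.Ps T := by
  exact (gp a).Psi_nonneg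

/-- [BTS-V12] the step cost is bounded. PROOF. `φ 0 = H`, `G_le`, `hgam`. -/
theorem G_le_gam : a.G (a.f 0 ^ (d - 1)) ≤ a.gam := by
  have h0 : a.f 0 = a.H := by simp [Pa.f, ph]
  have hH : 0 < a.H := by
    rw [← h0]
    exact (gp a).pos 0
  rw [h0]
  exact (G_le a (pow_pos hH _)).trans a.hgam

/-- [BTS-V12] PROOF. `GP.Psi_le`, `∑ sd = Ys + d` (`Ys_eq`). -/
theorem Ps_le {T : Box d} (hT : Ne T) : a.Ps T ≤ ((Ys T : ℝ) + d) * a.gam := by
  have h1 : a.Ps T ≤ (∑ i, (sd T i : ℝ)) * a.gam := (gp a).Psi_le (G_le_gam a)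
  have h2 : (∑ i, (sd T i : ℝ)) = (Ys T : ℝ) + d := by
    rw [Ys_eq hT]
    push_cast
    rw [Finset.sum_sub_distrib]
    simp
  rwa [h2] at h1

/-- [BTS-V12] PROOF. As `BTP.Par.merge` (`GP.sub` with `δ i = (gap R S i).toNat`). -/
theorem Ps_merge {R S : Box d} (hR : Ne R) (hS : Ne S) (hn : near R S) :
    a.Ps (R ⊔ S) ≤ a.Ps R + a.Ps S + 2 * a.gam := by
  have h1 := (gp a).sub (x := sd R) (y := sd S) (t := sd (R ⊔ S)) (δ := fun i => (gap R S i).toNat)
    (fun i => sd_mono hR le_sup_left i) (fun i => sd_mono hS le_sup_right i)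
    (fun i => sd_sup_le hR hS i) (G_le_gam a)
  have h2 : (∑ i, (((gap R S i).toNat : ℕ) : ℝ)) ≤ 2 := by
    exact_mod_cast sum_gap_toNat hn
  have h3 : (∑ i, (((gap R S i).toNat : ℕ) : ℝ)) * a.gam ≤ 2 * a.gam :=
    mul_le_mul_of_nonneg_right h2 a.hgam0
  unfold Pa.Ps
  linarith

/-- [BTS-V12] one step. PROOF. `GP.step`, `sd_up`. -/
theorem Ps_up {T : Box d} (hT : Ne T) (j : Dir d) :
    a.Ps (up T j) ≤ a.Ps T + a.G (∏ l ∈ Finset.univ.erase j.1, a.f (sd T l)) := by
  unfold Pa.Ps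
  rw [sd_up hT]
  exact (gp a).step (sd T) j.1

/-- [BTS-V12] PROOF. `Ps_up`; the product is `≥ φ(0)^{d-1}` (`anti`), `G_le_gam`. -/
theorem Ps_up_gam {T : Box d} (hT : Ne T) (j : Dir d) : a.Ps (up T j) ≤ a.Ps T + a.gam := by
  refine (Ps_up a hT j).trans (add_le_add le_rfl ?_)
  refine le_trans ?_ (G_le_gam a)
  have h0 : 0 < a.f 0 := (gp a).pos 0
  refine (gp a).anti (Set.mem_Ioi.2 (pow_pos h0 _)) (Set.mem_Ioi.2 (v12_prod_pos a T _)) ?_
  have h1 : ∏ _l ∈ Finset.univ.erase j.1, a.f 0 ≤ ∏ l ∈ Finset.univ.erase j.1, a.f (sd T l) :=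
    Finset.prod_le_prod (fun _ _ => h0.le) fun l _ => (gp a).mono (Nat.zero_le _)
  rwa [Finset.prod_const, Finset.card_erase_of_mem (Finset.mem_univ j.1), Finset.card_univ,
    Fintype.card_fin] at h1

/-- [BTS-V12] the direct slack. PROOF. `Ps_up`, `G_le'` (`q ∏ = zf T j.1`). -/
theorem Ps_up_direct {T : Box d} (hT : Ne T) (j : Dir d) (h : a.zf T j.1 ≤ a.Z) :
    a.Ps (up T j) ≤ a.Ps T + gg (a.zf T j.1) - a.c1 / (1 + a.zf T j.1) ^ 2 := by
  have h1 := Ps_up a hT j
  have h2 := G_le' a (v12_prod_pos a T (Finset.univ.erase j.1)) (by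
    have h3 : a.q * ∏ l ∈ Finset.univ.erase j.1, a.f (sd T l) = a.zf T j.1 := rfl
    rw [h3]
    exact h)
  have h3 : a.q * ∏ l ∈ Finset.univ.erase j.1, a.f (sd T l) = a.zf T j.1 := rfl
  rw [h3] at h2
  linarith

/-- [BTS-V12] growth by several levels: each level in axis `l` costs at most `g(z_l(T))`.
PROOF. Induction on `∑ j (T' j - T j)`: if `T ≠ T'` some `T j < T' j`; `up T j ≤ T'`; `Ps_up`, `G_le`, `q ∏ φ ≥ z T j.1` (`z_le_zf`), and `g(z (up T j) l) ≤ g(z T l)` (`z_mono`); `sd (up T j)` (`sd_up`). -/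
theorem Ps_grow {T T' : Box d} (hT : Ne T) (h : T ≤ T') :
    a.Ps T' ≤ a.Ps T + ∑ l, ((sd T' l : ℝ) - sd T l) * gg (a.z T l) := by
  obtain ⟨n, hn⟩ : ∃ n : ℕ, Ys T' - Ys T = n :=
    ⟨(Ys T' - Ys T).toNat, (Int.toNat_of_nonneg (by linarith [Ys_mono h])).symm⟩
  induction n generalizing T with
  | zero =>
    have h1 : T = T' := by
      by_contra hne
      have := Ys_lt h hne
      omega
    subst h1
    simp
  | succ n ih =>
    have h1 : ∃ j, T j < T' j := by
      by_contra hcon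
      push Not at hcon
      have h2 : T = T' := le_antisymm h fun j => hcon j
      subst h2
      push_cast at hn
      omega
    obtain ⟨j, hj⟩ := h1
    have h2 : up T j ≤ T' := by
      intro l
      by_cases hl : l = j
      · subst hl
        rw [up_self]
        exact Int.add_one_le_iff.2 hj
      · rw [up_ne T hl]
        exact h l
    have h3 := ne_up hT j
    have h4 : Ys (up T j) = Ys T + 1 := by
      unfold Ys
      rw [← Finset.add_sum_erase _ _ (Finset.mem_univ j), ← Finset.add_sum_erase _ T (Finset.mem_univ j),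
        up_self, Finset.sum_congr rfl fun l hl => up_ne T (Finset.ne_of_mem_erase hl)]
      ring
    have h5 := ih h3 h2 (by rw [h4]; push_cast at hn; omega)
    have h6 : a.Ps (up T j) ≤ a.Ps T + gg (a.z T j.1) := by
      refine (Ps_up a hT j).trans (add_le_add le_rfl ?_)
      refine (G_le a (v12_prod_pos a T _)).trans ?_
      exact gg_anti (z_pos a T j.1) (z_le_zf a T j.1)
    have h7 : ∑ l, ((sd T' l : ℝ) - sd (up T j) l) * gg (a.z (up T j) l) ≤
        ∑ l, ((sd T' l : ℝ) - sd (up T j) l) * gg (a.z T l) := by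
      refine Finset.sum_le_sum fun l _ => mul_le_mul_of_nonneg_left ?_ ?_
      · exact gg_anti (z_pos a T l) (z_mono a hT (le_up T j) l)
      · have : (sd (up T j) l : ℝ) ≤ sd T' l := by exact_mod_cast sd_mono h3 h2 l
        linarith
    have h8 : ∑ l, ((sd T' l : ℝ) - sd (up T j) l) * gg (a.z T l) + gg (a.z T j.1) =
        ∑ l, ((sd T' l : ℝ) - sd T l) * gg (a.z T l) := by
      rw [sd_up hT, ← Finset.add_sum_erase _ _ (Finset.mem_univ j.1),
        ← Finset.add_sum_erase _ (fun l => ((sd T' l : ℝ) - sd T l) * gg (a.z T l)) (Finset.mem_univ j.1)]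
      have h9 : ∑ l ∈ Finset.univ.erase j.1, ((sd T' l : ℝ) -
          (Function.update (sd T) j.1 (sd T j.1 + 1) l : ℕ)) * gg (a.z T l) =
          ∑ l ∈ Finset.univ.erase j.1, ((sd T' l : ℝ) - sd T l) * gg (a.z T l) := by
        refine Finset.sum_congr rfl fun l hl => ?_
        rw [Function.update_of_ne (Finset.ne_of_mem_erase hl)]
      rw [h9, Function.update_self]
      push_cast
      ring
    linarith

end BTS
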