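import Pool.Agent.BTS.I2
import Pool.Agent.BTS.V12

set_option autoImplicit false

open scoped Classical
open Finset

namespace BTS
open BTP

variable {d : ℕ} (a : Pa d)

include a in
theorem j2_d1 : (2 : ℝ) ≤ (d : ℝ) := by exact_mod_cast a.hd

theorem j2_ka_pos : 2000 ≤ a.ka := by
  have h1 := j2_d1 a
  have h2 := a.hka
  linarith

theorem j2_bD_nonneg (T : Box d) (D : Finset (Site d)) (l : Dir d) : 0 ≤ bD a T D l :=
  (th_pos a T l.1).le.trans (th_le_bD a T D l)

/-- [BTS-J2] PROOF. `Phi_le_two`: `bD ≤ 1`, `eD ≤ EE ≤ 1/(4096 ka²) ≤ 1/(2d)²` (`EE_le`, `th_le`, `hka`). -/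
theorem Fp_le {T Q : Box d} (hT : Ne T) (hD : a.InD T) (D : Finset (Site d)) :
    a.Fp T Q D ≤ 2 * Real.exp (a.Ps T - a.Ps Q) := by
  unfold Pa.Fp
  rw [Ph_eq, mul_comm]
  apply mul_le_mul_of_nonneg_right _ (Real.exp_pos _).le
  apply Phi_le_two
  · intro l _
    exact j2_bD_nonneg a T D l
  · intro l _
    exact bD_le_one a hT D l
  · exact eD_nonneg a T D
  · intro i _ j _
    have h1 := eD_le a hT D i j
    have h2 := EE_le a hD i.1 j.1
    have h3 := th_le a T i.1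
    have h4 := th_le a T j.1
    have h5 := th_pos a T i.1
    have h6 := th_pos a T j.1
    have hd2 := j2_d1 a
    have hka := a.hka
    have hk0 := j2_ka_pos a
    have hk1 : 0 < a.ka ^ 2 := by positivity
    have h7 : a.th T i.1 * a.th T j.1 ≤ 1 := by nlinarith
    have h8 : a.th T i.1 * a.th T j.1 / a.ka ^ 2 ≤ 1 / a.ka ^ 2 :=
      div_le_div_of_nonneg_right h7 hk1.le
    have h9 : (2 * (d : ℝ)) ^ 2 ≤ a.ka ^ 2 := by
      apply pow_le_pow_left₀ (by linarith)
      linarith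
    have h10 : eD a T D i j ≤ 1 / a.ka ^ 2 := by linarith
    calc eD a T D i j * (2 * (d : ℝ)) ^ 2 ≤ 1 / a.ka ^ 2 * a.ka ^ 2 :=
          mul_le_mul h10 h9 (by positivity) (by positivity)
      _ = 1 := by field_simp

theorem Fp_nonneg (T Q : Box d) (D : Finset (Site d)) : 0 ≤ a.Fp T Q D := by
  unfold Pa.Fp
  rw [Ph_eq]
  exact mul_nonneg (Real.exp_pos _).le
    (Phi_nonneg (fun l _ => j2_bD_nonneg a T D l) (eD_nonneg a T D))

/-- [BTS-J2] the end. (`OO Q Q = ∅`, `Phi ∅ = 1`) -/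
theorem Fp_self (Q : Box d) (D : Finset (Site d)) : a.Fp Q Q D = 1 := by
  unfold Pa.Fp
  rw [Ph_eq]
  have h : OO Q Q = ∅ := by
    unfold OO
    simp
  rw [h]
  unfold Phi
  simp

/-- [BTS-J2] (`nL_sdiff`, `nC_sdiff`) -/
theorem Fp_sdiff (T Q : Box d) (D : Finset (Site d)) : a.Fp T Q (D \ sites T) = a.Fp T Q D := by
  unfold Pa.Fp Pa.Ph
  have h1 : (fun j => (nL T (D \ sites T) j 1 : ℝ)) = fun j => (nL T D j 1 : ℝ) := by
    funext j
    rw [nL_sdiff j (by norm_num)]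
  have h2 : (fun j => (nL T (D \ sites T) j 2 : ℝ)) = fun j => (nL T D j 2 : ℝ) := by
    funext j
    rw [nL_sdiff j (by norm_num)]
  have h3 : (fun i j => (nC T (D \ sites T) i j : ℝ)) = fun i j => (nC T D i j : ℝ) := by
    funext i j
    rw [nC_sdiff i j]
  rw [h1, h2, h3]

theorem j2_prod_univ_le (O : Finset (Dir d)) (T : Box d) :
    ∏ l : Dir d, a.th T l.1 ≤ ∏ l ∈ O, a.th T l.1 := by
  rw [← Finset.prod_sdiff (Finset.subset_univ O)]
  have h1 : ∏ l ∈ Finset.univ \ O, a.th T l.1 ≤ 1 := by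
    apply Finset.prod_le_one
    · intro l _
      exact (th_pos a T l.1).le
    · intro l _
      have := th_le a T l.1
      linarith
  have h2 : 0 ≤ ∏ l ∈ O, a.th T l.1 := Finset.prod_nonneg (fun l _ => (th_pos a T l.1).le)
  calc _ ≤ 1 * ∏ l ∈ O, a.th T l.1 := mul_le_mul_of_nonneg_right h1 h2
    _ = _ := one_mul _

/-- [BTS-J2] PROOF. `prod_le_Phi`, `th_le_bD`; the product over the open directions is at least the product over all (`th ≤ 1`). -/
theorem Fp_ge (T Q : Box d) (D : Finset (Site d)) :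
    Real.exp (a.Ps T - a.Ps Q) * ∏ l : Dir d, a.th T l.1 ≤ a.Fp T Q D := by
  unfold Pa.Fp
  rw [Ph_eq]
  apply mul_le_mul_of_nonneg_left _ (Real.exp_pos _).le
  refine (j2_prod_univ_le a (OO T Q) T).trans ?_
  refine le_trans ?_ (prod_le_Phi (fun l _ => j2_bD_nonneg a T D l) (eD_nonneg a T D))
  apply Finset.prod_le_prod
  · intro l _
    exact (th_pos a T l.1).le
  · intro l _
    exact th_le_bD a T D l

theorem j2_Xm_pos (T : Box d) : 0 < a.Xm T := by
  have h := Xm_ge a T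
  have h2 := a.hH1
  linarith

theorem j2_B : 4096 ≤ a.B := by
  have h1 := a.hrho
  have h2 := a.hHB
  have h3 := j2_ka_pos a
  have h4 := a.hZ
  have h5 : 1 ≤ a.ka ^ 2 := by nlinarith
  nlinarith

theorem j2_th_ge {T : Box d} (hD : a.InD T) (l : Fin d) : 1 / Real.sqrt a.B ≤ a.th T l := by
  have hB := j2_B a
  have hB0 : 0 < a.B := by linarith
  have hz := z_pos a T l
  have hX := j2_Xm_pos a T
  have hk := j2_ka_pos a
  unfold Pa.th
  apply le_min
  · have h64 : (64 : ℝ) ≤ Real.sqrt a.B := by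
      apply Real.le_sqrt_of_sq_le
      linarith
    exact one_div_le_one_div_of_le (by norm_num) h64
  · have hXB : a.Xm T ≤ a.B := by
      refine ((Xm_spec a T).2 l).trans ?_
      unfold Pa.X xt
      exact max_le (hD.2 l) a.hHB
    have h1 : 1 / Real.sqrt a.B ≤ Real.sqrt ((1 + a.z T l) / a.Xm T) := by
      rw [show (1 : ℝ) / Real.sqrt a.B = Real.sqrt (1 / a.B) by rw [Real.sqrt_div' _ hB0.le, Real.sqrt_one]]
      apply Real.sqrt_le_sqrt
      apply div_le_div₀ (by linarith) (by linarith) hX hXB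
    have h2 : 1 ≤ Real.exp (a.z T l) := Real.one_le_exp hz.le
    have h3 : 0 ≤ Real.sqrt ((1 + a.z T l) / a.Xm T) := Real.sqrt_nonneg _
    calc 1 / Real.sqrt a.B ≤ Real.sqrt ((1 + a.z T l) / a.Xm T) := h1
      _ = 1 * Real.sqrt ((1 + a.z T l) / a.Xm T) * 1 := by ring
      _ ≤ a.ka * Real.sqrt ((1 + a.z T l) / a.Xm T) * Real.exp (a.z T l) := by
        apply mul_le_mul _ h2 (by norm_num) (by positivity)
        apply mul_le_mul_of_nonneg_right (by linarith) h3

/-- [BTS-J2] PROOF. `θ_l ≥ B^{-1/2}`: `1/64 ≥ 1/√B` (`B ≥ H₁ ≥ 4096 ka²`) and `ka √((1+z)/Xm) e^z ≥ 1/√B` (`Xm ≤ X_l ≤ B`, since `sd ≤ B` and `H₁ ≤ B`); `2d` factors. -/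
theorem prod_th_ge {T : Box d} (hD : a.InD T) : 1 / a.B ^ d ≤ ∏ l : Dir d, a.th T l.1 := by
  have hB := j2_B a
  have hB0 : 0 < a.B := by linarith
  have h1 : ∏ l : Dir d, (1 / Real.sqrt a.B) ≤ ∏ l : Dir d, a.th T l.1 := by
    apply Finset.prod_le_prod
    · intro l _
      positivity
    · intro l _
      exact j2_th_ge a hD l.1
  refine le_trans (le_of_eq ?_) h1
  rw [Finset.prod_const, Finset.card_univ, Fintype.card_prod, Fintype.card_fin, Fintype.card_bool]
  rw [mul_comm d 2, pow_mul, one_div_pow, one_div_pow, Real.sq_sqrt hB0.le]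

/-- [BTS-J2] expensive boxes. PROOF. `Fp_ge`, `prod_th_ge`: `Fp ≥ exp(d log B) / B^d = 1`. -/
theorem one_le_Fp {T Q : Box d} (hD : a.InD T) (D : Finset (Site d))
    (h : a.Ps Q + d * Real.log a.B ≤ a.Ps T) : 1 ≤ a.Fp T Q D := by
  have hB := j2_B a
  have hB0 : 0 < a.B := by linarith
  refine le_trans ?_ (Fp_ge a T Q D)
  have h1 := prod_th_ge a hD
  have h2 : a.B ^ d ≤ Real.exp (a.Ps T - a.Ps Q) := by
    rw [show a.B ^ d = Real.exp (d * Real.log a.B) by
      rw [mul_comm, Real.exp_mul, Real.exp_log hB0, Real.rpow_natCast]]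
    apply Real.exp_le_exp.2
    linarith
  have hBd : 0 < a.B ^ d := by positivity
  calc (1 : ℝ) = a.B ^ d * (1 / a.B ^ d) := by field_simp
    _ ≤ _ := mul_le_mul h2 h1 (by positivity) (Real.exp_pos _).le

theorem j2_th_sq {T : Box d} (hD : a.InD T) (l : Fin d) :
    a.ka ^ 2 * (1 + a.z T l) / a.Xm T ≤ a.th T l * a.th T l := by
  have hX := j2_Xm_pos a T
  have hz := z_pos a T l
  have hk := j2_ka_pos a
  have hzZ : a.z T l ≤ a.Z := (z_le_zf a T l).trans (hD.1 l)
  have hXm := Xm_ge a T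
  rcases le_total (1 / 64) (a.ka * Real.sqrt ((1 + a.z T l) / a.Xm T) * Real.exp (a.z T l)) with h | h
  · have e : a.th T l = 1 / 64 := min_eq_left h
    rw [e, div_le_iff₀ hX]
    have h1 := a.hrho
    have h2 : 0 ≤ a.ka ^ 2 := by positivity
    have h3 : a.ka ^ 2 * (1 + a.z T l) ≤ a.ka ^ 2 * (1 + a.Z) :=
      mul_le_mul_of_nonneg_left (by linarith) h2
    linarith
  · have e : a.th T l = a.ka * Real.sqrt ((1 + a.z T l) / a.Xm T) * Real.exp (a.z T l) :=
      min_eq_right h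
    rw [e]
    have h0 : 0 ≤ (1 + a.z T l) / a.Xm T := by positivity
    have h1 := Real.mul_self_sqrt h0
    have h2 : 1 ≤ Real.exp (a.z T l) := Real.one_le_exp hz.le
    have h3 : 1 ≤ Real.exp (a.z T l) * Real.exp (a.z T l) := by nlinarith
    calc a.ka ^ 2 * (1 + a.z T l) / a.Xm T = a.ka ^ 2 * ((1 + a.z T l) / a.Xm T) * 1 := by ring
      _ ≤ a.ka ^ 2 * ((1 + a.z T l) / a.Xm T) * (Real.exp (a.z T l) * Real.exp (a.z T l)) := by
        apply mul_le_mul_of_nonneg_left h3 (by positivity)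
      _ = a.ka ^ 2 * (Real.sqrt ((1 + a.z T l) / a.Xm T) * Real.sqrt ((1 + a.z T l) / a.Xm T)) *
          (Real.exp (a.z T l) * Real.exp (a.z T l)) := by rw [h1]
      _ = _ := by ring

/-- [BTS-J2] the values of the blocked directions.
PROOF. `θ_l² ≥ ka² (1+z_l)/Xm` (if `θ_l = 1/64`: `1/4096 ≥ ka² (1+Z)/H₁` by `hrho`); each axis has two directions. -/
theorem prod_th_ge' {T : Box d} (hD : a.InD T) :
    ∏ l : Fin d, (a.ka ^ 2 * (1 + a.z T l) / a.Xm T) ≤ ∏ l : Dir d, a.th T l.1 := by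
  have e : ∏ l : Dir d, a.th T l.1 = ∏ l : Fin d, (a.th T l * a.th T l) := by
    rw [Fintype.prod_prod_type]
    apply Finset.prod_congr rfl
    intro l _
    rw [Fintype.prod_bool]
  rw [e]
  apply Finset.prod_le_prod
  · intro l _
    have hX := j2_Xm_pos a T
    have hz := z_pos a T l
    positivity
  · intro l _
    exact j2_th_sq a hD l

end BTS
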