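import Pool.Agent.BTS.S10
import Pool.Agent.BTS.Q2
import Pool.Agent.BTP.B5

set_option autoImplicit false

open scoped Classical
open Finset

namespace BTS
open BTP

variable {d : ℕ} (a : Pa d)

/-- [BTS-M4a] small boxes. PROOF. `Pr_IG_le` with `m = ⌈(Ys T + 2)/2⌉`, `hbase`, `Ps_le` (as `BTP.base`). -/
theorem base (V : Finset (Site d)) {T : Box d} (hT : Ne T) (h1 : (a.h : ℤ) ≤ Ys T)
    (h2 : Ys T ≤ 2 * a.h + 2) : Pr V a.p (IG T) ≤ Real.exp (-(2 * a.P) - a.Ps T) := by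
  obtain ⟨Y, hY⟩ : ∃ Y : ℕ, Ys T = Y := ⟨(Ys T).toNat, (Int.toNat_of_nonneg (Ys_nonneg hT)).symm⟩
  rw [hY] at h1 h2
  have h3 := Pr_IG_le (p_nonneg a) (p_le_one a) V T hT ((Y + 3) / 2) (by rw [hY]; omega)
  have h4 := a.hbase Y ((Y + 3) / 2) (by omega) (by omega) (by omega)
  have h5 := Ps_le a hT
  rw [hY] at h3 h5
  push_cast at h3 h5
  refine h3.trans (h4.trans (Real.exp_le_exp.2 ?_))
  linarith

/-- [BTS-M4a] a small box `S` merged with `R` costs nothing.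
PROOF. `y = Ys S < h`, `m = ms y`, `y + 2 ≤ 2m`. `Pr_small`, `grow_any`: the product is at most `((y+1)^d p e^{2g(zm R)})^m ≤ (h^d (1+Z)/H₁)^m ≤ 1` (`p_exp_le`, `hHs`). -/
theorem small_merge {R S : Box d} (hR : Ne R) (hD : a.InD R) (hS : Ne S) (hn : near R S)
    (hY : Ys S < a.h) (V : Finset (Site d)) :
    Pr V a.p (IG S) * Real.exp (a.Ps (R ⊔ S) - a.Ps R) ≤ 1 := by
  obtain ⟨y, hy⟩ : ∃ y : ℕ, Ys S = y := ⟨(Ys S).toNat, (Int.toNat_of_nonneg (Ys_nonneg hS)).symm⟩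
  rw [hy] at hY
  have hyh : y + 1 ≤ a.h := by
    have : y < a.h := by exact_mod_cast hY
    omega
  have h1 := Pr_small a hS hy V
  have h2 := grow_any a hR hS hn hy
  have h3 := p_exp_le a hD
  have hg : 0 ≤ gg (a.zm R) := gg_nonneg (zm_pos a R)
  have hp := p_nonneg a
  have hm : (y : ℝ) + 2 ≤ 2 * (ms y : ℝ) := by
    have : y + 2 ≤ 2 * ms y := by unfold ms; omega
    exact_mod_cast this
  have h4 : Real.exp (a.Ps (R ⊔ S) - a.Ps R) ≤ (Real.exp (gg (a.zm R)) ^ 2) ^ ms y := by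
    rw [← pow_mul, ← Real.exp_nat_mul]
    apply Real.exp_le_exp.2
    push_cast
    have h5 : ((y : ℝ) + 2) * gg (a.zm R) ≤ 2 * (ms y : ℝ) * gg (a.zm R) :=
      mul_le_mul_of_nonneg_right hm hg
    linarith
  have hH1 : 0 < a.H1 := by linarith [a.hH1]
  have hZ := a.hZ
  have hd := a.hd
  have h6 : ((y : ℝ) + 1) ^ d * ((1 + a.Z) / a.H1) ≤ 1 := by
    rw [← mul_div_assoc, div_le_one hH1]
    have h7 := a.hHs
    have hh1 : (1 : ℝ) ≤ a.h := by exact_mod_cast a.hh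
    have h8 : ((y : ℝ) + 1) ^ d ≤ (2 * (a.h : ℝ) + 7) ^ (6 * d) := by
      have h9 : (y : ℝ) + 1 ≤ 2 * (a.h : ℝ) + 7 := by
        have : (y : ℝ) + 1 ≤ a.h := by exact_mod_cast hyh
        linarith
      calc ((y : ℝ) + 1) ^ d ≤ (2 * (a.h : ℝ) + 7) ^ d := pow_le_pow_left₀ (by positivity) h9 d
        _ ≤ (2 * (a.h : ℝ) + 7) ^ (6 * d) := pow_le_pow_right₀ (by linarith) (by omega)
    have h10 : (1 : ℝ) ≤ 4 * (d : ℝ) ^ 2 * a.h := by
      have hd2 : (2 : ℝ) ≤ d := by exact_mod_cast hd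
      nlinarith
    have h11 : 0 ≤ (2 * (a.h : ℝ) + 7) ^ (6 * d) := by positivity
    have h12 : (2 * (a.h : ℝ) + 7) ^ (6 * d) ≤
        4 * (d : ℝ) ^ 2 * a.h * (2 * (a.h : ℝ) + 7) ^ (6 * d) := by
      nlinarith
    calc ((y : ℝ) + 1) ^ d * (1 + a.Z) ≤ (2 * (a.h : ℝ) + 7) ^ (6 * d) * (1 + a.Z) :=
          mul_le_mul_of_nonneg_right h8 (by linarith)
      _ ≤ 4 * (d : ℝ) ^ 2 * a.h * (2 * (a.h : ℝ) + 7) ^ (6 * d) * (1 + a.Z) :=
          mul_le_mul_of_nonneg_right h12 (by linarith)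
      _ ≤ a.H1 := h7
  have h13 : ((y : ℝ) + 1) ^ d * a.p * Real.exp (gg (a.zm R)) ^ 2 ≤ 1 := by
    refine le_trans ?_ h6
    rw [mul_assoc]
    exact mul_le_mul_of_nonneg_left h3 (by positivity)
  calc Pr V a.p (IG S) * Real.exp (a.Ps (R ⊔ S) - a.Ps R)
      ≤ (((y : ℝ) + 1) ^ d * a.p) ^ ms y * (Real.exp (gg (a.zm R)) ^ 2) ^ ms y :=
        mul_le_mul h1 h4 (Real.exp_pos _).le (by positivity)
    _ = (((y : ℝ) + 1) ^ d * a.p * Real.exp (gg (a.zm R)) ^ 2) ^ ms y := by rw [← mul_pow]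
    _ ≤ 1 := pow_le_one₀ (by positivity) h13

end BTS
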