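import Pool.Agent.BTS.M4a
import Pool.Agent.BTS.S10
import Pool.Agent.BTS.Q2
import Pool.Agent.BTP.B5

set_option autoImplicit false

open scoped Classical
open Finset

namespace BTS
open BTP

variable {d : ℕ} (a : Pa d)

theorem m4b_gam : 0 ≤ a.gam := a.hgam0

theorem m4b_logB : 0 ≤ (d : ℝ) * Real.log a.B := by
  have h1 : (1 : ℝ) ≤ a.B := by linarith [a.hHB, a.hH1]
  exact mul_nonneg (Nat.cast_nonneg _) (Real.log_nonneg h1)

/-- one pair of boxes -/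
theorem m4b_term {Q : Box d} (hD : a.InD Q) (hP : d * a.A * lam d < a.Ps Q)
    (IH : ∀ R : Box d, Ne R → R ≤ Q → R ≠ Q → (a.h : ℤ) ≤ Ys R → a.Ps R ≤ d * a.A * lam d →
      ∀ V : Finset (Site d), Pr V a.p (IG R) ≤ Real.exp (-a.P - a.Ps R)) (V : Finset (Site d))
    {R S : Box d} (hR : Ne R) (hS : Ne S) (hRQ : R ≤ Q) (hSQ : S ≤ Q)
    (h1 : a.Ps R ≤ d * a.A * lam d) (h2 : a.Ps S ≤ d * a.A * lam d)
    (h3 : d * a.A * lam d < a.Ps (R ⊔ S)) (hn : near R S) :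
    Pr V a.p (IG R) * Pr V a.p (IG S) ≤
      Real.exp (-a.P + 2 * a.gam - d * a.A * lam d) := by
  have hg := a.hgam0
  have hPp := a.hP
  have hne : ∀ {T : Box d}, a.Ps T ≤ d * a.A * lam d → T ≠ Q := by
    rintro T hT rfl
    linarith
  have hmono : ∀ {x : ℝ}, x ≤ -a.P + 2 * a.gam - d * a.A * lam d →
      Real.exp x ≤ Real.exp (-a.P + 2 * a.gam - d * a.A * lam d) := fun h => Real.exp_le_exp.2 h
  have hnn : ∀ T : Box d, 0 ≤ Pr V a.p (IG T) := fun T => Pr_nonneg (p_nonneg a) (p_le_one a)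
  -- a big and a small box
  have hbs : ∀ {R S : Box d}, Ne R → Ne S → R ≤ Q → a.Ps R ≤ d * a.A * lam d →
      d * a.A * lam d < a.Ps (R ⊔ S) → near R S → (a.h : ℤ) ≤ Ys R → Ys S < a.h →
      Pr V a.p (IG R) * Pr V a.p (IG S) ≤
        Real.exp (-a.P + 2 * a.gam - d * a.A * lam d) := by
    intro R S hR hS hRQ h1 h3 hn hYR hYS
    have e1 := IH R hR hRQ (hne h1) hYR h1 V
    have e2 := small_merge a hR (InD_mono a hR hRQ hD) hS hn hYS V
    have e3 : Pr V a.p (IG S) ≤ Real.exp (a.Ps R - a.Ps (R ⊔ S)) := by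
      have e4 : Real.exp (a.Ps R - a.Ps (R ⊔ S)) * Real.exp (a.Ps (R ⊔ S) - a.Ps R) = 1 := by
        rw [← Real.exp_add]
        simp
      have e5 : 0 < Real.exp (a.Ps (R ⊔ S) - a.Ps R) := Real.exp_pos _
      rw [← e4] at e2
      exact le_of_mul_le_mul_right e2 e5
    calc Pr V a.p (IG R) * Pr V a.p (IG S)
        ≤ Real.exp (-a.P - a.Ps R) * Real.exp (a.Ps R - a.Ps (R ⊔ S)) :=
          mul_le_mul e1 e3 (hnn S) (Real.exp_pos _).le
      _ = Real.exp (-a.P - a.Ps (R ⊔ S)) := by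
          rw [← Real.exp_add]
          congr 1
          ring
      _ ≤ _ := hmono (by linarith)
  by_cases hYR : (a.h : ℤ) ≤ Ys R
  · by_cases hYS : (a.h : ℤ) ≤ Ys S
    · have e1 := IH R hR hRQ (hne h1) hYR h1 V
      have e2 := IH S hS hSQ (hne h2) hYS h2 V
      have e3 := Ps_merge a hR hS hn
      calc Pr V a.p (IG R) * Pr V a.p (IG S)
          ≤ Real.exp (-a.P - a.Ps R) * Real.exp (-a.P - a.Ps S) :=
            mul_le_mul e1 e2 (hnn S) (Real.exp_pos _).le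
        _ = Real.exp (-a.P - a.Ps R + (-a.P - a.Ps S)) := by rw [← Real.exp_add]
        _ ≤ _ := hmono (by linarith)
    · exact hbs hR hS hRQ h1 h3 hn hYR (not_le.1 hYS)
  · by_cases hYS : (a.h : ℤ) ≤ Ys S
    · rw [mul_comm]
      exact hbs hS hR hSQ h2 (by rwa [sup_comm]) (near_symm hn) hYS (not_le.1 hYR)
    · exfalso
      have e1 := Ys_sup_le hR hS hn
      have e2 : Ys (R ⊔ S) ≤ 2 * a.h := by omega
      have e3 := Ps_le a (hR.sup_left (S := S))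
      have e4 : ((Ys (R ⊔ S) : ℤ) : ℝ) ≤ 2 * (a.h : ℝ) := by exact_mod_cast e2
      have e5 : ((Ys (R ⊔ S) : ℝ) + d) * a.gam ≤ (2 * (a.h : ℝ) + d) * a.gam :=
        mul_le_mul_of_nonneg_right (by linarith) hg
      have e6 := a.hLm
      have e7 := m4b_logB a
      nlinarith

/-- [BTS-M4b] expensive boxes.
PROOF. `L = d A λ`. `exitD` with `D R := Ps R ≤ L` (`Ps (cc v) ≤ d γ ≤ L` by `Ps_le`, `hLm`): `IG Q U` implies `dis (IG R) (IG S) U` for some `R, S ∈ sub Q` with `Ps R, Ps S ≤ L < Ps (R ⊔ S)`, `near R S`. `Pr_union`, `bk`. `R ≠ Q`, `S ≠ Q` as `Ps Q > L`. Both `Ys ≥ h`: by `IH` and `Ps_merge` the product is at most `exp(-2P + 2γ - Ps (R ⊔ S)) ≤ exp(-2P + 2γ - L)`.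
`Ys S < h ≤ Ys R` (or the reverse, `sup_comm`): `Pr (IG R) Pr (IG S) ≤ exp(-P - Ps R) Pr (IG S) ≤ exp(-P - Ps (R ⊔ S))` (`small_merge`). Both `< h`: `Ys (R ⊔ S) ≤ 2h`, `Ps (R ⊔ S) ≤ (2h + d) γ ≤ L` (`Ps_le`, `hLm`), impossible. At most `B^{4d}` pairs (`card_sub`): total `≤ B^{4d} exp(-P + 2γ - L) ≤ exp(-L - P/2)` (`hcnt`). -/
theorem exit_bound {Q : Box d} (hQ : Ne Q) (hD : a.InD Q) (hP : d * a.A * lam d < a.Ps Q)
    (IH : ∀ R : Box d, Ne R → R ≤ Q → R ≠ Q → (a.h : ℤ) ≤ Ys R → a.Ps R ≤ d * a.A * lam d →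
      ∀ V : Finset (Site d), Pr V a.p (IG R) ≤ Real.exp (-a.P - a.Ps R)) (V : Finset (Site d)) :
    Pr V a.p (IG Q) ≤ Real.exp (-(d * a.A * lam d) - a.P / 2) := by
  set s : Finset (Box d × Box d) := (sub Q ×ˢ sub Q).filter (fun y =>
    a.Ps y.1 ≤ d * a.A * lam d ∧ a.Ps y.2 ≤ d * a.A * lam d ∧
      d * a.A * lam d < a.Ps (y.1 ⊔ y.2) ∧ near y.1 y.2) with hs
  have hcc : ∀ v : Site d, a.Ps (cc v) ≤ d * a.A * lam d := by
    intro v
    have e3 := Ps_le a (ne_cc v)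
    rw [Ys_cc v] at e3
    have e6 := a.hLm
    have e7 := m4b_logB a
    have e8 : (0 : ℝ) ≤ (2 * (a.h : ℝ) + 4) * a.gam := mul_nonneg (by positivity) a.hgam0
    push_cast at e3
    nlinarith
  have h1 : Pr V a.p (IG Q) ≤ Pr V a.p (fun U => ∃ y ∈ s, dis (IG y.1) (IG y.2) U) := by
    refine Pr_mono (p_nonneg a) (p_le_one a) ?_
    rintro U - ⟨W, hWU, hG⟩
    obtain ⟨R, S, WR, WS, a1, a2, a3, a4, a5, a6, a7, a8, a9, a10⟩ :=
      exitD (fun R => a.Ps R ≤ d * a.A * lam d) hcc hG (not_le.2 hP)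
    refine ⟨(R, S), ?_, WR, WS, a8, a9.trans hWU, a10.trans hWU, ⟨WR, Finset.Subset.refl _, a6⟩,
      ⟨WS, Finset.Subset.refl _, a7⟩⟩
    rw [hs, Finset.mem_filter, Finset.mem_product, BTP.mem_sub, BTP.mem_sub]
    exact ⟨⟨⟨a6.ne, le_sup_left.trans a5⟩, ⟨a7.ne, le_sup_right.trans a5⟩⟩, a1, a2, not_le.1 a3, a4⟩
  have h2 := Pr_union (V := V) (p_nonneg a) (p_le_one a) s (fun y => dis (IG y.1) (IG y.2))
  have h3 : ∑ y ∈ s, Pr V a.p (dis (IG y.1) (IG y.2)) ≤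
      ∑ _y ∈ s, Real.exp (-a.P + 2 * a.gam - d * a.A * lam d) := by
    refine Finset.sum_le_sum fun y hy => ?_
    rw [hs, Finset.mem_filter, Finset.mem_product, BTP.mem_sub, BTP.mem_sub] at hy
    obtain ⟨⟨⟨b1, b2⟩, ⟨b3, b4⟩⟩, b5, b6, b7, b8⟩ := hy
    exact (bk (p_nonneg a) a.hp2 V _ _ (Inc_IG _) (Inc_IG _)).trans
      (m4b_term a hD hP IH V b1 b3 b2 b4 b5 b6 b7 b8)
  have h4 : (s.card : ℝ) ≤ a.B ^ (4 * d) := by
    have e1 : (s.card : ℝ) ≤ ((sub Q).card : ℝ) * ((sub Q).card : ℝ) := by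
      rw [← Nat.cast_mul, ← Finset.card_product]
      exact_mod_cast Finset.card_filter_le _ _
    have e2 := card_sub hQ hD.2
    have e3 : a.B ^ (4 * d) = a.B ^ (2 * d) * a.B ^ (2 * d) := by
      rw [← pow_add]
      congr 1
      ring
    rw [e3]
    exact e1.trans (mul_le_mul e2 e2 (Nat.cast_nonneg _) (le_trans (Nat.cast_nonneg _) e2))
  rw [Finset.sum_const, nsmul_eq_mul] at h3
  have h5 : (s.card : ℝ) * Real.exp (-a.P + 2 * a.gam - d * a.A * lam d) ≤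
      a.B ^ (4 * d) * Real.exp (-a.P + 2 * a.gam - d * a.A * lam d) :=
    mul_le_mul_of_nonneg_right h4 (Real.exp_pos _).le
  have h6 : Real.exp (-a.P + 2 * a.gam - d * a.A * lam d) =
      Real.exp (2 * a.gam) * Real.exp (-a.P - d * a.A * lam d) := by
    rw [← Real.exp_add]
    congr 1
    ring
  have h7 : Real.exp (-(d * a.A * lam d) - a.P / 2) =
      Real.exp (a.P / 2) * Real.exp (-a.P - d * a.A * lam d) := by
    rw [← Real.exp_add]
    congr 1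
    ring
  refine (h1.trans (h2.trans (h3.trans h5))).trans ?_
  rw [h6, h7, ← mul_assoc]
  refine mul_le_mul_of_nonneg_right ?_ (Real.exp_pos _).le
  have h8 := a.hcnt
  have hB0 : 0 ≤ a.B ^ (4 * d) := le_trans (Nat.cast_nonneg _) h4
  have h9 : 0 ≤ a.B ^ (4 * d) * Real.exp (2 * a.gam) := mul_nonneg hB0 (Real.exp_pos _).le
  nlinarith

end BTS
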