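import Pool.Agent.BTS.S12
import Pool.Agent.BTS.M4

set_option autoImplicit false

open scoped Classical
open Finset

namespace BTS
open BTP

variable {d : ℕ} (a : Pa d)

theorem m5_p (a : Pa d) : 0 ≤ a.p ∧ a.p ≤ 1 := by
  have h1 := a.hp
  have h2 := a.hq
  have h3 : Real.exp (-a.q) ≤ 1 := by
    rw [Real.exp_le_one_iff]
    linarith
  have h4 := Real.exp_pos (-a.q)
  constructor <;> rw [h1] <;> linarith

/-- single sites do not occur -/
theorem m5_single {T S : Box d} {D : Finset (Site d)} (hS : Ne S) (hn : near T S)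
    (hY : Ys S < 1) (hnear : ∀ v ∈ D, ¬ near T (cc v)) : Pr D a.p (IG S) = 0 := by
  have hY0 : Ys S = 0 := by
    have := Ys_nonneg hS
    omega
  unfold Pr
  apply Finset.sum_eq_zero
  intro U hU
  exfalso
  obtain ⟨hU1, W, hWU, hG⟩ := Finset.mem_filter.1 hU
  obtain ⟨w, hw⟩ := hG.nonempty
  have h1 : cc w ≤ S := hG.le w hw
  have h2 : cc w = S := by
    by_contra h
    have h3 := Ys_lt h1 h
    rw [Ys_cc, hY0] at h3
    omega
  exact hnear w (Finset.mem_powerset.1 hU1 (hWU hw)) (by rw [h2]; exact hn)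

/-- the numerical bound -/
theorem m5_num (a : Pa d) : a.B ^ (2 * d) *
    (2 * Real.exp (-a.P + 2 * a.gam) + Real.exp (-(a.P / 2))) ≤ 1 / 2 * (1 / a.B ^ d) := by
  have hB1 : 1 ≤ a.B := by
    have h1 := a.hH1
    have h2 := a.hHB
    linarith
  have hB0 : 0 < a.B := by linarith
  have hg := a.hgam0
  obtain ⟨x, hx⟩ : ∃ x, x = Real.exp (-(a.P / 2)) := ⟨_, rfl⟩
  obtain ⟨y, hy⟩ : ∃ y, y = Real.exp (2 * a.gam) := ⟨_, rfl⟩
  have hx0 : 0 < x := by rw [hx]; exact Real.exp_pos _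
  have hy1 : 1 ≤ y := by
    rw [hy]
    exact Real.one_le_exp (by linarith)
  have hc := a.hcnt
  rw [← hy] at hc
  have hex : Real.exp (a.P / 2) * x = 1 := by
    rw [hx, ← Real.exp_add]
    simp
  have e1 : Real.exp (-a.P + 2 * a.gam) = x * x * y := by
    rw [hx, hy, ← Real.exp_add, ← Real.exp_add]
    congr 1
    ring
  obtain ⟨b, hb⟩ : ∃ b, b = a.B ^ d := ⟨_, rfl⟩
  have hb1 : 1 ≤ b := by rw [hb]; exact one_le_pow₀ hB1
  have hb0 : 0 < b := by linarith
  have e2 : a.B ^ (2 * d) = b ^ 2 := by rw [hb, ← pow_mul]; congr 1; ring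
  have e4 : a.B ^ (4 * d) = b ^ 4 := by rw [hb, ← pow_mul]; congr 1; ring
  rw [e4] at hc
  rw [e1, e2, ← hb, ← hx]
  have h1 : 16 * b ^ 4 * y * x ≤ 1 := by
    have := mul_le_mul_of_nonneg_right hc hx0.le
    rw [hex] at this
    exact this
  have h2 : x * y ≤ 1 := by
    have h3 : 1 ≤ 16 * b ^ 4 := by
      have := one_le_pow₀ hb1 (n := 4)
      linarith
    have h4 : x * y ≤ 16 * b ^ 4 * (x * y) := le_mul_of_one_le_left (by positivity) h3
    linarith
  have h5 : 16 * b ^ 4 * x ≤ 1 := by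
    have h6 : 16 * b ^ 4 * x ≤ 16 * b ^ 4 * x * y := le_mul_of_one_le_right (by positivity) hy1
    linarith
  have h7 : 2 * (x * x * y) + x ≤ 3 * x := by nlinarith
  have h8 : b ^ 2 * (2 * (x * x * y) + x) ≤ b ^ 2 * (3 * x) :=
    mul_le_mul_of_nonneg_left h7 (by positivity)
  refine h8.trans ?_
  rw [show (1 : ℝ) / 2 * (1 / b) = 1 / (2 * b) by field_simp, le_div_iff₀ (by positivity)]
  have h9 : b ^ 3 ≤ b ^ 4 := pow_le_pow_right₀ hb1 (by norm_num)
  have h10 : b ^ 3 * x ≤ b ^ 4 * x := mul_le_mul_of_nonneg_right h9 hx0.le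
  have h11 : b ^ 2 * (3 * x) * (2 * b) = 6 * (b ^ 3 * x) := by ring
  rw [h11]
  linarith [mul_nonneg (pow_nonneg hb0.le 4) hx0.le]

/-- [BTS-M5] the stuck state.
PROOF. `V_stuck` (the sites of `D` are not near `T`). Put `E = exp (Ps T - Ps Q)`. For `S` of the sum: if `Ys S < 1` then `S = cc v` and `IG S U` would give `v ∈ D`, near `T`: `Pr D (IG S) = 0`. For all `S` with `Pr D (IG S) ≠ 0`: `V (T ⊔ S) ≤ Fp (T ⊔ S) ≤ 2 exp(Ps (T ⊔ S) - Ps Q)` (`hV`, `Fp_le`, `InD_mono`; `¬ S ≤ T` because it grows).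
Small boxes `1 ≤ Ys S < h`: `≤ 2 E · (1/8) ∏ θ` (`sum_small`). Big boxes: first alternative of `hbig`: `≤ 2 exp(-P + 2γ) E` (`Ps_merge`); second alternative: `V ≤ 1` (`V_le_one`) and `exp(-L - P/2) ≤ exp(-P/2) E` (`Ps Q ≤ L`, `Ps T ≥ 0`). At most `B^{2d}` boxes (`card_sub`): `B^{2d}(2 e^{-P+2γ} + e^{-P/2}) ≤ (1/2) B^{-d} ≤ (1/2) ∏ θ` (`hcnt`, `prod_th_ge`, `B ≥ 1`).
Total `≤ (1/4 + 1/2) E ∏ θ ≤ Fp T Q D` (`Fp_ge`). -/
theorem stuck_bound {T Q : Box d} {D : Finset (Site d)} (hT : Ne T) (hTQ : T ≤ Q) (hne : T ≠ Q)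
    (hQ : a.InD Q) (hPQ : a.Ps Q ≤ d * a.A * lam d) (hD : D ⊆ sites Q)
    (hnear : ∀ v ∈ D, ¬ near T (cc v))
    (hbig : ∀ S ∈ sub Q, (a.h : ℤ) ≤ Ys S → Pr D a.p (IG S) ≤ Real.exp (-a.P - a.Ps S) ∨
      Pr D a.p (IG S) ≤ Real.exp (-(d * a.A * lam d) - a.P / 2))
    (hV : ∀ S ∈ sub Q, near T S → ¬ S ≤ T → Pr D a.p (IG S) ≠ 0 →
      a.V (T ⊔ S) Q D ≤ a.Fp (T ⊔ S) Q D) : a.V T Q D ≤ a.Fp T Q D := by
  have hTD : a.InD T := InD_mono a hT hTQ hQ
  obtain ⟨hp0, hp1⟩ := m5_p a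
  have hPr : ∀ S : Box d, 0 ≤ Pr D a.p (IG S) := fun S => Pr_nonneg hp0 hp1
  have hB1 : 1 ≤ a.B := by
    have h1 := a.hH1
    have h2 := a.hHB
    linarith
  have hB0 : 0 < a.B := by linarith
  obtain ⟨E, hE⟩ : ∃ E, E = Real.exp (a.Ps T - a.Ps Q) := ⟨_, rfl⟩
  have hE0 : 0 < E := by rw [hE]; exact Real.exp_pos _
  obtain ⟨θ, hθ⟩ : ∃ θ, θ = ∏ l : Dir d, a.th T l.1 := ⟨_, rfl⟩
  have hθ1 : 1 / a.B ^ d ≤ θ := by rw [hθ]; exact prod_th_ge a hTD
  have hθ0 : 0 < θ := lt_of_lt_of_le (by positivity) hθ1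
  obtain ⟨c, hc⟩ : ∃ c, c = 2 * Real.exp (-a.P + 2 * a.gam) + Real.exp (-(a.P / 2)) := ⟨_, rfl⟩
  have hc0 : 0 < c := by rw [hc]; positivity
  have hst := V_stuck a hT hTQ hne hD (fun v hv hn => absurd hn (hnear v hv))
  refine le_trans ?_ (Fp_ge a T Q D)
  rw [← hE, ← hθ]
  refine hst.trans ?_
  -- the bound for V
  have hVb : ∀ S ∈ sub Q, near T S → ¬ S ≤ T → Pr D a.p (IG S) * a.V (T ⊔ S) Q D ≤
      Pr D a.p (IG S) * (2 * Real.exp (a.Ps (T ⊔ S) - a.Ps Q)) := by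
    intro S hS hn hST
    by_cases h0 : Pr D a.p (IG S) = 0
    · rw [h0, zero_mul, zero_mul]
    · apply mul_le_mul_of_nonneg_left _ (hPr S)
      have hSQ := (mem_sub.1 hS).2
      have hN : Ne (T ⊔ S) := hT.sup_left
      exact (hV S hS hn hST h0).trans
        (Fp_le a hN (InD_mono a hN (sup_le hTQ hSQ) hQ) D)
  have hgrow : ∀ S : Box d, (∃ j j' : Dir d, j.1 ≠ j'.1 ∧ T j < S j ∧ T j' < S j') → ¬ S ≤ T := by
    rintro S ⟨j, j', _, h1, _⟩ h2
    exact absurd (h2 j) (not_le.2 h1)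
  -- split
  have hterm : ∀ S ∈ (sub Q).filter (fun S => near T S ∧
        ∃ j j' : Dir d, j.1 ≠ j'.1 ∧ T j < S j ∧ T j' < S j'),
      Pr D a.p (IG S) * a.V (T ⊔ S) Q D ≤
      (if (1 ≤ Ys S ∧ Ys S < a.h) then
        2 * E * (Pr D a.p (IG S) * Real.exp (a.Ps (T ⊔ S) - a.Ps T)) else 0) + E * c := by
    intro S hS
    obtain ⟨hS1, hS2, hS3⟩ := Finset.mem_filter.1 hS
    have hNS : Ne S := (mem_sub.1 hS1).1
    have hST := hgrow S hS3
    have hEc : 0 < E * c := by positivity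
    by_cases h1 : 1 ≤ Ys S
    · by_cases h2 : Ys S < a.h
      · rw [if_pos ⟨h1, h2⟩]
        have h3 := hVb S hS1 hS2 hST
        have h4 : Pr D a.p (IG S) * (2 * Real.exp (a.Ps (T ⊔ S) - a.Ps Q)) =
            2 * E * (Pr D a.p (IG S) * Real.exp (a.Ps (T ⊔ S) - a.Ps T)) := by
          rw [hE, show a.Ps (T ⊔ S) - a.Ps Q = (a.Ps T - a.Ps Q) + (a.Ps (T ⊔ S) - a.Ps T) by ring,
            Real.exp_add]
          ring
        linarith
      · rw [if_neg (fun h => h2 h.2), zero_add]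
        push Not at h2
        rcases hbig S hS1 h2 with h3 | h3
        · refine (hVb S hS1 hS2 hST).trans ?_
          have h4 := Ps_merge a hT hNS hS2
          calc Pr D a.p (IG S) * (2 * Real.exp (a.Ps (T ⊔ S) - a.Ps Q)) ≤
                Real.exp (-a.P - a.Ps S) * (2 * Real.exp (a.Ps (T ⊔ S) - a.Ps Q)) :=
                mul_le_mul_of_nonneg_right h3 (by positivity)
            _ = 2 * Real.exp (-a.P - a.Ps S + (a.Ps (T ⊔ S) - a.Ps Q)) := by
                rw [Real.exp_add]; ring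
            _ ≤ 2 * Real.exp ((a.Ps T - a.Ps Q) + (-a.P + 2 * a.gam)) := by
                apply mul_le_mul_of_nonneg_left _ (by norm_num)
                apply Real.exp_le_exp.2
                linarith
            _ = E * (2 * Real.exp (-a.P + 2 * a.gam)) := by
                rw [Real.exp_add, hE]; ring
            _ ≤ E * c := by
                apply mul_le_mul_of_nonneg_left _ hE0.le
                rw [hc]
                have := Real.exp_pos (-(a.P / 2))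
                linarith
        · have h4 := V_le_one a (T ⊔ S) Q D
          have h5 := Ps_nonneg a T
          calc Pr D a.p (IG S) * a.V (T ⊔ S) Q D ≤ Pr D a.p (IG S) * 1 :=
                mul_le_mul_of_nonneg_left h4 (hPr S)
            _ ≤ Real.exp (-(d * a.A * lam d) - a.P / 2) := by rw [mul_one]; exact h3
            _ ≤ Real.exp ((a.Ps T - a.Ps Q) + (-(a.P / 2))) := by
                apply Real.exp_le_exp.2
                linarith
            _ = E * Real.exp (-(a.P / 2)) := by rw [Real.exp_add, hE]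
            _ ≤ E * c := by
                apply mul_le_mul_of_nonneg_left _ hE0.le
                rw [hc]
                have := Real.exp_pos (-a.P + 2 * a.gam)
                linarith
    · rw [if_neg (fun h => h1 h.1), zero_add]
      rw [m5_single a hNS hS2 (by omega) hnear, zero_mul]
      exact hEc.le
  refine (Finset.sum_le_sum hterm).trans ?_
  rw [Finset.sum_add_distrib, ← Finset.sum_filter, Finset.sum_const, nsmul_eq_mul,
    ← Finset.mul_sum, Finset.filter_filter]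
  have hsm := sum_small a (Q := Q) hT hTD D
  have hsum : ∑ S ∈ (sub Q).filter (fun S => (near T S ∧
        ∃ j j' : Dir d, j.1 ≠ j'.1 ∧ T j < S j ∧ T j' < S j') ∧ 1 ≤ Ys S ∧ Ys S < a.h),
      Pr D a.p (IG S) * Real.exp (a.Ps (T ⊔ S) - a.Ps T) ≤ 1 / 8 * θ := by
    rw [hθ]
    refine le_trans (le_of_eq ?_) hsm
    apply Finset.sum_congr _ (fun _ _ => rfl)
    apply Finset.filter_congr
    intro S _
    tauto
  have hcard : (((sub Q).filter (fun S => near T S ∧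
        ∃ j j' : Dir d, j.1 ≠ j'.1 ∧ T j < S j ∧ T j' < S j')).card : ℝ) ≤ a.B ^ (2 * d) := by
    refine le_trans ?_ (card_sub (hT.mono hTQ) hQ.2)
    exact_mod_cast Finset.card_filter_le _ _
  have hnum := m5_num a
  rw [← hc] at hnum
  have h1 : 2 * E * ∑ S ∈ (sub Q).filter (fun S => (near T S ∧
        ∃ j j' : Dir d, j.1 ≠ j'.1 ∧ T j < S j ∧ T j' < S j') ∧ 1 ≤ Ys S ∧ Ys S < a.h),
      Pr D a.p (IG S) * Real.exp (a.Ps (T ⊔ S) - a.Ps T) ≤ 2 * E * (1 / 8 * θ) :=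
    mul_le_mul_of_nonneg_left hsum (by positivity)
  have h2 : (((sub Q).filter (fun S => near T S ∧
        ∃ j j' : Dir d, j.1 ≠ j'.1 ∧ T j < S j ∧ T j' < S j')).card : ℝ) * (E * c) ≤
      E * (1 / 2 * θ) := by
    calc (((sub Q).filter (fun S => near T S ∧
        ∃ j j' : Dir d, j.1 ≠ j'.1 ∧ T j < S j ∧ T j' < S j')).card : ℝ) * (E * c) ≤
          a.B ^ (2 * d) * (E * c) := mul_le_mul_of_nonneg_right hcard (by positivity)
      _ = E * (a.B ^ (2 * d) * c) := by ring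
      _ ≤ E * (1 / 2 * (1 / a.B ^ d)) := mul_le_mul_of_nonneg_left hnum hE0.le
      _ ≤ E * (1 / 2 * θ) := by
          apply mul_le_mul_of_nonneg_left _ hE0.le
          linarith
  have h3 : 0 < E * θ := by positivity
  have h4 : 2 * E * (1 / 8 * θ) = 1 / 4 * (E * θ) := by ring
  have h5 : E * (1 / 2 * θ) = 1 / 2 * (E * θ) := by ring
  linarith

end BTS
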