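import Pool.Agent.BTS.M5
import Pool.Agent.BTS.J1

set_option autoImplicit false

open scoped Classical
open Finset

namespace BTS
open BTP

variable {d : ℕ} (a : Pa d)

/-- [BTS-M6a] the start of the growth.
PROOF. `IG_start`; each term: `base` (`Ys ≤ 2h ≤ 2h+2`) and `hV`, `Fp_le` (`InD_mono`): `≤ exp(-2P - Ps T) · 2 exp(Ps T - Ps Q)`; at most `B^{2d}` boxes (`card_sub`), `2 B^{2d} ≤ e^P` (`hcnt`). -/
theorem start_bound {Q : Box d} (hQ : Ne Q) (hD : a.InD Q) (hY : (a.h : ℤ) ≤ Ys Q)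
    {D : Finset (Site d)}
    (hV : ∀ T : Box d, Ne T → T ≤ Q → (a.h : ℤ) ≤ Ys T → (∃ v ∈ D, cc v ≤ T) →
      a.V T Q D ≤ a.Fp T Q D) :
    Pr D a.p (IG Q) ≤ Real.exp (-a.P - a.Ps Q) := by
  have hq := a.hq
  have hP := a.hP
  have hp0 : 0 ≤ a.p := by
    rw [a.hp, sub_nonneg]
    exact Real.exp_le_one_iff.2 (by linarith)
  have hp1 : a.p ≤ 1 := by linarith [a.hp2]
  have hB1 : 1 ≤ a.B := by linarith [a.hHB, a.hH1]
  refine (IG_start a hY).trans ?_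
  have h1 : ∀ T ∈ (sub Q).filter (fun T => (a.h : ℤ) ≤ Ys T ∧ Ys T ≤ 2 * a.h ∧
      ∃ v ∈ D, cc v ≤ T), Pr D a.p (IG T) * a.V T Q D ≤ 2 * Real.exp (-(2 * a.P) - a.Ps Q) := by
    intro T hT
    rw [Finset.mem_filter] at hT
    obtain ⟨hT0, hT1, hT2, hT3⟩ := hT
    obtain ⟨hTne, hTQ⟩ := mem_sub.1 hT0
    have h2 := base a D hTne hT1 (by omega)
    have h3 := (hV T hTne hTQ hT1 hT3).trans (Fp_le a hTne (InD_mono a hTne hTQ hD) D)
    have h4 : 0 ≤ a.V T Q D := Pr_nonneg hp0 hp1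
    calc Pr D a.p (IG T) * a.V T Q D
        ≤ Real.exp (-(2 * a.P) - a.Ps T) * (2 * Real.exp (a.Ps T - a.Ps Q)) :=
          mul_le_mul h2 h3 h4 (Real.exp_nonneg _)
      _ = 2 * (Real.exp (-(2 * a.P) - a.Ps T) * Real.exp (a.Ps T - a.Ps Q)) := by ring
      _ = 2 * Real.exp (-(2 * a.P) - a.Ps Q) := by
          rw [← Real.exp_add]
          congr 2
          ring
  have h5 : (((sub Q).filter (fun T => (a.h : ℤ) ≤ Ys T ∧ Ys T ≤ 2 * a.h ∧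
      ∃ v ∈ D, cc v ≤ T)).card : ℝ) ≤ a.B ^ (2 * d) := by
    refine le_trans ?_ (card_sub hQ hD.2)
    exact_mod_cast Finset.card_filter_le _ _
  have h6 : 2 * a.B ^ (2 * d) ≤ Real.exp a.P := by
    have h7 : a.B ^ (2 * d) ≤ a.B ^ (4 * d) := pow_le_pow_right₀ hB1 (by omega)
    have h8 : 1 ≤ Real.exp (2 * a.gam) := Real.one_le_exp (by linarith [a.hgam0])
    have h9 : 0 < a.B ^ (4 * d) := by positivity
    have h10 : 2 * a.B ^ (2 * d) ≤ 16 * a.B ^ (4 * d) * Real.exp (2 * a.gam) := by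
      nlinarith
    refine (h10.trans a.hcnt).trans (Real.exp_le_exp.2 (by linarith))
  calc ∑ T ∈ (sub Q).filter (fun T => (a.h : ℤ) ≤ Ys T ∧ Ys T ≤ 2 * a.h ∧
        ∃ v ∈ D, cc v ≤ T), Pr D a.p (IG T) * a.V T Q D
      ≤ ∑ _T ∈ (sub Q).filter (fun T => (a.h : ℤ) ≤ Ys T ∧ Ys T ≤ 2 * a.h ∧
        ∃ v ∈ D, cc v ≤ T), 2 * Real.exp (-(2 * a.P) - a.Ps Q) := Finset.sum_le_sum h1
    _ = (((sub Q).filter (fun T => (a.h : ℤ) ≤ Ys T ∧ Ys T ≤ 2 * a.h ∧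
        ∃ v ∈ D, cc v ≤ T)).card : ℝ) * (2 * Real.exp (-(2 * a.P) - a.Ps Q)) := by
        rw [Finset.sum_const, nsmul_eq_mul]
    _ ≤ a.B ^ (2 * d) * (2 * Real.exp (-(2 * a.P) - a.Ps Q)) :=
        mul_le_mul_of_nonneg_right h5 (by positivity)
    _ = 2 * a.B ^ (2 * d) * Real.exp (-(2 * a.P) - a.Ps Q) := by ring
    _ ≤ Real.exp a.P * Real.exp (-(2 * a.P) - a.Ps Q) :=
        mul_le_mul_of_nonneg_right h6 (Real.exp_nonneg _)
    _ = Real.exp (-a.P - a.Ps Q) := by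
        rw [← Real.exp_add]
        congr 1
        ring

end BTS
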