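import Pool.Agent.BTS.M6a
import Pool.Agent.BTS.M5
import Pool.Agent.BTS.J1

set_option autoImplicit false

open scoped Classical
open Finset

namespace BTS
open BTP

variable {d : ℕ} (a : Pa d)

theorem m6b_p (a : Pa d) : 0 ≤ a.p ∧ a.p ≤ 1 := by
  have h1 := a.hp
  have h2 := a.hq
  have h3 : Real.exp (-a.q) ≤ 1 := Real.exp_le_one_iff.2 (by linarith)
  have h4 := Real.exp_pos (-a.q)
  constructor <;> linarith

theorem m6b_ne {T S : Box d} (hT : Ne T) : Ne (T ⊔ S) := fun i =>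
  le_trans (hT i) (add_le_add ((le_sup_left : T ≤ T ⊔ S) (i, true))
      ((le_sup_left : T ≤ T ⊔ S) (i, false)))

theorem m6b_Pr {D : Finset (Site d)} {p : ℝ} {S : Box d} (h : Pr D p (IG S) ≠ 0) :
    ∃ v ∈ D, cc v ≤ S := by
  by_contra hcon
  apply h
  unfold Pr
  rw [Finset.filter_eq_empty_iff.2, Finset.sum_empty]
  rintro U hU ⟨W, hW, hg⟩
  obtain ⟨v, hv⟩ := hg.nonempty
  exact hcon ⟨v, Finset.mem_powerset.1 hU (hW hv), hg.le v hv⟩

theorem m6b_card {D : Finset (Site d)} {T : Box d} (h : ∃ v ∈ D, cc v ≤ T) :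
    (D \ sites T).card < D.card := by
  obtain ⟨v, hv, hvT⟩ := h
  refine Finset.card_lt_card ?_
  rw [Finset.ssubset_iff_subset_ne]
  refine ⟨Finset.sdiff_subset, fun he => ?_⟩
  rw [← he, Finset.mem_sdiff] at hv
  exact hv.2 (mem_sites.2 hvT)

/-- [BTS-M6b] the main induction.
PROOF. Strong induction on `N = (D \ sites T).card`, for all `T, D`. Let `D' = D \ sites T`; `V T Q D ≤ V T Q D'` (`V_sdiff`), `Fp T Q D' = Fp T Q D` (`Fp_sdiff`), so show `V T Q D' ≤ Fp T Q D'`. `T = Q`: `V_le_one`, `Fp_self`. `Ps T ≥ Ps Q + d log B`: `one_le_Fp`, `V_le_one`. Otherwise `Ok a T Q` (`hLm`).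
If there are `v ∈ D'`, `j` with `inL T j 1 v`: `V_reveal`, `reveal_L1` and the induction hypothesis for `(T ⊔ cc v, D'.erase v)` and `(T, D'.erase v)` (`(D'.erase v) \ sites _` has fewer elements than `D'`; `Ne`, `≤ Q` since `v ∈ sites Q`, `h ≤ Ys` by `Ys_mono`; `0 ≤ p ≤ 1`). Otherwise all `nL T D' j 1 = 0`; if there are `v ∈ D'`, `i, j` with `inC T i j v`: `reveal_C`; if `inL T j 2 v`: `reveal_L2`.
Otherwise (`near_cases`) no `v ∈ D'` is near `T`: `stuck_bound`. `hV`: `Pr D' (IG S) ≠ 0` gives a nonempty `W ⊆ D'` with `Gen S W`, so some `v ∈ D'` is in `S`, and `(D' \ sites (T ⊔ S)).card < D'.card`. `hbig`: for `S ≠ Q`: `IH` if `Ps S ≤ L`, otherwise `exit_bound` (with `IH` for the boxes `≤ S`). For `S = Q`: `start_bound` for `D'`, where `hV` is the induction hypothesis: `v ∈ D'`, `cc v ≤ T'` imply `(D' \ sites T').card < D'.card`. -/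
theorem V_le {Q : Box d} (hQ : Ne Q) (hD : a.InD Q) (hPQ : a.Ps Q ≤ d * a.A * lam d)
    (IH : ∀ R : Box d, Ne R → R ≤ Q → R ≠ Q → (a.h : ℤ) ≤ Ys R → a.Ps R ≤ d * a.A * lam d →
      ∀ V : Finset (Site d), Pr V a.p (IG R) ≤ Real.exp (-a.P - a.Ps R)) :
    ∀ (N : ℕ) (D : Finset (Site d)) (T : Box d), (D \ sites T).card ≤ N → D ⊆ sites Q → Ne T →
      T ≤ Q → (a.h : ℤ) ≤ Ys T → a.V T Q D ≤ a.Fp T Q D := by
  intro N
  induction N using Nat.strong_induction_on with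
  | _ N ih =>
  intro D T hN hDQ hT hTQ hY
  obtain ⟨hp0, hp1⟩ := m6b_p a
  set D' : Finset (Site d) := D \ sites T with hD'
  have hD'Q : D' ⊆ sites Q := Finset.sdiff_subset.trans hDQ
  have ih' : ∀ (D2 : Finset (Site d)) (T2 : Box d), (D2 \ sites T2).card < D'.card → D2 ⊆ sites Q →
      Ne T2 → T2 ≤ Q → (a.h : ℤ) ≤ Ys T2 → a.V T2 Q D2 ≤ a.Fp T2 Q D2 :=
    fun D2 T2 h1 h2 h3 h4 h5 => ih _ (lt_of_lt_of_le h1 hN) D2 T2 le_rfl h2 h3 h4 h5
  suffices hmain : a.V T Q D' ≤ a.Fp T Q D' by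
    refine (V_sdiff a).trans (hmain.trans ?_)
    rw [hD', Fp_sdiff]
  by_cases hTe : T = Q
  · rw [hTe, Fp_self]
    exact V_le_one a _ _ _
  have hInT : a.InD T := InD_mono a hT hTQ hD
  by_cases hexp : a.Ps Q + d * Real.log a.B ≤ a.Ps T
  · exact (V_le_one a _ _ _).trans (one_le_Fp a hInT D' hexp)
  have hok : Ok a T Q := by
    refine ⟨hT, hTQ, hD, ?_⟩
    have h1 := a.hLm
    have h2 := a.hgam0
    have h3 : (0 : ℝ) ≤ (2 * (a.h : ℝ) + d + 3) * a.gam := by positivity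
    push Not at hexp
    nlinarith
  have hnT : ∀ v ∈ D', ¬ cc v ≤ T := by
    intro v hv hle
    rw [hD', Finset.mem_sdiff] at hv
    exact hv.2 (mem_sites.2 hle)
  have hle : ∀ v ∈ D', cc v ≤ Q := fun v hv => mem_sites.1 (hD'Q hv)
  -- revealing one site
  have hrev : ∀ v ∈ D', a.p * a.Fp (T ⊔ cc v) Q (D'.erase v) + (1 - a.p) * a.Fp T Q (D'.erase v) ≤
      a.Fp T Q D' → a.V T Q D' ≤ a.Fp T Q D' := by
    intro v hv h
    have hc : (D'.erase v).card < D'.card := Finset.card_erase_lt_of_mem hv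
    have hsub : D'.erase v ⊆ sites Q := (Finset.erase_subset v D').trans hD'Q
    have h1 : a.V (T ⊔ cc v) Q (D'.erase v) ≤ a.Fp (T ⊔ cc v) Q (D'.erase v) :=
      ih' _ _ (lt_of_le_of_lt (Finset.card_le_card Finset.sdiff_subset) hc) hsub (m6b_ne hT)
        (sup_le hTQ (hle v hv)) (hY.trans (Ys_mono le_sup_left))
    have h2 : a.V T Q (D'.erase v) ≤ a.Fp T Q (D'.erase v) :=
      ih' _ _ (lt_of_le_of_lt (Finset.card_le_card Finset.sdiff_subset) hc) hsub hT hTQ hY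
    refine (V_reveal a hv).trans (le_trans ?_ h)
    exact add_le_add (mul_le_mul_of_nonneg_left h1 hp0)
      (mul_le_mul_of_nonneg_left h2 (by linarith))
  by_cases hL1 : ∃ v ∈ D', ∃ j, inL T j 1 v
  · obtain ⟨v, hv, j, hj⟩ := hL1
    exact hrev v hv (reveal_L1 a hok hv hj (hle v hv))
  by_cases hC : ∃ v ∈ D', ∃ i j : Dir d, i.1 ≠ j.1 ∧ inC T i j v
  · obtain ⟨v, hv, i, j, hij, hc⟩ := hC
    exact hrev v hv (reveal_C a hok hij hv hc (hle v hv))
  by_cases hL2 : ∃ v ∈ D', ∃ j, inL T j 2 v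
  · obtain ⟨v, hv, j, hj⟩ := hL2
    refine hrev v hv (reveal_L2 a hok hv hj (hle v hv) ?_)
    unfold nL
    rw [Finset.card_eq_zero, Finset.filter_eq_empty_iff]
    intro w hw hw1
    exact hL1 ⟨w, hw, j, hw1⟩
  refine stuck_bound a hT hTQ hTe hD hPQ hD'Q ?_ ?_ ?_
  · intro v hv hn
    rcases near_cases hT hn (hnT v hv) with ⟨j, h⟩ | ⟨j, h⟩ | ⟨i, j, hij, h⟩
    · exact hL1 ⟨v, hv, j, h⟩
    · exact hL2 ⟨v, hv, j, h⟩
    · exact hC ⟨v, hv, i, j, hij, h⟩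
  · intro S hS hYS
    obtain ⟨hSn, hSQ⟩ := mem_sub.1 hS
    by_cases hSe : S = Q
    · left
      rw [hSe]
      refine start_bound a hQ hD (by rw [← hSe]; exact hYS) ?_
      intro T2 hT2 hT2Q hYT2 hex
      exact ih' _ _ (m6b_card hex) hD'Q hT2 hT2Q hYT2
    · by_cases hPS : a.Ps S ≤ d * a.A * lam d
      · left
        exact IH S hSn hSQ hSe hYS hPS D'
      · right
        push Not at hPS
        refine exit_bound a hSn (InD_mono a hSn hSQ hD) hPS ?_ D'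
        intro R hR hRS _ hYR hPR V
        refine IH R hR (hRS.trans hSQ) ?_ hYR hPR V
        rintro rfl
        exact hSe (le_antisymm hSQ hRS)
  · intro S hS _ _ hPr
    obtain ⟨_, hSQ⟩ := mem_sub.1 hS
    obtain ⟨v, hv, hvS⟩ := m6b_Pr hPr
    exact ih' _ _ (m6b_card ⟨v, hv, hvS.trans le_sup_right⟩) hD'Q (m6b_ne hT) (sup_le hTQ hSQ)
      (hY.trans (Ys_mono le_sup_left))

end BTS
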