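import Pool.Agent.BTS.M6b
import Pool.Agent.BTS.M5
import Pool.Agent.BTS.J1

set_option autoImplicit false

open scoped Classical
open Finset

namespace BTS
open BTP

variable {d : ℕ} (a : Pa d)

/-- [BTS-M6c] the main bound. PROOF. Strong induction on `(Ys Q).toNat`: `R ≤ Q`, `R ≠ Q` imply `Ys R < Ys Q` (`Ys_lt`) and `InD R`. `Pr_IG_sites`, `start_bound` with `D = sites Q`, `V_le`. -/
theorem main_bound {Q : Box d} (hQ : Ne Q) (hD : a.InD Q) (hY : (a.h : ℤ) ≤ Ys Q)
    (hPQ : a.Ps Q ≤ d * a.A * lam d) (V : Finset (Site d)) :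
    Pr V a.p (IG Q) ≤ Real.exp (-a.P - a.Ps Q) := by
  have main : ∀ (N : ℕ) (Q : Box d), (Ys Q).toNat = N → Ne Q → a.InD Q → (a.h : ℤ) ≤ Ys Q →
      a.Ps Q ≤ d * a.A * lam d → ∀ V : Finset (Site d),
      Pr V a.p (IG Q) ≤ Real.exp (-a.P - a.Ps Q) := by
    intro N
    induction N using Nat.strong_induction_on with
    | _ N ih =>
      intro Q hN hQ hD hY hPQ V
      have IH : ∀ R : Box d, Ne R → R ≤ Q → R ≠ Q → (a.h : ℤ) ≤ Ys R →
          a.Ps R ≤ d * a.A * lam d →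
          ∀ V : Finset (Site d), Pr V a.p (IG R) ≤ Real.exp (-a.P - a.Ps R) := by
        intro R hR hRQ hne hYR hPR V
        have h1 : Ys R < Ys Q := Ys_lt hRQ hne
        have h2 : 0 ≤ Ys R := Ys_nonneg hR
        exact ih (Ys R).toNat (by omega) R rfl hR (InD_mono a hR hRQ hD) hYR hPR V
      have hV := V_le a hQ hD hPQ IH
      refine (Pr_IG_sites (p_nonneg a) (p_le_one a) V Q).trans ?_
      refine start_bound a hQ hD hY ?_
      intro T hT hTQ hYT _
      exact hV _ (sites Q) T le_rfl (Finset.Subset.refl _) hT hTQ hYT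
  exact main _ Q rfl hQ hD hY hPQ V

end BTS
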