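import Pool.Agent.BTS.Q1
import Pool.Agent.BTS.E2

set_option autoImplicit false

open scoped Classical
open Finset

namespace BTS
open BTP

variable {d : ℕ} (a : Pa d)

theorem q2a_p0 : 0 ≤ a.p := by
  rw [a.hp]
  have h1 : Real.exp (-a.q) ≤ 1 := by
    rw [Real.exp_le_one_iff]
    linarith [a.hq]
  linarith

theorem q2a_p1 : a.p ≤ 1 := by
  have := a.hp2
  linarith

/-- [BTS-Q2a] PROOF. `0 ≤ p` and `p ≤ 1` from `hp`, `hq`; `Pr_le_one`, `Pr_nonneg`. -/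
theorem V_le_one (T Q : Box d) (D : Finset (Site d)) : a.V T Q D ≤ 1 := by
  unfold Pa.V
  exact Pr_le_one (q2a_p0 a) (q2a_p1 a)

theorem V_nonneg (T Q : Box d) (D : Finset (Site d)) : 0 ≤ a.V T Q D := by
  unfold Pa.V
  exact Pr_nonneg (q2a_p0 a) (q2a_p1 a)

/-- [BTS-Q2a] revealing one site. PROOF. `Pr_erase`, `Cl_sup`, `Pr_mono`. -/
theorem V_reveal {T Q : Box d} {D : Finset (Site d)} {v : Site d} (hv : v ∈ D) :
    a.V T Q D ≤ a.p * a.V (T ⊔ cc v) Q (D.erase v) + (1 - a.p) * a.V T Q (D.erase v) := by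
  unfold Pa.V
  rw [q1_Pr_erase' hv]
  have h1 : Pr (D.erase v) a.p (fun U => Cl T Q (insert v U)) ≤
      Pr (D.erase v) a.p (Cl (T ⊔ cc v) Q) :=
    Pr_mono (q2a_p0 a) (q2a_p1 a) fun U _ h => Cl_sup h
  have h2 := mul_le_mul_of_nonneg_left h1 (q2a_p0 a)
  linarith

/-- [BTS-Q2a] PROOF. `Cl_sdiff`, `Inc_Cl`: `Cl T Q U ↔ Cl T Q (U ∩ (D \ sites T))` for `U ⊆ D`, `Pr_inter`. -/
theorem V_sdiff {T Q : Box d} {D : Finset (Site d)} : a.V T Q D ≤ a.V T Q (D \ sites T) := by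
  unfold Pa.V
  have h1 : Pr D a.p (Cl T Q) = Pr (D ∩ (D \ sites T)) a.p (Cl T Q) := by
    refine q1_Pr_inter' D (D \ sites T) (Cl T Q) (fun U hU => ⟨fun h => ?_, fun h => ?_⟩)
    · refine Inc_Cl T Q _ _ ?_ (Cl_sdiff h)
      intro w hw
      rw [Finset.mem_sdiff] at hw
      exact Finset.mem_inter.mpr ⟨hw.1, Finset.mem_sdiff.mpr ⟨hU hw.1, hw.2⟩⟩
    · exact Inc_Cl T Q _ _ Finset.inter_subset_left h
  rw [h1, Finset.inter_eq_right.mpr Finset.sdiff_subset]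

end BTS
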