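import Pool.Agent.BTS.Q2a
import Pool.Agent.BTS.Q1
import Pool.Agent.BTS.E2

set_option autoImplicit false

open scoped Classical
open Finset

namespace BTS
open BTP

variable {d : ℕ} (a : Pa d)

theorem q2b_p0 (a : Pa d) : 0 ≤ a.p := by
  rw [a.hp]
  have : Real.exp (-a.q) ≤ 1 := Real.exp_le_one_iff.2 (by linarith [a.hq])
  linarith

/-- [BTS-Q2b] the stuck state.
PROOF. `stuck` for each `U ⊆ D` with `Cl T Q U`: `S ≤ Q` by `Gen.le_of` (`D ⊆ sites Q`, `mem_sites`), `S ∈ sub Q` (`mem_sub`, `Gen.ne`), and `dis (IG S) (Cl (T ⊔ S) Q) U` with witnesses `W'` and `U \ W'`. Union bound (`Pr_mono`, `Pr_union`), `bk` (`Inc_IG`, `Inc_Cl`, `hp2`). -/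
theorem V_stuck {T Q : Box d} {D : Finset (Site d)} (hT : Ne T) (hTQ : T ≤ Q) (hne : T ≠ Q)
    (hD : D ⊆ sites Q) (hnear : ∀ v ∈ D, near T (cc v) → cc v ≤ T) :
    a.V T Q D ≤ ∑ S ∈ (sub Q).filter (fun S => near T S ∧
        ∃ j j' : Dir d, j.1 ≠ j'.1 ∧ T j < S j ∧ T j' < S j'),
      Pr D a.p (IG S) * a.V (T ⊔ S) Q D := by
  have hp0 := q2b_p0 a
  have hp1 : a.p ≤ 1 := by linarith [a.hp2]
  have h1 : a.V T Q D ≤ Pr D a.p (fun U => ∃ S ∈ (sub Q).filter (fun S => near T S ∧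
        ∃ j j' : Dir d, j.1 ≠ j'.1 ∧ T j < S j ∧ T j' < S j'),
        dis (IG S) (Cl (T ⊔ S) Q) U) := by
    unfold Pa.V
    refine Pr_mono hp0 hp1 ?_
    intro U hU hC
    obtain ⟨S, W', hG, hW, hn, hj, hC'⟩ := stuck hT hTQ hne hC (fun v hv => hnear v (hU hv))
    refine ⟨S, Finset.mem_filter.2 ⟨mem_sub.2 ⟨hG.ne, hG.le_of ?_⟩, hn, hj⟩, ?_⟩
    · intro v hv
      exact mem_sites.1 (hD (hU (hW hv)))
    · exact ⟨W', U \ W', Finset.disjoint_sdiff, hW, Finset.sdiff_subset,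
        ⟨W', Finset.Subset.refl _, hG⟩, hC'⟩
  refine h1.trans ((Pr_union hp0 hp1 _ _).trans ?_)
  refine Finset.sum_le_sum ?_
  intro S _
  exact bk hp0 a.hp2 D _ _ (Inc_IG S) (Inc_Cl _ _)

/-- [BTS-Q2b] the start.
PROOF. For `U ⊆ D` with `IG Q U`: `Gen Q W`, `W ⊆ U`; `first_box` gives `T`, `W0`; `dis (IG T) (Cl T Q) U` with witnesses `W0`, `W \ W0` (`Cl_of_Gen`); `W0` is not empty (`Gen.nonempty`), so some `v ∈ D` has `cc v ≤ T`. Union bound, `bk`. -/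
theorem IG_start {Q : Box d} {D : Finset (Site d)} (hY : (a.h : ℤ) ≤ Ys Q) :
    Pr D a.p (IG Q) ≤ ∑ T ∈ (sub Q).filter (fun T => (a.h : ℤ) ≤ Ys T ∧ Ys T ≤ 2 * a.h ∧
        ∃ v ∈ D, cc v ≤ T), Pr D a.p (IG T) * a.V T Q D := by
  have hp0 := q2b_p0 a
  have hp1 : a.p ≤ 1 := by linarith [a.hp2]
  have h1 : Pr D a.p (IG Q) ≤ Pr D a.p (fun U => ∃ T ∈ (sub Q).filter
        (fun T => (a.h : ℤ) ≤ Ys T ∧ Ys T ≤ 2 * a.h ∧ ∃ v ∈ D, cc v ≤ T),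
        dis (IG T) (Cl T Q) U) := by
    refine Pr_mono hp0 hp1 ?_
    rintro U hU ⟨W, hW, hG⟩
    obtain ⟨T, W0, hT, hW0, hTQ, hT1, hT2⟩ := first_box a.hh hG hY
    obtain ⟨v, hv⟩ := hT.nonempty
    refine ⟨T, Finset.mem_filter.2 ⟨mem_sub.2 ⟨hT.ne, hTQ⟩, hT1, hT2, v,
      hU (hW (hW0 hv)), hT.le v hv⟩, ?_⟩
    exact ⟨W0, W \ W0, Finset.disjoint_sdiff, hW0.trans hW, Finset.sdiff_subset.trans hW,
      ⟨W0, Finset.Subset.refl _, hT⟩, Cl_of_Gen hG hT⟩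
  refine h1.trans ((Pr_union hp0 hp1 _ _).trans ?_)
  refine Finset.sum_le_sum ?_
  intro T _
  exact bk hp0 a.hp2 D _ _ (Inc_IG T) (Inc_Cl _ _)

end BTS
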