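import Pool.Agent.BTS.R4a
import Pool.Agent.BTS.V11
import Pool.Agent.BTS.G7

set_option autoImplicit false

open scoped Classical
open Finset

namespace BTS
open BTP

variable {d : ℕ} (a : Pa d)

/-! ## The parameters of a box and their variation -/

theorem r4b_X_ge (T : Box d) (i : Fin d) : 100 ≤ a.X T i := le_trans a.hH1 (X_ge a T i)

theorem r4b_th_mono {T T' : Box d} {l l' : Fin d}
    (h : a.ka * Real.sqrt ((1 + a.z T l) / a.Xm T) * Real.exp (a.z T l) ≤
      a.ka * Real.sqrt ((1 + a.z T' l') / a.Xm T') * Real.exp (a.z T' l')) :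
    a.th T l ≤ a.th T' l' := by
  unfold Pa.th
  exact min_le_min_left _ h

/-- [BTS-R4b] PROOF. `θ = min (1/64) y`; `y' ≤ y exp((1+z_l)/X₀)`: `Xm' ≥ Xm`, `√((1+z')/(1+z)) ≤ exp((z'-z)/2)`, `z' - z ≤ z_l/X₀`: `√(1+z')/√(1+z) ≤ √(1 + z/((1+z)X₀)) ≤ exp(1/(2X₀))`. -/
theorem th_up_le {T : Box d} (hT : Ne T) (j : Dir d) (l : Fin d) :
    a.th (up T j) l ≤ a.th T l * Real.exp ((1 + a.z T l) / a.X T j.1) := by
  have hX := X_pos a T j.1
  have hz := z_pos a T l
  have hz' := z_pos a (up T j) l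
  have hm := r4a_Xm_pos a T
  have hka := r4a_ka_pos a
  have hu : 0 < 1 / a.X T j.1 := by positivity
  have hE : 1 ≤ Real.exp ((1 + a.z T l) / a.X T j.1) := Real.one_le_exp (by positivity)
  have hzle := z_up_le a hT j l
  have key : a.ka * Real.sqrt ((1 + a.z (up T j) l) / a.Xm (up T j)) * Real.exp (a.z (up T j) l) ≤
      a.ka * Real.sqrt ((1 + a.z T l) / a.Xm T) * Real.exp (a.z T l) *
        Real.exp ((1 + a.z T l) / a.X T j.1) := by
    have h1 : (1 + a.z (up T j) l) / a.Xm (up T j) ≤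
        (1 + a.z T l) / a.Xm T * Real.exp (1 / a.X T j.1) ^ 2 := by
      have h2 : (1 + a.z (up T j) l) / a.Xm (up T j) ≤ (1 + a.z (up T j) l) / a.Xm T :=
        div_le_div_of_nonneg_left (by linarith) hm (Xm_le_up a hT j)
      have h3 : 1 + a.z (up T j) l ≤ (1 + a.z T l) * (1 + 1 / a.X T j.1) := by nlinarith
      have h4 : 1 + 1 / a.X T j.1 ≤ Real.exp (1 / a.X T j.1) := by
        have := Real.add_one_le_exp (1 / a.X T j.1); linarith
      have h5 : Real.exp (1 / a.X T j.1) ≤ Real.exp (1 / a.X T j.1) ^ 2 := by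
        have : 1 ≤ Real.exp (1 / a.X T j.1) := Real.one_le_exp hu.le
        nlinarith
      have h6 : 1 + a.z (up T j) l ≤ (1 + a.z T l) * Real.exp (1 / a.X T j.1) ^ 2 :=
        le_trans h3 (mul_le_mul_of_nonneg_left (le_trans h4 h5) (by linarith))
      calc (1 + a.z (up T j) l) / a.Xm (up T j) ≤ (1 + a.z (up T j) l) / a.Xm T := h2
        _ ≤ ((1 + a.z T l) * Real.exp (1 / a.X T j.1) ^ 2) / a.Xm T :=
          div_le_div_of_nonneg_right h6 hm.le
        _ = _ := by ring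
    have h7 : Real.sqrt ((1 + a.z (up T j) l) / a.Xm (up T j)) ≤
        Real.sqrt ((1 + a.z T l) / a.Xm T) * Real.exp (1 / a.X T j.1) := by
      refine le_trans (Real.sqrt_le_sqrt h1) ?_
      rw [Real.sqrt_mul (by positivity), Real.sqrt_sq (Real.exp_pos _).le]
    have h8 : Real.exp (a.z (up T j) l) ≤ Real.exp (a.z T l) * Real.exp (a.z T l / a.X T j.1) := by
      rw [← Real.exp_add]
      apply Real.exp_le_exp.2
      calc a.z (up T j) l ≤ a.z T l * (1 + 1 / a.X T j.1) := hzle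
        _ = _ := by ring
    have h9 : Real.exp ((1 + a.z T l) / a.X T j.1) =
        Real.exp (1 / a.X T j.1) * Real.exp (a.z T l / a.X T j.1) := by
      rw [← Real.exp_add]
      congr 1
      ring
    rw [h9]
    calc a.ka * Real.sqrt ((1 + a.z (up T j) l) / a.Xm (up T j)) * Real.exp (a.z (up T j) l)
        ≤ a.ka * (Real.sqrt ((1 + a.z T l) / a.Xm T) * Real.exp (1 / a.X T j.1)) *
          (Real.exp (a.z T l) * Real.exp (a.z T l / a.X T j.1)) := by
          apply mul_le_mul _ h8 (Real.exp_pos _).le (by positivity)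
          exact mul_le_mul_of_nonneg_left h7 hka.le
      _ = _ := by ring
  unfold Pa.th
  rw [min_mul_of_nonneg _ _ (Real.exp_pos _).le]
  apply min_le_min _ key
  have : (1 : ℝ) / 64 * 1 ≤ 1 / 64 * Real.exp ((1 + a.z T l) / a.X T j.1) :=
    mul_le_mul_of_nonneg_left hE (by norm_num)
  linarith

/-- [BTS-R4b] in the own axis the faces do not change (`Xm` grows) -/
theorem th_up_same {T : Box d} (hT : Ne T) (j : Dir d) : a.th (up T j) j.1 ≤ a.th T j.1 := by
  apply r4b_th_mono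
  have hm := r4a_Xm_pos a T
  have hz := z_pos a T j.1
  rw [z_up_same a hT j]
  apply mul_le_mul_of_nonneg_right _ (Real.exp_pos _).le
  apply mul_le_mul_of_nonneg_left _ (r4a_ka_pos a).le
  apply Real.sqrt_le_sqrt
  exact div_le_div_of_nonneg_left (by linarith) hm (Xm_le_up a hT j)

/-- [BTS-R4b] PROOF. `z' ≥ z`, `√(Xm/Xm') ≥ (1 + 1/X₀)^{-1/2} ≥ 1 - 1/X₀`. -/
theorem th_le_up {T : Box d} (hT : Ne T) (j : Dir d) (l : Fin d) :
    a.th T l * (1 - 1 / a.X T j.1) ≤ a.th (up T j) l := by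
  have hX := r4b_X_ge a T j.1
  have hz := z_pos a T l
  have hzz := z_le_up a hT j l
  have hm := r4a_Xm_pos a T
  have hm' := r4a_Xm_pos a (up T j)
  have hka := r4a_ka_pos a
  have hu : 0 < 1 / a.X T j.1 := by positivity
  have hu1 : 1 / a.X T j.1 ≤ 1 / 100 := one_div_le_one_div_of_le (by norm_num) hX
  have hu2 : 0 ≤ 1 - 1 / a.X T j.1 := by linarith
  have key : a.ka * Real.sqrt ((1 + a.z T l) / a.Xm T) * Real.exp (a.z T l) *
      (1 - 1 / a.X T j.1) ≤
      a.ka * Real.sqrt ((1 + a.z (up T j) l) / a.Xm (up T j)) * Real.exp (a.z (up T j) l) := by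
    have h1 : (1 + a.z T l) / a.Xm T * (1 - 1 / a.X T j.1) ^ 2 ≤
        (1 + a.z (up T j) l) / a.Xm (up T j) := by
      have h2 := Xm_up_le a hT j
      have h3 : (1 + a.z T l) / (a.Xm T * (1 + 1 / a.X T j.1)) ≤
          (1 + a.z (up T j) l) / a.Xm (up T j) :=
        div_le_div₀ (by linarith) (by linarith) hm' h2
      refine le_trans ?_ h3
      rw [div_mul_eq_mul_div, div_le_div_iff₀ hm (by positivity)]
      have h4 : (1 - 1 / a.X T j.1) ^ 2 * (1 + 1 / a.X T j.1) ≤ 1 := by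
        have h40 : ∀ u : ℝ, 0 ≤ u → u ≤ 1 → (1 - u) ^ 2 * (1 + u) ≤ 1 := by
          intro u h0 h1
          have h2 : (1 - u) ^ 2 * (1 + u) = 1 - u - u ^ 2 * (1 - u) := by ring
          rw [h2]
          have h3 : 0 ≤ u ^ 2 * (1 - u) := mul_nonneg (sq_nonneg u) (by linarith)
          linarith
        exact h40 _ hu.le (by linarith)
      have h5 : 0 ≤ (1 + a.z T l) * a.Xm T := by positivity
      have h6 := mul_le_mul_of_nonneg_left h4 h5
      calc (1 + a.z T l) * (1 - 1 / a.X T j.1) ^ 2 * (a.Xm T * (1 + 1 / a.X T j.1))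
          = (1 + a.z T l) * a.Xm T * ((1 - 1 / a.X T j.1) ^ 2 * (1 + 1 / a.X T j.1)) := by ring
        _ ≤ (1 + a.z T l) * a.Xm T * 1 := h6
        _ = _ := by ring
    have h7 : Real.sqrt ((1 + a.z T l) / a.Xm T) * (1 - 1 / a.X T j.1) ≤
        Real.sqrt ((1 + a.z (up T j) l) / a.Xm (up T j)) := by
      refine le_trans (le_of_eq ?_) (Real.sqrt_le_sqrt h1)
      rw [Real.sqrt_mul (by positivity), Real.sqrt_sq hu2]
    have h8 : Real.exp (a.z T l) ≤ Real.exp (a.z (up T j) l) := Real.exp_le_exp.2 hzz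
    calc a.ka * Real.sqrt ((1 + a.z T l) / a.Xm T) * Real.exp (a.z T l) * (1 - 1 / a.X T j.1)
        = a.ka * (Real.sqrt ((1 + a.z T l) / a.Xm T) * (1 - 1 / a.X T j.1)) *
          Real.exp (a.z T l) := by ring
      _ ≤ _ := by
        apply mul_le_mul _ h8 (Real.exp_pos _).le (by positivity)
        exact mul_le_mul_of_nonneg_left h7 hka.le
  unfold Pa.th
  rw [min_mul_of_nonneg _ _ hu2]
  apply min_le_min _ key
  nlinarith

/-- [BTS-R4b] PROOF. `g(z') ≤ g(z)`. `θ e^{-2z} - θ' e^{-2z'} ≤ θ e^{-2z} - θ (1 - 1/X₀) e^{-2z} (1 - 2z/X₀) ≤ θ e^{-2z} (1 + 2z)/X₀ ≤ θ/X₀ ≤ 1/(64 X₀)` (`e^{-2z/X₀} ≥ 1 - 2z/X₀`, `(1+2z) ≤ e^{2z}`; if `1 - 2z/X₀ < 0` the bound is clear too). -/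
theorem gm_up_le {T : Box d} (hT : Ne T) (j : Dir d) (l : Fin d) :
    a.gm (up T j) l ≤ a.gm T l + 1 / (8 * a.X T j.1) := by
  have hX := r4b_X_ge a T j.1
  have hz := z_pos a T l
  have hzz := z_le_up a hT j l
  have hzle := z_up_le a hT j l
  have hth := th_pos a T l
  have hth1 := th_le a T l
  have hthu := th_le_up a hT j l
  have hu : 0 < 1 / a.X T j.1 := by positivity
  have hu1 : 1 / a.X T j.1 ≤ 1 / 100 := one_div_le_one_div_of_le (by norm_num) hX
  have h8 : 1 / (8 * a.X T j.1) = (1 / a.X T j.1) / 8 := by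
    field_simp
  rw [h8]
  set u := 1 / a.X T j.1 with hudef
  set z := a.z T l with hzdef
  set z' := a.z (up T j) l with hz'def
  set θ := a.th T l with hθdef
  set θ' := a.th (up T j) l with hθ'def
  have hg : gg z' ≤ gg z := gg_anti hz hzz
  have h1 : Real.exp (-(2 * z)) * (1 - 2 * z * u) ≤ Real.exp (-(2 * z')) := by
    have h2 : Real.exp (-(2 * z)) * Real.exp (-(2 * z * u)) ≤ Real.exp (-(2 * z')) := by
      rw [← Real.exp_add]
      apply Real.exp_le_exp.2
      nlinarith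
    refine le_trans ?_ h2
    apply mul_le_mul_of_nonneg_left _ (Real.exp_pos _).le
    have := Real.add_one_le_exp (-(2 * z * u))
    linarith
  have hE := Real.exp_pos (-(2 * z))
  have hE' := Real.exp_pos (-(2 * z'))
  have h3 : θ * (1 - u) * Real.exp (-(2 * z')) ≤ θ' * Real.exp (-(2 * z')) :=
    mul_le_mul_of_nonneg_right hthu hE'.le
  have h4 : θ * (1 - u) * (Real.exp (-(2 * z)) * (1 - 2 * z * u)) ≤
      θ * (1 - u) * Real.exp (-(2 * z')) :=
    mul_le_mul_of_nonneg_left h1 (mul_nonneg hth.le (by linarith))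
  have h5 : (1 + 2 * z) * Real.exp (-(2 * z)) ≤ 1 := by
    have h6 := Real.add_one_le_exp (2 * z)
    have h7 : Real.exp (2 * z) * Real.exp (-(2 * z)) = 1 := by
      rw [← Real.exp_add]; simp
    nlinarith
  have h9 : θ * Real.exp (-(2 * z)) - θ * (1 - u) * (Real.exp (-(2 * z)) * (1 - 2 * z * u)) ≤
      θ * u := by
    have h10 : θ * Real.exp (-(2 * z)) - θ * (1 - u) * (Real.exp (-(2 * z)) * (1 - 2 * z * u)) =
        θ * u * ((1 + 2 * z) * Real.exp (-(2 * z))) -
          θ * u * u * (2 * z) * Real.exp (-(2 * z)) := by ring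
    have h11 : 0 ≤ θ * u * u * (2 * z) * Real.exp (-(2 * z)) := by positivity
    have h12 : θ * u * ((1 + 2 * z) * Real.exp (-(2 * z))) ≤ θ * u * 1 :=
      mul_le_mul_of_nonneg_left h5 (by positivity)
    linarith
  have h13 : θ * u ≤ 1 / 64 * u := mul_le_mul_of_nonneg_right hth1 hu.le
  show gg z' - 2 * θ' * Real.exp (-(2 * z')) ≤ gg z - 2 * θ * Real.exp (-(2 * z)) + u / 8
  linarith

/-- the weight of an edge -/
noncomputable def EE (T : Box d) (i l : Fin d) : ℝ :=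
  Real.sqrt ((1 + a.z T i) / a.X T l * ((1 + a.z T l) / a.X T i))

/-- [BTS-R4b] PROOF. `e^{gm_i + gm_l} ≤ √((1+z_i)(1+z_l)/(z_i z_l))` and `q ∏_{m≠i,l} X_m = z_i/X_l = z_l/X_i`. -/
theorem edge_le {T : Box d} {i l : Fin d} (h : i ≠ l) :
    a.q * (∏ m ∈ (Finset.univ.erase i).erase l, a.X T m) * Real.exp (a.gm T i + a.gm T l) ≤
      EE a T i l := by
  have hi := X_pos a T i
  have hl := X_pos a T l
  have hzi := z_pos a T i
  have hzl := z_pos a T l
  have h1 := r4a_z_split a T h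
  have h2 := r4a_z_split a T (Ne.symm h : l ≠ i)
  rw [Finset.erase_right_comm] at h2
  set R := ∏ m ∈ (Finset.univ.erase i).erase l, a.X T m with hR
  have hRpos : 0 < R := Finset.prod_pos (fun m _ => X_pos a T m)
  unfold EE
  apply Real.le_sqrt_of_sq_le
  have hq := a.hq
  have e1 := exp_gm_sq a T i
  have e2 := exp_gm_sq a T l
  have h3 : (a.q * R * Real.exp (a.gm T i + a.gm T l)) ^ 2 =
      (a.q * R) ^ 2 * (Real.exp (a.gm T i) ^ 2 * Real.exp (a.gm T l) ^ 2) := by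
    rw [Real.exp_add]; ring
  rw [h3]
  have h4 : Real.exp (a.gm T i) ^ 2 * Real.exp (a.gm T l) ^ 2 ≤
      (1 + a.z T i) / a.z T i * ((1 + a.z T l) / a.z T l) :=
    mul_le_mul e1 e2 (by positivity) (by positivity)
  refine le_trans (mul_le_mul_of_nonneg_left h4 (by positivity)) (le_of_eq ?_)
  have h5 : (a.q * R) ^ 2 * ((1 + a.z T i) / a.z T i * ((1 + a.z T l) / a.z T l)) =
      ((a.q * R) ^ 2 / (a.z T i * a.z T l)) * ((1 + a.z T i) * (1 + a.z T l)) := by
    field_simp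
  have h6 : (a.q * R) ^ 2 / (a.z T i * a.z T l) = 1 / (a.X T l * a.X T i) := by
    rw [div_eq_div_iff (by positivity) (by positivity)]
    rw [h1, h2]
    ring
  rw [h5, h6]
  field_simp

/-- [BTS-R4b] PROOF. Let `y_i = ka √((1+z_i)/Xm) e^{z_i}`, `θ_i = min (1/64) y_i`. `EE ≤ √((1+z_i)(1+z_l))/Xm`. Four cases for `θ_i θ_l ka²`-multiples: `y_i y_l ≥ ka² √((1+z_i)(1+z_l))/Xm`; `y_i/64 ≥ ka²√((1+z_i)(1+z_l))/Xm` iff `64 ka √((1+z_l)/Xm) ≤ 1` (up to `e^{z_i} ≥ 1`), true by `hrho` and `z_l ≤ Z`, `Xm ≥ H₁`;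
`1/4096 ≥ ka² (1+Z)/H₁` is `hrho`. -/
theorem EE_le {T : Box d} (hD : a.InD T) (i l : Fin d) :
    EE a T i l ≤ a.th T i * a.th T l / a.ka ^ 2 := by
  have hka := r4a_ka_pos a
  have hm := r4a_Xm_pos a T
  have hs : ∀ k : Fin d, a.ka * Real.sqrt ((1 + a.z T k) / a.Xm T) ≤ a.th T k := by
    intro k
    have hz := z_pos a T k
    have hzZ : a.z T k ≤ a.Z := le_trans (z_le_zf a T k) (hD.1 k)
    unfold Pa.th
    apply le_min
    · have h1 : (1 + a.z T k) / a.Xm T ≤ (1 / (64 * a.ka)) ^ 2 := by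
        rw [div_le_iff₀ hm]
        have h2 : 4096 * a.ka ^ 2 * (1 + a.z T k) ≤ a.Xm T := by
          have h3 := a.hrho
          have h4 := Xm_ge a T
          have h5 : 4096 * a.ka ^ 2 * (1 + a.z T k) ≤ 4096 * a.ka ^ 2 * (1 + a.Z) :=
            mul_le_mul_of_nonneg_left (by linarith) (by positivity)
          linarith
        have h6 : (1 / (64 * a.ka)) ^ 2 * a.Xm T ≥
            (1 / (64 * a.ka)) ^ 2 * (4096 * a.ka ^ 2 * (1 + a.z T k)) :=
          mul_le_mul_of_nonneg_left h2 (by positivity)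
        have h7 : (1 / (64 * a.ka)) ^ 2 * (4096 * a.ka ^ 2 * (1 + a.z T k)) = 1 + a.z T k := by
          field_simp
          norm_num
        linarith
      have h8 : Real.sqrt ((1 + a.z T k) / a.Xm T) ≤ 1 / (64 * a.ka) := by
        refine le_trans (Real.sqrt_le_sqrt h1) ?_
        rw [Real.sqrt_sq (by positivity)]
      calc a.ka * Real.sqrt ((1 + a.z T k) / a.Xm T) ≤ a.ka * (1 / (64 * a.ka)) :=
            mul_le_mul_of_nonneg_left h8 hka.le
        _ = 1 / 64 := by field_simp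
    · have h9 : 1 ≤ Real.exp (a.z T k) := Real.one_le_exp hz.le
      have h10 : 0 ≤ a.ka * Real.sqrt ((1 + a.z T k) / a.Xm T) := by positivity
      nlinarith
  have hE : EE a T i l ≤ Real.sqrt ((1 + a.z T i) / a.Xm T) * Real.sqrt ((1 + a.z T l) / a.Xm T) := by
    unfold EE
    have hzi := z_pos a T i
    have hzl := z_pos a T l
    rw [← Real.sqrt_mul (by positivity)]
    apply Real.sqrt_le_sqrt
    have h1 : (1 + a.z T i) / a.X T l ≤ (1 + a.z T i) / a.Xm T :=
      div_le_div_of_nonneg_left (by linarith) hm ((Xm_spec a T).2 l)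
    have h2 : (1 + a.z T l) / a.X T i ≤ (1 + a.z T l) / a.Xm T :=
      div_le_div_of_nonneg_left (by linarith) hm ((Xm_spec a T).2 i)
    exact mul_le_mul h1 h2 (by have := X_pos a T i; positivity) (by positivity)
  refine le_trans hE ?_
  rw [le_div_iff₀ (by positivity)]
  have h3 := mul_le_mul (hs i) (hs l) (by positivity) (th_pos a T i).le
  nlinarith [h3]

end BTS
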