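import Pool.Agent.BTS.S10
import Pool.Agent.BTS.S11
import Pool.Agent.BTS.J2

set_option autoImplicit false

open scoped Classical
open Finset

namespace BTS
open BTP

variable {d : ℕ} (a : Pa d)

/-- [BTS-S12a] the small boxes of extent `y`, directions `j`, `j'`.
PROOF. `card_near`, `grow_two` (`exp(Ps (T ⊔ S) - Ps T) ≤ e^{g_i} e^{g_l} e^{y g(zm)}`, `i = j.1`, `l = j'.1`). `p^m e^{y g(zm)} ≤ p (p e^{2g(zm)})^{m-1}` with `m = ms y`, `y ≤ 2(m-1)`, `g ≥ 0`. `p_edge_le`. -/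
theorem sum_y {T Q : Box d} (hT : Ne T) {j j' : Dir d} (hj : j.1 ≠ j'.1) (y : ℕ) :
    ∑ S ∈ (sub Q).filter (fun S => near T S ∧ Ys S = y ∧ T j < S j ∧ T j' < S j'),
        (((y : ℝ) + 1) ^ d * a.p) ^ ms y * Real.exp (a.Ps (T ⊔ S) - a.Ps T) ≤
      (2 * (y : ℝ) + 7) ^ (2 * d) * ((y : ℝ) + 1) ^ (d * ms y) *
        (a.p * Real.exp (gg (a.zm T)) ^ 2) ^ (ms y - 1) *
        (Real.sqrt ((1 + a.z T j.1) * (1 + a.z T j'.1)) / a.Xm T) := by
  set m : ℕ := ms y with hm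
  have hm1 : 1 ≤ m := by rw [hm]; unfold ms; omega
  have hmy : y ≤ 2 * (m - 1) := by rw [hm]; unfold ms; omega
  have hp := p_nonneg a
  have hg : 0 ≤ gg (a.zm T) := gg_nonneg (zm_pos a T)
  have hy0 : (0 : ℝ) ≤ y := Nat.cast_nonneg y
  have hy1 : (0 : ℝ) ≤ (y : ℝ) + 1 := by linarith
  -- the bound for one box
  have hone : ∀ S ∈ (sub Q).filter (fun S => near T S ∧ Ys S = y ∧ T j < S j ∧ T j' < S j'),
      (((y : ℝ) + 1) ^ d * a.p) ^ m * Real.exp (a.Ps (T ⊔ S) - a.Ps T) ≤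
      ((y : ℝ) + 1) ^ (d * m) * (a.p * Real.exp (gg (a.zm T)) ^ 2) ^ (m - 1) *
        (a.p * (Real.exp (gg (a.z T j.1)) * Real.exp (gg (a.z T j'.1)))) := by
    intro S hS
    rw [Finset.mem_filter] at hS
    obtain ⟨hSs, hn, hY, h1, h2⟩ := hS
    have hNe := (mem_sub.1 hSs).1
    have h3 := grow_two a hT hNe hn hY hj h1 h2
    have h4 : Real.exp (a.Ps (T ⊔ S) - a.Ps T) ≤
        Real.exp (gg (a.z T j.1)) * Real.exp (gg (a.z T j'.1)) *
          Real.exp (gg (a.zm T)) ^ (2 * (m - 1)) := by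
      rw [← Real.exp_add, ← Real.exp_nat_mul, ← Real.exp_add, Real.exp_le_exp]
      have h5 : (y : ℝ) * gg (a.zm T) ≤ ((2 * (m - 1) : ℕ) : ℝ) * gg (a.zm T) :=
        mul_le_mul_of_nonneg_right (by exact_mod_cast hmy) hg
      linarith
    have h5 : (((y : ℝ) + 1) ^ d * a.p) ^ m = ((y : ℝ) + 1) ^ (d * m) * (a.p ^ (m - 1) * a.p) := by
      rw [mul_pow, ← pow_mul, ← pow_succ, Nat.sub_add_cancel hm1]
    calc (((y : ℝ) + 1) ^ d * a.p) ^ m * Real.exp (a.Ps (T ⊔ S) - a.Ps T)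
        ≤ (((y : ℝ) + 1) ^ d * a.p) ^ m * (Real.exp (gg (a.z T j.1)) * Real.exp (gg (a.z T j'.1)) *
          Real.exp (gg (a.zm T)) ^ (2 * (m - 1))) :=
          mul_le_mul_of_nonneg_left h4 (pow_nonneg (mul_nonneg (pow_nonneg hy1 _) hp) _)
      _ = _ := by
          rw [h5, mul_pow a.p, ← pow_mul]
          ring
  refine (Finset.sum_le_sum hone).trans ?_
  rw [Finset.sum_const, nsmul_eq_mul]
  have hc := card_near a (Q := Q) hT hj y
  have he := p_edge_le a (T := T) hj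
  have hnn : 0 ≤ ((y : ℝ) + 1) ^ (d * m) * (a.p * Real.exp (gg (a.zm T)) ^ 2) ^ (m - 1) :=
    mul_nonneg (pow_nonneg hy1 _) (pow_nonneg (mul_nonneg hp (sq_nonneg _)) _)
  have hE : 0 ≤ Real.exp (gg (a.z T j.1)) * Real.exp (gg (a.z T j'.1)) :=
    mul_nonneg (Real.exp_pos _).le (Real.exp_pos _).le
  have h27 : (0 : ℝ) ≤ (2 * (y : ℝ) + 7) ^ (2 * d) := pow_nonneg (by linarith) _
  calc _ ≤ ((2 * (y : ℝ) + 7) ^ (2 * d) * ∏ l ∈ (Finset.univ.erase j.1).erase j'.1, a.X T l) *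
        (((y : ℝ) + 1) ^ (d * m) * (a.p * Real.exp (gg (a.zm T)) ^ 2) ^ (m - 1) *
        (a.p * (Real.exp (gg (a.z T j.1)) * Real.exp (gg (a.z T j'.1))))) :=
        mul_le_mul_of_nonneg_right hc (mul_nonneg hnn (mul_nonneg hp hE))
    _ = ((2 * (y : ℝ) + 7) ^ (2 * d) * ((y : ℝ) + 1) ^ (d * m) *
        (a.p * Real.exp (gg (a.zm T)) ^ 2) ^ (m - 1)) *
        (a.p * (∏ l ∈ (Finset.univ.erase j.1).erase j'.1, a.X T l) *
        (Real.exp (gg (a.z T j.1)) * Real.exp (gg (a.z T j'.1)))) := by ring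
    _ ≤ _ := by
        apply mul_le_mul_of_nonneg_left he
        rw [mul_assoc]
        exact mul_nonneg h27 hnn

end BTS
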