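import Pool.Agent.BTS.S12a
import Pool.Agent.BTS.S10
import Pool.Agent.BTS.S11
import Pool.Agent.BTS.J2

set_option autoImplicit false

open scoped Classical
open Finset

namespace BTS
open BTP

variable {d : ℕ} (a : Pa d)

/-- the product of all the faces dominates the weight of one edge -/
theorem s12b_W {T : Box d} {i l : Fin d} (hil : i ≠ l) :
    (1 + a.zm T) / a.Xm T ^ (d - 1) * (Real.sqrt ((1 + a.z T i) * (1 + a.z T l)) / a.Xm T) ≤
      ∏ k : Fin d, ((1 + a.z T k) / a.Xm T) := by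
  have hd := a.hd
  have hX : 0 < a.Xm T := by linarith [Xm_ge a T, a.hH1]
  have hz : ∀ k, 0 < a.z T k := z_pos a T
  have hzm := zm_pos a T
  have hzi := (zm_spec a T).2 i
  have hzl := (zm_spec a T).2 l
  have h1 : 1 + a.zm T ≤ Real.sqrt ((1 + a.z T i) * (1 + a.z T l)) := by
    apply Real.le_sqrt_of_sq_le
    rw [sq]
    exact mul_le_mul (by linarith) (by linarith) (by linarith) (by linarith [hz i])
  have h0 : 0 ≤ (1 + a.z T i) * (1 + a.z T l) := by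
    have := hz i
    have := hz l
    positivity
  have h2 : (1 + a.zm T) * Real.sqrt ((1 + a.z T i) * (1 + a.z T l)) ≤
      (1 + a.z T i) * (1 + a.z T l) := by
    calc (1 + a.zm T) * Real.sqrt ((1 + a.z T i) * (1 + a.z T l))
        ≤ Real.sqrt ((1 + a.z T i) * (1 + a.z T l)) * Real.sqrt ((1 + a.z T i) * (1 + a.z T l)) :=
          mul_le_mul_of_nonneg_right h1 (Real.sqrt_nonneg _)
      _ = _ := Real.mul_self_sqrt h0
  have h3 : (1 + a.z T i) * (1 + a.z T l) ≤ ∏ k : Fin d, (1 + a.z T k) := by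
    rw [← Finset.mul_prod_erase Finset.univ (fun k => 1 + a.z T k) (Finset.mem_univ i),
      ← Finset.mul_prod_erase (Finset.univ.erase i) (fun k => 1 + a.z T k)
        (Finset.mem_erase.2 ⟨Ne.symm hil, Finset.mem_univ l⟩)]
    have h4 : 1 ≤ ∏ k ∈ (Finset.univ.erase i).erase l, (1 + a.z T k) := by
      apply Finset.one_le_prod
      intro k _
      linarith [hz k]
    have h5 : 0 ≤ (1 + a.z T i) * (1 + a.z T l) := h0
    calc (1 + a.z T i) * (1 + a.z T l) = ((1 + a.z T i) * (1 + a.z T l)) * 1 := (mul_one _).symm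
      _ ≤ ((1 + a.z T i) * (1 + a.z T l)) * ∏ k ∈ (Finset.univ.erase i).erase l, (1 + a.z T k) :=
          mul_le_mul_of_nonneg_left h4 h5
      _ = _ := by ring
  rw [Finset.prod_div_distrib, Finset.prod_const, Finset.card_univ, Fintype.card_fin,
    div_mul_div_comm]
  have h6 : a.Xm T ^ (d - 1) * a.Xm T = a.Xm T ^ d := by
    rw [← pow_succ]
    congr 1
    omega
  rw [h6]
  exact div_le_div_of_nonneg_right (h2.trans h3) (pow_nonneg hX.le _)

/-- the numerical factor -/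
theorem s12b_num {y : ℕ} (h1 : 1 ≤ y) (hy : y < a.h) :
    (2 * (y : ℝ) + 7) ^ (2 * d) * ((y : ℝ) + 1) ^ (d * ms y) * ((1 + a.Z) / a.H1) ^ (ms y - 2) ≤
      (if y ≤ 2 then 1089 ^ d else 0) + 1 / (a.h : ℝ) := by
  have hd := a.hd
  have hh : (1 : ℝ) ≤ a.h := by exact_mod_cast a.hh
  have hH := a.hH1
  have hZ := a.hZ
  by_cases h2 : y ≤ 2
  · rw [if_pos h2]
    have hm : ms y = 2 := by
      unfold ms
      omega
    rw [hm]
    have hy2 : (y : ℝ) ≤ 2 := by exact_mod_cast h2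
    have e1 : (2 * (y : ℝ) + 7) ^ (2 * d) ≤ 11 ^ (2 * d) :=
      pow_le_pow_left₀ (by positivity) (by linarith) _
    have e2 : ((y : ℝ) + 1) ^ (d * 2) ≤ 3 ^ (d * 2) :=
      pow_le_pow_left₀ (by positivity) (by linarith) _
    have e3 : (11 : ℝ) ^ (2 * d) * 3 ^ (d * 2) = 1089 ^ d := by
      rw [mul_comm d 2, ← mul_pow, pow_mul]
      norm_num
    have e4 : 0 ≤ 1 / (a.h : ℝ) := by positivity
    calc (2 * (y : ℝ) + 7) ^ (2 * d) * ((y : ℝ) + 1) ^ (d * 2) *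
          ((1 + a.Z) / a.H1) ^ (2 - 2)
        = (2 * (y : ℝ) + 7) ^ (2 * d) * ((y : ℝ) + 1) ^ (d * 2) := by simp
      _ ≤ 11 ^ (2 * d) * 3 ^ (d * 2) := mul_le_mul e1 e2 (by positivity) (by positivity)
      _ = 1089 ^ d := e3
      _ ≤ _ := by linarith
  · rw [if_neg h2, zero_add]
    have hm : 3 ≤ ms y := by
      unfold ms
      omega
    have hyh : (y : ℝ) ≤ a.h := by exact_mod_cast hy.le
    set L : ℝ := 2 * (a.h : ℝ) + 7 with hL
    have hL1 : 1 ≤ L := by linarith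
    have e1 : (2 * (y : ℝ) + 7) ^ (2 * d) ≤ L ^ (2 * d) :=
      pow_le_pow_left₀ (by positivity) (by linarith) _
    have e2 : ((y : ℝ) + 1) ^ (d * ms y) ≤ L ^ (d * ms y) :=
      pow_le_pow_left₀ (by positivity) (by linarith) _
    obtain ⟨t, ht⟩ : ∃ t, ms y = t + 3 := ⟨ms y - 3, by omega⟩
    have e3 : L ^ (2 * d) * L ^ (d * ms y) ≤ (L ^ (6 * d)) ^ (ms y - 2) := by
      rw [← pow_add, ← pow_mul]
      apply pow_le_pow_right₀ hL1
      rw [ht]
      have : t + 3 - 2 = t + 1 := by omega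
      rw [this]
      nlinarith
    set R : ℝ := L ^ (6 * d) * ((1 + a.Z) / a.H1) with hR
    have hR0 : 0 ≤ R := by positivity
    have hRle : R ≤ 1 / (a.h : ℝ) := by
      have h5 := a.hHs
      rw [← hL] at h5
      rw [hR, mul_div_assoc', div_le_div_iff₀ (by linarith) (by linarith), one_mul]
      have hd2 : (2 : ℝ) ≤ d := by exact_mod_cast hd
      have h6 : 0 ≤ L ^ (6 * d) * (1 + a.Z) := by positivity
      have h7 : L ^ (6 * d) * (1 + a.Z) * a.h ≤ 4 * (d : ℝ) ^ 2 * a.h * L ^ (6 * d) * (1 + a.Z) := by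
        have h8 : (1 : ℝ) ≤ 4 * (d : ℝ) ^ 2 := by nlinarith
        have h9 : 0 ≤ L ^ (6 * d) * (1 + a.Z) * a.h := by positivity
        calc L ^ (6 * d) * (1 + a.Z) * a.h = 1 * (L ^ (6 * d) * (1 + a.Z) * a.h) := (one_mul _).symm
          _ ≤ (4 * (d : ℝ) ^ 2) * (L ^ (6 * d) * (1 + a.Z) * a.h) :=
              mul_le_mul_of_nonneg_right h8 h9
          _ = _ := by ring
      linarith
    have hR1 : R ≤ 1 := by
      refine hRle.trans ?_
      rw [div_le_one (by linarith)]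
      exact hh
    calc (2 * (y : ℝ) + 7) ^ (2 * d) * ((y : ℝ) + 1) ^ (d * ms y) *
          ((1 + a.Z) / a.H1) ^ (ms y - 2)
        ≤ (L ^ (6 * d)) ^ (ms y - 2) * ((1 + a.Z) / a.H1) ^ (ms y - 2) := by
          apply mul_le_mul_of_nonneg_right _ (by positivity)
          exact (mul_le_mul e1 e2 (by positivity) (by positivity)).trans e3
      _ = R ^ (ms y - 2) := by rw [← mul_pow]
      _ ≤ R ^ 1 := pow_le_pow_of_le_one hR0 hR1 (by omega)
      _ = R := pow_one R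
      _ ≤ _ := hRle

/-- [BTS-S12b] numerical bounds. `y = 0` is impossible for two axes but harmless in the sum if excluded: `1 ≤ y < h`.
PROOF. Let `W = (1+zm) √((1+z_i)(1+z_l))/Xm^d ≤ ∏_l (1+z_l)/Xm^d` (`1 + zm ≤ √((1+z_i)(1+z_l))`, all other factors `≥ 1`). `ms 1 = ms 2 = 2`: by `p_exp_le'` the terms are at most `(2y+7)^{2d} (y+1)^{2d} W ≤ 11^{2d} 3^{2d} W = 1089^d W`.
`y ≥ 3`: `m = ms y ≥ 3`, `(p e^{2g})^{m-1} ≤ ((1+zm)/Xm^{d-1}) ((1+Z)/H₁)^{m-2}` (`p_exp_le'`, `p_exp_le`), `(2y+7)^{2d} (y+1)^{dm} ≤ (2h+7)^{2d+dm} ≤ (2h+7)^{6d(m-2)}`, so the term is at most `((2h+7)^{6d}(1+Z)/H₁)^{m-2} W ≤ W/(4d²h)` (`hHs`). Sum over `y`: `(2·1089^d + 1/(4d²)) W`. -/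
theorem sum_small_pair {T : Box d} (hD : a.InD T) {j j' : Dir d} (hj : j.1 ≠ j'.1) :
    ∑ y ∈ Finset.Ico 1 a.h, (2 * (y : ℝ) + 7) ^ (2 * d) * ((y : ℝ) + 1) ^ (d * ms y) *
        (a.p * Real.exp (gg (a.zm T)) ^ 2) ^ (ms y - 1) *
        (Real.sqrt ((1 + a.z T j.1) * (1 + a.z T j'.1)) / a.Xm T) ≤
      (2 * 1089 ^ d + 1) * ∏ l : Fin d, ((1 + a.z T l) / a.Xm T) := by
  have hX : 0 < a.Xm T := by linarith [Xm_ge a T, a.hH1]
  have hH := a.hH1
  have hZ := a.hZ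
  have hh : (1 : ℝ) ≤ a.h := by exact_mod_cast a.hh
  have hzm := zm_pos a T
  set Ee : ℝ := a.p * Real.exp (gg (a.zm T)) ^ 2 with hE
  have hE0 : 0 ≤ Ee := mul_nonneg (p_nonneg a) (by positivity)
  have hE1 : Ee ≤ (1 + a.Z) / a.H1 := p_exp_le a hD
  have hE2 : Ee ≤ (1 + a.zm T) / a.Xm T ^ (d - 1) := p_exp_le' a T
  set S : ℝ := Real.sqrt ((1 + a.z T j.1) * (1 + a.z T j'.1)) / a.Xm T with hS
  have hS0 : 0 ≤ S := div_nonneg (Real.sqrt_nonneg _) hX.le
  set W : ℝ := (1 + a.zm T) / a.Xm T ^ (d - 1) * S with hW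
  have hW0 : 0 ≤ W := mul_nonneg (div_nonneg (by linarith) (pow_nonneg hX.le _)) hS0
  have hWle : W ≤ ∏ l : Fin d, ((1 + a.z T l) / a.Xm T) := s12b_W a hj
  have hterm : ∀ y ∈ Finset.Ico 1 a.h, (2 * (y : ℝ) + 7) ^ (2 * d) * ((y : ℝ) + 1) ^ (d * ms y) *
      Ee ^ (ms y - 1) * S ≤ ((if y ≤ 2 then 1089 ^ d else 0) + 1 / (a.h : ℝ)) * W := by
    intro y hy
    rw [Finset.mem_Ico] at hy
    have hm : 2 ≤ ms y := by
      unfold ms
      omega
    have e1 : Ee ^ (ms y - 1) ≤ (1 + a.zm T) / a.Xm T ^ (d - 1) * ((1 + a.Z) / a.H1) ^ (ms y - 2) := by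
      have : ms y - 1 = (ms y - 2) + 1 := by omega
      rw [this, pow_succ, mul_comm]
      exact mul_le_mul hE2 (pow_le_pow_left₀ hE0 hE1 _) (pow_nonneg hE0 _)
        (hE0.trans hE2)
    calc (2 * (y : ℝ) + 7) ^ (2 * d) * ((y : ℝ) + 1) ^ (d * ms y) * Ee ^ (ms y - 1) * S
        ≤ (2 * (y : ℝ) + 7) ^ (2 * d) * ((y : ℝ) + 1) ^ (d * ms y) *
          ((1 + a.zm T) / a.Xm T ^ (d - 1) * ((1 + a.Z) / a.H1) ^ (ms y - 2)) * S := by
          apply mul_le_mul_of_nonneg_right _ hS0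
          exact mul_le_mul_of_nonneg_left e1 (by positivity)
      _ = ((2 * (y : ℝ) + 7) ^ (2 * d) * ((y : ℝ) + 1) ^ (d * ms y) *
          ((1 + a.Z) / a.H1) ^ (ms y - 2)) * W := by
          rw [hW]
          ring
      _ ≤ _ := mul_le_mul_of_nonneg_right (s12b_num a hy.1 hy.2) hW0
  refine (Finset.sum_le_sum hterm).trans ?_
  rw [← Finset.sum_mul]
  have hsum : ∑ y ∈ Finset.Ico 1 a.h, ((if y ≤ 2 then (1089 : ℝ) ^ d else 0) + 1 / (a.h : ℝ)) ≤
      2 * 1089 ^ d + 1 := by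
    rw [Finset.sum_add_distrib, ← Finset.sum_filter, Finset.sum_const, Finset.sum_const,
      nsmul_eq_mul, nsmul_eq_mul, Nat.card_Ico]
    have h1 : (((Finset.Ico 1 a.h).filter (fun y => y ≤ 2)).card : ℝ) ≤ 2 := by
      have h2 : ((Finset.Ico 1 a.h).filter (fun y => y ≤ 2)) ⊆ Finset.Icc 1 2 := by
        intro y hy
        rw [Finset.mem_filter, Finset.mem_Ico] at hy
        rw [Finset.mem_Icc]
        exact ⟨hy.1.1, hy.2⟩
      have h3 := Finset.card_le_card h2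
      rw [Nat.card_Icc] at h3
      exact_mod_cast h3
    have h4 : ((a.h - 1 : ℕ) : ℝ) * (1 / (a.h : ℝ)) ≤ 1 := by
      rw [mul_one_div, div_le_one (by linarith)]
      exact_mod_cast Nat.sub_le _ _
    have h5 : (0 : ℝ) ≤ 1089 ^ d := by positivity
    have h6 := mul_le_mul_of_nonneg_right h1 h5
    linarith
  have hc0 : (0 : ℝ) ≤ 2 * 1089 ^ d + 1 := by positivity
  calc (∑ y ∈ Finset.Ico 1 a.h, ((if y ≤ 2 then (1089 : ℝ) ^ d else 0) + 1 / (a.h : ℝ))) * W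
      ≤ (2 * 1089 ^ d + 1) * W := mul_le_mul_of_nonneg_right hsum hW0
    _ ≤ _ := mul_le_mul_of_nonneg_left hWle hc0

end BTS
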