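import Pool.Agent.BTS.S12b
import Pool.Agent.BTS.S10
import Pool.Agent.BTS.S11
import Pool.Agent.BTS.J2

set_option autoImplicit false

open scoped Classical
open Finset

namespace BTS
open BTP

variable {d : ℕ} (a : Pa d)

/-- numerical bound for the number of pairs -/
theorem s12c_num : 8 * ((2 * d) ^ 2 * (2 * 1089 ^ d + 1)) ≤ (a.ka ^ 2) ^ d := by
  have hd : (2 : ℝ) ≤ d := by exact_mod_cast a.hd
  have hka := a.hka
  have h1 : (1000 * (d : ℝ)) ^ 2 ≤ a.ka ^ 2 := by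
    apply pow_le_pow_left₀ (by positivity) hka
  have h2 : ((1000 * (d : ℝ)) ^ 2) ^ d ≤ (a.ka ^ 2) ^ d := pow_le_pow_left₀ (by positivity) h1 d
  have h3 : ((1000 * (d : ℝ)) ^ 2) ^ d = (1000 ^ 2) ^ d * ((d : ℝ) ^ 2) ^ d := by
    rw [mul_pow, mul_pow]
  have hd0 : d ≠ 0 := by have := a.hd; omega
  have h4 : (d : ℝ) ^ 2 ≤ ((d : ℝ) ^ 2) ^ d := by
    apply le_self_pow₀ _ hd0
    nlinarith
  have h5 : (1089 : ℝ) ^ d * 900 ≤ (1000 ^ 2) ^ d := by
    calc (1089 : ℝ) ^ d * 900 ≤ 1089 ^ d * 900 ^ d := by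
          apply mul_le_mul_of_nonneg_left _ (by positivity)
          exact le_self_pow₀ (by norm_num) hd0
      _ = (1089 * 900) ^ d := by rw [mul_pow]
      _ ≤ (1000 ^ 2) ^ d := pow_le_pow_left₀ (by norm_num) (by norm_num) d
  have h6 : (1 : ℝ) ≤ 1089 ^ d := one_le_pow₀ (by norm_num)
  have hdd : 0 ≤ (d : ℝ) ^ 2 := by positivity
  calc 8 * ((2 * (d : ℝ)) ^ 2 * (2 * 1089 ^ d + 1)) = 32 * (2 * 1089 ^ d + 1) * (d : ℝ) ^ 2 := by ring
    _ ≤ (1089 : ℝ) ^ d * 900 * (d : ℝ) ^ 2 := by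
        apply mul_le_mul_of_nonneg_right _ hdd
        linarith
    _ ≤ (1000 ^ 2) ^ d * ((d : ℝ) ^ 2) ^ d := mul_le_mul h5 h4 hdd (by positivity)
    _ = ((1000 * (d : ℝ)) ^ 2) ^ d := h3.symm
    _ ≤ _ := h2

/-- [BTS-S12c] the small boxes.
PROOF. Each `S` of the sum has `Ys S = y` for some `1 ≤ y < h`? (if `Ys S = 0`, `S` is a site `cc v`, near `T` and growing in two axes: this case is excluded by the hypothesis `hY`.) `Pr_small`; split according to `y` and the pair `(j, j')` (at most `(2d)²` pairs): `sum_y`, `sum_small_pair`: total at most `4d² (2·1089^d + 1) ∏ (1+z_l)/Xm`,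
and `∏ θ ≥ ka^{2d} ∏ (1+z_l)/Xm` (`prod_th_ge'`), `ka^{2d} ≥ (10⁶ d²)^d ≥ 32 d² (2·1089^d+1)`. -/
theorem sum_small {T Q : Box d} (hT : Ne T) (hD : a.InD T) (V : Finset (Site d)) :
    ∑ S ∈ (sub Q).filter (fun S => near T S ∧ 1 ≤ Ys S ∧ Ys S < a.h ∧
        ∃ j j' : Dir d, j.1 ≠ j'.1 ∧ T j < S j ∧ T j' < S j'),
      Pr V a.p (IG S) * Real.exp (a.Ps (T ⊔ S) - a.Ps T) ≤ (1 / 8) * ∏ l : Dir d, a.th T l.1 := by
  set A := (sub Q).filter (fun S => near T S ∧ 1 ≤ Ys S ∧ Ys S < a.h ∧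
        ∃ j j' : Dir d, j.1 ≠ j'.1 ∧ T j < S j ∧ T j' < S j') with hA
  set P := (Finset.univ : Finset (Dir d × Dir d)).filter (fun x => x.1.1 ≠ x.2.1) with hPdef
  set B : (Dir d × Dir d) × ℕ → Finset (Box d) := fun t =>
    (sub Q).filter (fun S => near T S ∧ Ys S = t.2 ∧ T t.1.1 < S t.1.1 ∧ T t.1.2 < S t.1.2) with hB
  set G : (Dir d × Dir d) × ℕ → Box d → ℝ := fun t S =>
    (((t.2 : ℝ) + 1) ^ d * a.p) ^ ms t.2 * Real.exp (a.Ps (T ⊔ S) - a.Ps T) with hG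
  have hp0 := p_nonneg a
  have hp1 := p_le_one a
  have hmem : ∀ S, S ∈ A → ∃ t : (Dir d × Dir d) × ℕ, t ∈ P ×ˢ Finset.Ico 1 a.h ∧ S ∈ B t := by
    intro S hS
    rw [hA, Finset.mem_filter] at hS
    obtain ⟨hSQ, hn, h1, h2, j, j', hjj, hj, hj'⟩ := hS
    refine ⟨((j, j'), (Ys S).toNat), ?_, ?_⟩
    · rw [Finset.mem_product, hPdef, Finset.mem_filter, Finset.mem_Ico]
      refine ⟨⟨Finset.mem_univ _, hjj⟩, ?_, ?_⟩
      · show 1 ≤ (Ys S).toNat
        omega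
      · show (Ys S).toNat < a.h
        omega
    · show S ∈ (sub Q).filter _
      rw [Finset.mem_filter]
      refine ⟨hSQ, hn, ?_, hj, hj'⟩
      show Ys S = ((Ys S).toNat : ℤ)
      omega
  have hd0 : 0 < d := by have := a.hd; omega
  haveI : Nonempty ((Dir d × Dir d) × ℕ) := ⟨((((⟨0, hd0⟩ : Fin d), true), ((⟨0, hd0⟩ : Fin d), true)), 0)⟩
  choose! t ht using hmem
  have hG0 : ∀ s S, 0 ≤ G s S := fun s S => by
    show 0 ≤ (((s.2 : ℝ) + 1) ^ d * a.p) ^ ms s.2 * Real.exp (a.Ps (T ⊔ S) - a.Ps T)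
    positivity
  have h1 : ∑ S ∈ A, Pr V a.p (IG S) * Real.exp (a.Ps (T ⊔ S) - a.Ps T) ≤
      ∑ s ∈ P ×ˢ Finset.Ico 1 a.h, ∑ S ∈ B s, G s S := by
    rw [← Finset.sum_fiberwise_of_maps_to (g := t) (fun S hS => (ht S hS).1)]
    refine Finset.sum_le_sum (fun s _ => ?_)
    refine le_trans (Finset.sum_le_sum (g := G s) (fun S hS => ?_)) ?_
    · rw [Finset.mem_filter] at hS
      have hSB := (ht S hS.1).2
      rw [hS.2] at hSB
      rw [hB] at hSB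
      simp only [Finset.mem_filter] at hSB
      have hNe : Ne S := (mem_sub.mp hSB.1).1
      exact mul_le_mul_of_nonneg_right (Pr_small a hNe hSB.2.2.1 V) (Real.exp_pos _).le
    · refine Finset.sum_le_sum_of_subset_of_nonneg ?_ (fun S _ _ => hG0 s S)
      intro S hS
      rw [Finset.mem_filter] at hS
      have hSB := (ht S hS.1).2
      rwa [hS.2] at hSB
  have h2 : ∑ s ∈ P ×ˢ Finset.Ico 1 a.h, ∑ S ∈ B s, G s S ≤
      ∑ _x ∈ P, (2 * 1089 ^ d + 1) * ∏ l : Fin d, ((1 + a.z T l) / a.Xm T) := by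
    rw [Finset.sum_product]
    refine Finset.sum_le_sum (fun x hx => ?_)
    have hx' : x.1.1 ≠ x.2.1 := (Finset.mem_filter.mp hx).2
    refine le_trans (Finset.sum_le_sum (fun y _ => ?_)) (sum_small_pair a hD hx')
    exact sum_y a (Q := Q) hT hx' y
  have hXm : 0 < a.Xm T := lt_of_lt_of_le (by have := a.hH1; linarith) (Xm_ge a T)
  have hW : 0 ≤ ∏ l : Fin d, ((1 + a.z T l) / a.Xm T) :=
    Finset.prod_nonneg (fun l _ => div_nonneg (by have := z_pos a T l; linarith) hXm.le)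
  have hcard : (P.card : ℝ) ≤ (2 * (d : ℝ)) ^ 2 := by
    have hc : P.card ≤ Fintype.card (Dir d × Dir d) := Finset.card_le_univ _
    have hc2 : Fintype.card (Dir d × Dir d) = (2 * d) ^ 2 := by
      simp [Fintype.card_prod]; ring
    rw [hc2] at hc
    exact_mod_cast hc
  have h3 : ∑ _x ∈ P, (2 * 1089 ^ d + 1) * ∏ l : Fin d, ((1 + a.z T l) / a.Xm T) ≤
      (2 * (d : ℝ)) ^ 2 * ((2 * 1089 ^ d + 1) * ∏ l : Fin d, ((1 + a.z T l) / a.Xm T)) := by
    rw [Finset.sum_const, nsmul_eq_mul]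
    exact mul_le_mul_of_nonneg_right hcard (mul_nonneg (by positivity) hW)
  have h4 := prod_th_ge' a hD
  have h5 : ∏ l : Fin d, (a.ka ^ 2 * (1 + a.z T l) / a.Xm T) =
      (a.ka ^ 2) ^ d * ∏ l : Fin d, ((1 + a.z T l) / a.Xm T) := by
    have : ∀ l : Fin d, a.ka ^ 2 * (1 + a.z T l) / a.Xm T = a.ka ^ 2 * ((1 + a.z T l) / a.Xm T) :=
      fun l => by rw [mul_div_assoc]
    simp only [this, Finset.prod_mul_distrib, Finset.prod_const, Finset.card_univ, Fintype.card_fin]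
  rw [h5] at h4
  have h6 := mul_le_mul_of_nonneg_right (s12c_num a) hW
  linarith

end BTS
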