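import Pool.Agent.BTS.V11
import Pool.Agent.BTS.G7

set_option autoImplicit false

open scoped Classical
open Finset

namespace BTS
open BTP

variable {d : ℕ} (a : Pa d)

theorem v14a_KH : a.K ≤ a.H1 := by
  nlinarith [a.hK, a.hKH, a.hH1]

theorem v14a_f_pos (m : ℕ) : 0 < a.f m :=
  lt_of_lt_of_le (by rw [a.hH]; linarith [a.hH1]) (f_ge_H a m)

theorem v14a_f_le (m : ℕ) : a.f m ≤ 4 * max (m : ℝ) a.H1 := by
  have h1 : (m : ℝ) ≤ max (m : ℝ) a.H1 := le_max_left _ _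
  have h2 : a.H1 ≤ max (m : ℝ) a.H1 := le_max_right _ _
  have h3 : a.f m = (m : ℝ) + a.K * Real.sqrt m + a.H := rfl
  have h0 : 0 ≤ max (m : ℝ) a.H1 := (Nat.cast_nonneg m).trans h1
  have h4 : a.K ≤ Real.sqrt (max (m : ℝ) a.H1) := by
    apply Real.le_sqrt_of_sq_le
    exact a.hKH.trans h2
  have h5 : Real.sqrt m ≤ Real.sqrt (max (m : ℝ) a.H1) := Real.sqrt_le_sqrt h1
  have h6 : a.K * Real.sqrt m ≤ max (m : ℝ) a.H1 := by
    calc a.K * Real.sqrt m ≤ Real.sqrt (max (m : ℝ) a.H1) * Real.sqrt (max (m : ℝ) a.H1) :=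
          mul_le_mul h4 h5 (Real.sqrt_nonneg _) (Real.sqrt_nonneg _)
      _ = max (m : ℝ) a.H1 := Real.mul_self_sqrt h0
  rw [h3, a.hH]
  linarith

theorem v14a_red {c y1 y2 : ℝ} (hc : 0 < c) (h1 : 0 < y1) (h2 : y1 ≤ y2) (h3 : y2 ≤ 2 * y1) :
    c / (1 + y1) ^ 2 - c / (1 + y2) ^ 2 ≤ 8 * c * (y2 - y1) / (1 + y2) ^ 3 := by
  have hA : 0 < 1 + y1 := by linarith
  have hB : 0 < 1 + y2 := by linarith
  have e1 : c / (1 + y1) ^ 2 - c / (1 + y2) ^ 2 =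
      c * (y2 - y1) * ((1 + y1) + (1 + y2)) / ((1 + y1) ^ 2 * (1 + y2) ^ 2) := by
    field_simp
    ring
  rw [e1, div_le_div_iff₀ (by positivity) (by positivity)]
  have h4 : ((1 + y1) + (1 + y2)) * (1 + y2) ≤ 8 * (1 + y1) ^ 2 := by nlinarith
  have h5 : 0 ≤ c * (y2 - y1) * (1 + y2) ^ 2 := by
    have : 0 ≤ y2 - y1 := by linarith
    positivity
  calc c * (y2 - y1) * ((1 + y1) + (1 + y2)) * (1 + y2) ^ 3 =
      c * (y2 - y1) * (1 + y2) ^ 2 * (((1 + y1) + (1 + y2)) * (1 + y2)) := by ring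
    _ ≤ c * (y2 - y1) * (1 + y2) ^ 2 * (8 * (1 + y1) ^ 2) := mul_le_mul_of_nonneg_left h4 h5
    _ = 8 * c * (y2 - y1) * ((1 + y1) ^ 2 * (1 + y2) ^ 2) := by ring

/-- [BTS-V14a] the first difference (a short side `m`, `X = max m H₁`, grows).
PROOF. `y₁ = q φ(m) S`, `y₂ = q φ(m+1) S ≤ Z`. `φ(m+1) - φ(m) ≥ 1` and `φ(m) ≤ 4X`: `y₂ - y₁ ≥ q S = y₁/φ(m) ≥ y₁/(4X)`; `y₂ ≤ 2 y₁` (`f_incr_le`, `f_ge_H`, `1 + K ≤ H`).
`G(φ(m)S) - G(φ(m+1)S) = f₀(y₁) - f₀(y₂) = g(y₁) - g(y₂) - [c₁/(1+y₁)² - c₁/(1+y₂)²]` (`G_eq`), and `c₁/(1+y₁)² - c₁/(1+y₂)² ≤ 2c₁(y₂-y₁)/(1+y₁)³ ≤ 16 c₁ (y₂-y₁)/(1+y₂)³ ≤ (y₂-y₁) e^{-2y₂}/8` (`hc1Z`).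
`g(y₁) - g(y₂) ≥ (y₂-y₁) e^{-2y₂}` (`gg_sub_ge`), so the difference is at least half of `g(y₁) - g(y₂)`. If `y₂ ≤ 2/5`: `gg_sub_ge'`: `≥ (y₂-y₁)/(8y₂) ≥ (y₁/(4X))/(16 y₁) = 1/(64X)`. Otherwise `y₁ > 1/5`: `≥ (1/(20X)) e^{-2y₂}/2`. In both cases at least `e^{-2y₂}/(160X)`. -/
theorem diff_short {S : ℝ} (hS : 0 < S) (m : ℕ) (h : a.q * (a.f (m + 1) * S) ≤ a.Z) :
    Real.exp (-(2 * (a.q * (a.f (m + 1) * S)))) / (160 * max (m : ℝ) a.H1) ≤
      a.G (a.f m * S) - a.G (a.f (m + 1) * S) := by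
  set X : ℝ := max (m : ℝ) a.H1 with hX
  set y1 : ℝ := a.q * (a.f m * S) with hy1
  set y2 : ℝ := a.q * (a.f (m + 1) * S) with hy2
  have hq := a.hq
  have hf1 := v14a_f_pos a m
  have hf2 := v14a_f_pos a (m + 1)
  have hXpos : 0 < X := lt_of_lt_of_le (by linarith [a.hH1]) (le_max_right (m : ℝ) a.H1)
  have hy1p : 0 < y1 := by positivity
  have hfl := v14a_f_le a m
  have hi1 := f_incr_ge a m
  have hi2 := f_incr_le a m
  have hfH := f_ge_H a m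
  have hKH := v14a_KH a
  have hH := a.hH
  have hH1 := a.hH1
  have hqS : 0 < a.q * S := by positivity
  have hdiff : a.q * S ≤ y2 - y1 := by
    have : y2 - y1 = a.q * S * (a.f (m + 1) - a.f m) := by rw [hy1, hy2]; ring
    rw [this]
    nlinarith
  have hle : y1 ≤ y2 := by linarith
  have hle2 : y2 ≤ 2 * y1 := by
    have h1 : a.f (m + 1) ≤ 2 * a.f m := by linarith
    have h2 : a.q * S * a.f (m + 1) ≤ a.q * S * (2 * a.f m) := mul_le_mul_of_nonneg_left h1 hqS.le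
    have e1 : y2 = a.q * S * a.f (m + 1) := by rw [hy2]; ring
    have e2 : 2 * y1 = a.q * S * (2 * a.f m) := by rw [hy1]; ring
    rw [e1, e2]
    exact h2
  have hstep : y1 / (4 * X) ≤ y2 - y1 := by
    refine le_trans ?_ hdiff
    rw [div_le_iff₀ (by positivity)]
    have e1 : y1 = a.q * S * a.f m := by rw [hy1]; ring
    rw [e1]
    exact mul_le_mul_of_nonneg_left hfl hqS.le
  have hG1 : a.G (a.f m * S) = gg y1 - a.c1 / (1 + y1) ^ 2 - a.c0 := by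
    rw [G_eq a (by positivity), ← hy1, min_eq_left (hle.trans h)]
    rfl
  have hG2 : a.G (a.f (m + 1) * S) = gg y2 - a.c1 / (1 + y2) ^ 2 - a.c0 := by
    rw [G_eq a (by positivity), ← hy2, min_eq_left h]
    rfl
  have hgg := gg_sub_ge hy1p hle
  have hy2p : 0 < y2 := lt_of_lt_of_le hy1p hle
  have hred := v14a_red a.hc1 hy1p hle hle2
  have hc := a.hc1Z y2 hy2p.le h
  have hred2 : 8 * a.c1 * (y2 - y1) / (1 + y2) ^ 3 ≤ (y2 - y1) * Real.exp (-(2 * y2)) / 16 := by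
    rw [div_le_div_iff₀ (by positivity) (by norm_num), Real.exp_neg]
    have hE : 0 < Real.exp (2 * y2) := Real.exp_pos _
    have h1 : 128 * a.c1 ≤ (Real.exp (2 * y2))⁻¹ * (1 + y2) ^ 3 := by
      rw [inv_mul_eq_div, le_div_iff₀ hE]
      exact hc
    have h2 : 0 ≤ y2 - y1 := by linarith
    calc 8 * a.c1 * (y2 - y1) * 16 = (y2 - y1) * (128 * a.c1) := by ring
      _ ≤ (y2 - y1) * ((Real.exp (2 * y2))⁻¹ * (1 + y2) ^ 3) := mul_le_mul_of_nonneg_left h1 h2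
      _ = (y2 - y1) * (Real.exp (2 * y2))⁻¹ * (1 + y2) ^ 3 := by ring
  have hEpos : 0 < Real.exp (-(2 * y2)) := Real.exp_pos _
  have hhalf : (gg y1 - gg y2) / 2 ≤ a.G (a.f m * S) - a.G (a.f (m + 1) * S) := by
    rw [hG1, hG2]
    have h2 : 0 ≤ (y2 - y1) * Real.exp (-(2 * y2)) := mul_nonneg (by linarith) hEpos.le
    linarith
  refine le_trans ?_ hhalf
  rcases le_or_gt y2 (2 / 5) with h25 | h25
  · have h1 := gg_sub_ge' hy1p hle h25
    have h2 : 1 / (32 * X) ≤ (y2 - y1) / (4 * y2) := by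
      rw [div_le_div_iff₀ (by positivity) (by positivity)]
      rw [div_le_iff₀ (by positivity)] at hstep
      nlinarith
    have h3 : Real.exp (-(2 * y2)) ≤ 1 := by
      rw [Real.exp_le_one_iff]
      linarith
    have h4 : Real.exp (-(2 * y2)) / (160 * X) ≤ 1 / (160 * X) :=
      div_le_div_of_nonneg_right h3 (by positivity)
    have h5 : 1 / (160 * X) ≤ 1 / (32 * X) / 2 := by
      rw [div_div, div_le_div_iff₀ (by positivity) (by positivity)]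
      nlinarith
    linarith
  · have h1 : 1 / (20 * X) ≤ y2 - y1 := by
      refine le_trans ?_ hstep
      rw [div_le_div_iff₀ (by positivity) (by positivity)]
      nlinarith
    have h2 : 1 / (20 * X) * Real.exp (-(2 * y2)) ≤ gg y1 - gg y2 :=
      (mul_le_mul_of_nonneg_right h1 hEpos.le).trans hgg
    have h3 : Real.exp (-(2 * y2)) / (160 * X) ≤ 1 / (20 * X) * Real.exp (-(2 * y2)) / 2 := by
      have e1 : 1 / (20 * X) * Real.exp (-(2 * y2)) / 2 = Real.exp (-(2 * y2)) / (40 * X) := by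
        field_simp
        norm_num
      rw [e1]
      exact div_le_div_of_nonneg_left hEpos.le (by positivity) (by linarith)
    linarith

end BTS
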