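import Pool.Agent.BTS.V14a
import Pool.Agent.BTS.V11
import Pool.Agent.BTS.G7

set_option autoImplicit false

open scoped Classical
open Finset

namespace BTS
open BTP

variable {d : ℕ} (a : Pa d)

/-- the decrease of the step cost on `[y/2, y]` -/
theorem v14b_half {y : ℝ} (hy : 0 < y) :
    a.G (y / 2) - a.G y ≤ min 1 (gg (a.q * y / 2)) := by
  have hq := a.hq
  have hy2 : 0 < y / 2 := by linarith
  have hZ := a.hZ
  have hlog2 : Real.log 2 ≤ 1 := by
    have := Real.log_two_lt_d9
    linarith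
  have e1 : a.q * (y / 2) = a.q * y / 2 := by ring
  refine le_min ?_ ?_
  · have hqy : 0 < a.q * y := mul_pos hq hy
    rw [G_eq a hy2, G_eq a hy, e1]
    rcases le_or_gt (a.q * y) a.Z with h1 | h1
    · rw [min_eq_left h1, min_eq_left (by linarith)]
      unfold Pa.f0
      have h2 := gg_log (z := a.q * y / 2) (z' := a.q * y) (by linarith) (by linarith)
      have h3 : a.q * y / (a.q * y / 2) = 2 := by
        field_simp
      rw [h3] at h2
      have h4 : a.c1 / (1 + a.q * y) ^ 2 ≤ a.c1 / (1 + a.q * y / 2) ^ 2 := by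
        apply div_le_div_of_nonneg_left a.hc1.le (by positivity)
        apply pow_le_pow_left₀ (by positivity)
        linarith
      linarith
    · rw [min_eq_right h1.le]
      rcases le_or_gt (a.q * y / 2) a.Z with h5 | h5
      · rw [min_eq_left h5]
        unfold Pa.f0
        have hZ0 : 0 < a.Z := by linarith
        have h2 := gg_log (z := a.q * y / 2) (z' := a.Z) (by linarith) h5
        have h3 : Real.log (a.Z / (a.q * y / 2)) ≤ Real.log 2 := by
          apply Real.log_le_log (by positivity)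
          rw [div_le_iff₀ (by positivity)]
          linarith
        have h4 : a.c1 / (1 + a.Z) ^ 2 ≤ a.c1 / (1 + a.q * y / 2) ^ 2 := by
          apply div_le_div_of_nonneg_left a.hc1.le (by positivity)
          apply pow_le_pow_left₀ (by positivity)
          linarith
        linarith
      · rw [min_eq_right h5.le]
        linarith
  · have h1 := G_le a hy2
    have h2 := G_nonneg a y
    rw [e1] at h1
    linarith

/-- [BTS-V14b] the second difference (a long side grows).
PROOF. `w = q φ(m) S`, `w₂ = q φ(m+1) S`; `G` is convex: the slope on `[φ(m)S, φ(m+1)S]` is at most (in absolute value) the slope on `[φ(m)S/2, φ(m)S]`, so the difference is at most `2 (φ(m+1)-φ(m))/φ(m) · (G(φ(m)S/2) - G(φ(m)S)) ≤ (4/m)(..)` (`f_incr_le'`, `f_ge_self`).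
`G(y/2) - G(y) ≤ 1`: for `q y ≤ Z` it is at most `g(qy/2) - g(qy) ≤ log 2` (`gg_log`; `c₁/(1+·)²` is decreasing); for `qy > Z > qy/2`: `f₀(qy/2) - f₀(Z) ≤ g(qy/2) - g(Z) ≤ log 2`; if `qy/2 ≥ Z` it is `0`. Also `G(y/2) ≤ g(qy/2)` (`G_le`). -/
theorem diff_long {S : ℝ} (hS : 0 < S) {m : ℕ} (hm : a.H1 ≤ m) :
    a.G (a.f m * S) - a.G (a.f (m + 1) * S) ≤
      4 / (m : ℝ) * min 1 (gg (a.q * (a.f m * S) / 2)) := by
  have hH1 := a.hH1
  have hm0 : (0 : ℝ) < m := by linarith
  have hf := f_ge_self a m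
  have hf0 : 0 < a.f m := by linarith
  have hi := f_incr_ge a m
  have hi2 := f_incr_le' a hm
  set y : ℝ := a.f m * S with hy
  set y2 : ℝ := a.f (m + 1) * S with hy2
  have hy0 : 0 < y := mul_pos hf0 hS
  have hyy : y < y2 := mul_lt_mul_of_pos_right (by linarith) hS
  have hsl := (G_convex a).slope_mono_adjacent (x := y / 2) (y := y) (z := y2)
    (by simp only [Set.mem_Ioi]; linarith) (by simp only [Set.mem_Ioi]; linarith)
    (by linarith) hyy
  have hd : 0 < y2 - y := by linarith
  have e1 : y - y / 2 = y / 2 := by ring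
  rw [e1, div_le_div_iff₀ (by linarith) hd] at hsl
  have hhalf := v14b_half a hy0
  have hG : 0 ≤ a.G (y / 2) - a.G y := by
    have hya : y / 2 ∈ Set.Ioi (0 : ℝ) := by simp only [Set.mem_Ioi]; linarith
    have hyb : y ∈ Set.Ioi (0 : ℝ) := hy0
    have := (G_anti a) hya hyb (by linarith)
    linarith
  -- (G y - G y2) * (y/2) ≤ (G (y/2) - G y) * (y2 - y)
  have h1 : (a.G y - a.G y2) * (y / 2) ≤ (a.G (y / 2) - a.G y) * (y2 - y) := by
    linarith
  have h2 : y2 - y ≤ 2 * S := by
    have : y2 - y = (a.f (m + 1) - a.f m) * S := by rw [hy, hy2]; ring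
    rw [this]
    exact mul_le_mul_of_nonneg_right hi2 hS.le
  have h3 : (m : ℝ) * S ≤ y := mul_le_mul_of_nonneg_right hf hS.le
  have h4 : (a.G y - a.G y2) * (y / 2) ≤ (a.G (y / 2) - a.G y) * (2 * S) :=
    h1.trans (mul_le_mul_of_nonneg_left h2 hG)
  have h5 : a.G y - a.G y2 ≤ 4 / (m : ℝ) * (a.G (y / 2) - a.G y) := by
    have h6 : (a.G y - a.G y2) * (m * S) ≤ (a.G (y / 2) - a.G y) * (4 * S) := by
      rcases le_or_gt 0 (a.G y - a.G y2) with h7 | h7
      · calc (a.G y - a.G y2) * (m * S) ≤ (a.G y - a.G y2) * y :=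
              mul_le_mul_of_nonneg_left h3 h7
          _ ≤ (a.G (y / 2) - a.G y) * (4 * S) := by linarith
      · have h8 : (a.G y - a.G y2) * (m * S) ≤ 0 :=
          mul_nonpos_of_nonpos_of_nonneg h7.le (by positivity)
        have h9 : 0 ≤ (a.G (y / 2) - a.G y) * (4 * S) := by positivity
        linarith
    rw [div_mul_eq_mul_div, le_div_iff₀ hm0]
    have h10 : ((a.G y - a.G y2) * m) * S ≤ (4 * (a.G (y / 2) - a.G y)) * S := by
      calc ((a.G y - a.G y2) * m) * S = (a.G y - a.G y2) * (m * S) := by ring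
        _ ≤ (a.G (y / 2) - a.G y) * (4 * S) := h6
        _ = (4 * (a.G (y / 2) - a.G y)) * S := by ring
    exact le_of_mul_le_mul_right h10 hS
  exact h5.trans (mul_le_mul_of_nonneg_left hhalf (by positivity))

end BTS
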