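import Pool.Agent.BTS.V14b
import Pool.Agent.BTS.V11
import Pool.Agent.BTS.G7

set_option autoImplicit false

open scoped Classical
open Finset

namespace BTS
open BTP

variable {d : ℕ} (a : Pa d)

theorem v14c_f_le (n : ℕ) : a.f n ≤ 4 * max (n : ℝ) a.H1 := by
  have hK := a.hK
  have hH1 := a.hH1
  have hKH := a.hKH
  have hH := a.hH
  set X : ℝ := max (n : ℝ) a.H1 with hX
  have h1 : (n : ℝ) ≤ X := le_max_left _ _
  have h2 : a.H1 ≤ X := le_max_right _ _
  have h3 : a.K * Real.sqrt n ≤ X := by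
    have k1 : a.K ≤ Real.sqrt X := by
      apply Real.le_sqrt_of_sq_le
      linarith
    have k2 : Real.sqrt n ≤ Real.sqrt X := Real.sqrt_le_sqrt h1
    calc a.K * Real.sqrt n ≤ Real.sqrt X * Real.sqrt X :=
          mul_le_mul k1 k2 (Real.sqrt_nonneg _) (Real.sqrt_nonneg _)
      _ = X := Real.mul_self_sqrt (by linarith)
  have h4 : a.f n = (n : ℝ) + a.K * Real.sqrt n + a.H := rfl
  rw [h4, hH]
  linarith

theorem v14c_f_two (n : ℕ) : a.f (n + 1) ≤ 2 * a.f n := by
  have hK := a.hK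
  have hH1 := a.hH1
  have hKH := a.hKH
  have hH := a.hH
  have h1 := f_incr_le a n
  have h2 := f_ge_H a n
  nlinarith

theorem v14c_exp2 : Real.exp 2 ≤ 7.5 := by
  have h := Real.exp_one_lt_d9
  have e : Real.exp 2 = Real.exp 1 ^ 2 := by rw [← Real.exp_nat_mul]; norm_num
  rw [e]
  have h0 := Real.exp_pos 1
  nlinarith

/-- [BTS-V14c] comparison.
PROOF. Let `X = max n H₁`, `y₂ = q φ(n+1) S`, `y₁ = q φ(n) S ≥ y₂/2`, `R₀ X ≤ 2 m`. By `diff_long` the second difference is at most `(4/m) min 1 (g(w/2)) ≤ (8/(R₀X)) min 1 (g(w/2))`, `w = q φ(m) S`.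
If `y₂ ≤ 1`: `8/(R₀X) ≤ e^{-2}/(320X)` as `R₀ ≥ 20000 ≥ 2560 e²`. If `y₂ > 1`: `w/2 = (φ(m)/(2φ(n))) y₁ ≥ (m/(8X)) y₁ ≥ (R₀/16)(y₂/2) ≥ 625 y₂` (`f ≤ 4X`), `g(w/2) ≤ 2 e^{-w/2} ≤ 2e^{-625 y₂}` (`gg_tail`): `(16/R₀) e^{-625y₂} ≤ e^{-2y₂}/320`.
So the second difference is at most half of the lower bound of `diff_short`. -/
theorem diff_cmp {S : ℝ} (hS : 0 < S) {n m : ℕ} (h : a.q * (a.f (n + 1) * S) ≤ a.Z)
    (hR : a.R0 * max (n : ℝ) a.H1 ≤ 2 * m) :
    a.G (a.f m * S) - a.G (a.f (m + 1) * S) +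
        Real.exp (-(2 * (a.q * (a.f (n + 1) * S)))) / (320 * max (n : ℝ) a.H1) ≤
      a.G (a.f n * S) - a.G (a.f (n + 1) * S) := by
  have hq := a.hq
  have hH1 := a.hH1
  have hR0 := a.hR0
  have hshort := diff_short a hS n h
  have hf4 := v14c_f_le a n
  have hf2 := v14c_f_two a n
  have hfm := f_ge_self a m
  set X : ℝ := max (n : ℝ) a.H1 with hX
  set y : ℝ := a.q * (a.f (n + 1) * S) with hy
  have hXH : a.H1 ≤ X := le_max_right _ _
  have hX0 : 0 < X := by linarith
  have hm1 : 10000 * X ≤ m := by nlinarith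
  have hm0 : (0 : ℝ) < m := by linarith
  have hmH : a.H1 ≤ m := by linarith
  have hlong := diff_long a hS hmH
  have hX320 : 0 < 320 * X := by linarith
  have hkey : 4 / (m : ℝ) * min 1 (gg (a.q * (a.f m * S) / 2)) ≤ Real.exp (-(2 * y)) / (320 * X) := by
    have h4m : 0 < 4 / (m : ℝ) := by positivity
    rcases le_or_gt y 1 with hy1 | hy1
    · have h1 : 4 / (m : ℝ) * min 1 (gg (a.q * (a.f m * S) / 2)) ≤ 4 / (m : ℝ) := by
        have := mul_le_mul_of_nonneg_left (min_le_left 1 (gg (a.q * (a.f m * S) / 2))) h4m.le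
        linarith
      have h2 : 4 / (m : ℝ) ≤ Real.exp (-2) / (320 * X) := by
        rw [div_le_div_iff₀ hm0 hX320]
        have h3 : 1 / 7.5 ≤ Real.exp (-2) := by
          rw [Real.exp_neg, one_div]
          exact inv_anti₀ (Real.exp_pos 2) v14c_exp2
        nlinarith
      have h3 : Real.exp (-2) / (320 * X) ≤ Real.exp (-(2 * y)) / (320 * X) := by
        apply div_le_div_of_nonneg_right _ hX320.le
        apply Real.exp_le_exp.2
        linarith
      linarith
    · have hqS : 0 < a.q * S := mul_pos hq hS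
      have hyX : y ≤ 8 * X * (a.q * S) := by
        have h1 : a.f (n + 1) ≤ 8 * X := by linarith
        have h2 := mul_le_mul_of_nonneg_right h1 hqS.le
        have h3 : y = a.f (n + 1) * (a.q * S) := by rw [hy]; ring
        rw [h3]
        exact h2
      have hw : 625 * y ≤ a.q * (a.f m * S) / 2 := by
        have h1 : 10000 * X ≤ a.f m := by linarith
        have h2 := mul_le_mul_of_nonneg_right h1 hqS.le
        have h3 : a.q * (a.f m * S) = a.f m * (a.q * S) := by ring
        rw [h3]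
        linarith
      have hg : gg (a.q * (a.f m * S) / 2) ≤ 2 * Real.exp (-(2 * y)) := by
        refine (gg_tail (by linarith)).trans ?_
        have : Real.exp (-(a.q * (a.f m * S) / 2)) ≤ Real.exp (-(2 * y)) := by
          apply Real.exp_le_exp.2
          linarith
        linarith
      have h1 : 4 / (m : ℝ) * min 1 (gg (a.q * (a.f m * S) / 2)) ≤
          4 / (m : ℝ) * (2 * Real.exp (-(2 * y))) :=
        mul_le_mul_of_nonneg_left ((min_le_right _ _).trans hg) h4m.le
      refine h1.trans ?_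
      have he := Real.exp_pos (-(2 * y))
      rw [div_mul_eq_mul_div, div_le_div_iff₀ hm0 hX320]
      nlinarith
  have e : Real.exp (-(2 * y)) / (160 * X) = 2 * (Real.exp (-(2 * y)) / (320 * X)) := by
    field_simp
    ring
  rw [e] at hshort
  linarith

end BTS
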