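import Pool.Agent.BTS.V12
import Pool.Agent.BTS.V13
import Pool.Agent.BTS.V14

set_option autoImplicit false

open scoped Classical
open Finset

namespace BTS
open BTP

variable {d : ℕ} (a : Pa d)

theorem v15a_one_add_K : 1 + a.K ≤ a.H1 := by
  have h1 := a.hKH
  have h2 := a.hK
  nlinarith

theorem v15a_f_nonneg (m : ℕ) : 0 ≤ a.f m := by
  have h := f_ge_H a m
  have h1 := a.hH
  have h2 := a.hH1
  linarith

/-- the faces of `up T j` in the gauge -/
theorem v15a_zf (T : Box d) (j : Dir d) (k : Fin d) :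
    a.zf (up T j) k = a.z T k *
      ∏ l ∈ Finset.univ.erase k, (a.f (sd (up T j) l) / a.X T l) := by
  unfold Pa.zf Pa.z face
  rw [mul_assoc, ← Finset.prod_mul_distrib]
  congr 1
  refine Finset.prod_congr rfl fun l _ => ?_
  rw [mul_div_cancel₀]
  exact (X_pos a T l).ne'

theorem v15a_other {T : Box d} {j : Dir d} (hT : Ne T) {l : Fin d} (hl : l ≠ j.1) :
    sd (up T j) l = sd T l := by
  rw [sd_up hT, Function.update_of_ne hl]

theorem v15a_self {T : Box d} {j : Dir d} (hT : Ne T) :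
    sd (up T j) j.1 = sd T j.1 + 1 := by
  rw [sd_up hT, Function.update_self]

/-- [BTS-V15a] the faces in the gauge are at most `z_m + 4^d` (after one more level).
PROOF. `zf (up T j) k ≤ z T k ∏_{l≠k} (φ(sd (up T j) l)/X_l)`, `z T k = zm T` (`zm_eq`). For `l ≠ j.1` the factor is `φ(x_l)/X_l`; for `l = j.1`: `φ(x_l + 1)/X_l ≤ (φ(x_l) + 1 + K)/X_l`.
If `zm ≤ 1/8`: all factors are `≤ 5` for one `l` and `≤ 4` for the others (`f_le`, `1 + K ≤ H₁`), `5·4^{d-2}/8 ≤ 4^d`. If `e₀A ≤ Xm`: `φ(x) ≤ X + K√X + H`, so the factors are at most `1 + K/√X + H/X + (1+K)/X ≤ 1 + K/√(e₀A) + 2H/(e₀A)` and `zm · (..)^{d} ≤ zm + 1/2` by `hIIc` and `zm ≤ Z` (`z_le_zf`). -/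
theorem zf_le_zm {T : Box d} {j : Dir d} {k : Fin d} (hT : Ne T) (hD : a.InD (up T j))
    (hk : ∀ l, a.X T l ≤ a.X T k) (hkj : k ≠ j.1)
    (hreg : a.zm T ≤ 1 / 8 ∨ a.e0 * a.A ≤ a.Xm T) :
    a.zf (up T j) k ≤ a.zm T + 4 ^ d := by
  rw [v15a_zf, ← zm_eq a hk]
  have hzm := zm_pos a T
  have hK := a.hK
  have hH1 := a.hH1
  have hH := a.hH
  have h1K := v15a_one_add_K a
  have hfac0 : ∀ l, 0 ≤ a.f (sd (up T j) l) / a.X T l := fun l =>
    div_nonneg (v15a_f_nonneg a _) (X_pos a T l).le
  rcases hreg with hz | hX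
  · have hjm : j.1 ∈ Finset.univ.erase k := Finset.mem_erase.2 ⟨hkj.symm, Finset.mem_univ _⟩
    rw [← Finset.mul_prod_erase _ _ hjm]
    have h5 : a.f (sd (up T j) j.1) / a.X T j.1 ≤ 5 := by
      rw [div_le_iff₀ (X_pos a T j.1), v15a_self hT]
      have h1 := f_incr_le a (sd T j.1)
      have h2 := f_le a T j.1
      have h3 := X_ge a T j.1
      linarith
    have h4 : ∏ l ∈ (Finset.univ.erase k).erase j.1, (a.f (sd (up T j) l) / a.X T l) ≤
        4 ^ (d - 2) := by
      have hc : ((Finset.univ.erase k).erase j.1 : Finset (Fin d)).card = d - 2 := by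
        rw [Finset.card_erase_of_mem hjm, Finset.card_erase_of_mem (Finset.mem_univ _),
          Finset.card_univ, Fintype.card_fin]
        omega
      rw [← hc, ← Finset.prod_const]
      apply Finset.prod_le_prod (fun l _ => hfac0 l)
      intro l hl
      have hlj : l ≠ j.1 := (Finset.mem_erase.1 hl).1
      rw [div_le_iff₀ (X_pos a T l), v15a_other hT hlj]
      exact f_le a T l
    have h0 : 0 ≤ ∏ l ∈ (Finset.univ.erase k).erase j.1, (a.f (sd (up T j) l) / a.X T l) :=
      Finset.prod_nonneg fun l _ => hfac0 l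
    have h6 : a.f (sd (up T j) j.1) / a.X T j.1 *
        ∏ l ∈ (Finset.univ.erase k).erase j.1, (a.f (sd (up T j) l) / a.X T l) ≤
        5 * 4 ^ (d - 2) := mul_le_mul h5 h4 h0 (by norm_num)
    have hd := a.hd
    have h7 : (4 : ℝ) ^ d = 16 * 4 ^ (d - 2) := by
      conv_lhs => rw [show d = 2 + (d - 2) by omega, pow_add]
      norm_num
    have h8 : (0 : ℝ) < 4 ^ (d - 2) := by positivity
    calc a.zm T * (a.f (sd (up T j) j.1) / a.X T j.1 *
          ∏ l ∈ (Finset.univ.erase k).erase j.1, (a.f (sd (up T j) l) / a.X T l))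
        ≤ 1 / 8 * (5 * 4 ^ (d - 2)) := mul_le_mul hz h6 (mul_nonneg (hfac0 _) h0) (by norm_num)
      _ ≤ a.zm T + 4 ^ d := by rw [h7]; linarith
  · have hA : 0 < a.e0 * a.A := mul_pos a.he0 (by linarith [a.hA])
    set E := a.e0 * a.A with hE
    have hsE : 0 < Real.sqrt E := Real.sqrt_pos.2 hA
    set r := 1 + a.K / Real.sqrt E + 2 * a.H / E with hr
    have hr1 : 1 ≤ r := by
      have h1 : 0 ≤ a.K / Real.sqrt E := div_nonneg (by linarith) hsE.le
      have h2 : 0 ≤ 2 * a.H / E := div_nonneg (by linarith) hA.le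
      linarith
    have hfac : ∀ l, a.f (sd (up T j) l) / a.X T l ≤ r := by
      intro l
      have hXl := X_pos a T l
      have hEX : E ≤ a.X T l := hX.trans ((Xm_spec a T).2 l)
      have hsX : 0 < Real.sqrt (a.X T l) := Real.sqrt_pos.2 hXl
      have h1 : a.f (sd (up T j) l) ≤ a.X T l + a.K * Real.sqrt (a.X T l) + 2 * a.H := by
        have h2 : a.f (sd (up T j) l) ≤ a.f (sd T l) + (1 + a.K) := by
          by_cases hl : l = j.1
          · subst hl
            rw [v15a_self hT]
            have := f_incr_le a (sd T j.1)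
            linarith
          · rw [v15a_other hT hl]
            linarith
        have h3 : a.f (sd T l) ≤ a.X T l + a.K * Real.sqrt (a.X T l) + a.H := by
          have h4 := X_ge_sd a T l
          have h5 : Real.sqrt ((sd T l : ℕ) : ℝ) ≤ Real.sqrt (a.X T l) := Real.sqrt_le_sqrt h4
          have h6 : a.K * Real.sqrt ((sd T l : ℕ) : ℝ) ≤ a.K * Real.sqrt (a.X T l) :=
            mul_le_mul_of_nonneg_left h5 (by linarith)
          change (sd T l : ℝ) + a.K * Real.sqrt (sd T l) + a.H ≤ _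
          linarith
        linarith
      calc a.f (sd (up T j) l) / a.X T l
          ≤ (a.X T l + a.K * Real.sqrt (a.X T l) + 2 * a.H) / a.X T l :=
            div_le_div_of_nonneg_right h1 hXl.le
        _ = 1 + a.K / Real.sqrt (a.X T l) + 2 * a.H / a.X T l := by
            have h7 : Real.sqrt (a.X T l) * Real.sqrt (a.X T l) = a.X T l :=
              Real.mul_self_sqrt hXl.le
            rw [add_div, add_div, div_self hXl.ne']
            congr 2
            rw [div_eq_div_iff hXl.ne' hsX.ne', mul_assoc, h7]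
        _ ≤ r := by
            have h8 : a.K / Real.sqrt (a.X T l) ≤ a.K / Real.sqrt E :=
              div_le_div_of_nonneg_left (by linarith) hsE (Real.sqrt_le_sqrt hEX)
            have h9 : 2 * a.H / a.X T l ≤ 2 * a.H / E :=
              div_le_div_of_nonneg_left (by linarith) hA hEX
            linarith
    have hprod : ∏ l ∈ Finset.univ.erase k, (a.f (sd (up T j) l) / a.X T l) ≤ r ^ d := by
      have hc : (Finset.univ.erase k : Finset (Fin d)).card = d - 1 := by
        rw [Finset.card_erase_of_mem (Finset.mem_univ _), Finset.card_univ, Fintype.card_fin]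
      calc ∏ l ∈ Finset.univ.erase k, (a.f (sd (up T j) l) / a.X T l)
          ≤ ∏ l ∈ Finset.univ.erase k, r :=
            Finset.prod_le_prod (fun l _ => hfac0 l) fun l _ => hfac l
        _ = r ^ (d - 1) := by rw [Finset.prod_const, hc]
        _ ≤ r ^ d := pow_le_pow_right₀ hr1 (Nat.sub_le _ _)
    have hZ : a.zm T ≤ a.Z := by
      obtain ⟨⟨i, hi⟩, -⟩ := zm_spec a T
      rw [hi]
      exact (z_le_zf a T i).trans ((InD_mono a hT (le_up T j) hD).1 i)
    have hIIc := a.hIIc
    rw [← hE, ← hr] at hIIc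
    have hrd : 1 ≤ r ^ d := one_le_pow₀ hr1
    have h4d : (1 : ℝ) ≤ 4 ^ d := one_le_pow₀ (by norm_num)
    calc a.zm T * ∏ l ∈ Finset.univ.erase k, (a.f (sd (up T j) l) / a.X T l)
        ≤ a.zm T * r ^ d := mul_le_mul_of_nonneg_left hprod hzm.le
      _ = a.zm T + a.zm T * (r ^ d - 1) := by ring
      _ ≤ a.zm T + a.Z * (r ^ d - 1) :=
          add_le_add_right (mul_le_mul_of_nonneg_right hZ (by linarith)) _
      _ ≤ a.zm T + 4 ^ d := by linarith

end BTS
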