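import Pool.Agent.BTS.V15a
import Pool.Agent.BTS.V12
import Pool.Agent.BTS.V13
import Pool.Agent.BTS.V14

set_option autoImplicit false

open scoped Classical
open Finset

namespace BTS
open BTP

variable {d : ℕ} (a : Pa d)

theorem v15b_S_le {T : Box d} {j : Dir d} {k : Fin d} (hT : Ne T) (hkj : k ≠ j.1) (m : ℕ) :
    a.q * (a.f (sd T j.1 + 1) * v1_S a.f (sd T) j.1 k m) ≤ a.zf (up T j) k := by
  have hmem : j.1 ∈ Finset.univ.erase k := Finset.mem_erase.2 ⟨hkj.symm, Finset.mem_univ _⟩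
  unfold Pa.zf
  rw [sd_up hT j, ← Finset.mul_prod_erase _ _ hmem, Function.update_self]
  refine mul_le_mul_of_nonneg_left ?_ a.hq.le
  refine mul_le_mul_of_nonneg_left ?_ ((gp a).pos _).le
  unfold v1_S
  rw [Finset.erase_right_comm]
  refine Finset.prod_le_prod (fun l _ => ((gp a).pos _).le) fun l hl => ?_
  have h1 : l ≠ j.1 := Finset.ne_of_mem_erase hl
  rw [Function.update_of_ne h1]
  exact (gp a).mono (min_le_left _ _)

/-- [BTS-V15b] the slack of the growth of a short side.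
PROOF. `i = j.1`, `x = sd T`, `n = x i`, `X_i = X T i = max n H₁`. `R₀ X_i ≤ X_k` implies `k ≠ i` and `x k = X_k` (as `X_k ≥ R₀ H₁ > H₁`). Let `m0 = ⌈x k / 2⌉` (natural number `(x k + 1)/2`); `m0 ≥ n + 1`. For `m0 ≤ m < x k`: `S = v1_S φ x i k m > 0`,
`q φ(n+1) S ≤ zf (up T j) k ≤ Z` (each factor `φ (st x m k l) ≤ φ (x l)`, `hD`), and `R₀ X_i ≤ x k ≤ 2m`: `diff_cmp` gives the hypothesis of `GP.step_gain` with
`δ = exp(-2 (zm T + 4^d))/(320 X_i)` (`zf_le_zm`). `(x k - m0) ≥ x k/2 - 1 ≥ x k/4`: `(x k - m0) δ ≥ (X_k/X_i) e^{-2·4^d} e^{-2 zm}/1280 ≥ cb (X_k/X_i) e^{-2zm}` (`hcb`).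
Finally `G(∏ φ) ≤ g(zf T i) ≤ g(z T i)` (`G_le`, `z_le_zf`, `gg_anti`), `sd_up`. -/
theorem hjb {T : Box d} {j : Dir d} {k : Fin d} (hT : Ne T) (hD : a.InD (up T j))
    (hk : ∀ l, a.X T l ≤ a.X T k) (hR : a.R0 * a.X T j.1 ≤ a.X T k)
    (hreg : a.zm T ≤ 1 / 8 ∨ a.e0 * a.A ≤ a.Xm T) :
    a.Ps (up T j) + a.cb * (a.X T k / a.X T j.1) * Real.exp (-(2 * a.zm T)) ≤
      a.Ps T + gg (a.z T j.1) := by
  have hH1 := a.hH1
  have hR0 := a.hR0
  have hXi : a.H1 ≤ a.X T j.1 := X_ge a T j.1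
  have hXi0 : 0 < a.X T j.1 := by linarith
  have hni : (sd T j.1 : ℝ) ≤ a.X T j.1 := X_ge_sd a T j.1
  have hkj : k ≠ j.1 := by
    rintro rfl
    nlinarith
  have hXk : (sd T k : ℝ) = a.X T k := by
    have h1 : a.X T k = max (sd T k : ℝ) a.H1 := rfl
    rw [h1] at hR ⊢
    rcases le_total (sd T k : ℝ) a.H1 with h | h
    · rw [max_eq_right h] at hR
      nlinarith
    · rw [max_eq_left h]
  have hbig : a.R0 * a.X T j.1 ≤ (sd T k : ℝ) := by rw [hXk]; exact hR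
  obtain ⟨m0, hm0a, hm0b⟩ : ∃ m0 : ℕ, sd T k ≤ 2 * m0 ∧ 2 * m0 ≤ sd T k + 1 :=
    ⟨(sd T k + 1) / 2, by omega, by omega⟩
  have hm0a' : (sd T k : ℝ) ≤ 2 * m0 := by exact_mod_cast hm0a
  have hm0b' : 2 * (m0 : ℝ) ≤ sd T k + 1 := by exact_mod_cast hm0b
  have hbig2 : 20000 * a.X T j.1 ≤ (sd T k : ℝ) := by nlinarith
  have h0 : sd T j.1 + 1 ≤ m0 := by
    have : ((sd T j.1 : ℝ)) + 1 ≤ m0 := by nlinarith
    exact_mod_cast this
  have hmk : m0 ≤ sd T k := by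
    have : (m0 : ℝ) ≤ sd T k := by nlinarith
    exact_mod_cast this
  have hzz := zf_le_zm a hT hD hk hkj hreg
  have hstep := GP.step_gain (gp a) (sd T) hkj h0 hmk
    (δ := Real.exp (-(2 * (a.zm T + 4 ^ d))) / (320 * a.X T j.1)) (by positivity) (by
      intro m hm1 hm2
      have hS := v1_S_pos (gp a) (sd T) j.1 k m
      have h1 := v15b_S_le a hT hkj m
      have hm1' : (m0 : ℝ) ≤ m := by exact_mod_cast hm1
      have h2 := diff_cmp a hS (n := sd T j.1) (m := m) (h1.trans (hD.1 k)) (by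
        have h3 : max (sd T j.1 : ℝ) a.H1 = a.X T j.1 := rfl
        rw [h3]
        linarith)
      have h3 : max (sd T j.1 : ℝ) a.H1 = a.X T j.1 := rfl
      rw [h3] at h2
      have h4 : Real.exp (-(2 * (a.zm T + 4 ^ d))) / (320 * a.X T j.1) ≤
          Real.exp (-(2 * (a.q * (a.f (sd T j.1 + 1) * v1_S a.f (sd T) j.1 k m)))) /
            (320 * a.X T j.1) := by
        refine div_le_div_of_nonneg_right (Real.exp_le_exp.2 ?_) (by positivity)
        linarith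
      linarith)
  have hG : a.G (∏ l ∈ Finset.univ.erase j.1, a.f (sd T l)) ≤ gg (a.z T j.1) := by
    have h1 : 0 < ∏ l ∈ Finset.univ.erase j.1, a.f (sd T l) :=
      Finset.prod_pos fun _ _ => (gp a).pos _
    refine (G_le a h1).trans ?_
    exact gg_anti (z_pos a T j.1) (z_le_zf a T j.1)
  have hPs : a.Ps (up T j) = Psi a.G a.f (Function.update (sd T) j.1 (sd T j.1 + 1)) := by
    unfold Pa.Ps
    rw [sd_up hT j]
  have hfin : a.cb * (a.X T k / a.X T j.1) * Real.exp (-(2 * a.zm T)) ≤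
      ((sd T k : ℝ) - m0) * (Real.exp (-(2 * (a.zm T + 4 ^ d))) / (320 * a.X T j.1)) := by
    rw [a.hcb, ← hXk]
    have h1 : Real.exp (-(2 * (a.zm T + 4 ^ d))) =
        Real.exp (-(2 * 4 ^ d)) * Real.exp (-(2 * a.zm T)) := by
      rw [← Real.exp_add]
      congr 1
      ring
    rw [h1]
    have h2 : (sd T k : ℝ) / 4 ≤ (sd T k : ℝ) - m0 := by nlinarith
    have h3 : 0 < Real.exp (-(2 * 4 ^ d)) * Real.exp (-(2 * a.zm T)) := by positivity
    have h4 : Real.exp (-(2 * 4 ^ d)) / 2400 * ((sd T k : ℝ) / a.X T j.1) *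
        Real.exp (-(2 * a.zm T)) =
        (Real.exp (-(2 * 4 ^ d)) * Real.exp (-(2 * a.zm T))) / a.X T j.1 *
          ((sd T k : ℝ) / 2400) := by
      ring
    have h5 : ((sd T k : ℝ) - m0) * (Real.exp (-(2 * 4 ^ d)) * Real.exp (-(2 * a.zm T)) /
        (320 * a.X T j.1)) =
        (Real.exp (-(2 * 4 ^ d)) * Real.exp (-(2 * a.zm T))) / a.X T j.1 *
          (((sd T k : ℝ) - m0) / 320) := by
      field_simp
    rw [h4, h5]
    refine mul_le_mul_of_nonneg_left ?_ (by positivity)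
    have h6 : (0 : ℝ) ≤ (sd T k : ℝ) := Nat.cast_nonneg _
    linarith
  have hPs2 : a.Ps T = Psi a.G a.f (sd T) := rfl
  rw [hPs, hPs2]
  linarith

end BTS
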