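import Pool.Agent.BTS.V15
import Pool.Agent.BTS.V17

set_option autoImplicit false

open scoped Classical
open Finset

namespace BTS
open BTP

variable {d : ℕ} (a : Pa d)

theorem v18a_C3 : 1 ≤ a.C3 := by
  have h1 := a.hC3
  have h2 := a.hka
  have hd : (0 : ℝ) ≤ (d : ℝ) := Nat.cast_nonneg d
  have hd2 : (2 : ℝ) ≤ (d : ℝ) := by exact_mod_cast a.hd
  nlinarith

theorem v18a_sqrt_Xm (T : Box d) : 10 ≤ Real.sqrt (a.Xm T) := by
  have h1 : (100 : ℝ) ≤ a.Xm T := le_trans a.hH1 (Xm_ge a T)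
  have h2 : (10 : ℝ) = Real.sqrt 100 := by
    rw [show (100 : ℝ) = 10 ^ 2 by norm_num, Real.sqrt_sq (by norm_num)]
  rw [h2]
  exact Real.sqrt_le_sqrt h1

/-- [BTS-V18a] PROOF. If `zm ≤ 1/8`: `e^{1/8} ≤ √100 ≤ √Xm`. Otherwise `shape`: `Xm ≥ e₀A`, and `zm ≤ Z` (`z_le_zf`, `InD`), `e^Z ≤ cb √(e₀A)/(C₃(1+Z)) ≤ √(e₀A)` (`hIIb`, `cb ≤ 1 ≤ C₃`). -/
theorem exp_zm_le {T : Box d} (hT : Ne T) (hD : a.InD T) (hP : a.Ps T < 2 * (d * a.A * lam d)) :
    Real.exp (a.zm T) ≤ Real.sqrt (a.Xm T) := by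
  rcases le_total (a.zm T) (1 / 8) with hz | hz
  · have h1 : Real.exp (a.zm T) ≤ Real.exp 1 := Real.exp_le_exp.2 (by linarith)
    have h2 : Real.exp 1 < 3 := lt_trans Real.exp_one_lt_d9 (by norm_num)
    have h3 := v18a_sqrt_Xm a T
    linarith
  · have h1 := shape a hT hz hP
    obtain ⟨⟨i, hi⟩, -⟩ := zm_spec a T
    have h2 : a.zm T ≤ a.Z := by
      rw [hi]
      exact le_trans (z_le_zf a T i) (hD.1 i)
    have hZ := a.hZ
    have hC := v18a_C3 a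
    have h3 : a.cb ≤ 1 := by
      rw [a.hcb]
      have h4 : Real.exp (-(2 * 4 ^ d)) ≤ 1 := by
        rw [Real.exp_le_one_iff]
        have : (0 : ℝ) ≤ 4 ^ d := by positivity
        linarith
      linarith
    have h5 := a.hIIb
    have hs : 0 ≤ Real.sqrt (a.e0 * a.A) := Real.sqrt_nonneg _
    have h6 : Real.exp a.Z ≤ a.C3 * (1 + a.Z) * Real.exp a.Z := by
      have h7 : 1 ≤ a.C3 * (1 + a.Z) := by nlinarith
      nlinarith [Real.exp_pos a.Z]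
    calc Real.exp (a.zm T) ≤ Real.exp a.Z := Real.exp_le_exp.2 h2
      _ ≤ a.C3 * (1 + a.Z) * Real.exp a.Z := h6
      _ ≤ a.cb * Real.sqrt (a.e0 * a.A) := h5
      _ ≤ 1 * Real.sqrt (a.e0 * a.A) := mul_le_mul_of_nonneg_right h3 hs
      _ = Real.sqrt (a.e0 * a.A) := one_mul _
      _ ≤ Real.sqrt (a.Xm T) := Real.sqrt_le_sqrt h1

/-- [BTS-V18a] the slack inequality, first regime, comparable sides.
PROOF. `z_i = zm X_k/X_i ≤ R₀/8` (`z_mul_X`, `zm_eq`). Let `l ≠ i` minimise `X_l` among `l ≠ i`: `X_l ≤ R₀ Xm` (if `Xm` is attained at some `l ≠ i` then `X_l = Xm`; otherwise `X_i = Xm` and `X_l ≤ X_k < R₀ X_i`). `zf_ge`: `zf ≥ z_i (1 + κ)`, `κ = K/√X_l ≤ 1`. `Ps_up_direct`, `gg_anti`, `gg_gain2` with `R = R₀/8`: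
`Ps (up T j) ≤ Ps T + g(z_i) - κ e^{-R₀/2}/20`, `κ ≥ K/√(R₀ Xm)`. `rq = C₃ (1+z_i) e^{-zm}/√Xm ≤ C₃ (1 + R₀)/√Xm`. `hIa`. -/
theorem slack_Ia {T : Box d} {j : Dir d} {k : Fin d} (hT : Ne T) (hD : a.InD (up T j))
    (hk : ∀ l, a.X T l ≤ a.X T k) (hR : a.X T k < a.R0 * a.X T j.1) (hz : a.zm T ≤ 1 / 8) :
    a.Ps (up T j) + a.rq T j.1 ≤ a.Ps T + gg (a.z T j.1) := by
  have hR0 := a.hR0
  have hC := v18a_C3 a
  have hK := a.hK
  have hXi := X_pos a T j.1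
  have hXk := X_pos a T k
  have hzi := z_pos a T j.1
  have hzk : a.zm T = a.z T k := zm_eq a hk
  have hzX := z_mul_X a T j.1 k
  have hXm : 0 < a.Xm T := lt_of_lt_of_le (by linarith [a.hH1]) (Xm_ge a T)
  have hziR : a.z T j.1 ≤ a.R0 / 8 := by
    have h1 : a.z T j.1 * a.X T j.1 ≤ 1 / 8 * (a.R0 * a.X T j.1) := by
      rw [hzX, ← hzk]
      exact mul_le_mul hz hR.le hXk.le (by norm_num)
    have h2 : a.z T j.1 * a.X T j.1 ≤ (a.R0 / 8) * a.X T j.1 := by linarith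
    exact le_of_mul_le_mul_right h2 hXi
  -- a side `l ≠ i` with `X_l ≤ R₀ Xm`
  obtain ⟨l, hl, hlX⟩ : ∃ l, l ≠ j.1 ∧ a.X T l ≤ a.R0 * a.Xm T := by
    obtain ⟨⟨i0, hi0⟩, hmin⟩ := Xm_spec a T
    by_cases h : i0 = j.1
    · have hd := a.hd
      obtain ⟨l, hl⟩ : ∃ l : Fin d, l ≠ j.1 := by
        by_cases h0 : (⟨0, by omega⟩ : Fin d) = j.1
        · refine ⟨⟨1, by omega⟩, ?_⟩
          rw [← h0]
          intro h1
          simpa using congrArg Fin.val h1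
        · exact ⟨_, h0⟩
      refine ⟨l, hl, ?_⟩
      calc a.X T l ≤ a.X T k := hk l
        _ ≤ a.R0 * a.X T j.1 := hR.le
        _ = a.R0 * a.Xm T := by rw [hi0, h]
    · refine ⟨i0, h, ?_⟩
      rw [← hi0]
      nlinarith
  have hXl := X_pos a T l
  set κ := a.K / Real.sqrt (a.X T l) with hκ
  have hsl : 0 < Real.sqrt (a.X T l) := Real.sqrt_pos.2 hXl
  have hκ0 : 0 ≤ κ := div_nonneg (by linarith) hsl.le
  have hκ1 : κ ≤ 1 := by
    rw [hκ, div_le_one hsl]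
    apply Real.le_sqrt_of_sq_le
    exact le_trans a.hKH (X_ge a T l)
  have hzf := zf_ge a T hl
  have hInD : a.InD T := InD_mono a hT (le_up T j) hD
  have h1 := Ps_up_direct a hT j (hInD.1 j.1)
  have hzfp := zf_pos a T j.1
  have hc1 : 0 ≤ a.c1 / (1 + a.zf T j.1) ^ 2 := div_nonneg a.hc1.le (by positivity)
  have hpos : 0 < a.z T j.1 * (1 + κ) := by positivity
  have h2 := gg_anti hpos hzf
  have h3 := gg_gain2 hzi hziR hκ0 hκ1
  have h4 : -(4 * (a.R0 / 8)) = -(a.R0 / 2) := by ring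
  rw [h4] at h3
  -- the required slack
  have hsm : 0 < Real.sqrt (a.Xm T) := Real.sqrt_pos.2 hXm
  have hrq : a.rq T j.1 ≤ a.C3 * (1 + a.R0) / Real.sqrt (a.Xm T) := by
    unfold Pa.rq
    apply div_le_div_of_nonneg_right _ hsm.le
    have h5 : Real.exp (-(a.zm T)) ≤ 1 := by
      rw [Real.exp_le_one_iff]
      linarith [zm_pos a T]
    have h6 : 0 ≤ a.C3 * (1 + a.z T j.1) := by positivity
    calc a.C3 * (1 + a.z T j.1) * Real.exp (-(a.zm T)) ≤ a.C3 * (1 + a.z T j.1) * 1 :=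
          mul_le_mul_of_nonneg_left h5 h6
      _ = a.C3 * (1 + a.z T j.1) := mul_one _
      _ ≤ a.C3 * (1 + a.R0) := mul_le_mul_of_nonneg_left (by linarith) (by linarith)
  have hκ2 : a.K / (Real.sqrt a.R0 * Real.sqrt (a.Xm T)) ≤ κ := by
    rw [hκ]
    apply div_le_div_of_nonneg_left (by linarith) hsl
    rw [← Real.sqrt_mul (by linarith)]
    exact Real.sqrt_le_sqrt hlX
  have hsR : 0 < Real.sqrt a.R0 := Real.sqrt_pos.2 (by linarith)
  have h7 : a.C3 * (1 + a.R0) / Real.sqrt (a.Xm T) ≤ κ * Real.exp (-(a.R0 / 2)) / 20 := by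
    have h8 : a.C3 * (1 + a.R0) / Real.sqrt (a.Xm T) ≤
        a.K / (Real.sqrt a.R0 * Real.sqrt (a.Xm T)) * Real.exp (-(a.R0 / 2)) / 20 := by
      have h9 := a.hIa
      have h10 : Real.exp (-(a.R0 / 2)) = (Real.exp (a.R0 / 2))⁻¹ := Real.exp_neg _
      rw [h10]
      have hE := Real.exp_pos (a.R0 / 2)
      rw [div_mul_eq_mul_div, div_div, div_le_div_iff₀ hsm (by positivity)]
      have h11 : a.C3 * (1 + a.R0) * (Real.sqrt a.R0 * Real.sqrt (a.Xm T) * 20) *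
          Real.exp (a.R0 / 2) ≤ a.K * Real.sqrt (a.Xm T) := by
        have : a.C3 * (1 + a.R0) * (Real.sqrt a.R0 * Real.sqrt (a.Xm T) * 20) *
          Real.exp (a.R0 / 2) = (20 * a.C3 * (1 + a.R0) * Real.sqrt a.R0 * Real.exp (a.R0 / 2)) *
            Real.sqrt (a.Xm T) := by ring
        rw [this]
        exact mul_le_mul_of_nonneg_right h9 hsm.le
      calc a.C3 * (1 + a.R0) * (Real.sqrt a.R0 * Real.sqrt (a.Xm T) * 20)
          = (a.C3 * (1 + a.R0) * (Real.sqrt a.R0 * Real.sqrt (a.Xm T) * 20) *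
            Real.exp (a.R0 / 2)) * (Real.exp (a.R0 / 2))⁻¹ := by
            rw [mul_inv_cancel_right₀ hE.ne']
        _ ≤ (a.K * Real.sqrt (a.Xm T)) * (Real.exp (a.R0 / 2))⁻¹ :=
            mul_le_mul_of_nonneg_right h11 (inv_nonneg.2 hE.le)
        _ = a.K * (Real.exp (a.R0 / 2))⁻¹ * Real.sqrt (a.Xm T) := by ring
    refine h8.trans ?_
    apply div_le_div_of_nonneg_right _ (by norm_num)
    exact mul_le_mul_of_nonneg_right hκ2 (Real.exp_pos _).le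
  linarith

end BTS
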