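import Pool.Agent.BTS.V18a
import Pool.Agent.BTS.V15
import Pool.Agent.BTS.V17

set_option autoImplicit false

open scoped Classical
open Finset

namespace BTS
open BTP

variable {d : ℕ} (a : Pa d)

theorem v18b_C3 : 0 < a.C3 := by
  have h1 := a.hC3
  have h2 := a.hka
  have h3 : (0 : ℝ) ≤ d := Nat.cast_nonneg d
  have h4 : 0 ≤ 3000 * (d : ℝ) ^ 2 := by positivity
  have h5 : (2 : ℝ) ≤ d := by exact_mod_cast a.hd
  linarith

theorem v18b_cb : 0 < a.cb := by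
  rw [a.hcb]
  positivity

/-- [BTS-V18b] second regime, comparable sides.
PROOF. `Ps_up_direct`, `g(zf) ≤ g(z_i)`, `zf ≤ 4^{d-1} z_i ≤ 4^d R₀ zm` (`zf_le`; `z_i = zm X_k/X_i ≤ R₀ zm`), so the slack is at least `c₁/(1 + 4^d R₀ zm)²`; `rq ≤ C₃ (1 + R₀ zm) e^{-zm}/√(e₀A)`. `hIIa` with `z = zm`. -/
theorem slack_IIa {T : Box d} {j : Dir d} {k : Fin d} (hT : Ne T) (hD : a.InD (up T j))
    (hk : ∀ l, a.X T l ≤ a.X T k) (hR : a.X T k < a.R0 * a.X T j.1) (hX : a.e0 * a.A ≤ a.Xm T) :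
    a.Ps (up T j) + a.rq T j.1 ≤ a.Ps T + gg (a.z T j.1) := by
  have hDT : a.InD T := InD_mono a hT (le_up T j) hD
  have h1 := Ps_up_direct a hT j (hDT.1 j.1)
  have h2 : gg (a.zf T j.1) ≤ gg (a.z T j.1) := gg_anti (z_pos a T j.1) (z_le_zf a T j.1)
  have hzm : a.zm T = a.z T k := zm_eq a hk
  have hzm0 : 0 < a.zm T := zm_pos a T
  have hR0 : 0 < a.R0 := by have := a.hR0; linarith
  have hXi : 0 < a.X T j.1 := X_pos a T j.1
  have hzi0 : 0 < a.z T j.1 := z_pos a T j.1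
  -- `z_i ≤ R₀ zm`
  have hzi : a.z T j.1 ≤ a.R0 * a.zm T := by
    have h3 := z_mul_X a T j.1 k
    rw [← hzm] at h3
    have h4 : a.z T j.1 * a.X T j.1 ≤ (a.R0 * a.zm T) * a.X T j.1 := by
      rw [h3]
      nlinarith
    exact le_of_mul_le_mul_right h4 hXi
  have hzf : a.zf T j.1 ≤ 4 ^ d * a.R0 * a.zm T := by
    have h3 := zf_le a T j.1
    have h4 : (4 : ℝ) ^ (d - 1) ≤ 4 ^ d := pow_le_pow_right₀ (by norm_num) (Nat.sub_le d 1)
    calc a.zf T j.1 ≤ 4 ^ (d - 1) * a.z T j.1 := h3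
      _ ≤ 4 ^ d * (a.R0 * a.zm T) := mul_le_mul h4 hzi hzi0.le (by positivity)
      _ = 4 ^ d * a.R0 * a.zm T := by ring
  have hzf0 : 0 < a.zf T j.1 := zf_pos a T j.1
  have hc1 := a.hc1
  have h5 : a.c1 / (1 + 4 ^ d * a.R0 * a.zm T) ^ 2 ≤ a.c1 / (1 + a.zf T j.1) ^ 2 := by
    apply div_le_div_of_nonneg_left hc1.le (by positivity)
    exact pow_le_pow_left₀ (by linarith) (by linarith) 2
  have hC3 := v18b_C3 a
  have he0 : 0 < a.e0 * a.A := mul_pos a.he0 (by have := a.hA; linarith)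
  have hs0 : 0 < Real.sqrt (a.e0 * a.A) := Real.sqrt_pos.2 he0
  have hsX : Real.sqrt (a.e0 * a.A) ≤ Real.sqrt (a.Xm T) := Real.sqrt_le_sqrt hX
  have h6 : a.rq T j.1 ≤ a.c1 / (1 + 4 ^ d * a.R0 * a.zm T) ^ 2 := by
    have h7 := a.hIIa (a.zm T) hzm0.le
    have h8 : a.rq T j.1 ≤ a.C3 * (1 + a.R0 * a.zm T) * Real.exp (-(a.zm T)) /
        Real.sqrt (a.e0 * a.A) := by
      show a.C3 * (1 + a.z T j.1) * Real.exp (-(a.zm T)) / Real.sqrt (a.Xm T) ≤ _
      apply div_le_div₀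
      · positivity
      · apply mul_le_mul_of_nonneg_right _ (Real.exp_pos _).le
        exact mul_le_mul_of_nonneg_left (by linarith) hC3.le
      · exact hs0
      · exact hsX
    refine h8.trans ?_
    have h9 : 0 < 1 + 4 ^ d * a.R0 * a.zm T := by positivity
    rw [div_le_div_iff₀ hs0 (pow_pos h9 2)]
    calc a.C3 * (1 + a.R0 * a.zm T) * Real.exp (-(a.zm T)) * (1 + 4 ^ d * a.R0 * a.zm T) ^ 2
        = a.C3 * (1 + a.R0 * a.zm T) * (1 + 4 ^ d * a.R0 * a.zm T) ^ 2 * Real.exp (-(a.zm T)) := by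
          ring
      _ ≤ a.c1 * Real.sqrt (a.e0 * a.A) := h7
  linarith

theorem v18b_cases {R zm s C3 cb : ℝ} (hR : 20000 ≤ R) (hzm : 0 < zm) (hC3 : 0 < C3)
    (hcb : 0 < cb) (hs : 0 < s)
    (h : (zm ≤ 1 / 8 ∧ 2 * C3 ≤ cb * s) ∨ C3 * (1 + zm) * Real.exp zm ≤ cb * s) :
    C3 * (1 + zm * R) * Real.exp (-zm) / s ≤ cb * R * Real.exp (-(2 * zm)) := by
  rw [div_le_iff₀ hs]
  have hE : Real.exp (-(2 * zm)) = Real.exp (-zm) * Real.exp (-zm) := by
    rw [← Real.exp_add]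
    congr 1
    ring
  have hp : 0 < Real.exp (-zm) := Real.exp_pos _
  rcases h with ⟨h1, h2⟩ | h1
  · have h3 : 1 / 2 ≤ Real.exp (-zm) := by
      have := Real.add_one_le_exp (-zm)
      linarith
    rw [hE]
    have h4 : C3 * (1 + zm * R) ≤ C3 * (R / 4) := by
      apply mul_le_mul_of_nonneg_left _ hC3.le
      nlinarith
    have h5 : C3 * (R / 4) ≤ cb * s * (R / 8) := by nlinarith
    have h6 : cb * s * (R / 8) ≤ cb * s * R * Real.exp (-zm) := by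
      have h7 : 0 < cb * s * R := by positivity
      nlinarith
    calc C3 * (1 + zm * R) * Real.exp (-zm) ≤ (cb * s * R * Real.exp (-zm)) * Real.exp (-zm) :=
          mul_le_mul_of_nonneg_right (by linarith) hp.le
      _ = cb * R * (Real.exp (-zm) * Real.exp (-zm)) * s := by ring
  · rw [hE]
    have h3 : Real.exp zm * Real.exp (-zm) = 1 := by
      rw [← Real.exp_add]
      simp
    have h4 : C3 * (1 + zm * R) ≤ C3 * (1 + zm) * R := by
      have : 1 + zm * R ≤ (1 + zm) * R := by nlinarith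
      nlinarith
    have h5 : C3 * (1 + zm) ≤ cb * s * Real.exp (-zm) := by
      have h6 := mul_le_mul_of_nonneg_right h1 hp.le
      have h7 : C3 * (1 + zm) * Real.exp zm * Real.exp (-zm) = C3 * (1 + zm) := by
        rw [mul_assoc, h3, mul_one]
      rwa [h7] at h6
    have hR0 : 0 < R := by linarith
    calc C3 * (1 + zm * R) * Real.exp (-zm) ≤ (C3 * (1 + zm) * R) * Real.exp (-zm) :=
          mul_le_mul_of_nonneg_right h4 hp.le
      _ ≤ ((cb * s * Real.exp (-zm)) * R) * Real.exp (-zm) :=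
          mul_le_mul_of_nonneg_right (mul_le_mul_of_nonneg_right h5 hR0.le) hp.le
      _ = cb * R * (Real.exp (-zm) * Real.exp (-zm)) * s := by ring

/-- [BTS-V18b] a short side. PROOF. `hjb`, `R = X_k/X_i ≥ R₀`, `z_i = zm R`.
If `zm ≤ 1/8`: `rq ≤ C₃ (1 + R/8)/√H₁ ≤ C₃ R/(4√H₁) ≤ cb R/8` (`hIb`) and `e^{-2zm} ≥ e^{-1/4} ≥ 1/8`.
Otherwise `Xm ≥ e₀A`: `rq ≤ C₃ R (1 + zm) e^{-zm}/√(e₀A) ≤ cb R e^{-2zm}` by `hIIb` (`zm ≤ Z`: `C₃ (1+zm) e^{zm} ≤ cb √(e₀A)`). -/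
theorem slack_b {T : Box d} {j : Dir d} {k : Fin d} (hT : Ne T) (hD : a.InD (up T j))
    (hk : ∀ l, a.X T l ≤ a.X T k) (hR : a.R0 * a.X T j.1 ≤ a.X T k)
    (hreg : a.zm T ≤ 1 / 8 ∨ a.e0 * a.A ≤ a.Xm T) :
    a.Ps (up T j) + a.rq T j.1 ≤ a.Ps T + gg (a.z T j.1) := by
  have h1 := hjb a hT hD hk hR hreg
  suffices h2 : a.rq T j.1 ≤ a.cb * (a.X T k / a.X T j.1) * Real.exp (-(2 * a.zm T)) by linarith
  have hDT : a.InD T := InD_mono a hT (le_up T j) hD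
  have hzm : a.zm T = a.z T k := zm_eq a hk
  have hzm0 : 0 < a.zm T := zm_pos a T
  have hXi : 0 < a.X T j.1 := X_pos a T j.1
  have hXm : 0 < a.Xm T := by
    have := Xm_ge a T
    have := a.hH1
    linarith
  have hC3 := v18b_C3 a
  have hcb := v18b_cb a
  have hR' : 20000 ≤ a.X T k / a.X T j.1 := by
    rw [le_div_iff₀ hXi]
    have := a.hR0
    nlinarith
  have hzi : a.z T j.1 = a.zm T * (a.X T k / a.X T j.1) := by
    have h3 := z_mul_X a T j.1 k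
    rw [hzm, ← mul_div_assoc, ← h3]
    field_simp
  have hs : 0 < Real.sqrt (a.Xm T) := Real.sqrt_pos.2 hXm
  show a.C3 * (1 + a.z T j.1) * Real.exp (-(a.zm T)) / Real.sqrt (a.Xm T) ≤ _
  rw [hzi]
  refine v18b_cases hR' hzm0 hC3 hcb hs ?_
  rcases hreg with h3 | h3
  · left
    refine ⟨h3, a.hIb.trans (mul_le_mul_of_nonneg_left ?_ hcb.le)⟩
    exact Real.sqrt_le_sqrt (Xm_ge a T)
  · right
    have hZ : a.zm T ≤ a.Z :=
      ((zm_spec a T).2 j.1).trans ((z_le_zf a T j.1).trans (hDT.1 j.1))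
    have h4 : a.C3 * (1 + a.zm T) * Real.exp (a.zm T) ≤ a.C3 * (1 + a.Z) * Real.exp a.Z := by
      apply mul_le_mul
      · exact mul_le_mul_of_nonneg_left (by linarith) hC3.le
      · exact Real.exp_le_exp.2 hZ
      · exact (Real.exp_pos _).le
      · have := a.hZ
        exact mul_nonneg hC3.le (by linarith)
    refine h4.trans (a.hIIb.trans (mul_le_mul_of_nonneg_left ?_ hcb.le))
    exact Real.sqrt_le_sqrt h3

/-- [BTS-V18b] the slack inequality. PROOF. The four cases; `shape` if `zm > 1/8`. -/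
theorem slack {T : Box d} (j : Dir d) (hT : Ne T) (hD : a.InD (up T j))
    (hP : a.Ps T < 2 * (d * a.A * lam d)) :
    a.Ps (up T j) + a.rq T j.1 ≤ a.Ps T + gg (a.z T j.1) := by
  obtain ⟨k, -, hk⟩ := Finset.exists_max_image (Finset.univ : Finset (Fin d)) (a.X T)
    ⟨j.1, Finset.mem_univ _⟩
  have hk' : ∀ l, a.X T l ≤ a.X T k := fun l => hk l (Finset.mem_univ l)
  have hreg : a.zm T ≤ 1 / 8 ∨ a.e0 * a.A ≤ a.Xm T := by
    rcases le_total (a.zm T) (1 / 8) with h | h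
    · exact Or.inl h
    · exact Or.inr (shape a hT h hP)
  rcases lt_or_ge (a.X T k) (a.R0 * a.X T j.1) with hR | hR
  · rcases hreg with h | h
    · exact slack_Ia a hT hD hk' hR h
    · exact slack_IIa a hT hD hk' hR h
  · exact slack_b a hT hD hk' hR hreg

end BTS
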