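import Pool.Agent.BTS.V20a
import Pool.Agent.BTS.V11
import Pool.Agent.BTS.G7
import Pool.Agent.BTP.G5

set_option autoImplicit false

open scoped Classical
open Finset

namespace BTS
open BTP

variable {d : ℕ} (a : Pa d)

theorem v20b_sqrt {A : ℝ} (hA : 0 ≤ A) (M : ℕ) :
    ∑ m ∈ Finset.Icc 1 M, (if (m : ℝ) ≤ A then 1 / Real.sqrt m else 0) ≤
      2 * Real.sqrt (min (M : ℝ) A) := by
  induction M with
  | zero => simp [hA]
  | succ M ih =>
    rw [Finset.sum_Icc_succ_top (by omega)]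
    by_cases h : ((M + 1 : ℕ) : ℝ) ≤ A
    · rw [if_pos h, min_eq_left h]
      have hM : (M : ℝ) ≤ A := by
        push_cast at h
        linarith
      rw [min_eq_left hM] at ih
      have hs0 : 0 ≤ Real.sqrt (M : ℝ) := Real.sqrt_nonneg _
      have hs1 : 0 < Real.sqrt ((M + 1 : ℕ) : ℝ) := Real.sqrt_pos.2 (by positivity)
      have hle : Real.sqrt (M : ℝ) ≤ Real.sqrt ((M + 1 : ℕ) : ℝ) :=
        Real.sqrt_le_sqrt (by push_cast; linarith)
      have e0 : Real.sqrt (M : ℝ) * Real.sqrt (M : ℝ) = M :=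
        Real.mul_self_sqrt (Nat.cast_nonneg _)
      have e1 : Real.sqrt ((M + 1 : ℕ) : ℝ) * Real.sqrt ((M + 1 : ℕ) : ℝ) = ((M + 1 : ℕ) : ℝ) :=
        Real.mul_self_sqrt (Nat.cast_nonneg _)
      have key : 1 / Real.sqrt ((M + 1 : ℕ) : ℝ) ≤
          2 * Real.sqrt ((M + 1 : ℕ) : ℝ) - 2 * Real.sqrt (M : ℝ) := by
        rw [div_le_iff₀ hs1]
        push_cast at e1 ⊢
        push_cast at hle hs1
        nlinarith [mul_self_nonneg (Real.sqrt ((M : ℝ) + 1) - Real.sqrt (M : ℝ))]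
      linarith
    · rw [if_neg h, add_zero]
      refine ih.trans ?_
      have : min (M : ℝ) A ≤ min ((M + 1 : ℕ) : ℝ) A :=
        min_le_min_right A (by push_cast; linarith)
      have := Real.sqrt_le_sqrt this
      linarith

theorem v20b_inv {A : ℝ} (hA : 1 ≤ A) (M : ℕ) :
    ∑ m ∈ Finset.Icc 1 (M + 1), (if (m : ℝ) ≤ A then 1 / (m : ℝ) else 0) ≤
      1 + Real.log (min ((M + 1 : ℕ) : ℝ) A) := by
  induction M with
  | zero =>
    simp [hA]
  | succ M ih =>
    rw [Finset.sum_Icc_succ_top (by omega)]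
    by_cases h : ((M + 1 + 1 : ℕ) : ℝ) ≤ A
    · rw [if_pos h, min_eq_left h]
      have hM : ((M + 1 : ℕ) : ℝ) ≤ A := by
        push_cast at h ⊢
        linarith
      rw [min_eq_left hM] at ih
      have hp : (0 : ℝ) < ((M + 1 : ℕ) : ℝ) := by positivity
      have hp2 : (0 : ℝ) < ((M + 1 + 1 : ℕ) : ℝ) := by positivity
      have key := Real.log_le_sub_one_of_pos (x := ((M + 1 : ℕ) : ℝ) / ((M + 1 + 1 : ℕ) : ℝ))
        (by positivity)
      rw [Real.log_div hp.ne' hp2.ne'] at key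
      have e1 : ((M + 1 : ℕ) : ℝ) / ((M + 1 + 1 : ℕ) : ℝ) - 1 = -(1 / ((M + 1 + 1 : ℕ) : ℝ)) := by
        rw [div_sub_one hp2.ne']
        push_cast
        rw [neg_eq_neg_one_mul, mul_one_div]
        congr 1
        ring
      rw [e1] at key
      linarith
    · rw [if_neg h, add_zero]
      refine ih.trans ?_
      have h0 : 0 < min ((M + 1 : ℕ) : ℝ) A := lt_min (by positivity) (by linarith)
      have : min ((M + 1 : ℕ) : ℝ) A ≤ min ((M + 1 + 1 : ℕ) : ℝ) A :=
        min_le_min_right A (by push_cast; linarith)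
      have := Real.log_le_log h0 this
      linarith

theorem v20b_sq {A : ℝ} (hA : 2 ≤ A) (M : ℕ) :
    ∑ m ∈ Finset.Icc 1 M, (if (m : ℝ) ≤ A then 0 else 1 / (m : ℝ) ^ 2) ≤
      1 / (A - 1) - 1 / max (M : ℝ) (A - 1) := by
  have hA1 : 0 < A - 1 := by linarith
  induction M with
  | zero =>
    simp only [Finset.Icc_eq_empty_of_lt (show (0 : ℕ) < 1 by norm_num), Finset.sum_empty,
      Nat.cast_zero]
    rw [max_eq_right hA1.le, sub_self]
  | succ M ih =>
    rw [Finset.sum_Icc_succ_top (by omega)]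
    by_cases h : ((M + 1 : ℕ) : ℝ) ≤ A
    · rw [if_pos h, add_zero]
      refine ih.trans ?_
      have h0 : 0 < max (M : ℝ) (A - 1) := lt_max_of_lt_right hA1
      have : max (M : ℝ) (A - 1) ≤ max ((M + 1 : ℕ) : ℝ) (A - 1) :=
        max_le_max_right _ (by push_cast; linarith)
      have := one_div_le_one_div_of_le h0 this
      linarith
    · rw [if_neg h]
      rw [not_le] at h
      push_cast at h
      have hM1 : A - 1 < M := by linarith
      have hM0 : (0 : ℝ) < M := by linarith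
      rw [max_eq_left hM1.le] at ih
      have hmax : max ((M + 1 : ℕ) : ℝ) (A - 1) = ((M + 1 : ℕ) : ℝ) :=
        max_eq_left (by push_cast; linarith)
      rw [hmax]
      push_cast
      have key : 1 / ((M : ℝ) + 1) ^ 2 ≤ 1 / (M : ℝ) - 1 / ((M : ℝ) + 1) := by
        rw [div_sub_div _ _ hM0.ne' (by positivity), div_le_div_iff₀ (by positivity) (by positivity)]
        nlinarith
      linarith

theorem v20b_card {A : ℝ} (hA : 0 ≤ A) (M : ℕ) :
    ∑ m ∈ Finset.Icc 1 M, (if (m : ℝ) ≤ A then (1 : ℝ) else 0) ≤ min (M : ℝ) A := by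
  induction M with
  | zero => simp [hA]
  | succ M ih =>
    rw [Finset.sum_Icc_succ_top (by omega)]
    by_cases h : ((M + 1 : ℕ) : ℝ) ≤ A
    · rw [if_pos h, min_eq_left h]
      have := ih.trans (min_le_left _ _)
      push_cast
      linarith
    · rw [if_neg h, add_zero]
      exact ih.trans (min_le_min_right A (by push_cast; linarith))

/-- [BTS-V20b] the sum along the diagonal.
PROOF. `G_ge`: `G(φ(m)^{d-1}) ≥ g(qφ(m)^{d-1}) - c₁/(1 + min ..)² - c₀`, `c₀ + c₁/(1+Z)² = g(Z)` (`hc0`). `riemann` for `∑ g((m/A)^{d-1})`; `gauge_small`, `gauge_large`, `red_le`; `∑_{m ≤ A} 1/√m ≤ 2√A`, `∑_{m ≤ A} 1/m ≤ 1 + log A`, `∑_{m > A} 1/m² ≤ 2/A`. -/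
theorem diag_sum : a.A * lam d - Er a / d ≤
    ∑ m ∈ Finset.Icc 1 (MM a), a.G (a.f m ^ (d - 1)) := by
  have hA := a.hA
  have hA0 : 0 < a.A := by linarith
  have hd := a.hd
  have hd0 : (0 : ℝ) < d := by
    have : 0 < d := by omega
    exact_mod_cast this
  have hK : 0 ≤ a.K := by linarith [a.hK]
  have hH := v20a_H_pos a
  have hc1 := a.hc1
  have hlog : 0 ≤ Real.log a.A := Real.log_nonneg (by linarith)
  obtain ⟨δ, hδ⟩ : ∃ δ, δ = a.K / Real.sqrt a.A + a.H / a.A := ⟨_, rfl⟩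
  have hδ0 : 0 ≤ δ := by rw [hδ]; positivity
  -- the bound for one term
  have hterm : ∀ m ∈ Finset.Icc 1 (MM a), gg (((m : ℝ) / a.A) ^ (d - 1)) -
      (d * a.K * (if (m : ℝ) ≤ a.A then 1 / Real.sqrt m else 0) +
        d * a.H * (if (m : ℝ) ≤ a.A then 1 / (m : ℝ) else 0) +
        (32 * d * δ * a.A ^ 2 + a.c1 * a.A ^ 2) * (if (m : ℝ) ≤ a.A then 0 else 1 / (m : ℝ) ^ 2) +
        a.c1 * (if (m : ℝ) ≤ a.A then (1 : ℝ) else 0) + gg a.Z) ≤ a.G (a.f m ^ (d - 1)) := by
    intro m hm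
    have hm1 : 1 ≤ m := (Finset.mem_Icc.1 hm).1
    have hf : 0 < a.f m := (gp a).pos m
    have h1 := G_ge a (y := a.f m ^ (d - 1)) (pow_pos hf _)
    have h2 := red_le a m
    have h3 : gg a.Z = a.c0 + a.c1 / (1 + a.Z) ^ 2 := by rw [a.hc0]; ring
    by_cases h : (m : ℝ) ≤ a.A
    · have h4 := gauge_small a hm1 h
      simp only [if_pos h] at h2 ⊢
      rw [h3]
      have e1 : (d : ℝ) * (a.K / Real.sqrt m + a.H / m) =
          d * a.K * (1 / Real.sqrt m) + d * a.H * (1 / m) := by ring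
      rw [e1] at h4
      linarith
    · have h4 := gauge_large a (le_of_not_ge h)
      simp only [if_neg h] at h2 ⊢
      rw [h3]
      rw [← hδ] at h4
      have e1 : 32 * (d : ℝ) * δ * (a.A / m) ^ 2 = 32 * d * δ * a.A ^ 2 * (1 / (m : ℝ) ^ 2) := by
        rw [div_pow]
        ring
      have e2 : a.c1 * (a.A / m) ^ 2 = a.c1 * a.A ^ 2 * (1 / (m : ℝ) ^ 2) := by
        rw [div_pow]
        ring
      rw [e1] at h4
      rw [e2] at h2
      linarith
  refine le_trans ?_ (Finset.sum_le_sum hterm)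
  rw [Finset.sum_sub_distrib, Finset.sum_add_distrib, Finset.sum_add_distrib,
    Finset.sum_add_distrib, Finset.sum_add_distrib, ← Finset.mul_sum, ← Finset.mul_sum,
    ← Finset.mul_sum, ← Finset.mul_sum, Finset.sum_const, Nat.card_Icc, nsmul_eq_mul,
    Nat.add_sub_cancel]
  have hR := riemann hd hA (M := MM a) (Nat.le_ceil _)
  -- the sums
  have hS1 := (v20b_sqrt hA0.le (MM a)).trans
    (mul_le_mul_of_nonneg_left (Real.sqrt_le_sqrt (min_le_right _ _)) (by norm_num))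
  have hS2 : ∑ m ∈ Finset.Icc 1 (MM a), (if (m : ℝ) ≤ a.A then 1 / (m : ℝ) else 0) ≤
      1 + Real.log a.A := by
    rcases Nat.eq_zero_or_pos (MM a) with h0 | h0
    · rw [h0]
      simp only [Finset.Icc_eq_empty_of_lt (show (0 : ℕ) < 1 by norm_num), Finset.sum_empty]
      linarith
    · obtain ⟨M, hM⟩ : ∃ M, MM a = M + 1 := ⟨MM a - 1, by omega⟩
      rw [hM]
      refine (v20b_inv (by linarith) M).trans ?_
      have h1 : 0 < min ((M + 1 : ℕ) : ℝ) a.A := lt_min (by positivity) hA0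
      have := Real.log_le_log h1 (min_le_right _ _)
      linarith
  have hS3 : ∑ m ∈ Finset.Icc 1 (MM a), (if (m : ℝ) ≤ a.A then 0 else 1 / (m : ℝ) ^ 2) ≤
      2 / a.A := by
    refine (v20b_sq (by linarith) (MM a)).trans ?_
    have h1 : 0 < a.A - 1 := by linarith
    have h2 : 0 ≤ 1 / max ((MM a : ℕ) : ℝ) (a.A - 1) := by positivity
    have h3 : 1 / (a.A - 1) ≤ 2 / a.A := by
      rw [div_le_div_iff₀ h1 hA0]
      linarith
    linarith
  have hS4 := (v20b_card hA0.le (MM a)).trans (min_le_right _ _)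
  have hEr : Er a / d = d * Real.log a.A + 1 + 4 * a.c1 * a.A + gg a.Z * MM a +
      70 * d * (a.K * Real.sqrt a.A + a.H * (1 + Real.log a.A)) := by
    unfold Er
    rw [mul_div_assoc, mul_comm, div_mul_cancel₀ _ hd0.ne']
  rw [hEr]
  -- products
  have p1 := mul_le_mul_of_nonneg_left hS1 (mul_nonneg hd0.le hK)
  have p2 := mul_le_mul_of_nonneg_left hS2 (mul_nonneg hd0.le hH.le)
  have p3 := mul_le_mul_of_nonneg_left hS3
    (show 0 ≤ 32 * d * δ * a.A ^ 2 + a.c1 * a.A ^ 2 by positivity)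
  have p4 := mul_le_mul_of_nonneg_left hS4 hc1.le
  have e3 : (32 * d * δ * a.A ^ 2 + a.c1 * a.A ^ 2) * (2 / a.A) =
      64 * (d * (a.K * Real.sqrt a.A)) + 64 * (d * a.H) + 2 * (a.c1 * a.A) := by
    have hs : 0 < Real.sqrt a.A := Real.sqrt_pos.2 hA0
    have hss : Real.sqrt a.A * Real.sqrt a.A = a.A := Real.mul_self_sqrt hA0.le
    have e4 : δ * a.A = a.K * Real.sqrt a.A + a.H := by
      rw [hδ, add_mul]
      congr 1
      · rw [div_mul_eq_mul_div, div_eq_iff hs.ne', mul_assoc, hss]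
      · rw [div_mul_cancel₀ _ hA0.ne']
    have e5 : (32 * d * δ * a.A ^ 2 + a.c1 * a.A ^ 2) * (2 / a.A) =
        64 * d * (δ * a.A) + 2 * (a.c1 * a.A) := by
      field_simp
      ring
    rw [e5, e4]
    ring
  rw [e3] at p3
  have n1 : 0 ≤ d * (a.K * Real.sqrt a.A) := by positivity
  have n2 : 0 ≤ d * (a.H * (1 + Real.log a.A)) := by positivity
  have n3 : 0 ≤ d * (a.H * Real.log a.A) := by positivity
  have n4 : 0 ≤ a.c1 * a.A := by positivity
  nlinarith [p1, p2, p3, p4, hR, n1, n2, n3, n4]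

end BTS
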